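import Pool.Agent.Y265.HY.SB9

/-! The excess of the fourth moment controls all fourth moments. -/
set_option autoImplicit false
open MeasureTheory Filter Topology Complex Set
open scoped ContDiff Real Manifold

namespace Pool.Agent.Y265.HY

open Pool.Agent.W745.RW Pool.Agent.TH294.RS

noncomputable section

variable {B : Set ℂ} {h : ℕ → ℝ} {w : ℤ → ℕ → ℂ → ℂ}

/-- centred products -/
def bb (w : ℤ → ℕ → ℂ → ℂ) (j k : ℤ) (n : ℕ) (z : ℂ) : ℂ :=
  w (2 * k) n z * w (2 * j - 2 * k) n z - (if j = 0 then 1 else 0)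

lemma evn (k : ℤ) : ((-1 : ℂ)) ^ (2 * k).natAbs = 1 := by
  rw [Int.natAbs_mul]
  exact Even.neg_one_pow ⟨k.natAbs, by simp; ring⟩

lemma evn' {x k : ℤ} (hx : x = 2 * k) : ((-1 : ℂ)) ^ x.natAbs = 1 := by rw [hx]; exact evn k

lemma bb_conj (H : SY B Complex.im h w) (l m : ℤ) (n : ℕ) {z : ℂ} (hz : z ∈ B) :
    (starRingEnd ℂ) (bb w l m n z) = w (-(2 * m)) n z * w (-(2 * l - 2 * m)) n z -
      (if l = 0 then 1 else 0) := by
  unfold bb
  rw [map_sub, map_mul, H.cj _ n z hz, H.cj _ n z hz, evn m,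
    evn' (show 2 * l - 2 * m = 2 * (l - m) by ring)]
  split_ifs <;> simp

lemma bb_co (H : SY B Complex.im h w) (j k : ℤ) (n : ℕ) : ContinuousOn (bb w j k n) B :=
  (((H.bd _).co n).mul ((H.bd _).co n)).sub continuousOn_const

lemma cc_ev {x y k : ℤ} (hx : x = 2 * k) : CC x y = if x + y = 0 then 1 else 0 := by
  unfold CC
  split_ifs
  · exact evn' hx
  · rfl

/-- the limit of the correlations of centred products -/
lemma ipbb (H : SY B Complex.im h w) (hBU : B ⊆ UH) (h0 : EX B h w (w 0)) {φ : ℂ → ℝ}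
    (hφ : TF B φ) (j k l m : ℤ) :
    Null (fun n => (∫ z, (φ z : ℂ) * (bb w j k n z * (starRingEnd ℂ) (bb w l m n z))) -
      D4 w φ (2 * (j - l)) 0 0 0 n -
      ((if k = m ∧ j = l then 1 else 0) + (if k + m = l ∧ j = l then 1 else 0)) *
        ((∫ z, φ z : ℝ) : ℂ)) := by
  set J : ℂ := ((∫ z, φ z : ℝ) : ℂ) with hJ
  set δj : ℂ := if j = 0 then 1 else 0 with hδj
  set δl : ℂ := if l = 0 then 1 else 0 with hδl
  have co : ∀ k n, ContinuousOn (w k n) B := fun k n => (H.bd k).co n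
  have IJ : Integrable (fun z => (φ z : ℂ)) :=
    (hφ.1.continuous.integrable_of_hasCompactSupport hφ.2.1).ofReal
  have hJ' : ∀ c : ℂ, ∫ z, (φ z : ℂ) * c = c * J := by
    intro c
    rw [integral_mul_const, hJ, integral_complex_ofReal, mul_comm]
  have two : ∀ x y : ℤ, Null (fun n => (∫ z, (φ z : ℂ) * (w x n z * w y n z)) - CC x y * J) := by
    intro x y
    refine ((H.two x y).nul φ hφ).congr fun n => ?_
    have i1 : Integrable (fun z => (φ z : ℂ) * (w x n z * w y n z)) :=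
      TF.cint hφ ((co x n).mul (co y n))
    rw [← hJ' (CC x y), ← integral_sub i1 (IJ.mul_const _)]
    congr 1; funext z; ring
  have E := (dd4 H hBU h0 hφ).even (2 * k) (2 * j - 2 * k) (-(2 * m)) (-(2 * l - 2 * m)) (j - l)
    (by ring)
  have ep : eps (2 * k) (2 * j - 2 * k) (-(2 * m)) (-(2 * l - 2 * m)) = 1 := by
    unfold eps
    rw [if_pos (by omega)]
  rw [ep] at E
  have t1 := two (2 * k) (2 * j - 2 * k)
  have t2 := two (-(2 * m)) (-(2 * l - 2 * m))
  have c1 : CC (2 * k) (2 * j - 2 * k) = δj := by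
    rw [cc_ev (k := k) rfl, hδj]
    congr 1
    exact propext ⟨fun h => by omega, fun h => by omega⟩
  have c2 : CC (-(2 * m)) (-(2 * l - 2 * m)) = δl := by
    rw [cc_ev (k := -m) (by ring), hδl]
    congr 1
    exact propext ⟨fun h => by omega, fun h => by omega⟩
  rw [c1] at t1
  rw [c2] at t2
  have g1 : CC (2 * k) (-(2 * m)) * CC (2 * j - 2 * k) (-(2 * l - 2 * m)) =
      if k = m ∧ j = l then 1 else 0 := by
    rw [cc_ev (k := k) rfl, cc_ev (k := j - k) (by ring)]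
    by_cases a1 : k = m
    · by_cases a2 : j = l
      · rw [if_pos (by omega), if_pos (by omega), if_pos ⟨a1, a2⟩, one_mul]
      · rw [if_neg (c := 2 * j - 2 * k + -(2 * l - 2 * m) = 0) (by omega),
          if_neg (c := k = m ∧ j = l) (fun h => a2 h.2), mul_zero]
    · rw [if_neg (c := 2 * k + -(2 * m) = 0) (by omega),
        if_neg (c := k = m ∧ j = l) (fun h => a1 h.1), zero_mul]
  have g2 : CC (2 * k) (-(2 * l - 2 * m)) * CC (2 * j - 2 * k) (-(2 * m)) =
      if k + m = l ∧ j = l then 1 else 0 := by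
    rw [cc_ev (k := k) rfl, cc_ev (k := j - k) (by ring)]
    by_cases a1 : k + m = l
    · by_cases a2 : j = l
      · rw [if_pos (by omega), if_pos (by omega), if_pos ⟨a1, a2⟩, one_mul]
      · rw [if_neg (c := 2 * j - 2 * k + -(2 * m) = 0) (by omega),
          if_neg (c := k + m = l ∧ j = l) (fun h => a2 h.2), mul_zero]
    · rw [if_neg (c := 2 * k + -(2 * l - 2 * m) = 0) (by omega),
        if_neg (c := k + m = l ∧ j = l) (fun h => a1 h.1), zero_mul]
  have gg : Pool.Agent.W745.RW.GG (2 * k) (2 * j - 2 * k) (-(2 * m)) (-(2 * l - 2 * m)) =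
      δj * δl + ((if k = m ∧ j = l then 1 else 0) + (if k + m = l ∧ j = l then 1 else 0)) := by
    unfold Pool.Agent.W745.RW.GG
    rw [c1, c2, g1, g2]; ring
  refine Tendsto.congr (fun n => ?_) (Pool.Agent.Y265.RW.Null.sub (Pool.Agent.Y265.RW.Null.sub E
    (Pool.Agent.Y265.RW.Null.cmul t1 δl)) (Pool.Agent.Y265.RW.Null.cmul t2 δj))
  have i4 : Integrable (fun z => (φ z : ℂ) * F4 w (2 * k) (2 * j - 2 * k) (-(2 * m))
      (-(2 * l - 2 * m)) n z) :=
    TF.cint hφ ((((co _ n).mul (co _ n)).mul (co _ n)).mul (co _ n))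
  have i2 : Integrable (fun z => δl * ((φ z : ℂ) * (w (2 * k) n z * w (2 * j - 2 * k) n z))) :=
    (TF.cint hφ ((co _ n).mul (co _ n))).const_mul _
  have i3 : Integrable (fun z => δj * ((φ z : ℂ) * (w (-(2 * m)) n z *
      w (-(2 * l - 2 * m)) n z))) :=
    (TF.cint hφ ((co _ n).mul (co _ n))).const_mul _
  have i42 : Integrable (fun z => (φ z : ℂ) * F4 w (2 * k) (2 * j - 2 * k) (-(2 * m))
      (-(2 * l - 2 * m)) n z - δl * ((φ z : ℂ) * (w (2 * k) n z * w (2 * j - 2 * k) n z))) :=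
    i4.sub i2
  have i423 : Integrable (fun z => (φ z : ℂ) * F4 w (2 * k) (2 * j - 2 * k) (-(2 * m))
      (-(2 * l - 2 * m)) n z - δl * ((φ z : ℂ) * (w (2 * k) n z * w (2 * j - 2 * k) n z)) -
      δj * ((φ z : ℂ) * (w (-(2 * m)) n z * w (-(2 * l - 2 * m)) n z))) := i42.sub i3
  have key : ∫ z, (φ z : ℂ) * (bb w j k n z * (starRingEnd ℂ) (bb w l m n z)) =
      (∫ z, (φ z : ℂ) * F4 w (2 * k) (2 * j - 2 * k) (-(2 * m)) (-(2 * l - 2 * m)) n z) -
      δl * (∫ z, (φ z : ℂ) * (w (2 * k) n z * w (2 * j - 2 * k) n z)) -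
      δj * (∫ z, (φ z : ℂ) * (w (-(2 * m)) n z * w (-(2 * l - 2 * m)) n z)) + δj * δl * J := by
    rw [← hJ' (δj * δl), ← integral_const_mul, ← integral_const_mul, ← integral_sub i4 i2,
      ← integral_sub i42 i3, ← integral_add i423 (IJ.mul_const _)]
    congr 1; funext z
    by_cases hz : z ∈ B
    · rw [bb_conj H l m n hz]
      simp only [bb, F4]
      rw [← hδj, ← hδl]; ring
    · rw [TF.zero hφ hz]; simp
  rw [key]
  simp only [D4]
  rw [gg]
  ring

/-- averaged centred products -/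
def TT (w : ℤ → ℕ → ℂ → ℂ) (N : ℕ) (j : ℤ) (n : ℕ) (z : ℂ) : ℂ :=
  ((N : ℂ))⁻¹ * ∑ k ∈ Finset.range N, bb w j k n z

lemma TT_co (H : SY B Complex.im h w) (N : ℕ) (j : ℤ) (n : ℕ) : ContinuousOn (TT w N j n) B :=
  continuousOn_const.mul (continuousOn_finsetSum _ fun k _ => bb_co H j k n)

lemma ipTT (H : SY B Complex.im h w) (hBU : B ⊆ UH) (h0 : EX B h w (w 0)) {φ : ℂ → ℝ}
    (hφ : TF B φ) {N : ℕ} (hN : 0 < N) (j l : ℤ) : ∃ θ : ℝ, 0 ≤ θ ∧ θ ≤ 2 / N ∧
    Null (fun n => (∫ z, (φ z : ℂ) * (TT w N j n z * (starRingEnd ℂ) (TT w N l n z))) -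
      D4 w φ (2 * (j - l)) 0 0 0 n - θ * ((∫ z, φ z : ℝ) : ℂ)) := by
  set J : ℂ := ((∫ z, φ z : ℝ) : ℂ) with hJ
  have hNr : (0 : ℝ) < N := by exact_mod_cast hN
  have hNc : (N : ℂ) ≠ 0 := by exact_mod_cast hN.ne'
  set g : ℕ → ℕ → ℝ := fun k m => (if (k : ℤ) = m ∧ j = l then 1 else 0) +
    (if (k : ℤ) + m = l ∧ j = l then 1 else 0) with hg
  have g0 : ∀ k m, 0 ≤ g k m := fun k m => by
    simp only [hg]; split_ifs <;> norm_num
  have row : ∀ k, ∑ m ∈ Finset.range N, g k m ≤ 2 := by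
    intro k
    simp only [hg]
    rw [Finset.sum_add_distrib]
    have r1 : ∑ m ∈ Finset.range N, (if (k : ℤ) = m ∧ j = l then (1 : ℝ) else 0) ≤ 1 := by
      calc _ ≤ ∑ m ∈ Finset.range N, (if m = k then (1 : ℝ) else 0) := by
            refine Finset.sum_le_sum fun m _ => ?_
            by_cases hm : m = k
            · rw [if_pos hm]; split_ifs <;> norm_num
            · rw [if_neg hm, if_neg (fun h => hm (by omega))]
        _ ≤ 1 := by
            rw [Finset.sum_ite_eq']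
            split_ifs <;> norm_num
    have r2 : ∑ m ∈ Finset.range N, (if (k : ℤ) + m = l ∧ j = l then (1 : ℝ) else 0) ≤ 1 := by
      calc _ ≤ ∑ m ∈ Finset.range N, (if m = (l - k).toNat then (1 : ℝ) else 0) := by
            refine Finset.sum_le_sum fun m _ => ?_
            by_cases hm : m = (l - k).toNat
            · rw [if_pos hm]; split_ifs <;> norm_num
            · rw [if_neg hm, if_neg (fun h => hm (by omega))]
        _ ≤ 1 := by
            rw [Finset.sum_ite_eq']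
            split_ifs <;> norm_num
    linarith
  set S : ℝ := ∑ k ∈ Finset.range N, ∑ m ∈ Finset.range N, g k m with hS
  have S0 : 0 ≤ S := Finset.sum_nonneg fun k _ => Finset.sum_nonneg fun m _ => g0 k m
  have S1 : S ≤ 2 * N := by
    calc S ≤ ∑ k ∈ Finset.range N, (2 : ℝ) := Finset.sum_le_sum fun k _ => row k
      _ = 2 * N := by simp; ring
  refine ⟨S / N ^ 2, by positivity, ?_, ?_⟩
  · rw [div_le_div_iff₀ (by positivity) hNr]
    nlinarith
  · have sumN : Null (fun n => ∑ k ∈ Finset.range N, ∑ m ∈ Finset.range N,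
        ((∫ z, (φ z : ℂ) * (bb w j k n z * (starRingEnd ℂ) (bb w l m n z))) -
        D4 w φ (2 * (j - l)) 0 0 0 n - (g k m : ℂ) * J)) := by
      have h1 := tendsto_finsetSum (Finset.range N) (fun k (_ : k ∈ Finset.range N) =>
        tendsto_finsetSum (Finset.range N) (fun m (_ : m ∈ Finset.range N) =>
          ipbb H hBU h0 hφ j (k : ℤ) l (m : ℤ)))
      simp only [Finset.sum_const_zero] at h1
      refine h1.congr fun n => ?_
      refine Finset.sum_congr rfl fun k _ => Finset.sum_congr rfl fun m _ => ?_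
      have gc : ((g k m : ℝ) : ℂ) = (if (k : ℤ) = m ∧ j = l then 1 else 0) +
          (if (k : ℤ) + m = l ∧ j = l then 1 else 0) := by
        simp only [hg]; split_ifs <;> norm_num
      rw [gc]
    have h2 := Pool.Agent.Y265.RW.Null.cmul sumN (((N : ℂ) ^ 2)⁻¹)
    refine Tendsto.congr (fun n => ?_) h2
    have ib : ∀ k m : ℤ, Integrable (fun z => (φ z : ℂ) * (bb w j k n z *
        (starRingEnd ℂ) (bb w l m n z))) := fun k m =>
      TF.cint hφ ((bb_co H j k n).mul (continuous_conj.comp_continuousOn (bb_co H l m n)))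
    have e1 : ∫ z, (φ z : ℂ) * (TT w N j n z * (starRingEnd ℂ) (TT w N l n z)) =
        ((N : ℂ) ^ 2)⁻¹ * ∑ k ∈ Finset.range N, ∑ m ∈ Finset.range N,
        ∫ z, (φ z : ℂ) * (bb w j k n z * (starRingEnd ℂ) (bb w l m n z)) := by
      have e2 : ∀ k ∈ Finset.range N, ∑ m ∈ Finset.range N,
          ∫ z, (φ z : ℂ) * (bb w j k n z * (starRingEnd ℂ) (bb w l m n z)) =
          ∫ z, ∑ m ∈ Finset.range N, (φ z : ℂ) * (bb w j k n z *
            (starRingEnd ℂ) (bb w l m n z)) := fun k _ =>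
        (integral_finsetSum (Finset.range N) (f := fun (m : ℕ) z => (φ z : ℂ) * (bb w j k n z *
            (starRingEnd ℂ) (bb w l m n z))) fun m _ => ib k m).symm
      have e2' : ∑ k ∈ Finset.range N, ∫ z, ∑ m ∈ Finset.range N, (φ z : ℂ) * (bb w j k n z *
            (starRingEnd ℂ) (bb w l m n z)) = ∫ z, ∑ k ∈ Finset.range N, ∑ m ∈ Finset.range N,
            (φ z : ℂ) * (bb w j k n z * (starRingEnd ℂ) (bb w l m n z)) :=
        (integral_finsetSum (Finset.range N) (f := fun (k : ℕ) z => ∑ m ∈ Finset.range N,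
          (φ z : ℂ) * (bb w j k n z * (starRingEnd ℂ) (bb w l m n z)))
          fun k _ => integrable_finsetSum _ fun m _ => ib k m).symm
      rw [Finset.sum_congr rfl e2, e2', ← integral_const_mul]
      congr 1; funext z
      simp only [TT]
      rw [map_mul, map_inv₀, map_natCast, map_sum]
      have e3 : (∑ k ∈ Finset.range N, bb w j k n z) * (∑ m ∈ Finset.range N,
          (starRingEnd ℂ) (bb w l m n z)) = ∑ k ∈ Finset.range N, ∑ m ∈ Finset.range N,
          bb w j k n z * (starRingEnd ℂ) (bb w l m n z) := Finset.sum_mul_sum _ _ _ _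
      have e4 : ∑ k ∈ Finset.range N, ∑ m ∈ Finset.range N, (φ z : ℂ) * (bb w j k n z *
          (starRingEnd ℂ) (bb w l m n z)) = (φ z : ℂ) * ∑ k ∈ Finset.range N,
          ∑ m ∈ Finset.range N, bb w j k n z * (starRingEnd ℂ) (bb w l m n z) := by
        rw [Finset.mul_sum]
        refine Finset.sum_congr rfl fun k _ => ?_
        rw [Finset.mul_sum]
      rw [e4, ← e3]
      field_simp
    rw [e1]
    have e5 : ∑ k ∈ Finset.range N, ∑ m ∈ Finset.range N,
        ((∫ z, (φ z : ℂ) * (bb w j k n z * (starRingEnd ℂ) (bb w l m n z))) -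
        D4 w φ (2 * (j - l)) 0 0 0 n - (g k m : ℂ) * J) =
        (∑ k ∈ Finset.range N, ∑ m ∈ Finset.range N,
        ∫ z, (φ z : ℂ) * (bb w j k n z * (starRingEnd ℂ) (bb w l m n z))) -
        (N : ℂ) ^ 2 * D4 w φ (2 * (j - l)) 0 0 0 n - (S : ℂ) * J := by
      simp only [Finset.sum_sub_distrib, Finset.sum_const, Finset.card_range, nsmul_eq_mul]
      have e6 : ∑ k ∈ Finset.range N, ∑ m ∈ Finset.range N, (g k m : ℂ) * J = (S : ℂ) * J := by
        rw [hS]
        push_cast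
        rw [Finset.sum_mul]
        refine Finset.sum_congr rfl fun k _ => ?_
        rw [Finset.sum_mul]
      rw [e6]; ring
    rw [e5]
    push_cast
    field_simp

lemma amgm {φ : ℂ → ℝ} (hφ : TF B φ) (hφ0 : ∀ z, 0 ≤ φ z) {f g : ℂ → ℂ} (hf : ContinuousOn f B)
    (hg : ContinuousOn g B) :
    ‖∫ z, (φ z : ℂ) * (f z * (starRingEnd ℂ) (g z))‖ ≤
      ((∫ z, (φ z : ℂ) * (f z * (starRingEnd ℂ) (f z))).re +
        (∫ z, (φ z : ℂ) * (g z * (starRingEnd ℂ) (g z))).re) / 2 := by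
  have i1 := TF.cint hφ (hf.mul (continuous_conj.comp_continuousOn hf))
  have i2 := TF.cint hφ (hg.mul (continuous_conj.comp_continuousOn hg))
  have e : ∀ (f : ℂ → ℂ), Integrable (fun z => (φ z : ℂ) * (f z * (starRingEnd ℂ) (f z))) →
      (∫ z, (φ z : ℂ) * (f z * (starRingEnd ℂ) (f z))).re = ∫ z, φ z * ‖f z‖ ^ 2 := by
    intro f hi
    have : (∫ z, (φ z : ℂ) * (f z * (starRingEnd ℂ) (f z))) =
        ((∫ z, φ z * ‖f z‖ ^ 2 : ℝ) : ℂ) := by
      rw [← integral_complex_ofReal]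
      congr 1; funext z
      rw [Complex.mul_conj, Complex.normSq_eq_norm_sq]; push_cast; ring
    rw [this, Complex.ofReal_re]
  have r : ∀ (f : ℂ → ℂ), Integrable (fun z => (φ z : ℂ) * (f z * (starRingEnd ℂ) (f z))) →
      Integrable (fun z => φ z * ‖f z‖ ^ 2) := by
    intro f hi
    refine hi.re.congr (Eventually.of_forall fun z => ?_)
    show ((φ z : ℂ) * (f z * (starRingEnd ℂ) (f z))).re = _
    rw [Complex.mul_conj, Complex.normSq_eq_norm_sq, ← Complex.ofReal_mul, Complex.ofReal_re]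
  rw [e f i1, e g i2, ← integral_add (r f i1) (r g i2), ← integral_div]
  refine norm_integral_le_of_norm_le (((r f i1).add (r g i2)).div_const 2)
    (Eventually.of_forall fun z => ?_)
  rw [norm_mul, norm_mul, RCLike.norm_conj, Complex.norm_real, Real.norm_eq_abs,
    abs_of_nonneg (hφ0 z)]
  show _ ≤ (φ z * ‖f z‖ ^ 2 + φ z * ‖g z‖ ^ 2) / 2
  nlinarith [mul_nonneg (hφ0 z) (sq_nonneg (‖f z‖ - ‖g z‖))]

/-- the even moments are controlled by the excess -/
theorem evenC (H : SY B Complex.im h w) (hBU : B ⊆ UH) (h0 : EX B h w (w 0)) {φ : ℂ → ℝ}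
    (hφ : TF B φ) (hφ0 : ∀ z, 0 ≤ φ z) (j : ℤ) {ε : ℝ} (hε : 0 < ε) :
    ∀ᶠ n in atTop, ‖D4 w φ (2 * j) 0 0 0 n‖ ≤ (D4 w φ 0 0 0 0 n).re + ε := by
  set I : ℝ := ∫ z, φ z with hI
  have I0 : 0 ≤ I := integral_nonneg hφ0
  obtain ⟨N, hN⟩ := exists_nat_gt (8 * I / ε)
  have hN0 : 0 < N := by
    have : (0 : ℝ) < N := lt_of_le_of_lt (by positivity) hN
    exact_mod_cast this
  have hNr : (0 : ℝ) < N := by exact_mod_cast hN0
  have hb : 2 / (N : ℝ) * I ≤ ε / 4 := by
    rw [div_lt_iff₀ hε] at hN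
    rw [div_mul_eq_mul_div, div_le_iff₀ hNr]
    linarith
  obtain ⟨θ1, t10, t11, n1⟩ := ipTT H hBU h0 hφ hN0 0 (-j)
  obtain ⟨θ2, t20, t21, n2⟩ := ipTT H hBU h0 hφ hN0 0 0
  obtain ⟨θ3, t30, t31, n3⟩ := ipTT H hBU h0 hφ hN0 (-j) (-j)
  have small : ∀ {s : ℕ → ℂ}, Null s → ∀ᶠ n in atTop, ‖s n‖ ≤ ε / 4 := fun {s} hs => by
    have := hs.norm
    rw [norm_zero] at this
    filter_upwards [this.eventually (gt_mem_nhds (show (0:ℝ) < ε / 4 by positivity))] with n hn
    exact hn.le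
  filter_upwards [small n1, small n2, small n3] with n h1 h2 h3
  rw [show 2 * ((0 : ℤ) - -j) = 2 * j by ring] at h1
  rw [show 2 * ((0 : ℤ) - 0) = 0 by ring] at h2
  rw [show 2 * (-j - -j) = 0 by ring] at h3
  have am := amgm hφ hφ0 (TT_co H N 0 n) (TT_co H N (-j) n)
  set A := ∫ z, (φ z : ℂ) * (TT w N 0 n z * (starRingEnd ℂ) (TT w N (-j) n z))
  set A0 := ∫ z, (φ z : ℂ) * (TT w N 0 n z * (starRingEnd ℂ) (TT w N 0 n z))
  set A1 := ∫ z, (φ z : ℂ) * (TT w N (-j) n z * (starRingEnd ℂ) (TT w N (-j) n z))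
  have k1 : ‖D4 w φ (2 * j) 0 0 0 n‖ ≤ ‖A‖ + θ1 * I + ε / 4 := by
    have e : D4 w φ (2 * j) 0 0 0 n = A - (θ1 : ℂ) * (I : ℂ) -
        (A - D4 w φ (2 * j) 0 0 0 n - (θ1 : ℂ) * (I : ℂ)) := by ring
    have e2 : ‖(θ1 : ℂ) * (I : ℂ)‖ = θ1 * I := by
      rw [norm_mul, Complex.norm_real, Complex.norm_real, Real.norm_eq_abs, Real.norm_eq_abs,
        abs_of_nonneg t10, abs_of_nonneg I0]
    have e3 := norm_sub_le (A - (θ1 : ℂ) * (I : ℂ))
      (A - D4 w φ (2 * j) 0 0 0 n - (θ1 : ℂ) * (I : ℂ))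
    have e4 := norm_sub_le A ((θ1 : ℂ) * (I : ℂ))
    rw [← e] at e3
    rw [e2] at e4
    linarith
  have re_le : ∀ (X : ℂ) (θ : ℝ), ‖X - D4 w φ 0 0 0 0 n - (θ : ℂ) * (I : ℂ)‖ ≤ ε / 4 →
      X.re ≤ (D4 w φ 0 0 0 0 n).re + θ * I + ε / 4 := by
    intro X θ hX
    have h4 := (Complex.abs_re_le_norm _).trans hX
    rw [sub_re, sub_re, ← Complex.ofReal_mul, Complex.ofReal_re] at h4
    have h5 := (abs_le.1 h4).2
    linarith
  have k2 := re_le A0 θ2 h2
  have k3 := re_le A1 θ3 h3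
  have b1 : θ1 * I ≤ ε / 4 := (mul_le_mul_of_nonneg_right t11 I0).trans hb
  have b2 : θ2 * I ≤ ε / 4 := (mul_le_mul_of_nonneg_right t21 I0).trans hb
  have b3 : θ3 * I ≤ ε / 4 := (mul_le_mul_of_nonneg_right t31 I0).trans hb
  linarith

lemma norm_eps4 (a b c d : ℤ) : ‖eps a b c d‖ ≤ 1 := by
  unfold eps
  split_ifs
  · simp
  · rw [norm_neg]
    have : ‖(1 / 3 : ℂ)‖ = 1 / 3 := by
      rw [show (1 / 3 : ℂ) = ((1 / 3 : ℝ) : ℂ) by norm_num, Complex.norm_real]
      norm_num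
    rw [this]; norm_num

/-- **all fourth moments are controlled by the excess** -/
theorem excess (H : SY B Complex.im h w) (hBU : B ⊆ UH) (h0 : EX B h w (w 0)) {φ : ℂ → ℝ}
    (hφ : TF B φ) (hφ0 : ∀ z, 0 ≤ φ z) (a b c d : ℤ) {ε : ℝ} (hε : 0 < ε) :
    ∀ᶠ n in atTop, ‖D4 w φ a b c d n‖ ≤ (D4 w φ 0 0 0 0 n).re + ε := by
  have DD := dd4 H hBU h0 hφ
  rcases Int.even_or_odd' (a + b + c + d) with ⟨j, hj | hj⟩
  · have n1 := (DD.even a b c d j hj).norm
    rw [norm_zero] at n1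
    filter_upwards [evenC H hBU h0 hφ hφ0 j (half_pos hε),
      n1.eventually (gt_mem_nhds (half_pos hε))] with n h1 h2
    have e : D4 w φ a b c d n = (D4 w φ a b c d n - eps a b c d * D4 w φ (2 * j) 0 0 0 n) +
      eps a b c d * D4 w φ (2 * j) 0 0 0 n := by ring
    rw [e]
    refine (norm_add_le _ _).trans ?_
    rw [norm_mul]
    have h3 : ‖eps a b c d‖ * ‖D4 w φ (2 * j) 0 0 0 n‖ ≤ 1 * ‖D4 w φ (2 * j) 0 0 0 n‖ := by
      gcongr
      exact norm_eps4 a b c d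
    linarith
  · have n1 := (DD.odd a b c d j hj).norm
    rw [norm_zero] at n1
    filter_upwards [evenC H hBU h0 hφ hφ0 0 (half_pos hε),
      n1.eventually (gt_mem_nhds (half_pos hε))] with n h1 h2
    have h3 := (norm_nonneg _).trans h1
    linarith

end

end Pool.Agent.Y265.HY
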