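import Pool.Agent.Y265.HY.Z
import Pool.Agent.Y265.HY.SB10

/-! Fourth moments on hyperbolic surfaces. -/
set_option autoImplicit false
open MeasureTheory Filter Topology Complex
open scoped ContDiff Manifold

namespace Pool.Agent.Y265.HY

open Pool.Agent.W745.RW Pool.Agent.TH294.RS

noncomputable section

lemma GG_odd {a b c d j : ℤ} (hs : a + b + c + d = 2 * j + 1) : GG a b c d = 0 := by
  unfold GG CC
  by_cases h1 : a + b = 0
  · rw [if_neg (c := c + d = 0) (by omega)]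
    by_cases h2 : a + c = 0
    · rw [if_neg (c := b + d = 0) (by omega)]
      by_cases h3 : a + d = 0
      · rw [if_neg (c := b + c = 0) (by omega)]; ring
      · rw [if_neg h3]; ring
    · rw [if_neg h2]
      by_cases h3 : a + d = 0
      · rw [if_neg (c := b + c = 0) (by omega)]; ring
      · rw [if_neg h3]; ring
  · rw [if_neg h1]
    by_cases h2 : a + c = 0
    · rw [if_neg (c := b + d = 0) (by omega)]
      by_cases h3 : a + d = 0
      · rw [if_neg (c := b + c = 0) (by omega)]; ring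
      · rw [if_neg h3]; ring
    · rw [if_neg h2]
      by_cases h3 : a + d = 0
      · rw [if_neg (c := b + c = 0) (by omega)]; ring
      · rw [if_neg h3]; ring

/-- local fourth moments of the ladder for the hyperbolic area measure -/
def FM (lam : ℝ) (u : ℂ → ℝ) (φ : ℂ → ℝ) (a b c d : ℤ) : ℂ :=
  ∫ z, ((φ z / z.im ^ 2 : ℝ) : ℂ) * (FW lam u a z * FW lam u b z * FW lam u c z * FW lam u d z)

theorem hyp_fourth {Ω : Set ℂ} (hΩ : IsOpen Ω) (hU : ∀ z ∈ Ω, 0 < z.im) {lam : ℕ → ℝ}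
    (hpos : ∀ n, 0 < lam n) (hlam : Tendsto lam atTop atTop) {u : ℕ → ℂ → ℝ}
    (hu : ∀ n, ContDiffOn ℝ ∞ (u n) Ω)
    (heq : ∀ n, ∀ z ∈ Ω, z.im ^ 2 * lap (u n) z + lam n * u n z = 0)
    (hqe : ∀ φ, TF Ω φ → ∀ k : ℕ, Tendsto (fun n => ∫ z, ((φ z / z.im ^ 2 : ℝ) : ℂ) *
      ((u n z : ℂ) * (FD (lam n))^[k] (fun w => (u n w : ℂ)) z)) atTop
      (𝓝 (if k = 0 then ((∫ z, φ z / z.im ^ 2 : ℝ) : ℂ) else 0)))
    {φ : ℂ → ℝ} (hφ : TF Ω φ) :
    (∀ a b c d j : ℤ, a + b + c + d = 2 * j + 1 →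
      Tendsto (fun n => FM (lam n) (u n) φ a b c d) atTop (𝓝 0)) ∧
    (∀ a b c d j : ℤ, a + b + c + d = 2 * j →
      Tendsto (fun n => FM (lam n) (u n) φ a b c d - eps a b c d *
        FM (lam n) (u n) φ (2 * j) 0 0 0) atTop
      (𝓝 ((GG a b c d - eps a b c d * GG (2 * j) 0 0 0) * ((∫ z, φ z / z.im ^ 2 : ℝ) : ℂ)))) ∧
    ((∀ z, 0 ≤ φ z) → ∀ a b c d : ℤ, ∀ ε : ℝ, 0 < ε → ∀ᶠ n in atTop,
      ‖FM (lam n) (u n) φ a b c d - GG a b c d * ((∫ z, φ z / z.im ^ 2 : ℝ) : ℂ)‖ ≤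
        (∫ z, φ z / z.im ^ 2 * u n z ^ 4) - 3 * (∫ z, φ z / z.im ^ 2) + ε) := by
  obtain ⟨S, E⟩ := hyp_sys hΩ hU hpos hlam hu heq hqe
  have sy : ContDiffOn ℝ ∞ (fun z : ℂ => (z.im ^ 2)⁻¹) Ω := by
    refine ContDiffOn.inv ((imCLM.contDiff.pow 2).contDiffOn) fun z hz => ?_
    exact pow_ne_zero 2 (hU z hz).ne'
  have tφ : TF Ω (fun z => φ z / z.im ^ 2) := TF.mulc hΩ hφ sy
  set W := ww Complex.im (fun n => 1 / √(lam n)) (fun n z => (u n z : ℂ)) with hW
  have DDr : DD (D4 W (fun z => φ z / z.im ^ 2)) := dd4 S hU E tφ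
  set J : ℂ := ((∫ z, φ z / z.im ^ 2 : ℝ) : ℂ) with hJ
  have eF : ∀ a b c d n, FM (lam n) (u n) φ a b c d = D4 W (fun z => φ z / z.im ^ 2) a b c d n +
      GG a b c d * J := by
    intro a b c d n
    unfold D4 FM
    rw [sub_add_cancel]
    congr 1; funext z
    simp only [F4, hW, FW_eq lam u]
  refine ⟨fun a b c d j hs => ?_, fun a b c d j hs => ?_, fun hφ0 a b c d ε hε => ?_⟩
  · refine (DDr.odd a b c d j hs).congr fun n => ?_
    rw [eF, GG_odd hs]; ring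
  · have h1 := (DDr.even a b c d j hs).add_const ((GG a b c d - eps a b c d * GG (2 * j) 0 0 0) * J)
    rw [zero_add] at h1
    refine h1.congr fun n => ?_
    rw [eF, eF]; ring
  · have hφ0' : ∀ z, 0 ≤ φ z / z.im ^ 2 := fun z => div_nonneg (hφ0 z) (sq_nonneg _)
    filter_upwards [excess S hU E tφ hφ0' a b c d hε] with n hn
    have e1 : FM (lam n) (u n) φ a b c d - GG a b c d * J =
        D4 W (fun z => φ z / z.im ^ 2) a b c d n := by rw [eF]; ring
    have e2 : (D4 W (fun z => φ z / z.im ^ 2) 0 0 0 0 n).re =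
        (∫ z, φ z / z.im ^ 2 * u n z ^ 4) - 3 * (∫ z, φ z / z.im ^ 2) := by
      have h0 : GG 0 0 0 0 = 3 := by simp [GG, CC]; norm_num
      unfold D4
      rw [h0]
      have h4 : ∫ z, ((φ z / z.im ^ 2 : ℝ) : ℂ) * F4 W 0 0 0 0 n z =
          ((∫ z, φ z / z.im ^ 2 * u n z ^ 4 : ℝ) : ℂ) := by
        rw [← integral_complex_ofReal]
        congr 1; funext z
        have : W 0 n z = (u n z : ℂ) := rfl
        simp only [F4, this]
        push_cast; ring
      rw [h4, sub_re, Complex.ofReal_re]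
      congr 1
      rw [show (3 : ℂ) = ((3 : ℝ) : ℂ) by norm_num, ← Complex.ofReal_mul, Complex.ofReal_re]
    rw [e1]
    rw [← e2]
    exact hn

end

end Pool.Agent.Y265.HY
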