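import Pool.Agent.TH294.RS.Sys
import Pool.Agent.Y265.RW.T3

/-! Semiclassical derivatives bounded in `L²`. -/
set_option autoImplicit false
open MeasureTheory Filter Topology Complex
open scoped ContDiff Manifold

namespace Pool.Agent.Y265.HY

open Pool.Agent.W745.RW Pool.Agent.TH294.RS
open Pool.Agent.Y265.RW (cutoff)

noncomputable section

/-- semiclassical derivatives of order at most `k` are locally bounded in `L²` -/
def M2 (B : Set ℂ) (h : ℕ → ℝ) : ℕ → (ℕ → ℂ → ℂ) → Prop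
  | 0, f => LB B 2 f
  | (k + 1), f => LB B 2 f ∧ M2 B h k (hd h 1 f) ∧ M2 B h k (hd h I f)

variable {B : Set ℂ} {h : ℕ → ℝ}

lemma M2.lb {k : ℕ} {f : ℕ → ℂ → ℂ} (H : M2 B h k f) : LB B 2 f := by
  cases k with
  | zero => exact H
  | succ k => exact H.1

lemma M2.congr (hB : IsOpen B) {k : ℕ} : ∀ {f g : ℕ → ℂ → ℂ}, M2 B h k f →
    (∀ n, ∀ z ∈ B, g n z = f n z) → M2 B h k g := by
  induction k with
  | zero => intro f g H e; exact LB.congr H e
  | succ k ih =>
    intro f g H e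
    exact ⟨H.1.congr e, ih H.2.1 (hd_congr hB e 1), ih H.2.2 (hd_congr hB e I)⟩

lemma M2.down {k : ℕ} : ∀ {f : ℕ → ℂ → ℂ}, M2 B h (k + 1) f → M2 B h k f := by
  induction k with
  | zero => intro f H; exact H.1
  | succ k ih => intro f H; exact ⟨H.1, ih H.2.1, ih H.2.2⟩

lemma M2.add (hB : IsOpen B) {k : ℕ} : ∀ {f g : ℕ → ℂ → ℂ}, M2 B h k f → M2 B h k g →
    M2 B h k (fun n z => f n z + g n z) := by
  induction k with
  | zero => intro f g H G; exact LB.add H G
  | succ k ih =>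
    intro f g H G
    have e : ∀ v, ∀ n, ∀ z ∈ B, hd h v (fun n z => f n z + g n z) n z =
        hd h v f n z + hd h v g n z := by
      intro v n z hz
      simp only [hd]
      rw [fderiv_fun_add (fda hB (H.1.sm n) hz) (fda hB (G.1.sm n) hz)]
      simp only [add_apply]; ring
    exact ⟨H.1.add G.1, (ih H.2.1 G.2.1).congr hB (e 1), (ih H.2.2 G.2.2).congr hB (e I)⟩

lemma M2.hmul (hB : IsOpen B) (hh : Tendsto h atTop (𝓝 0)) {k : ℕ} : ∀ {f : ℕ → ℂ → ℂ},
    M2 B h k f → M2 B h k (fun n z => (h n : ℂ) * f n z) := by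
  induction k with
  | zero => intro f H; exact LB.hmul H hh
  | succ k ih =>
    intro f H
    have e : ∀ v, ∀ n, ∀ z ∈ B, hd h v (fun n z => (h n : ℂ) * f n z) n z =
        (h n : ℂ) * hd h v f n z := by
      intro v n z hz
      simp only [hd]
      rw [fderiv_const_mul (fda hB (H.1.sm n) hz)]
      simp only [smul_apply, smul_eq_mul]
    exact ⟨H.1.hmul hh, (ih H.2.1).congr hB (e 1), (ih H.2.2).congr hB (e I)⟩

lemma M2.smulc (hB : IsOpen B) (hh : Tendsto h atTop (𝓝 0)) {k : ℕ} : ∀ {f : ℕ → ℂ → ℂ}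
    {c : ℂ → ℂ}, M2 B h k f → ContDiffOn ℝ ∞ c B → M2 B h k (fun n z => c z * f n z) := by
  induction k with
  | zero => intro f c H hc; exact LB.smulc H hc
  | succ k ih =>
    intro f c H hc
    have e : ∀ v, ∀ n, ∀ z ∈ B, hd h v (fun n z => c z * f n z) n z =
        c z * hd h v f n z + fderiv ℝ c z v * ((h n : ℂ) * f n z) := by
      intro v n z hz
      simp only [hd]
      rw [fderiv_fun_mul (fda hB hc hz) (fda hB (H.1.sm n) hz)]
      simp only [add_apply, smul_apply, smul_eq_mul]; ring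
    have hc' : ∀ v, ContDiffOn ℝ ∞ (fun z => fderiv ℝ c z v) B := fun v =>
      Pool.Agent.W98.RW.cd_fderiv hB hc v
    have hf : M2 B h k (fun n z => (h n : ℂ) * f n z) := (M2.down H).hmul hB hh
    exact ⟨H.1.smulc hc, ((ih H.2.1 hc).add hB (ih hf (hc' 1))).congr hB (e 1),
      ((ih H.2.2 hc).add hB (ih hf (hc' I))).congr hB (e I)⟩

lemma M2.cmul (hB : IsOpen B) (hh : Tendsto h atTop (𝓝 0)) {k : ℕ} {f : ℕ → ℂ → ℂ}
    (H : M2 B h k f) (c : ℂ) : M2 B h k (fun n z => c * f n z) :=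
  H.smulc hB hh (c := fun _ => c) contDiffOn_const

lemma M2.neg (hB : IsOpen B) (hh : Tendsto h atTop (𝓝 0)) {k : ℕ} {f : ℕ → ℂ → ℂ}
    (H : M2 B h k f) : M2 B h k (fun n z => - f n z) :=
  (H.cmul hB hh (-1)).congr hB fun n z _ => by ring

lemma M2.conj (hB : IsOpen B) {k : ℕ} : ∀ {f : ℕ → ℂ → ℂ},
    M2 B h k f → M2 B h k (fun n z => (starRingEnd ℂ) (f n z)) := by
  induction k with
  | zero => intro f H; exact LB.conj H
  | succ k ih =>
    intro f H
    have e : ∀ v, ∀ n, ∀ z ∈ B, hd h v (fun n z => (starRingEnd ℂ) (f n z)) n z =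
        (starRingEnd ℂ) (hd h v f n z) := by
      intro v n z hz
      simp only [hd]
      rw [fd_conj (fda hB (H.1.sm n) hz), map_mul, conj_ofReal]
    exact ⟨H.1.conj, (ih H.2.1).congr hB (e 1), (ih H.2.2).congr hB (e I)⟩

/-- the elliptic estimate for complex sequences -/
lemma LB.grad2 (hB : IsOpen B) (hh : Tendsto h atTop (𝓝 0)) {f : ℕ → ℂ → ℂ}
    (hf : LB B 2 f) (hg : LB B 2 (hL h f)) {v : ℂ}
    (hv : ∀ (g : ℂ → ℝ) (z : ℂ), fderiv ℝ g z v ^ 2 ≤ dx g z ^ 2 + dy g z ^ 2) :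
    LB B 2 (hd h v f) := by
  have hsm : ∀ n, ContDiffOn ℝ ∞ (hd h v f n) B := fun n =>
    contDiffOn_const.mul (cfd hB (hf.sm n) v)
  refine ⟨hsm, fun K hK hKB => ?_⟩
  obtain ⟨K1, hK1, hKK1, hK1B⟩ := exists_compact_between hK hB hKB
  obtain ⟨ζ, hζ, hζ0, hζ1, hζK⟩ := cutoff hB hK1 hK1B
  set S := tsupport ζ with hS
  have hSc : IsCompact S := hζ.2.1
  have hSB : S ⊆ B := hζ.2.2
  -- bound for the cutoff
  have cx : Continuous (dx ζ) := ((hζ.1.fderiv_right (m := ∞) (by simp)).clm_apply contDiff_const).continuous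
  have cy : Continuous (dy ζ) := ((hζ.1.fderiv_right (m := ∞) (by simp)).clm_apply contDiff_const).continuous
  have hcs : HasCompactSupport (fun z => dx ζ z ^ 2 + dy ζ z ^ 2) := by
    have h1 : HasCompactSupport (dx ζ) := hζ.2.1.fderiv_apply (𝕜 := ℝ) 1
    have h2 : HasCompactSupport (dy ζ) := hζ.2.1.fderiv_apply (𝕜 := ℝ) I
    exact (h1.comp_left (g := fun x : ℝ => x ^ 2) (by norm_num)).add
      (h2.comp_left (g := fun x : ℝ => x ^ 2) (by norm_num))
  obtain ⟨M0, hM0⟩ := hcs.exists_bound_of_continuous ((cx.pow 2).add (cy.pow 2))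
  set M : ℝ := M0 + 1 with hM
  obtain ⟨C1, hC1⟩ := hf.bd S hSc hSB
  obtain ⟨C2, hC2⟩ := hg.bd S hSc hSB
  refine ⟨2 * (M * C1 + C2), ?_⟩
  have hsmall : ∀ᶠ n in atTop, h n ^ 2 ≤ 1 := by
    have : Tendsto (fun n => h n ^ 2) atTop (𝓝 (0 ^ 2)) := hh.pow 2
    rw [zero_pow two_ne_zero] at this
    exact this.eventually (eventually_le_nhds one_pos)
  have hM0' : 0 ≤ M0 := (norm_nonneg _).trans (hM0 0)
  filter_upwards [hC1, hC2, hsmall] with n h1 h2 h3
  have s := hf.sm n
  have hMb : ∀ z, h n ^ 2 * (dx ζ z ^ 2 + dy ζ z ^ 2) + ζ z ^ 2 ≤ M := by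
    intro z
    have a1 := hM0 z
    rw [Real.norm_of_nonneg (by positivity)] at a1
    have a2 := hζ0 z
    have a3 := hζ1 z
    have a4 : h n ^ 2 * (dx ζ z ^ 2 + dy ζ z ^ 2) ≤ 1 * (dx ζ z ^ 2 + dy ζ z ^ 2) :=
      mul_le_mul_of_nonneg_right h3 (by positivity)
    nlinarith
  have hz1 : ∀ z, ζ z ^ 2 ≤ 1 := fun z => by nlinarith [hζ0 z, hζ1 z]
  have key : ∀ L : ℂ →L[ℝ] ℝ, (∀ w, |L w| ≤ ‖w‖) →
      ∫ z in K, h n ^ 2 * (dx (fun w => L (f n w)) z ^ 2 + dy (fun w => L (f n w)) z ^ 2) ≤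
        M * C1 + C2 := by
    intro L hL'
    have sL : ContDiffOn ℝ ∞ (fun w => L (f n w)) B := L.contDiff.comp_contDiffOn s
    have i1 : IntegrableOn (fun z => (L (f n z)) ^ 2) S :=
      ((sL.continuousOn.pow 2).mono hSB).integrableOn_compact hSc
    have i2 : IntegrableOn (fun z => (h n ^ 2 * lap (fun w => L (f n w)) z) ^ 2) S :=
      (((continuousOn_const.mul (sm_lap hB sL).continuousOn).pow 2).mono hSB).integrableOn_compact hSc
    have E := en1 hB sL hζ (S := S) subset_rfl hMb hz1 i1 i2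
    have b1 : ∫ z in S, (L (f n z)) ^ 2 ≤ C1 := by
      refine le_trans (intK_mono hSc ((sL.continuousOn.pow 2).mono hSB)
        ((hf.copow n 2).mono hSB) (fun z _ => ?_)) h1
      have := hL' (f n z)
      calc (L (f n z)) ^ 2 = |L (f n z)| ^ 2 := (sq_abs _).symm
        _ ≤ ‖f n z‖ ^ 2 := pow_le_pow_left₀ (abs_nonneg _) this 2
    have b2 : ∫ z in S, (h n ^ 2 * lap (fun w => L (f n w)) z) ^ 2 ≤ C2 := by
      refine le_trans (intK_mono hSc (((continuousOn_const.mul (sm_lap hB sL).continuousOn).pow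
        2).mono hSB) ((hg.copow n 2).mono hSB) (fun z hz => ?_)) h2
      have hzB := hSB hz
      have e1 : lap (fun w => L (f n w)) z = L (lap (f n) z) :=
        Pool.Agent.W98.RW.L_lap L hB s hzB
      have e2 : h n ^ 2 * L (lap (f n) z) = L (hL h f n z) := by
        have : hL h f n z = (h n ^ 2) • lap (f n) z := by
          rw [Complex.real_smul]; simp only [hL]; push_cast; rfl
        rw [this, map_smul, smul_eq_mul]
      rw [e1, e2]
      have := hL' (hL h f n z)
      calc (L (hL h f n z)) ^ 2 = |L (hL h f n z)| ^ 2 := (sq_abs _).symm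
        _ ≤ ‖hL h f n z‖ ^ 2 := pow_le_pow_left₀ (abs_nonneg _) this 2
    have hMp : 0 ≤ M := by linarith
    have b3 : h n ^ 2 * ∫ z, (dx (fun w => ζ w * (fun w => L (f n w)) w) z ^ 2 +
        dy (fun w => ζ w * (fun w => L (f n w)) w) z ^ 2) ≤ M * C1 + C2 :=
      E.trans (add_le_add (mul_le_mul_of_nonneg_left b1 hMp) b2)
    refine le_trans ?_ b3
    rw [← integral_const_mul]
    have hcp : ContDiff ℝ ∞ (fun w => ζ w * L (f n w)) := by
      have := (TF.mulc hB hζ sL).1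
      exact this
    have hcc : HasCompactSupport (fun w => ζ w * L (f n w)) := hζ.2.1.mul_right
    have i3 : Integrable (fun z => h n ^ 2 * (dx (fun w => ζ w * L (f n w)) z ^ 2 +
        dy (fun w => ζ w * L (f n w)) z ^ 2)) := by
      have d1 : Continuous (dx (fun w => ζ w * L (f n w))) :=
        ((hcp.fderiv_right (m := ∞) (by simp)).clm_apply contDiff_const).continuous
      have d2 : Continuous (dy (fun w => ζ w * L (f n w))) :=
        ((hcp.fderiv_right (m := ∞) (by simp)).clm_apply contDiff_const).continuous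
      have s1 : HasCompactSupport (dx (fun w => ζ w * L (f n w))) := hcc.fderiv_apply (𝕜 := ℝ) 1
      have s2 : HasCompactSupport (dy (fun w => ζ w * L (f n w))) := hcc.fderiv_apply (𝕜 := ℝ) I
      refine Continuous.integrable_of_hasCompactSupport
        (continuous_const.mul ((d1.pow 2).add (d2.pow 2))) ?_
      exact ((s1.comp_left (g := fun x : ℝ => x ^ 2) (by norm_num)).add
        (s2.comp_left (g := fun x : ℝ => x ^ 2) (by norm_num))).mul_left
    refine le_trans ?_ (setIntegral_le_integral (s := K) i3 (Eventually.of_forall fun z => by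
      simp only [Pi.zero_apply]; positivity))
    refine le_of_eq (setIntegral_congr_fun hK.measurableSet fun z hz => ?_)
    have he : (fun w => ζ w * L (f n w)) =ᶠ[𝓝 z] fun w => L (f n w) := by
      filter_upwards [mem_interior_iff_mem_nhds.1 (hKK1 hz)] with w hw
      rw [hζK w hw, one_mul]
    simp only [dx, dy]
    rw [he.fderiv_eq]
  have k1 := key reCLM (fun w => by simpa using abs_re_le_norm w)
  have k2 := key imCLM (fun w => by simpa using abs_im_le_norm w)
  have cF : ∀ L : ℂ →L[ℝ] ℝ, ContinuousOn (fun z => h n ^ 2 * (dx (fun w => L (f n w)) z ^ 2 +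
      dy (fun w => L (f n w)) z ^ 2)) K := by
    intro L
    have sL : ContDiffOn ℝ ∞ (fun w => L (f n w)) B := L.contDiff.comp_contDiffOn s
    have c1 : ContinuousOn (dx (fun w => L (f n w))) K :=
      (Pool.Agent.W98.RW.cd_fderiv hB sL 1).continuousOn.mono hKB
    have c2 : ContinuousOn (dy (fun w => L (f n w))) K :=
      (Pool.Agent.W98.RW.cd_fderiv hB sL I).continuousOn.mono hKB
    exact continuousOn_const.mul ((c1.pow 2).add (c2.pow 2))
  have c3 : ContinuousOn (fun z => ‖hd h v f n z‖ ^ 2) K :=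
    ((hsm n).continuousOn.norm.pow 2).mono hKB
  have fin := intK_lin hK (by norm_num : (0 : ℝ) ≤ 1) c3 (cF reCLM) (cF imCLM)
    (fun z hz => by
      have hzB := hKB hz
      have d := fda hB s hzB
      have e1 : fderiv ℝ (fun w => reCLM (f n w)) z v = (fderiv ℝ (f n) z v).re :=
        Pool.Agent.W98.RW.L_fderiv reCLM d v
      have e2 : fderiv ℝ (fun w => imCLM (f n w)) z v = (fderiv ℝ (f n) z v).im :=
        Pool.Agent.W98.RW.L_fderiv imCLM d v
      have b1 := hv (fun w => reCLM (f n w)) z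
      have b2 := hv (fun w => imCLM (f n w)) z
      rw [e1] at b1
      rw [e2] at b2
      set p := dx (fun w => reCLM (f n w)) z ^ 2 + dy (fun w => reCLM (f n w)) z ^ 2
      set q := dx (fun w => imCLM (f n w)) z ^ 2 + dy (fun w => imCLM (f n w)) z ^ 2
      have e3 : ‖hd h v f n z‖ ^ 2 = h n ^ 2 * ((fderiv ℝ (f n) z v).re ^ 2 +
          (fderiv ℝ (f n) z v).im ^ 2) := by
        simp only [hd]
        rw [norm_mul, mul_pow, Complex.sq_norm (fderiv ℝ (f n) z v), normSq_apply,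
          Complex.norm_real, Real.norm_eq_abs, sq_abs]
        ring
      rw [e3, one_mul, ← mul_add]
      exact mul_le_mul_of_nonneg_left (add_le_add b1 b2) (sq_nonneg _)) k1 k2
  linarith

lemma M2.ell (hB : IsOpen B) (hh : Tendsto h atTop (𝓝 0)) {k : ℕ} :
    ∀ {f : ℕ → ℂ → ℂ}, M2 B h k f → M2 B h k (hL h f) → M2 B h (k + 1) f := by
  induction k with
  | zero =>
    intro f H G
    exact ⟨H, LB.grad2 hB hh H G dir1, LB.grad2 hB hh H G dirI⟩
  | succ k ih =>
    intro f H G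
    refine ⟨H.1, ih H.2.1 (G.2.1.congr hB (hL_hd hB H.1.sm 1)),
      ih H.2.2 (G.2.2.congr hB (hL_hd hB H.1.sm I))⟩

/-- all derivatives of solutions are bounded -/
theorem M2.sol (hB : IsOpen B) (hh : Tendsto h atTop (𝓝 0))
    {f : ℕ → ℂ → ℂ} (hf : LB B 2 f) {ρ : ℂ → ℂ} (hρ : ContDiffOn ℝ ∞ ρ B)
    (he : ∀ n, ∀ z ∈ B, hL h f n z = - (ρ z * f n z)) (k : ℕ) : M2 B h k f := by
  induction k with
  | zero => exact hf
  | succ k ih =>
    exact ih.ell hB hh (((ih.smulc hB hh hρ).neg hB hh).congr hB he)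

end

end Pool.Agent.Y265.HY
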