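import Pool.Agent.Y265.HY.A

/-! Ladder systems with `L²` bounds. -/
set_option autoImplicit false
open MeasureTheory Filter Topology Complex
open scoped ContDiff Manifold

namespace Pool.Agent.Y265.HY

open Pool.Agent.W745.RW Pool.Agent.TH294.RS
open Pool.Agent.Y265.RW (cutoff)

noncomputable section

variable {B : Set ℂ} {h : ℕ → ℝ} {a : ℂ → ℝ}

/-- all semiclassical derivatives are locally bounded in `L²` -/
def M2C (B : Set ℂ) (h : ℕ → ℝ) (f : ℕ → ℂ → ℂ) : Prop := ∀ k, M2 B h k f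

lemma M2C.lb {f : ℕ → ℂ → ℂ} (H : M2C B h f) : LB B 2 f := H 0
lemma M2C.sm {f : ℕ → ℂ → ℂ} (H : M2C B h f) (n : ℕ) : ContDiffOn ℝ ∞ (f n) B := H.lb.sm n
lemma M2C.co {f : ℕ → ℂ → ℂ} (H : M2C B h f) (n : ℕ) : ContinuousOn (f n) B :=
  (H.sm n).continuousOn
lemma M2C.congr (hB : IsOpen B) {f g : ℕ → ℂ → ℂ} (H : M2C B h f)
    (e : ∀ n, ∀ z ∈ B, g n z = f n z) : M2C B h g := fun k => (H k).congr hB e
lemma M2C.add (hB : IsOpen B) {f g : ℕ → ℂ → ℂ} (H : M2C B h f) (G : M2C B h g) :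
    M2C B h (fun n z => f n z + g n z) := fun k => (H k).add hB (G k)
lemma M2C.neg (hB : IsOpen B) (hh : Tendsto h atTop (𝓝 0)) {f : ℕ → ℂ → ℂ}
    (H : M2C B h f) : M2C B h (fun n z => - f n z) := fun k => (H k).neg hB hh
lemma M2C.sub (hB : IsOpen B) (hh : Tendsto h atTop (𝓝 0)) {f g : ℕ → ℂ → ℂ}
    (H : M2C B h f) (G : M2C B h g) : M2C B h (fun n z => f n z - g n z) :=
  (H.add hB (G.neg hB hh)).congr hB fun n z _ => by ring
lemma M2C.smulc (hB : IsOpen B) (hh : Tendsto h atTop (𝓝 0)) {f : ℕ → ℂ → ℂ}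
    (H : M2C B h f) {c : ℂ → ℂ} (hc : ContDiffOn ℝ ∞ c B) : M2C B h (fun n z => c z * f n z) :=
  fun k => (H k).smulc hB hh hc
lemma M2C.cmul (hB : IsOpen B) (hh : Tendsto h atTop (𝓝 0)) {f : ℕ → ℂ → ℂ}
    (H : M2C B h f) (c : ℂ) : M2C B h (fun n z => c * f n z) := fun k => (H k).cmul hB hh c
lemma M2C.hmul (hB : IsOpen B) (hh : Tendsto h atTop (𝓝 0)) {f : ℕ → ℂ → ℂ}
    (H : M2C B h f) : M2C B h (fun n z => (h n : ℂ) * f n z) := fun k => (H k).hmul hB hh
lemma M2C.conj (hB : IsOpen B) {f : ℕ → ℂ → ℂ} (H : M2C B h f) :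
    M2C B h (fun n z => (starRingEnd ℂ) (f n z)) := fun k => (H k).conj hB
lemma M2C.d1 {f : ℕ → ℂ → ℂ} (H : M2C B h f) : M2C B h (hd h 1 f) := fun k => (H (k + 1)).2.1
lemma M2C.dI {f : ℕ → ℂ → ℂ} (H : M2C B h f) : M2C B h (hd h I f) := fun k => (H (k + 1)).2.2

lemma M2C.sP (hB : IsOpen B) (hh : Tendsto h atTop (𝓝 0)) (ha : ContDiffOn ℝ ∞ a B)
    {f : ℕ → ℂ → ℂ} (H : M2C B h f) : M2C B h (sP a h f) := by
  have h1 := H.d1.smulc hB hh (cxa ha)
  have h2 := (H.dI.smulc hB hh (cxa ha)).cmul hB hh I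
  refine (h1.sub hB hh h2).congr hB fun n z _ => ?_
  simp only [TH294.RS.sP, DP, dd, dx, dy, hd]; ring

lemma M2C.sM (hB : IsOpen B) (hh : Tendsto h atTop (𝓝 0)) (ha : ContDiffOn ℝ ∞ a B)
    {f : ℕ → ℂ → ℂ} (H : M2C B h f) : M2C B h (sM a h f) := by
  have h1 := H.d1.smulc hB hh (cxa ha)
  have h2 := (H.dI.smulc hB hh (cxa ha)).cmul hB hh I
  refine (h1.add hB h2).congr hB fun n z _ => ?_
  simp only [TH294.RS.sM, DM, db, dx, dy, hd]; ring

lemma M2C.zero (hB : IsOpen B) : M2C B h (fun _ _ => 0) := by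
  intro k
  induction k with
  | zero => exact LB.const B 2 (c := fun _ => 0) contDiffOn_const
  | succ k ih =>
    refine ⟨LB.const B 2 (c := fun _ => 0) contDiffOn_const, ih.congr hB ?_, ih.congr hB ?_⟩ <;>
    · intro n z _
      simp [hd]

lemma M2C.mono {B' : Set ℂ} {f : ℕ → ℂ → ℂ} (H : M2C B h f) (hB : B' ⊆ B) : M2C B' h f := by
  intro k
  have : ∀ k, ∀ f, M2 B h k f → M2 B' h k f := by
    intro k
    induction k with
    | zero => intro f H; exact LB.mono H hB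
    | succ k ih => intro f H; exact ⟨H.1.mono hB, ih _ H.2.1, ih _ H.2.2⟩
  exact this k f (H k)

lemma M2C.wn (hB : IsOpen B) (hh : Tendsto h atTop (𝓝 0)) (ha : ContDiffOn ℝ ∞ a B)
    {u : ℕ → ℂ → ℂ} (H : M2C B h u) (k : ℕ) : M2C B h (TH294.RS.wn a h u k) := by
  induction k with
  | zero => exact H
  | succ k ih =>
    have : TH294.RS.wn a h u (k + 1) = TH294.RS.sP a h (TH294.RS.wn a h u k) := by
      funext n
      exact wn_succ a h u k n
    rw [this]; exact ih.sP hB hh ha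

/-- the errors -/
lemma errs2 (hB : IsOpen B) (hh : Tendsto h atTop (𝓝 0)) (ha : ContDiffOn ℝ ∞ a B)
    {u : ℕ → ℂ → ℂ} (H : M2C B h u)
    (he : ∀ n, ∀ z ∈ B, (h n : ℂ) ^ 2 * ((a z : ℂ) ^ 2 * lap (u n) z) = - u n z) (k : ℕ) :
    ∃ E, M2C B h E ∧ ∀ n, ∀ z ∈ B, DM a (h n) (TH294.RS.wn a h u (k + 1) n) z =
      - TH294.RS.wn a h u k n z + (h n : ℂ) * E n z := by
  induction k with
  | zero =>
    refine ⟨fun n z => ab a z * TH294.RS.wn a h u 1 n z, (H.wn hB hh ha 1).smulc hB hh (ab_sm hB ha),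
      fun n z hz => ?_⟩

    have e0 : TH294.RS.wn a h u 0 n = u n := rfl
    show _ = - TH294.RS.wn a h u 0 n z + (h n : ℂ) * (ab a z * TH294.RS.wn a h u 1 n z)
    rw [wn_succ, e0, MP hB ha (h n) (H.sm n) hz, he n z hz]
  | succ k ih =>
    obtain ⟨E, hE, hE'⟩ := ih
    refine ⟨fun n z => TH294.RS.sP a h E n z + (ab a z * TH294.RS.wn a h u (k + 2) n z -
      ad a z * TH294.RS.sM a h (TH294.RS.wn a h u (k + 1)) n z), ?_, fun n z hz => ?_⟩
    · exact (hE.sP hB hh ha).add hB (((H.wn hB hh ha (k + 2)).smulc hB hh (ab_sm hB ha)).sub hB hh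
        (((H.wn hB hh ha (k + 1)).sM hB hh ha).smulc hB hh (ad_sm hB ha)))
    · have s1 := (H.wn hB hh ha (k + 1)).sm n
      rw [wn_succ a h u (k + 1) n, MP hB ha (h n) s1 hz]
      have e1 := PM hB ha (h n) s1 hz
      have e2 : DP a (h n) (DM a (h n) (TH294.RS.wn a h u (k + 1) n)) z =
          DP a (h n) (fun w => - TH294.RS.wn a h u k n w + (h n : ℂ) * E n w) z :=
        DP_cg hB (h n) (hE' n) hz
      rw [DP_add (h n) (fda hB ((H.wn hB hh ha k).sm n) hz) (fda hB (hE.sm n) hz)] at e2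
      have e3 : TH294.RS.wn a h u (k + 2) n z = DP a (h n) (TH294.RS.wn a h u (k + 1) n) z := by
        rw [wn_succ a h u (k + 1) n]
      have e4 : TH294.RS.wn a h u (k + 1) n z = DP a (h n) (TH294.RS.wn a h u k n) z := by
        rw [wn_succ a h u k n]
      simp only [TH294.RS.sP, TH294.RS.sM]
      rw [e3]
      rw [← e4] at e2
      linear_combination (-1 : ℂ) * e1 + e2

/-- ladder systems -/
structure SY (B : Set ℂ) (a : ℂ → ℝ) (h : ℕ → ℝ) (w : ℤ → ℕ → ℂ → ℂ) : Prop where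
  op : IsOpen B
  hpos : ∀ n, 0 < h n
  hlim : Tendsto h atTop (𝓝 0)
  sa : ContDiffOn ℝ ∞ a B
  pa : ∀ z ∈ B, 0 < a z
  bd : ∀ k, M2C B h (w k)
  up : ∀ k, ∃ e, M2C B h e ∧ ∀ n, ∀ z ∈ B,
    DP a (h n) (w k n) z = w (k + 1) n z + (h n : ℂ) * e n z
  dn : ∀ k, ∃ e, M2C B h e ∧ ∀ n, ∀ z ∈ B,
    DM a (h n) (w k n) z = - w (k - 1) n z + (h n : ℂ) * e n z
  cj : ∀ k n, ∀ z ∈ B, (starRingEnd ℂ) (w k n z) = (-1) ^ k.natAbs * w (-k) n z
  qe : ∀ k : ℕ, WN B (fun n z => w 0 n z * w k n z - (if k = 0 then 1 else 0))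

theorem mkSY (hB : IsOpen B) (hp : ∀ n, 0 < h n) (hh : Tendsto h atTop (𝓝 0))
    (ha : ContDiffOn ℝ ∞ a B) (hpa : ∀ z ∈ B, 0 < a z)
    {u : ℕ → ℂ → ℂ} (hu : ∀ n z, (starRingEnd ℂ) (u n z) = u n z) (hb : LB B 2 u)
    (he : ∀ n, ∀ z ∈ B, (h n : ℂ) ^ 2 * ((a z : ℂ) ^ 2 * lap (u n) z) = - u n z)
    (hqe : ∀ k : ℕ, WN B (fun n z => u n z * (DP a (h n))^[k] (u n) z - (if k = 0 then 1 else 0))) :
    SY B a h (ww a h u) := by
  have ha2 : ContDiffOn ℝ ∞ (fun z => ((a z : ℂ) ^ 2)⁻¹) B := by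
    refine ContDiffOn.inv ((cxa ha).pow 2) fun z hz => ?_
    have := (hpa z hz).ne'
    exact pow_ne_zero 2 (by exact_mod_cast this)
  have H : M2C B h u := fun k => M2.sol hB hh hb ha2 (fun n z hz => by
    have h1 := he n z hz
    have h2 : (a z : ℂ) ^ 2 ≠ 0 := pow_ne_zero 2 (by exact_mod_cast (hpa z hz).ne')
    have h3 : hL h u n z = ((a z : ℂ) ^ 2)⁻¹ * ((h n : ℂ) ^ 2 * ((a z : ℂ) ^ 2 * lap (u n) z)) := by
      have h4 : ((a z : ℂ) ^ 2)⁻¹ * (a z : ℂ) ^ 2 = 1 := inv_mul_cancel₀ h2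
      simp only [hL]
      linear_combination (-((h n : ℂ) ^ 2 * lap (u n) z)) * h4
    rw [h3, h1]; ring) k
  have hzero : M2C B h (fun (_ : ℕ) (_ : ℂ) => (0 : ℂ)) := M2C.zero hB
  have cjw : ∀ (k : ℕ) (c : ℂ), M2C B h (fun n z => c * (starRingEnd ℂ) (TH294.RS.wn a h u k n z)) :=
    fun k c => ((H.wn hB hh ha k).conj hB).cmul hB hh c
  have bd : ∀ k : ℤ, M2C B h (ww a h u k) := by
    intro k
    rcases Int.eq_nat_or_neg k with ⟨m, rfl | rfl⟩
    · exact (H.wn hB hh ha m)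
    · refine M2C.congr hB (cjw m ((-1) ^ m)) fun n z _ => ww_neg hu m n z
  refine ⟨hB, hp, hh, ha, hpa, bd, ?_, ?_, ?_, hqe⟩
  · -- raising
    intro k
    rcases Int.eq_nat_or_neg k with ⟨m, rfl | rfl⟩
    · refine ⟨_, hzero, fun n z hz => ?_⟩
      have e1 : ((m : ℤ) + 1) = ((m + 1 : ℕ) : ℤ) := by push_cast; rfl
      rw [e1, ww_nat, ww_nat, wn_succ]
      simp
    · cases m with
      | zero =>
        refine ⟨_, hzero, fun n z hz => ?_⟩
        have e1 : (-((0 : ℕ) : ℤ) + 1) = ((1 : ℕ) : ℤ) := by simp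
        have e2 : (-((0 : ℕ) : ℤ)) = ((0 : ℕ) : ℤ) := by simp
        rw [e1, e2, ww_nat, ww_nat, wn_succ]
        simp
      | succ m =>
        obtain ⟨E, hE, hE'⟩ := errs2 hB hh ha H he m
        refine ⟨fun n z => (-1) ^ (m + 1) * (starRingEnd ℂ) (E n z),
          ((hE.conj hB).cmul hB hh _), fun n z hz => ?_⟩
        have e1 : (-((m + 1 : ℕ) : ℤ) + 1) = -(m : ℤ) := by push_cast; ring
        rw [e1, ww_neg hu]
        have e2 : ww a h u (-((m + 1 : ℕ) : ℤ)) n =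
            fun z => (-1) ^ (m + 1) * (starRingEnd ℂ) (TH294.RS.wn a h u (m + 1) n z) := by
          funext z; exact ww_neg hu (m + 1) n z
        have d := fda hB ((H.wn hB hh ha (m + 1)).sm n) hz
        rw [e2, DP_cm (h n) (conj_da d), DP_conj (h n) d, hE' n z hz, map_add, map_neg, map_mul,
          conj_ofReal]
        ring
  · -- lowering
    intro k
    rcases Int.eq_nat_or_neg k with ⟨m, rfl | rfl⟩
    · cases m with
      | zero =>
        refine ⟨_, hzero, fun n z hz => ?_⟩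
        have e1 : (((0 : ℕ) : ℤ) - 1) = -((1 : ℕ) : ℤ) := by simp
        rw [e1, ww_neg hu, ww_nat, wn_succ]
        have e2 : TH294.RS.wn a h u 0 n = u n := rfl
        have d := fda hB (H.sm n) hz
        have e3 : u n = fun w => (starRingEnd ℂ) (u n w) := by
          funext w; exact (hu n w).symm
        have e4 : DM a (h n) (u n) z = (starRingEnd ℂ) (DP a (h n) (u n) z) := by
          conv_lhs => rw [e3]
          exact DM_conj (h n) d
        rw [e2, e4]
        ring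
      | succ m =>
        obtain ⟨E, hE, hE'⟩ := errs2 hB hh ha H he m
        refine ⟨E, hE, fun n z hz => ?_⟩
        have e1 : (((m + 1 : ℕ) : ℤ) - 1) = ((m : ℕ) : ℤ) := by push_cast; ring
        rw [e1, ww_nat, ww_nat]
        exact hE' n z hz
    · refine ⟨_, hzero, fun n z hz => ?_⟩
      have e1 : (-(m : ℤ) - 1) = -((m + 1 : ℕ) : ℤ) := by push_cast; ring
      rw [e1, ww_neg hu, wn_succ]
      have e2 : ww a h u (-(m : ℤ)) n =
          fun z => (-1) ^ m * (starRingEnd ℂ) (TH294.RS.wn a h u m n z) := by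
        funext z; exact ww_neg hu m n z
      have d := fda hB ((H.wn hB hh ha m).sm n) hz
      rw [e2, DM_cm (h n) (conj_da d), DM_conj (h n) d, pow_succ]
      ring
  · -- conjugation
    intro k n z hz
    have hs : ∀ m : ℕ, ((-1 : ℂ) ^ m) * (-1) ^ m = 1 := by
      intro m; rw [← mul_pow]; simp
    rcases Int.eq_nat_or_neg k with ⟨m, rfl | rfl⟩
    · rw [ww_neg hu, ww_nat, Int.natAbs_natCast, ← mul_assoc, hs, one_mul]
    · rw [neg_neg, ww_nat, Int.natAbs_neg, Int.natAbs_natCast, ww_neg hu, map_mul,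
        conj_conj, map_pow, map_neg, map_one]

variable {w : ℤ → ℕ → ℂ → ℂ}

/-- one step of the two point relation -/
lemma SY.step2 (H : SY B a h w) (j k : ℤ) :
    WN B (fun n z => w (j + 1) n z * w k n z + w j n z * w (k + 1) n z) := by
  have hB := H.op
  obtain ⟨e, he, he'⟩ := H.up j
  obtain ⟨f, hf, hf'⟩ := H.up k
  have l1 : LB B 1 (fun n z => w j n z * w k n z) := (H.bd j).lb.mul2 (H.bd k).lb
  have l2 : LB B 1 (fun n z => e n z * w k n z + w j n z * f n z) :=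
    (he.lb.mul2 (H.bd k).lb).add ((H.bd j).lb.mul2 hf.lb)
  refine ((l1.wnP hB H.hlim H.sa).sub (l2.wn H.hlim)).congr fun n z hz => ?_
  have e1 := he' n z hz
  have e2 := hf' n z hz
  simp only [DP] at e1 e2 ⊢
  rw [dd_mul (da hB ((H.bd j).sm n) hz) (da hB ((H.bd k).sm n) hz)]
  linear_combination (-(w k n z)) * e1 - (w j n z) * e2

lemma SY.base2 (H : SY B a h w) (k : ℤ) : WN B (fun n z => w 0 n z * w k n z - CC 0 k) := by
  have hnat : ∀ k : ℕ, WN B (fun n z => w 0 n z * w k n z - CC 0 k) := by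
    intro k
    have := H.qe k
    have h1 : (if k = 0 then (1 : ℂ) else 0) = CC 0 k := by
      unfold CC
      by_cases hk : k = 0
      · subst hk; simp
      · have : ¬ ((0 : ℤ) + (k : ℤ) = 0) := by omega
        rw [if_neg hk, if_neg this]
    rw [h1] at this
    exact this
  rcases Int.eq_nat_or_neg k with ⟨m, rfl | rfl⟩
  · exact hnat m
  · by_cases hk : m = 0
    · subst hk
      simpa using hnat 0
    have h0 : CC 0 (-(m : ℤ)) = 0 := by
      unfold CC
      have : ¬ ((0 : ℤ) + -(m : ℤ) = 0) := by omega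
      rw [if_neg this]
    have h0' : CC 0 (m : ℤ) = 0 := by
      unfold CC
      have : ¬ ((0 : ℤ) + (m : ℤ) = 0) := by omega
      rw [if_neg this]
    have hk' := hnat m
    rw [h0'] at hk'
    rw [h0]
    refine (hk'.conj.cmul ((-1) ^ m)).congr fun n z hz => ?_
    have h4 := H.cj m n z hz
    have h5 := H.cj 0 n z hz
    simp only [Int.natAbs_natCast, Int.natAbs_zero, pow_zero, one_mul, neg_zero] at h4 h5
    rw [sub_zero, sub_zero, map_mul, h4, h5]
    have h6 : ((-1 : ℂ) ^ m) * (-1) ^ m = 1 := by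
      rw [← mul_pow]; simp
    linear_combination (-(w 0 n z * w (-(m : ℤ)) n z)) * h6

/-- two point limits -/
theorem SY.two (H : SY B a h w) (j : ℤ) :
    ∀ k : ℤ, WN B (fun n z => w j n z * w k n z - CC j k) := by
  induction j using Int.induction_on with
  | zero => exact fun k => H.base2 k
  | succ i ih =>
    intro k
    refine ((H.step2 i k).sub (ih (k + 1))).congr fun n z _ => ?_
    have := CC_st i k
    linear_combination (-1 : ℂ) * this
  | pred i ih =>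
    intro k
    have h1 := H.step2 (-i - 1) (k - 1)
    have e1 : (-(i : ℤ) - 1 + 1) = -i := by ring
    have e2 : (k - 1 + 1) = k := by ring
    rw [e1, e2] at h1
    refine (h1.sub (ih (k - 1))).congr fun n z _ => ?_
    have := CC_st (-i - 1) (k - 1)
    rw [e1, e2] at this
    linear_combination (-1 : ℂ) * this

/-- functions decomposed along the ladder -/
inductive Dec (B : Set ℂ) (h : ℕ → ℝ) (w : ℤ → ℕ → ℂ → ℂ) : (ℕ → ℂ → ℂ) → Prop
  | W (k : ℤ) : Dec B h w (w k)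
  | add {f g : ℕ → ℂ → ℂ} : Dec B h w f → Dec B h w g → Dec B h w (fun n z => f n z + g n z)
  | smul {f : ℕ → ℂ → ℂ} {c : ℂ → ℂ} : ContDiffOn ℝ ∞ c B → Dec B h w f →
      Dec B h w (fun n z => c z * f n z)
  | err {e : ℕ → ℂ → ℂ} : M2C B h e → Dec B h w (fun n z => (h n : ℂ) * e n z)
  | congr {f g : ℕ → ℂ → ℂ} : Dec B h w f → (∀ n, ∀ z ∈ B, g n z = f n z) → Dec B h w g

lemma Dec.m (H : SY B a h w) {f : ℕ → ℂ → ℂ} (hf : Dec B h w f) : M2C B h f := by
  induction hf with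
  | W k => exact H.bd k
  | add _ _ h1 h2 => exact h1.add H.op h2
  | smul hc _ h1 => exact h1.smulc H.op H.hlim hc
  | err he => exact he.hmul H.op H.hlim
  | congr _ e h1 => exact h1.congr H.op e

lemma Dec.cmul {f : ℕ → ℂ → ℂ} (hf : Dec B h w f) (c : ℂ) : Dec B h w (fun n z => c * f n z) :=
  Dec.smul (c := fun _ => c) contDiffOn_const hf

lemma Dec.sub {f g : ℕ → ℂ → ℂ} (hf : Dec B h w f) (hg : Dec B h w g) :
    Dec B h w (fun n z => f n z - g n z) :=
  (Dec.add hf (hg.cmul (-1))).congr fun n z _ => by ring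

lemma dd_add {f g : ℂ → ℂ} {z : ℂ} (hf : DifferentiableAt ℝ f z) (hg : DifferentiableAt ℝ g z) :
    dd (fun z => f z + g z) z = dd f z + dd g z := by
  simp only [dd, dx, dy, fderiv_fun_add hf hg, add_apply]; ring
lemma db_add {f g : ℂ → ℂ} {z : ℂ} (hf : DifferentiableAt ℝ f z) (hg : DifferentiableAt ℝ g z) :
    db (fun z => f z + g z) z = db f z + db g z := by
  simp only [db, dx, dy, fderiv_fun_add hf hg, add_apply]; ring

lemma Dec.sP (H : SY B a h w) {f : ℕ → ℂ → ℂ} (hf : Dec B h w f) : Dec B h w (sP a h f) := by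
  have hB := H.op
  induction hf with
  | W k =>
    obtain ⟨e, he, he'⟩ := H.up k
    exact ((Dec.W (k + 1)).add (Dec.err he)).congr he'
  | @add f g hf hg h1 h2 =>
    refine (h1.add h2).congr fun n z hz => ?_
    have d1 := fda hB ((hf.m H).sm n) hz
    have d2 := fda hB ((hg.m H).sm n) hz
    simp only [TH294.RS.sP, DP]
    rw [dd_add d1 d2]; ring
  | @smul f c hc hf h1 =>
    refine ((h1.smul hc).add (Dec.err (((hf.m H).smulc hB H.hlim (dd_sm hB hc)).smulc hB H.hlim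
      (cxa H.sa)))).congr fun n z hz => ?_
    have d1 := fda hB ((hf.m H).sm n) hz
    have d2 := fda hB hc hz
    simp only [TH294.RS.sP, DP]
    rw [dd_mul d2 d1]; ring
  | @err e he =>
    refine (Dec.err (he.sP hB H.hlim H.sa)).congr fun n z hz => ?_
    have d1 := fda hB (he.sm n) hz
    simp only [TH294.RS.sP, DP]
    rw [dd_cm d1]; ring
  | @congr f g hf e h1 =>
    refine h1.congr fun n z hz => ?_
    simp only [TH294.RS.sP, DP]
    rw [dd_cg hB (e n) hz]

lemma Dec.sM (H : SY B a h w) {f : ℕ → ℂ → ℂ} (hf : Dec B h w f) : Dec B h w (sM a h f) := by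
  have hB := H.op
  induction hf with
  | W k =>
    obtain ⟨e, he, he'⟩ := H.dn k
    refine (((Dec.W (k - 1)).cmul (-1)).add (Dec.err he)).congr fun n z hz => ?_
    simp only [TH294.RS.sM]
    rw [he' n z hz]; ring
  | @add f g hf hg h1 h2 =>
    refine (h1.add h2).congr fun n z hz => ?_
    have d1 := fda hB ((hf.m H).sm n) hz
    have d2 := fda hB ((hg.m H).sm n) hz
    simp only [TH294.RS.sM, DM]
    rw [db_add d1 d2]; ring
  | @smul f c hc hf h1 =>
    refine ((h1.smul hc).add (Dec.err (((hf.m H).smulc hB H.hlim (db_sm hB hc)).smulc hB H.hlim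
      (cxa H.sa)))).congr fun n z hz => ?_
    have d1 := fda hB ((hf.m H).sm n) hz
    have d2 := fda hB hc hz
    simp only [TH294.RS.sM, DM]
    rw [db_mul d2 d1]; ring
  | @err e he =>
    refine (Dec.err (he.sM hB H.hlim H.sa)).congr fun n z hz => ?_
    have d1 := fda hB (he.sm n) hz
    simp only [TH294.RS.sM, DM]
    rw [db_cm d1]; ring
  | @congr f g hf e h1 =>
    refine h1.congr fun n z hz => ?_
    simp only [TH294.RS.sM, DM]
    rw [db_cg hB (e n) hz]

lemma conj_sm {c : ℂ → ℂ} (hc : ContDiffOn ℝ ∞ c B) :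
    ContDiffOn ℝ ∞ (fun z => (starRingEnd ℂ) (c z)) B :=
  (conjCLE : ℂ →L[ℝ] ℂ).contDiff.comp_contDiffOn hc

lemma Dec.conj (H : SY B a h w) {f : ℕ → ℂ → ℂ} (hf : Dec B h w f) :
    Dec B h w (fun n z => (starRingEnd ℂ) (f n z)) := by
  have hB := H.op
  induction hf with
  | W k => exact ((Dec.W (-k)).cmul ((-1) ^ k.natAbs)).congr (H.cj k)
  | @add f g hf hg h1 h2 =>
    refine (h1.add h2).congr fun n z hz => ?_
    rw [map_add]
  | @smul f c hc hf h1 =>
    refine (h1.smul (conj_sm hc)).congr fun n z hz => ?_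
    rw [map_mul]
  | @err e he =>
    refine (Dec.err (he.conj hB)).congr fun n z hz => ?_
    rw [map_mul, conj_ofReal]
  | @congr f g hf e h1 =>
    refine h1.congr fun n z hz => ?_
    rw [e n z hz]

lemma inv_sm (H : SY B a h w) : ContDiffOn ℝ ∞ (fun z => ((a z : ℂ))⁻¹) B := by
  refine ContDiffOn.inv (cxa H.sa) fun z hz => ?_
  have := (H.pa z hz).ne'
  exact_mod_cast this

lemma Dec.d1 (H : SY B a h w) {f : ℕ → ℂ → ℂ} (hf : Dec B h w f) : Dec B h w (hd h 1 f) := by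
  refine (((hf.sP H).add (hf.sM H)).smul ((contDiffOn_const (c := (1/2 : ℂ))).mul
    (inv_sm H))).congr fun n z hz => ?_
  have h1 : (a z : ℂ) ≠ 0 := by exact_mod_cast (H.pa z hz).ne'
  simp only [TH294.RS.sP, TH294.RS.sM, DP, DM, dd, db, dx, dy, hd]
  field_simp
  ring

lemma Dec.dI (H : SY B a h w) {f : ℕ → ℂ → ℂ} (hf : Dec B h w f) : Dec B h w (hd h I f) := by
  refine (((hf.sP H).sub (hf.sM H)).smul ((contDiffOn_const (c := (I/2 : ℂ))).mul
    (inv_sm H))).congr fun n z hz => ?_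
  have h1 : (a z : ℂ) ≠ 0 := by exact_mod_cast (H.pa z hz).ne'
  simp only [TH294.RS.sP, TH294.RS.sM, DP, DM, dd, db, dx, dy, hd]
  field_simp
  linear_combination (2 * (h n : ℂ) * fderiv ℝ (f n) z I) * Complex.I_sq

/-- multiplication of weakly null sequences by smooth functions -/
lemma WNs {f : ℕ → ℂ → ℂ} (hB : IsOpen B) (hf : WN B f) {c : ℂ → ℂ} (hc : ContDiffOn ℝ ∞ c B) :
    WN B (fun n z => c z * f n z) := by
  refine ⟨fun n => hc.continuousOn.mul (hf.co n), fun φ hφ => ?_⟩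
  have r1 : ContDiffOn ℝ ∞ (fun z => (c z).re) B := reCLM.contDiff.comp_contDiffOn hc
  have r2 : ContDiffOn ℝ ∞ (fun z => (c z).im) B := imCLM.contDiff.comp_contDiffOn hc
  have t1 := TF.mulc hB hφ r1
  have t2 := TF.mulc hB hφ r2
  have n1 := hf.nul _ t1
  have n2 := hf.nul _ t2
  have := Tendsto.add n1 (Tendsto.const_mul I n2)
  rw [mul_zero, add_zero] at this
  refine Tendsto.congr (fun n => ?_) this
  have i1 := TF.cint t1 (hf.co n)
  have i2 := TF.cint t2 (hf.co n)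
  rw [← integral_const_mul, ← integral_add i1 (i2.const_mul I)]
  congr 1; funext z
  have := re_add_im (c z)
  push_cast
  linear_combination ((φ z : ℂ) * f n z) * this

/-- weak limits of products -/
def WL (B : Set ℂ) (f g : ℕ → ℂ → ℂ) (L : ℂ → ℂ) : Prop :=
  ContDiffOn ℝ ∞ L B ∧ WN B (fun n z => f n z * g n z - L z)

lemma Dec.wl (H : SY B a h w) {f g : ℕ → ℂ → ℂ} (hf : Dec B h w f) (hg : Dec B h w g) :
    ∃ L, WL B f g L := by
  have hB := H.op
  induction hf with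
  | W k =>
    induction hg with
    | W l => exact ⟨fun _ => CC k l, contDiffOn_const, H.two k l⟩
    | add _ _ h1 h2 =>
      obtain ⟨L1, s1, w1⟩ := h1
      obtain ⟨L2, s2, w2⟩ := h2
      exact ⟨fun z => L1 z + L2 z, s1.add s2, (w1.add w2).congr fun n z _ => by ring⟩
    | @smul g c hc _ h1 =>
      obtain ⟨L1, s1, w1⟩ := h1
      exact ⟨fun z => c z * L1 z, hc.mul s1, (WNs hB w1 hc).congr fun n z _ => by ring⟩
    | @err e he =>
      refine ⟨fun _ => 0, contDiffOn_const, ((LB.mul2 (H.bd k).lb he.lb).wn H.hlim).congr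
        fun n z _ => by ring⟩
    | congr _ e h1 =>
      obtain ⟨L1, s1, w1⟩ := h1
      exact ⟨L1, s1, w1.congr fun n z hz => by rw [e n z hz]⟩
  | add _ _ h1 h2 =>
    obtain ⟨L1, s1, w1⟩ := h1
    obtain ⟨L2, s2, w2⟩ := h2
    exact ⟨fun z => L1 z + L2 z, s1.add s2, (w1.add w2).congr fun n z _ => by ring⟩
  | @smul f c hc _ h1 =>
    obtain ⟨L1, s1, w1⟩ := h1
    exact ⟨fun z => c z * L1 z, hc.mul s1, (WNs hB w1 hc).congr fun n z _ => by ring⟩
  | @err e he =>
    refine ⟨fun _ => 0, contDiffOn_const, ((LB.mul2 he.lb (hg.m H).lb).wn H.hlim).congr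
      fun n z _ => by ring⟩
  | congr _ e h1 =>
    obtain ⟨L1, s1, w1⟩ := h1
    exact ⟨L1, s1, w1.congr fun n z hz => by rw [e n z hz]⟩

/-- majorants with constant weak limits -/
def Mj (B : Set ℂ) (f : ℕ → ℂ → ℂ) : Prop :=
  ∃ (m : ℕ → ℂ → ℝ) (C : ℝ), (∀ n, ContinuousOn (m n) B) ∧ (∀ n, ∀ z ∈ B, ‖f n z‖ ^ 2 ≤ m n z) ∧
    ∀ φ, TF B φ → Tendsto (fun n => ∫ z, φ z * m n z) atTop (𝓝 (C * ∫ z, φ z))

lemma toR {f : ℕ → ℝ} {x : ℝ} (H : Tendsto (fun n => (f n : ℂ)) atTop (𝓝 (x : ℂ))) :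
    Tendsto f atTop (𝓝 x) := by
  have := (Complex.continuous_re.tendsto _).comp H
  exact this

lemma Dec.mj (H : SY B a h w) {f : ℕ → ℂ → ℂ} (hf : Dec B h w f) {B' K : Set ℂ} (hB' : IsOpen B')
    (hK : IsCompact K) (hBK : B' ⊆ K) (hKB : K ⊆ B) : Mj B' f := by
  have hB := H.op
  have hBB : B' ⊆ B := hBK.trans hKB
  induction hf with
  | W k =>
    refine ⟨fun n z => ‖w k n z‖ ^ 2, 1, fun n => ((((H.bd k).co n).mono hBB).norm.pow 2),
      fun n z _ => le_rfl, fun φ hφ => ?_⟩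
    have hφB : TF B φ := ⟨hφ.1, hφ.2.1, hφ.2.2.trans hBB⟩
    have h1 := (H.two k (-k)).nul φ hφB
    have h2 := h1.const_mul ((-1) ^ k.natAbs)
    rw [mul_zero] at h2
    have h3 := h2.add_const ((∫ z, φ z : ℝ) : ℂ)
    rw [zero_add] at h3
    rw [one_mul]
    have hs : ((-1 : ℂ) ^ k.natAbs) * (-1) ^ k.natAbs = 1 := by rw [← mul_pow]; simp
    have hC : CC k (-k) = (-1) ^ k.natAbs := by
      unfold CC; rw [if_pos (by ring)]
    have h4 : Tendsto (fun n => ((∫ z, φ z * ‖w k n z‖ ^ 2 : ℝ) : ℂ)) atTop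
        (𝓝 ((∫ z, φ z : ℝ) : ℂ)) := by
      refine Tendsto.congr (fun n => ?_) h3
      have c1 : ContinuousOn (fun z => w k n z * w (-k) n z) B := ((H.bd k).co n).mul ((H.bd (-k)).co n)
      have i1 : Integrable (fun z => (φ z : ℂ) * (w k n z * w (-k) n z - CC k (-k))) :=
        TF.cint hφB (c1.sub (continuousOn_const (c := CC k (-k))))
      have i2 := TF.cint hφB (continuousOn_const (c := (1 : ℂ)))
      have e1 : ((∫ z, φ z : ℝ) : ℂ) = ∫ z, (φ z : ℂ) * 1 := by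
        rw [← integral_complex_ofReal]; congr 1; funext z; ring
      rw [e1, ← integral_const_mul, ← integral_add (i1.const_mul _) i2, ← integral_complex_ofReal]
      congr 1; funext z
      by_cases hz : z ∈ B
      · have h5 := H.cj k n z hz
        have h6 := Complex.mul_conj (w k n z)
        rw [Complex.normSq_eq_norm_sq] at h6
        push_cast at h6 ⊢
        rw [← h6, h5, hC]
        linear_combination (-(φ z : ℂ)) * hs
      · rw [TF.zero hφB hz]; simp
    exact toR h4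
  | @add f g _ _ h1 h2 =>
    obtain ⟨m1, C1, c1, b1, l1⟩ := h1
    obtain ⟨m2, C2, c2, b2, l2⟩ := h2
    refine ⟨fun n z => 2 * m1 n z + 2 * m2 n z, 2 * C1 + 2 * C2,
      fun n => (continuousOn_const.mul (c1 n)).add (continuousOn_const.mul (c2 n)),
      fun n z hz => ?_, fun φ hφ => ?_⟩
    · have h3 := norm_add_le (f n z) (g n z)
      have h4 := pow_le_pow_left₀ (norm_nonneg _) h3 2
      nlinarith [b1 n z hz, b2 n z hz, sq_nonneg (‖f n z‖ - ‖g n z‖)]
    · have := ((l1 φ hφ).const_mul 2).add ((l2 φ hφ).const_mul 2)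
      rw [show (2 * C1 + 2 * C2) * ∫ z, φ z = 2 * (C1 * ∫ z, φ z) + 2 * (C2 * ∫ z, φ z) by ring]
      refine Tendsto.congr (fun n => ?_) this
      have i1 := Pool.Agent.Y265.RW.int_mulr hB' hφ (c1 n)
      have i2 := Pool.Agent.Y265.RW.int_mulr hB' hφ (c2 n)
      rw [← integral_const_mul, ← integral_const_mul, ← integral_add (i1.const_mul 2)
        (i2.const_mul 2)]
      congr 1; funext z; ring
  | @smul f c hc _ h1 =>
    obtain ⟨m1, C1, c1, b1, l1⟩ := h1
    obtain ⟨M, hM⟩ := hK.exists_bound_of_continuousOn (hc.continuousOn.mono hKB)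
    refine ⟨fun n z => M ^ 2 * m1 n z, M ^ 2 * C1, fun n => continuousOn_const.mul (c1 n),
      fun n z hz => ?_, fun φ hφ => ?_⟩
    · rw [norm_mul, mul_pow]
      exact mul_le_mul (pow_le_pow_left₀ (norm_nonneg _) (hM z (hBK hz)) 2) (b1 n z hz)
        (by positivity) (by positivity)
    · have := (l1 φ hφ).const_mul (M ^ 2)
      rw [mul_assoc]
      refine Tendsto.congr (fun n => ?_) this
      rw [← integral_const_mul]
      congr 1; funext z; ring
  | @err e he =>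
    refine ⟨fun n z => ‖(h n : ℂ) * e n z‖ ^ 2, 0,
      fun n => (((continuousOn_const.mul (he.co n)).mono hBB).norm.pow 2),
      fun n z _ => le_rfl, fun φ hφ => ?_⟩
    have hφB : TF B φ := ⟨hφ.1, hφ.2.1, hφ.2.2.trans hBB⟩
    have n1 := ((LB.mul2 (he.hmul hB H.hlim).lb (he.conj hB).lb).wn H.hlim).nul φ hφB
    rw [zero_mul]
    have h4 : Tendsto (fun n => ((∫ z, φ z * ‖(h n : ℂ) * e n z‖ ^ 2 : ℝ) : ℂ)) atTop
        (𝓝 ((0 : ℝ) : ℂ)) := by
      rw [ofReal_zero]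
      refine Tendsto.congr (fun n => ?_) n1
      rw [← integral_complex_ofReal]
      congr 1; funext z
      have h6 := Complex.mul_conj ((h n : ℂ) * e n z)
      rw [Complex.normSq_eq_norm_sq, map_mul, conj_ofReal] at h6
      push_cast at h6 ⊢
      rw [← h6]; ring
    exact toR h4
  | @congr f g _ e h1 =>
    obtain ⟨m1, C1, c1, b1, l1⟩ := h1
    exact ⟨m1, C1, c1, fun n z hz => by rw [e n z (hBB hz)]; exact b1 n z hz, l1⟩

end

end Pool.Agent.Y265.HY
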