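import Pool.Agent.Y265.HY.B

/-! Killing operators on the hyperbolic plane. -/
set_option autoImplicit false
open MeasureTheory Filter Topology Complex
open scoped ContDiff Manifold

namespace Pool.Agent.Y265.HY

open Pool.Agent.W745.RW Pool.Agent.TH294.RS
open Pool.Agent.Y265.RW (cutoff)

noncomputable section

variable {B : Set ℂ} {h : ℕ → ℝ} {w : ℤ → ℕ → ℂ → ℂ}

lemma fre (z v : ℂ) : fderiv ℝ (fun z : ℂ => (z.re : ℂ)) z v = (v.re : ℂ) := by
  have h1 : (fun z : ℂ => (z.re : ℂ)) = (ofRealCLM.comp reCLM : ℂ →L[ℝ] ℂ) := rfl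
  rw [h1, ContinuousLinearMap.fderiv]; rfl
lemma fim (z v : ℂ) : fderiv ℝ (fun z : ℂ => (z.im : ℂ)) z v = (v.im : ℂ) := by
  have h1 : (fun z : ℂ => (z.im : ℂ)) = (ofRealCLM.comp imCLM : ℂ →L[ℝ] ℂ) := rfl
  rw [h1, ContinuousLinearMap.fderiv]; rfl
lemma sre : ContDiff ℝ ∞ (fun z : ℂ => (z.re : ℂ)) := (ofRealCLM.comp reCLM : ℂ →L[ℝ] ℂ).contDiff
lemma sim : ContDiff ℝ ∞ (fun z : ℂ => (z.im : ℂ)) := (ofRealCLM.comp imCLM : ℂ →L[ℝ] ℂ).contDiff

lemma hd_mul (hB : IsOpen B) {f : ℕ → ℂ → ℂ} {c : ℂ → ℂ} (hc : ContDiffOn ℝ ∞ c B)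
    (hf : ∀ n, ContDiffOn ℝ ∞ (f n) B) (v : ℂ) (n : ℕ) {z : ℂ} (hz : z ∈ B) :
    hd h v (fun n z => c z * f n z) n z =
      c z * hd h v f n z + fderiv ℝ c z v * ((h n : ℂ) * f n z) := by
  simp only [hd]
  rw [fderiv_fun_mul (fda hB hc hz) (fda hB (hf n) hz)]
  simp only [add_apply, smul_apply, smul_eq_mul]; ring

lemma hd_add (hB : IsOpen B) {f g : ℕ → ℂ → ℂ} (hf : ∀ n, ContDiffOn ℝ ∞ (f n) B)
    (hg : ∀ n, ContDiffOn ℝ ∞ (g n) B) (v : ℂ) (n : ℕ) {z : ℂ} (hz : z ∈ B) :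
    hd h v (fun n z => f n z + g n z) n z = hd h v f n z + hd h v g n z := by
  simp only [hd]
  rw [fderiv_fun_add (fda hB (hf n) hz) (fda hB (hg n) hz)]
  simp only [add_apply]; ring

lemma hd_h (hB : IsOpen B) {f : ℕ → ℂ → ℂ} (hf : ∀ n, ContDiffOn ℝ ∞ (f n) B)
    (v : ℂ) (n : ℕ) {z : ℂ} (hz : z ∈ B) :
    hd h v (fun n z => (h n : ℂ) * f n z) n z = (h n : ℂ) * hd h v f n z := by
  simp only [hd]
  rw [fd_cm (fda hB (hf n) hz)]

lemma hd_sm (hB : IsOpen B) {f : ℕ → ℂ → ℂ} (hf : ∀ n, ContDiffOn ℝ ∞ (f n) B) (v : ℂ) (n : ℕ) :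
    ContDiffOn ℝ ∞ (hd h v f n) B := contDiffOn_const.mul (cfd hB (hf n) v)

lemma hL_eq (hB : IsOpen B) {f : ℕ → ℂ → ℂ} (hf : ∀ n, ContDiffOn ℝ ∞ (f n) B)
    (n : ℕ) {z : ℂ} (hz : z ∈ B) :
    hL h f n z = hd h 1 (hd h 1 f) n z + hd h I (hd h I f) n z := by
  have e : ∀ v, hd h v (hd h v f) n z = (h n : ℂ) ^ 2 *
      fderiv ℝ (fun w => fderiv ℝ (f n) w v) z v := by
    intro v
    have : hd h v f n = fun w => (h n : ℂ) * fderiv ℝ (f n) w v := rfl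
    show (h n : ℂ) * fderiv ℝ (hd h v f n) z v = _
    rw [this, fd_cm (fda hB (cfd hB (hf n) v) hz)]; ring
  rw [e, e]
  simp only [hL, lap]
  have e1 : dx (dx (f n)) z = fderiv ℝ (fun w => fderiv ℝ (f n) w 1) z 1 := rfl
  have e2 : dy (dy (f n)) z = fderiv ℝ (fun w => fderiv ℝ (f n) w I) z I := rfl
  rw [e1, e2]; ring

lemma hL_re (hB : IsOpen B) {p : ℕ → ℂ → ℂ} (hp : ∀ n, ContDiffOn ℝ ∞ (p n) B)
    (n : ℕ) {z : ℂ} (hz : z ∈ B) :
    hL h (fun n z => (z.re : ℂ) * p n z) n z =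
      (z.re : ℂ) * hL h p n z + 2 * (h n : ℂ) * hd h 1 p n z := by
  have hx : ContDiffOn ℝ ∞ (fun z : ℂ => (z.re : ℂ)) B := sre.contDiffOn
  have s0 : ∀ n, ContDiffOn ℝ ∞ (fun z => (z.re : ℂ) * p n z) B := fun n => hx.mul (hp n)
  have s1 := hd_sm (h := h) hB hp 1
  have sI := hd_sm (h := h) hB hp I
  rw [hL_eq hB s0 n hz, hL_eq hB hp n hz]
  have a1 : ∀ n, ∀ z ∈ B, hd h 1 (fun n z => (z.re : ℂ) * p n z) n z =
      (z.re : ℂ) * hd h 1 p n z + (h n : ℂ) * p n z := by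
    intro n z hz
    rw [hd_mul hB hx hp 1 n hz, fre]; simp
  have aI : ∀ n, ∀ z ∈ B, hd h I (fun n z => (z.re : ℂ) * p n z) n z =
      (z.re : ℂ) * hd h I p n z := by
    intro n z hz
    rw [hd_mul hB hx hp I n hz, fre]; simp
  rw [hd_congr hB a1 1 n z hz, hd_congr hB aI I n z hz,
    hd_add hB (fun n => hx.mul (s1 n)) (fun n => contDiffOn_const.mul (hp n)) 1 n hz,
    hd_mul hB hx s1 1 n hz, hd_h hB hp 1 n hz, hd_mul hB hx sI I n hz, fre, fre]
  simp only [one_re, I_re, ofReal_one, ofReal_zero]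
  ring

lemma hL_im (hB : IsOpen B) {p : ℕ → ℂ → ℂ} (hp : ∀ n, ContDiffOn ℝ ∞ (p n) B)
    (n : ℕ) {z : ℂ} (hz : z ∈ B) :
    hL h (fun n z => (z.im : ℂ) * p n z) n z =
      (z.im : ℂ) * hL h p n z + 2 * (h n : ℂ) * hd h I p n z := by
  have hx : ContDiffOn ℝ ∞ (fun z : ℂ => (z.im : ℂ)) B := sim.contDiffOn
  have s0 : ∀ n, ContDiffOn ℝ ∞ (fun z => (z.im : ℂ) * p n z) B := fun n => hx.mul (hp n)
  have s1 := hd_sm (h := h) hB hp 1
  have sI := hd_sm (h := h) hB hp I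
  rw [hL_eq hB s0 n hz, hL_eq hB hp n hz]
  have aI : ∀ n, ∀ z ∈ B, hd h I (fun n z => (z.im : ℂ) * p n z) n z =
      (z.im : ℂ) * hd h I p n z + (h n : ℂ) * p n z := by
    intro n z hz
    rw [hd_mul hB hx hp I n hz, fim]; simp
  have a1 : ∀ n, ∀ z ∈ B, hd h 1 (fun n z => (z.im : ℂ) * p n z) n z =
      (z.im : ℂ) * hd h 1 p n z := by
    intro n z hz
    rw [hd_mul hB hx hp 1 n hz, fim]; simp
  rw [hd_congr hB a1 1 n z hz, hd_congr hB aI I n z hz,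
    hd_add hB (fun n => hx.mul (sI n)) (fun n => contDiffOn_const.mul (hp n)) I n hz,
    hd_mul hB hx sI I n hz, hd_h hB hp I n hz, hd_mul hB hx s1 1 n hz, fim, fim]
  simp only [one_im, I_im, ofReal_one, ofReal_zero]
  ring

lemma hL_add (hB : IsOpen B) {f g : ℕ → ℂ → ℂ} (hf : ∀ n, ContDiffOn ℝ ∞ (f n) B)
    (hg : ∀ n, ContDiffOn ℝ ∞ (g n) B) (n : ℕ) {z : ℂ} (hz : z ∈ B) :
    hL h (fun n z => f n z + g n z) n z = hL h f n z + hL h g n z := by
  have e : ∀ v, hd h v (hd h v (fun n z => f n z + g n z)) n z =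
      hd h v (hd h v f) n z + hd h v (hd h v g) n z := by
    intro v
    rw [hd_congr hB (fun n z hz => hd_add hB hf hg v n hz) v n z hz,
      hd_add hB (hd_sm hB hf v) (hd_sm hB hg v) v n hz]
  rw [hL_eq hB (fun n => (hf n).add (hg n)) n hz, hL_eq hB hf n hz, hL_eq hB hg n hz, e, e]
  ring

/-- exact real solutions on the hyperbolic plane -/
structure EX (B : Set ℂ) (h : ℕ → ℝ) (w : ℤ → ℕ → ℂ → ℂ) (f : ℕ → ℂ → ℂ) : Prop where
  dec : Dec B h w f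
  re : ∀ n, ∀ z ∈ B, (starRingEnd ℂ) (f n z) = f n z
  pde : ∀ n, ∀ z ∈ B, ((z.im : ℂ)) ^ 2 * hL h f n z = - f n z

/-- the Killing operators -/
def K1 (h : ℕ → ℝ) (f : ℕ → ℂ → ℂ) : ℕ → ℂ → ℂ := hd h 1 f
def K2 (h : ℕ → ℝ) (f : ℕ → ℂ → ℂ) (n : ℕ) (z : ℂ) : ℂ :=
  (z.re : ℂ) * hd h 1 f n z + (z.im : ℂ) * hd h I f n z

lemma hd_real (hB : IsOpen B) {f : ℕ → ℂ → ℂ} (hf : ∀ n, ContDiffOn ℝ ∞ (f n) B)
    (hr : ∀ n, ∀ z ∈ B, (starRingEnd ℂ) (f n z) = f n z) (v : ℂ) (n : ℕ) {z : ℂ} (hz : z ∈ B) :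
    (starRingEnd ℂ) (hd h v f n z) = hd h v f n z := by
  simp only [hd]
  rw [map_mul, conj_ofReal, ← fd_conj (fda hB (hf n) hz), fd_cg hB (hr n) hz]

lemma hd_pde (H : SY B Complex.im h w) {f : ℕ → ℂ → ℂ} (hf : EX B h w f) (v : ℂ) (n : ℕ)
    {z : ℂ} (hz : z ∈ B) : (z.im : ℂ) ^ 2 * hL h (hd h v f) n z =
      - hd h v f n z - 2 * (z.im : ℂ) * v.im * ((h n : ℂ) * hL h f n z) := by
  have hB := H.op
  have sf := (hf.dec.m H).sm
  have sl : ∀ n, ContDiffOn ℝ ∞ (hL h f n) B := fun n => contDiffOn_const.mul (clap hB (sf n))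
  have hy : ContDiffOn ℝ ∞ (fun z : ℂ => (z.im : ℂ)) B := sim.contDiffOn
  have hy2 : ContDiffOn ℝ ∞ (fun z : ℂ => (z.im : ℂ) ^ 2) B := hy.pow 2
  rw [hL_hd hB sf v n z hz]
  have e1 := hd_congr (h := h) hB hf.pde v n z hz
  rw [hd_mul hB hy2 sl v n hz] at e1
  have e2 : hd h v (fun n z => - f n z) n z = - hd h v f n z := by
    simp only [hd]
    have : (fun z => - f n z) = fun z => (-1 : ℂ) * f n z := by funext z; ring
    rw [this, fd_cm (fda hB (sf n) hz)]; ring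
  have e3 : fderiv ℝ (fun z : ℂ => (z.im : ℂ) ^ 2) z v = 2 * (z.im : ℂ) * v.im := by
    have : (fun z : ℂ => (z.im : ℂ) ^ 2) = fun z : ℂ => (z.im : ℂ) * (z.im : ℂ) := by
      funext z; ring
    rw [this, fderiv_fun_mul (fda hB hy hz) (fda hB hy hz)]
    simp only [add_apply, smul_apply, smul_eq_mul, fim]; ring
  rw [e2, e3] at e1
  linear_combination e1

lemma EX.K1 (H : SY B Complex.im h w) {f : ℕ → ℂ → ℂ} (hf : EX B h w f) :
    EX B h w (HY.K1 h f) := by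
  refine ⟨hf.dec.d1 H, fun n z hz => hd_real H.op (hf.dec.m H).sm hf.re 1 n hz, fun n z hz => ?_⟩
  have := hd_pde H hf 1 n hz
  simp only [HY.K1]
  rw [this]
  simp

lemma EX.K2 (H : SY B Complex.im h w) {f : ℕ → ℂ → ℂ} (hf : EX B h w f) :
    EX B h w (HY.K2 h f) := by
  have hB := H.op
  have sf := (hf.dec.m H).sm
  refine ⟨((hf.dec.d1 H).smul sre.contDiffOn).add ((hf.dec.dI H).smul sim.contDiffOn),
    fun n z hz => ?_, fun n z hz => ?_⟩
  · simp only [HY.K2]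
    rw [map_add, map_mul, map_mul, conj_ofReal, conj_ofReal, hd_real hB sf hf.re 1 n hz,
      hd_real hB sf hf.re I n hz]
  · have s1 := hd_sm (h := h) hB sf 1
    have sI := hd_sm (h := h) hB sf I
    have e0 : hL h (HY.K2 h f) n z = hL h (fun n z => (z.re : ℂ) * hd h 1 f n z) n z +
        hL h (fun n z => (z.im : ℂ) * hd h I f n z) n z :=
      hL_add hB (fun n => sre.contDiffOn.mul (s1 n)) (fun n => sim.contDiffOn.mul (sI n)) n hz
    have e1 := hL_re (h := h) hB s1 n hz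
    have e2 := hL_im (h := h) hB sI n hz
    have e3 := hL_eq (h := h) hB sf n hz
    have e4 := hd_pde H hf 1 n hz
    have e5 := hd_pde H hf I n hz
    simp only [one_im, I_im, ofReal_one, ofReal_zero, mul_zero, mul_one, zero_mul, sub_zero] at e4 e5
    rw [e0, e1, e2]
    simp only [HY.K2]
    linear_combination (z.re : ℂ) * e4 + (z.im : ℂ) * e5 -
      (2 * (h n : ℂ) * (z.im : ℂ) ^ 2) * e3

/-- combinations of exact solutions -/
inductive RP (B : Set ℂ) (h : ℕ → ℝ) (w : ℤ → ℕ → ℂ → ℂ) : (ℕ → ℂ → ℂ) → Prop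
  | ex {f : ℕ → ℂ → ℂ} : EX B h w f → RP B h w f
  | add {f g : ℕ → ℂ → ℂ} : RP B h w f → RP B h w g → RP B h w (fun n z => f n z + g n z)
  | smul {f : ℕ → ℂ → ℂ} {c : ℂ → ℂ} : ContDiffOn ℝ ∞ c B → RP B h w f →
      RP B h w (fun n z => c z * f n z)
  | err {e : ℕ → ℂ → ℂ} : M2C B h e → RP B h w (fun n z => (h n : ℂ) * e n z)
  | congr {f g : ℕ → ℂ → ℂ} : RP B h w f → (∀ n, ∀ z ∈ B, g n z = f n z) → RP B h w g

lemma RP.dec {f : ℕ → ℂ → ℂ} (hf : RP B h w f) : Dec B h w f := by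
  induction hf with
  | ex H => exact H.dec
  | add _ _ h1 h2 => exact h1.add h2
  | smul hc _ h1 => exact h1.smul hc
  | err he => exact Dec.err he
  | congr _ e h1 => exact h1.congr e

lemma RP.cmul {f : ℕ → ℂ → ℂ} (hf : RP B h w f) (c : ℂ) : RP B h w (fun n z => c * f n z) :=
  RP.smul (c := fun _ => c) contDiffOn_const hf

lemma sP_K {f : ℕ → ℂ → ℂ} (n : ℕ) (z : ℂ) : sP Complex.im h f n z =
    ((z.im : ℂ) + I * z.re) * K1 h f n z + (-I) * K2 h f n z := by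
  simp only [TH294.RS.sP, DP, dd, dx, dy, K1, K2, hd]; ring

lemma sM_K {f : ℕ → ℂ → ℂ} (n : ℕ) (z : ℂ) : sM Complex.im h f n z =
    ((z.im : ℂ) - I * z.re) * K1 h f n z + I * K2 h f n z := by
  simp only [TH294.RS.sM, DM, db, dx, dy, K1, K2, hd]; ring

lemma RP.sP (H : SY B Complex.im h w) {f : ℕ → ℂ → ℂ} (hf : RP B h w f) :
    RP B h w (sP Complex.im h f) := by
  have hB := H.op
  induction hf with
  | @ex f hf =>
    refine (((RP.ex (hf.K1 H)).smul (sim.contDiffOn.add (contDiffOn_const.mul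
      sre.contDiffOn))).add ((RP.ex (hf.K2 H)).cmul (-I))).congr fun n z _ => sP_K n z
  | @add f g hf hg h1 h2 =>
    refine (h1.add h2).congr fun n z hz => ?_
    have d1 := fda hB ((hf.dec.m H).sm n) hz
    have d2 := fda hB ((hg.dec.m H).sm n) hz
    simp only [TH294.RS.sP, DP]
    rw [dd_add d1 d2]; ring
  | @smul f c hc hf h1 =>
    refine ((h1.smul hc).add (RP.err (((hf.dec.m H).smulc hB H.hlim (dd_sm hB hc)).smulc hB H.hlim
      (cxa H.sa)))).congr fun n z hz => ?_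
    have d1 := fda hB ((hf.dec.m H).sm n) hz
    have d2 := fda hB hc hz
    simp only [TH294.RS.sP, DP]
    rw [dd_mul d2 d1]; ring
  | @err e he =>
    refine (RP.err (he.sP hB H.hlim H.sa)).congr fun n z hz => ?_
    have d1 := fda hB (he.sm n) hz
    simp only [TH294.RS.sP, DP]
    rw [dd_cm d1]; ring
  | @congr f g hf e h1 =>
    refine h1.congr fun n z hz => ?_
    simp only [TH294.RS.sP, DP]
    rw [dd_cg hB (e n) hz]

lemma RP.conj (H : SY B Complex.im h w) {f : ℕ → ℂ → ℂ} (hf : RP B h w f) :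
    RP B h w (fun n z => (starRingEnd ℂ) (f n z)) := by
  have hB := H.op
  induction hf with
  | @ex f hf => exact (RP.ex hf).congr hf.re
  | @add f g hf hg h1 h2 =>
    refine (h1.add h2).congr fun n z hz => ?_
    rw [map_add]
  | @smul f c hc hf h1 =>
    refine (h1.smul (conj_sm hc)).congr fun n z hz => ?_
    rw [map_mul]
  | @err e he =>
    refine (RP.err (he.conj hB)).congr fun n z hz => ?_
    rw [map_mul, conj_ofReal]
  | @congr f g hf e h1 =>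
    refine h1.congr fun n z hz => ?_
    rw [e n z hz]

/-- the ladder consists of combinations of exact solutions -/
lemma RP.W (H : SY B Complex.im h w) (h0 : EX B h w (w 0)) (k : ℤ) : RP B h w (w k) := by
  have hn : ∀ k : ℕ, RP B h w (w (k : ℤ)) := by
    intro k
    induction k with
    | zero => exact RP.ex h0
    | succ k ih =>
      obtain ⟨e, he, he'⟩ := H.up (k : ℤ)
      refine ((ih.sP H).add ((RP.err he).cmul (-1))).congr fun n z hz => ?_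
      have := he' n z hz
      simp only [TH294.RS.sP]
      push_cast
      linear_combination -this
  rcases Int.eq_nat_or_neg k with ⟨m, rfl | rfl⟩
  · exact hn m
  · refine (((hn m).conj H).cmul ((-1) ^ m)).congr fun n z hz => ?_
    have h1 := H.cj m n z hz
    rw [Int.natAbs_natCast] at h1
    have hs : ((-1 : ℂ) ^ m) * (-1) ^ m = 1 := by rw [← mul_pow]; simp
    rw [h1, ← mul_assoc, hs, one_mul]

/-- the Jacobian form -/
def Jm (h : ℕ → ℝ) (f g : ℕ → ℂ → ℂ) (n : ℕ) (z : ℂ) : ℂ :=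
  sP Complex.im h f n z * sM Complex.im h g n z - sM Complex.im h f n z * sP Complex.im h g n z

end

end Pool.Agent.Y265.HY
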