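import Pool.Agent.Y265.HY.C

/-! The projective (Klein) model of the hyperbolic plane and the null form lemma. -/
set_option autoImplicit false
open MeasureTheory Filter Topology Complex
open scoped ContDiff Manifold

namespace Pool.Agent.Y265.HY

open Pool.Agent.W745.RW Pool.Agent.TH294.RS
open Pool.Agent.Y265.RW (cutoff DF L1b UG unifG null_df int_mul int_mulr)

noncomputable section

/-- the upper half plane to the parabola model -/
def Fl (z : ℂ) : ℂ := (z.re : ℂ) + ((z.re ^ 2 + z.im ^ 2 : ℝ) : ℂ) * I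
/-- its inverse -/
def Fi (w : ℂ) : ℂ := (w.re : ℂ) + ((Real.sqrt (w.im - w.re ^ 2) : ℝ) : ℂ) * I
def PB : Set ℂ := {w | w.re ^ 2 < w.im}
def UH : Set ℂ := {z | 0 < z.im}

lemma Fl_re (z : ℂ) : (Fl z).re = z.re := by simp [Fl, ← ofReal_pow]
lemma Fl_im (z : ℂ) : (Fl z).im = z.re ^ 2 + z.im ^ 2 := by
  unfold Fl
  rw [add_im, ofReal_im, zero_add, mul_im, ofReal_re, ofReal_im, I_re, I_im]; ring
lemma Fi_re (w : ℂ) : (Fi w).re = w.re := by simp [Fi]
lemma Fi_im (w : ℂ) : (Fi w).im = Real.sqrt (w.im - w.re ^ 2) := by simp [Fi]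

lemma Fi_Fl {z : ℂ} (hz : z ∈ UH) : Fi (Fl z) = z := by
  have hz' : 0 < z.im := hz
  apply Complex.ext
  · rw [Fi_re, Fl_re]
  · rw [Fi_im, Fl_im, Fl_re, add_sub_cancel_left, Real.sqrt_sq hz'.le]

lemma Fl_Fi {w : ℂ} (hw : w ∈ PB) : Fl (Fi w) = w := by
  have hw' : w.re ^ 2 < w.im := hw
  apply Complex.ext
  · rw [Fl_re, Fi_re]
  · rw [Fl_im, Fi_re, Fi_im, Real.sq_sqrt (by linarith)]; ring

lemma Fl_mem {z : ℂ} (hz : z ∈ UH) : Fl z ∈ PB := by
  have hz' : 0 < z.im := hz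
  show (Fl z).re ^ 2 < (Fl z).im
  rw [Fl_re, Fl_im]
  nlinarith [mul_pos hz' hz']

lemma Fi_mem {w : ℂ} (hw : w ∈ PB) : Fi w ∈ UH := by
  have hw' : w.re ^ 2 < w.im := hw
  show 0 < (Fi w).im
  rw [Fi_im]
  exact Real.sqrt_pos.2 (by linarith)

lemma PB_open : IsOpen PB := isOpen_lt (continuous_re.pow 2) continuous_im
lemma UH_open : IsOpen UH := isOpen_lt continuous_const continuous_im

lemma Fl_sm : ContDiff ℝ ∞ Fl := by
  unfold Fl
  refine sre.add (ContDiff.mul (ofRealCLM.contDiff.comp ?_) contDiff_const)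
  exact (reCLM.contDiff.pow 2).add (imCLM.contDiff.pow 2)

lemma Fi_sm : ContDiffOn ℝ ∞ Fi PB := by
  unfold Fi
  refine sre.contDiffOn.add (ContDiffOn.mul (ofRealCLM.contDiff.comp_contDiffOn ?_) contDiffOn_const)
  refine ContDiffOn.sqrt ((imCLM.contDiff.sub (reCLM.contDiff.pow 2)).contDiffOn) ?_
  intro w hw
  have hw' : w.re ^ 2 < w.im := hw
  have : 0 < w.im - w.re ^ 2 := by linarith
  exact this.ne'

/-- the derivative of `Fl` -/
def FlD (z : ℂ) : ℂ →L[ℝ] ℂ := (ofRealCLM.comp reCLM) +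
  (ofRealCLM.comp ((2 * z.re) • reCLM + (2 * z.im) • imCLM)).smulRight I

lemma Fl_d (z : ℂ) : HasFDerivAt Fl (FlD z) z := by
  have h1 : HasFDerivAt (fun z : ℂ => z.re ^ 2 + z.im ^ 2) ((2 * z.re) • reCLM + (2 * z.im) • imCLM) z := by
    have a1 := (reCLM.hasFDerivAt (x := z)).pow 2
    have a2 := (imCLM.hasFDerivAt (x := z)).pow 2
    refine (a1.add a2).congr_fderiv ?_
    ext v <;> simp
  have h2 := (ofRealCLM.hasFDerivAt).comp z h1
  have h3 := h2.mul_const I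
  have h4 : HasFDerivAt (fun z : ℂ => (z.re : ℂ)) (ofRealCLM.comp reCLM) z :=
    (ofRealCLM.comp reCLM).hasFDerivAt
  refine (h4.add h3).congr_fderiv ?_
  unfold FlD
  congr 1
  ext v
  simp
  ring

lemma FlD_one (z : ℂ) : FlD z 1 = 1 + 2 * z.re * I := by simp [FlD]
lemma FlD_I (z : ℂ) : FlD z I = 2 * z.im * I := by simp [FlD]

lemma FlD_det (z : ℂ) : (FlD z).det = 2 * z.im := by
  have : (FlD z).det = LinearMap.det ((FlD z : ℂ →L[ℝ] ℂ) : ℂ →ₗ[ℝ] ℂ) := rfl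
  rw [this, ← LinearMap.det_toMatrix Complex.basisOneI, Matrix.det_fin_two]
  simp only [LinearMap.toMatrix_apply, Complex.coe_basisOneI_repr, Complex.coe_basisOneI,
    Matrix.cons_val_zero, Matrix.cons_val_one, ContinuousLinearMap.coe_coe, FlD_one, FlD_I]
  simp

lemma cov {E : Type*} [NormedAddCommGroup E] [NormedSpace ℝ E] {s : Set ℂ}
    (hs : MeasurableSet s) (hU : s ⊆ UH) (g : ℂ → E) :
    ∫ w in Fl '' s, g w = ∫ z in s, (2 * z.im) • g (Fl z) := by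
  rw [integral_image_eq_integral_abs_det_fderiv_smul volume hs
    (fun z _ => (Fl_d z).hasFDerivWithinAt) (fun z hz z' hz' e => by
      rw [← Fi_Fl (hU hz), e, Fi_Fl (hU hz')]) g]
  refine setIntegral_congr_fun hs fun z hz => ?_
  have : 0 < z.im := hU hz
  simp only [FlD_det]
  rw [abs_of_pos (by positivity)]

lemma Fl_im_UH : Fl '' UH = PB := by
  ext w
  constructor
  · rintro ⟨z, hz, rfl⟩; exact Fl_mem hz
  · intro hw; exact ⟨Fi w, Fi_mem hw, Fl_Fi hw⟩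

lemma TF_of {B : Set ℂ} (hB : IsOpen B) {f : ℂ → ℝ} {K : Set ℂ} (hK : IsCompact K) (hKB : K ⊆ B)
    (hs : ∀ z, z ∉ K → f z = 0) (hf : ContDiffOn ℝ ∞ f B) : TF B f := by
  refine ⟨?_, HasCompactSupport.intro hK hs, ?_⟩
  · rw [contDiff_iff_contDiffAt]
    intro z
    by_cases hz : z ∈ B
    · exact hf.contDiffAt (hB.mem_nhds hz)
    · have h1 : f =ᶠ[𝓝 z] fun _ => 0 := by
        filter_upwards [hK.isClosed.isOpen_compl.mem_nhds (fun h => hz (hKB h))] with x hx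
        exact hs x hx
      exact contDiffAt_const.congr_of_eventuallyEq h1
  · refine (closure_minimal ?_ hK.isClosed).trans hKB
    intro z hz
    by_contra h
    exact hz (hs z h)

/-- transport of test functions from the parabola model -/
def psh (φ : ℂ → ℝ) (z : ℂ) : ℝ := UH.indicator (fun z => 2 * z.im * φ (Fl z)) z
/-- transport of test functions to the parabola model -/
def plb (φ : ℂ → ℝ) (w : ℂ) : ℝ := PB.indicator (fun w => (2 * (Fi w).im)⁻¹ * φ (Fi w)) w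

lemma psh_tf {V B : Set ℂ} {φ : ℂ → ℝ} (hB : IsOpen B) (hBU : B ⊆ UH) (hVP : V ⊆ PB)
    (hm : ∀ w ∈ V, Fi w ∈ B) (hφ : TF V φ) : TF B (psh φ) := by
  have hK : IsCompact (Fi '' tsupport φ) :=
    hφ.2.1.image_of_continuousOn (Fi_sm.continuousOn.mono (hφ.2.2.trans hVP))
  refine TF_of hB hK ?_ ?_ ?_
  · rintro z ⟨w, hw, rfl⟩; exact hm w (hφ.2.2 hw)
  · intro z hz
    unfold psh
    by_cases hU : z ∈ UH
    · rw [Set.indicator_of_mem hU]
      have : Fl z ∉ tsupport φ := fun h => hz ⟨Fl z, h, Fi_Fl hU⟩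
      rw [image_eq_zero_of_notMem_tsupport this, mul_zero]
    · rw [Set.indicator_of_notMem hU]
  · have h1 : ContDiffOn ℝ ∞ (fun z => 2 * z.im * φ (Fl z)) B :=
      (((contDiff_const (c := (2 : ℝ))).mul imCLM.contDiff).mul (hφ.1.comp Fl_sm)).contDiffOn
    refine h1.congr fun z hz => ?_
    unfold psh
    rw [Set.indicator_of_mem (hBU hz)]

lemma plb_tf {V B : Set ℂ} {φ : ℂ → ℝ} (hV : IsOpen V) (hVP : V ⊆ PB) (hBU : B ⊆ UH)
    (hm : ∀ z ∈ B, Fl z ∈ V) (hφ : TF B φ) : TF V (plb φ) := by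
  have hK : IsCompact (Fl '' tsupport φ) := hφ.2.1.isCompact.image Fl_sm.continuous
  refine TF_of hV hK ?_ ?_ ?_
  · rintro z ⟨w, hw, rfl⟩; exact hm w (hφ.2.2 hw)
  · intro z hz
    unfold plb
    by_cases hU : z ∈ PB
    · rw [Set.indicator_of_mem hU]
      have : Fi z ∉ tsupport φ := fun h => hz ⟨Fi z, h, Fl_Fi hU⟩
      rw [image_eq_zero_of_notMem_tsupport this, mul_zero]
    · rw [Set.indicator_of_notMem hU]
  · have h1 : ContDiffOn ℝ ∞ (fun w => (2 * (Fi w).im)⁻¹ * φ (Fi w)) V := by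
      have f1 : ContDiffOn ℝ ∞ Fi V := Fi_sm.mono hVP
      refine ContDiffOn.mul (ContDiffOn.inv (contDiffOn_const.mul
        (imCLM.contDiff.comp_contDiffOn f1)) ?_) (hφ.1.comp_contDiffOn f1)
      intro w hw
      have : 0 < (Fi w).im := Fi_mem (hVP hw)
      have h2 : (0 : ℝ) < 2 * (Fi w).im := by positivity
      exact h2.ne'
    refine h1.congr fun z hz => ?_
    unfold plb
    rw [Set.indicator_of_mem (hVP hz)]

lemma psh_int {E : Type*} [NormedAddCommGroup E] [NormedSpace ℝ E] {φ : ℂ → ℝ}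
    (hφ : ∀ w, w ∉ PB → φ w = 0) (F : ℂ → E) :
    ∫ w, φ w • F (Fi w) = ∫ z, psh φ z • F z := by
  have e1 : ∫ w, φ w • F (Fi w) = ∫ w in PB, φ w • F (Fi w) :=
    (setIntegral_eq_integral_of_forall_compl_eq_zero (fun w hw => by rw [hφ w hw, zero_smul])).symm
  have e2 : ∫ z, psh φ z • F z = ∫ z in UH, psh φ z • F z :=
    (setIntegral_eq_integral_of_forall_compl_eq_zero (fun w hw => by
      unfold psh; rw [Set.indicator_of_notMem hw, zero_smul])).symm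
  rw [e1, e2, ← Fl_im_UH, cov UH_open.measurableSet subset_rfl]
  refine setIntegral_congr_fun UH_open.measurableSet fun z hz => ?_
  unfold psh
  rw [Fi_Fl hz, Set.indicator_of_mem hz, smul_smul]

lemma psh_plb {B : Set ℂ} {φ : ℂ → ℝ} (hBU : B ⊆ UH) (hφ : TF B φ) (z : ℂ) : psh (plb φ) z = φ z := by
  unfold psh
  by_cases hz : z ∈ UH
  · rw [Set.indicator_of_mem hz]
    unfold plb
    rw [Set.indicator_of_mem (Fl_mem hz), Fi_Fl hz]
    have : 0 < z.im := hz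
    field_simp
  · rw [Set.indicator_of_notMem hz]
    exact (TF.zero hφ (fun h => hz (hBU h))).symm

lemma plb_int {E : Type*} [NormedAddCommGroup E] [NormedSpace ℝ E] {B : Set ℂ} {φ : ℂ → ℝ}
    (hBU : B ⊆ UH) (hφ : TF B φ) (F : ℂ → E) :
    ∫ w, plb φ w • F (Fi w) = ∫ z, φ z • F z := by
  rw [psh_int (fun w hw => by unfold plb; rw [Set.indicator_of_notMem hw]) F]
  congr 1; funext z
  rw [psh_plb hBU hφ]

/-- the forward image of a set -/
def Fw (B : Set ℂ) : Set ℂ := PB ∩ Fi ⁻¹' B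

lemma Fw_open {B : Set ℂ} (hB : IsOpen B) : IsOpen (Fw B) :=
  Fi_sm.continuousOn.isOpen_inter_preimage PB_open hB

lemma Fw_mem {B : Set ℂ} (hBU : B ⊆ UH) {z : ℂ} (hz : z ∈ B) : Fl z ∈ Fw B :=
  ⟨Fl_mem (hBU hz), by show Fi (Fl z) ∈ B; rw [Fi_Fl (hBU hz)]; exact hz⟩

/-- weakly null sequences with good majorants -/
structure SU (B : Set ℂ) (p : ℕ → ℂ → ℂ) : Prop where
  sm : ∀ n, ContDiffOn ℝ ∞ (p n) B
  wn : WN B p
  mj : ∀ B' K : Set ℂ, IsOpen B' → IsCompact K → B' ⊆ K → K ⊆ B →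
    ∃ (m : ℕ → ℂ → ℝ) (C : ℝ), (∀ n, ContinuousOn (m n) B') ∧ (∀ n, ∀ z ∈ B', ‖p n z‖ ≤ m n z) ∧
      ∀ φ, TF B' φ → Tendsto (fun n => ∫ z, φ z * m n z) atTop (𝓝 (C * ∫ z, φ z))

lemma SU.ug {B : Set ℂ} (hB : IsOpen B) {p : ℕ → ℂ → ℂ} (hp : SU B p) : UG B p := by
  intro ψ hψ K hK ε hε
  obtain ⟨L, hL, h1, h2⟩ := exists_compact_between hψ.2.1.isCompact hB hψ.2.2
  obtain ⟨m, C, c1, c2, c3⟩ := hp.mj (interior L) L isOpen_interior hL interior_subset h2
  have hs : interior L ⊆ B := interior_subset.trans h2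
  exact unifG isOpen_interior p m C (fun n => (hp.sm n).continuousOn.mono hs) c1 c2
    (fun φ hφ => hp.wn.nul φ ⟨hφ.1, hφ.2.1, hφ.2.2.trans hs⟩) c3 ⟨hψ.1, hψ.2.1, h1⟩ hK hε

lemma SU.tr {B : Set ℂ} (hB : IsOpen B) (hBU : B ⊆ UH) {p : ℕ → ℂ → ℂ} (hp : SU B p) :
    SU (Fw B) (fun n w => p n (Fi w)) := by
  have hm : ∀ w ∈ Fw B, Fi w ∈ B := fun w hw => hw.2
  have hVP : Fw B ⊆ PB := Set.inter_subset_left
  refine ⟨fun n => (hp.sm n).comp (Fi_sm.mono hVP) hm, ⟨fun n => (hp.sm n).continuousOn.comp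
    (Fi_sm.continuousOn.mono hVP) hm, fun φ hφ => ?_⟩, ?_⟩
  · refine Tendsto.congr (fun n => ?_) (hp.wn.nul _ (psh_tf hB hBU hVP hm hφ))
    have := psh_int (fun w hw => TF.zero hφ (fun h => hw (hVP h))) (p n)
    simp only [real_smul] at this
    exact this.symm
  · intro V' K hV' hK hVK hKF
    set B' : Set ℂ := UH ∩ Fl ⁻¹' V' with hB'
    have oB' : IsOpen B' := UH_open.inter (hV'.preimage Fl_sm.continuous)
    have hK' : IsCompact (Fi '' K) := hK.image_of_continuousOn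
      (Fi_sm.continuousOn.mono (hKF.trans hVP))
    have hBK : B' ⊆ Fi '' K := by
      intro z hz
      exact ⟨Fl z, hVK hz.2, Fi_Fl hz.1⟩
    obtain ⟨m, C, c1, c2, c3⟩ := hp.mj B' (Fi '' K) oB' hK' hBK (by
      rintro z ⟨w, hw, rfl⟩; exact hm w (hKF hw))
    have hVP' : V' ⊆ PB := hVK.trans (hKF.trans hVP)
    have hm' : ∀ w ∈ V', Fi w ∈ B' := by
      intro w hw
      refine ⟨Fi_mem (hVP' hw), ?_⟩
      show Fl (Fi w) ∈ V'
      rw [Fl_Fi (hVP' hw)]; exact hw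
    refine ⟨fun n w => m n (Fi w), C, fun n => (c1 n).comp (Fi_sm.continuousOn.mono hVP') hm',
      fun n w hw => c2 n _ (hm' w hw), fun φ hφ => ?_⟩
    have t := psh_tf oB' Set.inter_subset_left hVP' hm' hφ
    have z0 : ∀ w, w ∉ PB → φ w = 0 := fun w hw => TF.zero hφ (fun h => hw (hVP' h))
    have e1 := psh_int z0 (fun _ => (1 : ℝ))
    simp only [smul_eq_mul, mul_one] at e1
    rw [e1]
    refine Tendsto.congr (fun n => ?_) (c3 _ t)
    have := psh_int z0 (m n)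
    simp only [smul_eq_mul] at this
    exact this.symm

lemma L1b_tr {B : Set ℂ} (hBU : B ⊆ UH) {p : ℕ → ℂ → ℂ}
    (hs : ∀ n, ContDiffOn ℝ ∞ (p n) B) (hp : L1b B p) : L1b (Fw B) (fun n w => p n (Fi w)) := by
  intro K hK hKF
  have hKP : K ⊆ PB := hKF.trans Set.inter_subset_left
  have hK' : IsCompact (Fi '' K) := hK.image_of_continuousOn (Fi_sm.continuousOn.mono hKP)
  have hKB : Fi '' K ⊆ B := by
    rintro z ⟨w, hw, rfl⟩; exact (hKF hw).2
  obtain ⟨C, hC⟩ := hp _ hK' hKB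
  obtain ⟨M, hM⟩ := hK'.exists_bound_of_continuousOn
    ((continuous_const.mul continuous_im).continuousOn (f := fun z : ℂ => 2 * z.im))
  have eK : Fl '' (Fi '' K) = K := by
    ext w
    constructor
    · rintro ⟨z, ⟨w', hw', rfl⟩, rfl⟩
      rw [Fl_Fi (hKP hw')]; exact hw'
    · intro hw
      exact ⟨Fi w, ⟨w, hw, rfl⟩, Fl_Fi (hKP hw)⟩
  refine ⟨|M| * C, hC.mono fun n hn => ?_⟩
  have e : ∫ w in K, ‖p n (Fi w)‖ = ∫ z in Fi '' K, (2 * z.im) • ‖p n z‖ := by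
    conv_lhs => rw [← eK]
    rw [cov hK'.measurableSet (hKB.trans hBU)]
    refine setIntegral_congr_fun hK'.measurableSet fun z hz => ?_
    rw [Fi_Fl (hBU (hKB hz))]
  rw [e]
  have cn : ContinuousOn (fun z => ‖p n z‖) (Fi '' K) := ((hs n).continuousOn.mono hKB).norm
  calc ∫ z in Fi '' K, (2 * z.im) • ‖p n z‖ ≤ ∫ z in Fi '' K, |M| * ‖p n z‖ := by
        refine intK_mono hK' ?_ (continuousOn_const.mul cn) (fun z hz => ?_)
        · exact ((continuous_const.mul continuous_im).continuousOn).smul cn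
        · rw [smul_eq_mul]
          refine mul_le_mul_of_nonneg_right ?_ (norm_nonneg _)
          exact (le_abs_self _).trans ((hM z hz).trans (le_abs_self M))
    _ = |M| * ∫ z in Fi '' K, ‖p n z‖ := integral_const_mul _ _
    _ ≤ |M| * C := mul_le_mul_of_nonneg_left hn (abs_nonneg _)

/-- divergence free symmetric tensors of the hyperbolic plane, in projective coordinates -/
def HDF (B : Set ℂ) (p q r : ℂ → ℂ) : Prop :=
  ContDiffOn ℝ ∞ p B ∧ ContDiffOn ℝ ∞ q B ∧ ContDiffOn ℝ ∞ r B ∧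
  ∀ z ∈ B, 2 * (z.im : ℂ) * dx p z - 2 * (z.re : ℂ) * dy p z + dy q z = 0 ∧
    2 * (z.im : ℂ) * dx q z - 2 * (z.re : ℂ) * dy q z + dy r z = 0

lemma Fi_d {w : ℂ} (hw : w ∈ PB) : fderiv ℝ Fi w 1 = 1 - (w.re / (Fi w).im : ℝ) • I ∧
    fderiv ℝ Fi w I = (1 / (2 * (Fi w).im) : ℝ) • I := by
  have hw' : w.re ^ 2 < w.im := hw
  have hne : w.im - w.re ^ 2 ≠ 0 := by
    have : 0 < w.im - w.re ^ 2 := by linarith
    exact this.ne'
  have h1 : HasFDerivAt (fun z : ℂ => z.im - z.re ^ 2) (imCLM - (2 * w.re) • reCLM) w := by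
    have a1 := (reCLM.hasFDerivAt (x := w)).pow 2
    have a2 := (imCLM.hasFDerivAt (x := w))
    refine (a2.sub a1).congr_fderiv ?_
    ext v <;> simp
  have h2 := h1.sqrt hne
  have h3 := ((ofRealCLM.hasFDerivAt).comp w h2).mul_const I
  have h4 : HasFDerivAt (fun z : ℂ => (z.re : ℂ)) (ofRealCLM.comp reCLM) w :=
    (ofRealCLM.comp reCLM).hasFDerivAt
  have h5 : HasFDerivAt Fi _ w := h4.add h3
  have hp : 0 < Real.sqrt (w.im - w.re ^ 2) := Real.sqrt_pos.2 (by linarith)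
  rw [h5.fderiv, Fi_im]
  constructor
  · simp
    field_simp
    ring
  · simp
    field_simp

lemma HDF.df {B : Set ℂ} (hB : IsOpen B) {p q r : ℂ → ℂ} (H : HDF B p q r) :
    DF (Fw B) (fun w => p (Fi w)) (fun w => q (Fi w)) (fun w => r (Fi w)) := by
  obtain ⟨s1, s2, s3, he⟩ := H
  have hm : ∀ w ∈ Fw B, Fi w ∈ B := fun w hw => hw.2
  have hVP : Fw B ⊆ PB := Set.inter_subset_left
  have fs : ContDiffOn ℝ ∞ Fi (Fw B) := Fi_sm.mono hVP
  refine ⟨s1.comp fs hm, s2.comp fs hm, s3.comp fs hm, fun w hw => ?_⟩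
  obtain ⟨d1, d2⟩ := Fi_d (hVP hw)
  have dF := fda (Fw_open hB) fs hw
  have ch : ∀ {g : ℂ → ℂ}, ContDiffOn ℝ ∞ g B → ∀ v, fderiv ℝ (fun w => g (Fi w)) w v =
      fderiv ℝ g (Fi w) (fderiv ℝ Fi w v) := by
    intro g hg v
    have := fderiv_comp w (fda hB hg (hm w hw)) dF
    change fderiv ℝ (fun w => g (Fi w)) w = _ at this
    rw [this]; rfl
  obtain ⟨e1, e2⟩ := he _ (hm w hw)
  have l1 : ∀ (g : ℂ → ℂ) (t : ℝ), fderiv ℝ g (Fi w) (1 - t • I) =
      fderiv ℝ g (Fi w) 1 - (t : ℂ) * fderiv ℝ g (Fi w) I := by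
    intro g t; rw [map_sub, map_smul, real_smul]
  have l2 : ∀ (g : ℂ → ℂ) (t : ℝ), fderiv ℝ g (Fi w) (t • I) = (t : ℂ) * fderiv ℝ g (Fi w) I := by
    intro g t; rw [map_smul, real_smul]
  simp only [dx, dy] at e1 e2 ⊢
  rw [ch s1, ch s2, ch s2, ch s3, d1, d2, l1, l2, l1, l2]
  have hy : ((Fi w).im : ℂ) ≠ 0 := by
    have : 0 < (Fi w).im := Fi_mem (hVP hw)
    exact_mod_cast this.ne'
  rw [Fi_re] at e1 e2
  push_cast
  constructor
  · field_simp
    linear_combination e1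
  · field_simp
    linear_combination e2

/-- the null form lemma on the hyperbolic plane -/
theorem null_hyp {B : Set ℂ} (hB : IsOpen B) (hBU : B ⊆ UH) {φ : ℂ → ℝ} (hφ : TF B φ)
    {p q r p' q' r' : ℕ → ℂ → ℂ} (h : ∀ n, HDF B (p n) (q n) (r n))
    (h' : ∀ n, HDF B (p' n) (q' n) (r' n))
    (bp : L1b B p) (bq : L1b B q) (br : L1b B r) (up : SU B p') (uq : SU B q') (ur : SU B r') :
    Null (fun n => ∫ z, (φ z : ℂ) * (p n z * r' n z + r n z * p' n z - 2 * q n z * q' n z)) := by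
  have oF := Fw_open hB
  have t := plb_tf oF Set.inter_subset_left hBU (fun z hz => Fw_mem hBU hz) hφ
  have key := null_df oF t (fun n => (h n).df hB) (fun n => (h' n).df hB)
    (L1b_tr hBU (fun n => (h n).1) bp) (L1b_tr hBU (fun n => (h n).2.1) bq)
    (L1b_tr hBU (fun n => (h n).2.2.1) br) ((up.tr hB hBU).ug oF) ((uq.tr hB hBU).ug oF)
    ((ur.tr hB hBU).ug oF)
  refine Tendsto.congr (fun n => ?_) key
  have := plb_int hBU hφ (fun z => p n z * r' n z + r n z * p' n z - 2 * q n z * q' n z)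
  simp only [real_smul] at this
  exact this

end

end Pool.Agent.Y265.HY
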