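import Pool.Agent.Y265.HY.JC5

/-! Joint cubic moments: all sequences. -/
set_option autoImplicit false
open MeasureTheory Filter Topology Complex Set
open scoped ContDiff Real Manifold

namespace Pool.Agent.Y265.HY.JC

open Pool.Agent.W745.RW Pool.Agent.TH294.RS Pool.Agent.Y265.HY Pool.Agent.Y265.HY.PS

noncomputable section

variable {Ω : Set ℂ} {lam mu : ℕ → ℝ} {u g : ℕ → ℂ → ℝ}

/-- the ratio has a limit along a subsequence -/
lemma sub_ratio (r : ℕ → ℝ) (r0 : ∀ n, 0 ≤ r n) (ns : ℕ → ℕ) :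
    ∃ σ : ℕ → ℕ, StrictMono σ ∧ (Tendsto (fun n => r (ns (σ n))) atTop atTop ∨
      ∃ R : ℝ, 0 ≤ R ∧ Tendsto (fun n => r (ns (σ n))) atTop (𝓝 R)) := by
  by_cases hbd : ∃ C : ℝ, ∃ᶠ n in atTop, r (ns n) ≤ C
  · obtain ⟨C, hC⟩ := hbd
    obtain ⟨τ, hτ, hτC⟩ := extraction_of_frequently_atTop hC
    obtain ⟨R, hR, σ, hσ, hσR⟩ := isCompact_Icc.tendsto_subseq (s := Set.Icc (0 : ℝ) C)
      (x := fun n => r (ns (τ n))) (fun n => ⟨r0 _, hτC n⟩)
    exact ⟨τ ∘ σ, hτ.comp hσ, Or.inr ⟨R, hR.1, hσR⟩⟩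
  · push Not at hbd
    refine ⟨id, strictMono_id, Or.inl ?_⟩
    rw [tendsto_atTop]
    exact fun C => (hbd C).mono fun n hn => hn.le

/-- admissible constants -/
def Ok (c : ℝ) (r : ℕ → ℝ) : Prop :=
  c = 2 / 3 ∨ (c = 1 / 3 ∧ ∃ δ : ℝ, 0 < δ ∧ ∀ᶠ n in atTop, δ ≤ r n) ∨
    (c = 0 ∧ ∃ δ : ℝ, 0 < δ ∧ ∀ᶠ n in atTop, δ ≤ r n ∧ δ ≤ |r n - 4|)

lemma Ok.bd {c : ℝ} {r : ℕ → ℝ} (h : Ok c r) : 0 ≤ c ∧ c ≤ 1 := by
  rcases h with h | ⟨h, -⟩ | ⟨h, -⟩ <;> rw [h] <;> norm_num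

lemma cR_nn (R : ℝ) : 0 ≤ cR R := by
  unfold cR; split_ifs <;> norm_num

lemma cR_le1 (R : ℝ) : cR R ≤ 2 / 3 := by
  unfold cR; split_ifs <;> norm_num

lemma Ok.le {c : ℝ} {r : ℕ → ℝ} (h : Ok c r) {σ : ℕ → ℕ} (hσ : Tendsto σ atTop atTop) {R : ℝ}
    (hR : Tendsto (fun n => r (σ n)) atTop (𝓝 R)) : cR R ≤ c := by
  rcases h with h | ⟨h, δ, hδ, h1⟩ | ⟨h, δ, hδ, h1⟩
  · rw [h]; exact cR_le1 R
  · have R1 : δ ≤ R := ge_of_tendsto hR (hσ.eventually h1)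
    have R0 : R ≠ 0 := by
      intro h0
      rw [h0] at R1
      linarith
    rw [h]
    unfold cR
    rw [if_neg R0]
    split_ifs <;> norm_num
  · have R1 : δ ≤ R := ge_of_tendsto hR (hσ.eventually (h1.mono fun n hn => hn.1))
    have R2 : δ ≤ |R - 4| :=
      ge_of_tendsto ((hR.sub_const 4).abs) (hσ.eventually (h1.mono fun n hn => hn.2))
    have R0 : R ≠ 0 := by
      intro h0
      rw [h0] at R1
      linarith
    have R4 : R ≠ 4 := by
      intro h4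
      rw [h4] at R2
      simp at R2
      linarith
    rw [h]
    unfold cR
    rw [if_neg R0, if_neg R4]

/-- **Joint cubic moments**, nonnegative test functions -/
theorem JD.all (D : JD Ω lam mu u g) {φ : ℂ → ℝ} (hφ : TF Ω φ) (h0 : ∀ z, 0 ≤ φ z) {c : ℝ}
    (hc : Ok c (fun n => mu n / lam n)) {ε : ℝ} (hε : 0 < ε) :
    ∀ᶠ n in atTop, JJ3 φ (u n) (g n) ^ 2 ≤
      (1 + ε) * c * eX φ (u n) * mS φ (g n) + ε := by
  by_contra hcon
  rw [not_eventually] at hcon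
  obtain ⟨ns, hns', hnsf⟩ := extraction_of_frequently_atTop hcon
  have hns := hns'.tendsto_atTop
  obtain ⟨σ, hσ, hσ2⟩ := sub_ratio (fun n => mu n / lam n)
    (fun n => div_nonneg (D.mp n).le (D.lp n).le) ns
  have hs : Tendsto (fun n => ns (σ n)) atTop atTop := hns.comp hσ.tendsto_atTop
  have D1 := D.cmp hs
  have c0 := hc.bd
  obtain ⟨C, hC0, hC⟩ := D1.f5 hφ
  obtain ⟨t, ht⟩ : ∃ t, t = ε / (2 * (1 + ε) * (C + 1)) := ⟨_, rfl⟩
  have tp : 0 < t := by rw [ht]; positivity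
  have low := D1.low hφ h0 tp
  have rhs : ∀ᶠ n in atTop, ∀ x : ℝ, 0 ≤ x → x ≤ 1 + ε → -(ε / 2) ≤
      x * eX φ (u (ns (σ n))) * mS φ (g (ns (σ n))) := by
    filter_upwards [low, hC] with n n1 n2 x x0 x1
    have m0 : 0 ≤ mS φ (g (ns (σ n))) :=
      integral_nonneg fun z => mul_nonneg (h0 z) (sq_nonneg _)
    have m1 : mS φ (g (ns (σ n))) ≤ C := n2
    have a1 : x * mS φ (g (ns (σ n))) ≤ (1 + ε) * (C + 1) :=
      mul_le_mul x1 (by linarith) m0 (by positivity)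
    have a2 : 0 ≤ x * mS φ (g (ns (σ n))) := mul_nonneg x0 m0
    have a3 := mul_le_mul_of_nonneg_left n1 a2
    have a4 : ((1 + ε) * (C + 1)) * t = ε / 2 := by rw [ht]; field_simp
    have a5 := mul_le_mul_of_nonneg_right a1 tp.le
    linarith
  rcases hσ2 with hR | ⟨R, hR0, hR⟩
  · have k := (D1.inf hφ h0 hR).pow 2
    rw [zero_pow two_ne_zero] at k
    obtain ⟨n, n1, n2⟩ := ((k.eventually (gt_mem_nhds (show (0 : ℝ) < ε / 2 by
      positivity))).and rhs).exists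
    apply hnsf (σ n)
    have n3 := n2 ((1 + ε) * c) (mul_nonneg (by positivity) c0.1) (by nlinarith [c0.2])
    linarith
  · have k := D1.lim hφ h0 hR0 hR (ε := ε / 2) (by positivity)
    have cc : cR R ≤ c := hc.le hs hR
    have cn := cR_nn R
    obtain ⟨n, n1, n2⟩ := (k.and rhs).exists
    apply hnsf (σ n)
    have n3 := n2 ((1 + ε) * c - (1 + ε / 2) * cR R) (by nlinarith) (by nlinarith [c0.2])
    have e : ((1 + ε) * c - (1 + ε / 2) * cR R) * eX φ (u (ns (σ n))) * mS φ (g (ns (σ n))) =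
        (1 + ε) * c * eX φ (u (ns (σ n))) * mS φ (g (ns (σ n))) -
        (1 + ε / 2) * cR R * eX φ (u (ns (σ n))) * mS φ (g (ns (σ n))) := by ring
    rw [e] at n3
    linarith

/-- away from the exceptional frequencies the joint moments vanish, for all test functions -/
theorem JD.off (D : JD Ω lam mu u g) {ψ : ℂ → ℝ} (hψ : TF Ω ψ) {δ : ℝ} (hδ : 0 < δ)
    (h : ∀ᶠ n in atTop, δ ≤ mu n / lam n ∧ δ ≤ |mu n / lam n - 4|) :
    Tendsto (fun n => JJ3 ψ (u n) (g n)) atTop (𝓝 0) := by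
  have key : ∀ φ, TF Ω φ → (∀ z, 0 ≤ φ z) →
      Tendsto (fun n => JJ3 φ (u n) (g n)) atTop (𝓝 0) := by
    intro φ hφ h0
    rw [Metric.tendsto_atTop']
    intro ε hε
    have k := D.all hφ h0 (c := 0) (Or.inr (Or.inr ⟨rfl, δ, hδ, h⟩)) (ε := ε ^ 2 / 2)
      (by positivity)
    rw [eventually_atTop] at k
    obtain ⟨N, hN⟩ := k
    refine ⟨N, fun n hn => ?_⟩
    have h1 := hN n hn.le
    rw [mul_zero, zero_mul, zero_mul, zero_add] at h1
    rw [dist_zero_right, Real.norm_eq_abs]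
    refine abs_lt_of_sq_lt_sq ?_ hε.le
    have : 0 < ε ^ 2 := by positivity
    linarith
  obtain ⟨χ, hχ, hχ0, -, hχ1⟩ := Pool.Agent.Y265.RW.cutoff D.op hψ.2.1 hψ.2.2
  obtain ⟨M', hM'⟩ := hψ.2.1.exists_bound_of_continuousOn hψ.1.continuous.continuousOn
  obtain ⟨M, hM⟩ : ∃ M, M = max M' 0 := ⟨_, rfl⟩
  have M0 : 0 ≤ M := by rw [hM]; exact le_max_right _ _
  have t1 : TF Ω (fun z => ψ z + M * χ z) := by
    refine ⟨hψ.1.add (contDiff_const.mul hχ.1), hψ.2.1.add (hχ.2.1.mul_left), ?_⟩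
    refine (tsupport_add _ _).trans (Set.union_subset hψ.2.2 ?_)
    exact (tsupport_mul_subset_right (f := fun _ : ℂ => M)).trans hχ.2.2
  have p1 : ∀ z, 0 ≤ ψ z + M * χ z := by
    intro z
    by_cases hz : z ∈ tsupport ψ
    · rw [hχ1 z hz, mul_one]
      have h1 := hM' z hz
      rw [Real.norm_eq_abs] at h1
      have h2 := neg_abs_le (ψ z)
      have h3 : M' ≤ M := by rw [hM]; exact le_max_left _ _
      linarith
    · rw [image_eq_zero_of_notMem_tsupport hz, zero_add]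
      exact mul_nonneg M0 (hχ0 z)
  have k := (key _ t1 p1).sub ((key χ hχ hχ0).const_mul M)
  rw [mul_zero, sub_zero] at k
  refine k.congr fun n => ?_
  have c0 : ContinuousOn (fun z => u n z ^ 2 * g n z) Ω :=
    ((D.us n).continuousOn.pow 2).mul (D.gs n).continuousOn
  have i1 : Integrable (fun z => (ψ z + M * χ z) * (u n z ^ 2 * g n z)) :=
    Pool.Agent.W311.RW.int_mul D.op t1 c0
  have i2 : Integrable (fun z => χ z * (u n z ^ 2 * g n z)) :=
    Pool.Agent.W311.RW.int_mul D.op hχ c0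
  simp only [JJ3]
  rw [← integral_const_mul, ← integral_sub i1 (i2.const_mul _)]
  congr 1; funext z; ring

end

end Pool.Agent.Y265.HY.JC
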