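import Pool.Agent.TH421.DF.Main
import Pool.Agent.Y265.HY.JC6

/-! Decoupling of `f²` from products of slower eigenfunctions: integration by parts. -/
set_option autoImplicit false
open MeasureTheory Filter Topology Complex
open scoped ContDiff ENNReal

namespace Pool.Agent.Y265.HY.DC

open Pool.Agent.W745.RW Pool.Agent.TH294.RS Pool.Agent.TH421.DF
open Pool.Agent.TH294.RG (sL1 opP lap_cg sR sL1_re)

noncomputable section

variable {S : Set ℂ}

lemma cl {F : ℂ → ℂ} (hF : ContDiffOn ℝ ∞ F HP) : ContDiffOn ℝ ∞ (lap F) HP :=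
  (Pool.Agent.W98.RW.cd_fderiv HPo (Pool.Agent.W98.RW.cd_fderiv HPo hF 1) 1).add
    (Pool.Agent.W98.RW.cd_fderiv HPo (Pool.Agent.W98.RW.cd_fderiv HPo hF I) I)

lemma csL {t : ℝ} {F : ℂ → ℂ} (hF : ContDiffOn ℝ ∞ F HP) :
    ContDiffOn ℝ ∞ (sL1 Complex.im t F) HP :=
  (contDiffOn_const.mul ((im_cd.pow 2).contDiffOn.mul (cl hF))).neg

lemma csLi {t : ℝ} {F : ℂ → ℂ} (hF : ContDiffOn ℝ ∞ F HP) (i : ℕ) :
    ContDiffOn ℝ ∞ ((sL1 Complex.im t)^[i] F) HP := by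
  induction i with
  | zero => exact hF
  | succ i ih => rw [Function.iterate_succ_apply']; exact csL ih

lemma zsL (hS : IsCompact S) {t : ℝ} {F : ℂ → ℂ} (h0 : ∀ z, z ∉ S → F z = 0) :
    ∀ z, z ∉ S → sL1 Complex.im t F z = 0 := by
  intro z hz
  simp only [sL1]
  rw [lap_zero hS h0 hz]; simp

lemma zsLi (hS : IsCompact S) {t : ℝ} {F : ℂ → ℂ} (h0 : ∀ z, z ∉ S → F z = 0) (i : ℕ) :
    ∀ z, z ∉ S → (sL1 Complex.im t)^[i] F z = 0 := by
  induction i with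
  | zero => exact h0
  | succ i ih => rw [Function.iterate_succ_apply']; exact zsL hS ih

lemma adj1 (hS : IsCompact S) (hSH : S ⊆ HP) {t : ℝ} {U w : ℂ → ℂ}
    (hU : ContDiffOn ℝ ∞ U HP) (h0 : ∀ z, z ∉ S → U z = 0) (hw : ContDiffOn ℝ ∞ w HP) :
    ∫ z, U z * sL1 Complex.im t w z / (z.im : ℂ) ^ 2 =
      ∫ z, sL1 Complex.im t U z * w z / (z.im : ℂ) ^ 2 := by
  have g := green HPo hS hSH hU hw h0
  have e1 : ∫ z, U z * sL1 Complex.im t w z / (z.im : ℂ) ^ 2 =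
      (-(t : ℂ) ^ 2) * ∫ z, U z * lap w z := by
    rw [← integral_const_mul]
    congr 1; funext z
    by_cases hz : z ∈ S
    · have h1 : (z.im : ℂ) ≠ 0 := by exact_mod_cast (ne_of_gt (hSH hz : 0 < z.im))
      simp only [sL1]
      field_simp
    · rw [h0 z hz]; simp
  have e2 : ∫ z, sL1 Complex.im t U z * w z / (z.im : ℂ) ^ 2 =
      (-(t : ℂ) ^ 2) * ∫ z, lap U z * w z := by
    rw [← integral_const_mul]
    congr 1; funext z
    by_cases hz : z ∈ S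
    · have h1 : (z.im : ℂ) ≠ 0 := by exact_mod_cast (ne_of_gt (hSH hz : 0 < z.im))
      simp only [sL1]
      field_simp
    · simp only [sL1]
      rw [lap_zero hS h0 hz]; simp
  rw [e1, e2, g]

lemma adj (hS : IsCompact S) (hSH : S ⊆ HP) {t : ℝ} {w : ℂ → ℂ}
    (hw : ContDiffOn ℝ ∞ w HP) (i : ℕ) : ∀ {U : ℂ → ℂ}
    (_ : ContDiffOn ℝ ∞ U HP) (_ : ∀ z, z ∉ S → U z = 0),
    ∫ z, U z * (sL1 Complex.im t)^[i] w z / (z.im : ℂ) ^ 2 =
      ∫ z, (sL1 Complex.im t)^[i] U z * w z / (z.im : ℂ) ^ 2 := by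
  induction i with
  | zero => intro U _ _; rfl
  | succ i ih =>
    intro U hU h0
    rw [Function.iterate_succ_apply', adj1 hS hSH hU h0 (csLi hw i), ih (csL hU) (zsL hS h0)]
    rfl

lemma lap_cm {F : ℂ → ℂ} (hF : ContDiffOn ℝ ∞ F HP) (c : ℂ) {z : ℂ} (hz : z ∈ HP) :
    lap (fun w => c * F w) z = c * lap F z := by
  have d1 : ∀ v : ℂ, ∀ w ∈ HP, fderiv ℝ (fun w => c * F w) w v = c * fderiv ℝ F w v := by
    intro v w hw
    rw [fderiv_const_mul (Pool.Agent.W98.RW.diffAt HPo hF hw)]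
    simp only [smul_apply, smul_eq_mul]
  have d2 : ∀ v : ℂ, fderiv ℝ (fun w => fderiv ℝ (fun w => c * F w) w v) z v =
      c * fderiv ℝ (fun w => fderiv ℝ F w v) z v := by
    intro v
    have e : (fun w => fderiv ℝ (fun w => c * F w) w v) =ᶠ[𝓝 z] fun w => c * fderiv ℝ F w v := by
      filter_upwards [HPo.mem_nhds hz] with w hw
      exact d1 v w hw
    rw [e.fderiv_eq, fderiv_const_mul (Pool.Agent.W98.RW.diffAt HPo
      (Pool.Agent.W98.RW.cd_fderiv HPo hF v) hz)]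
    simp only [smul_apply, smul_eq_mul]
  show fderiv ℝ (fun w => fderiv ℝ (fun w => c * F w) w 1) z 1 +
    fderiv ℝ (fun w => fderiv ℝ (fun w => c * F w) w I) z I = c * (fderiv ℝ (fun w => fderiv ℝ F w 1) z 1 +
    fderiv ℝ (fun w => fderiv ℝ F w I) z I)
  rw [d2, d2]; ring

variable {h κ : ℕ → ℝ}

/-- the iterates, on the slow scale -/
lemma skE (hh : ∀ n, 0 < h n) (kp : ∀ n, 0 < κ n) (kl : Tendsto κ atTop (𝓝 0)) {m : ℕ}
    {G : ℕ → ℂ → ℂ} (hG : ∀ j, SK HP κ m j G) (i : ℕ) :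
    ∀ j, SK HP κ m j (fun n z => (((κ n / h n) ^ 2 : ℝ) : ℂ) ^ i *
      (sL1 Complex.im (h n))^[i] (G n) z) := by
  induction i with
  | zero =>
    intro j
    exact (hG j).congr HPo fun n z _ => by simp
  | succ i ih =>
    intro j
    have cneg : ContDiffOn ℝ ∞ (fun z : ℂ => -(z.im : ℂ) ^ 2) HP := (im_cd.pow 2).contDiffOn.neg
    have h1 := ((ih (j + 2)).hL HPo kp).smulc HPo kp kl cneg
    refine h1.congr HPo fun n z hz => ?_
    have sm : ContDiffOn ℝ ∞ ((sL1 Complex.im (h n))^[i] (G n)) HP := csLi ((hG 0).sp.sm n) i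
    rw [Function.iterate_succ_apply']
    show (((κ n / h n) ^ 2 : ℝ) : ℂ) ^ (i + 1) *
      (-((h n : ℂ) ^ 2 * ((z.im : ℂ) ^ 2 * lap ((sL1 Complex.im (h n))^[i] (G n)) z))) =
      -(z.im : ℂ) ^ 2 * ((κ n : ℂ) ^ 2 * lap (fun z => (((κ n / h n) ^ 2 : ℝ) : ℂ) ^ i *
      (sL1 Complex.im (h n))^[i] (G n) z) z)
    rw [lap_cm sm _ hz]
    have hn : (h n : ℂ) ≠ 0 := by exact_mod_cast (hh n).ne'
    push_cast
    rw [pow_succ]
    field_simp

/-- the high powers of the Laplacian are negligible -/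
lemma small (hh : ∀ n, 0 < h n) (kp : ∀ n, 0 < κ n) (kl : Tendsto κ atTop (𝓝 0)) {m : ℕ}
    {G : ℕ → ℂ → ℂ} (hG : ∀ j, SK HP κ m j G) (hS : IsCompact S) (hSH : S ⊆ HP)
    (h0 : ∀ n z, z ∉ S → G n z = 0) {w : ℕ → ℂ → ℂ} (hw : LB HP 1 w) (i : ℕ)
    (hi : Tendsto (fun n => ((h n / κ n) ^ 2) ^ i * (κ n ^ m)⁻¹) atTop (𝓝 0)) :
    Tendsto (fun n => ∫ z, (sL1 Complex.im (h n))^[i] (G n) z * w n z / (z.im : ℂ) ^ 2) atTop
      (𝓝 0) := by
  obtain ⟨C, hC0, hC⟩ := (skE hh kp kl hG i 0).sp.bd S hS hSH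
  obtain ⟨D, hD⟩ := hw.bd S hS hSH
  obtain ⟨M, hM⟩ := hS.exists_bound_of_continuousOn (iy_cd.continuousOn.mono hSH)
  rw [tendsto_zero_iff_norm_tendsto_zero]
  refine squeeze_zero' (Eventually.of_forall fun n => norm_nonneg _)
    (g := fun n => (C * |M| * D) * (((h n / κ n) ^ 2) ^ i * (κ n ^ m)⁻¹)) ?_ (by
      have := hi.const_mul (C * |M| * D)
      rwa [mul_zero] at this)
  filter_upwards [hC, hD] with n h1 h2
  have hn := hh n
  have kn := kp n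
  have hm : 0 < κ n ^ m := pow_pos kn m
  have hd : 0 < ((κ n / h n) ^ 2) ^ i := by positivity
  have e1 : ∫ z, (sL1 Complex.im (h n))^[i] (G n) z * w n z / (z.im : ℂ) ^ 2 =
      ∫ z in S, (sL1 Complex.im (h n))^[i] (G n) z * w n z / (z.im : ℂ) ^ 2 := by
    refine (setIntegral_eq_integral_of_forall_compl_eq_zero fun z hz => ?_).symm
    rw [zsLi hS (h0 n) i z hz]; simp
  have cf : ContinuousOn (fun z => ‖w n z‖) S := ((hw.sm n).continuousOn.mono hSH).norm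
  have b1 : ∀ z ∈ S, ‖(sL1 Complex.im (h n))^[i] (G n) z‖ ≤
      C * (((h n / κ n) ^ 2) ^ i * (κ n ^ m)⁻¹) := by
    intro z hz
    have a1 := h1 z hz
    rw [norm_mul, norm_pow, Complex.norm_real, Real.norm_of_nonneg (by positivity)] at a1
    have a2 : ‖(sL1 Complex.im (h n))^[i] (G n) z‖ =
        (((κ n / h n) ^ 2) ^ i * ‖(sL1 Complex.im (h n))^[i] (G n) z‖ * κ n ^ m) *
        (((h n / κ n) ^ 2) ^ i * (κ n ^ m)⁻¹) := by
      have e3 : ((κ n / h n) ^ 2) ^ i * ((h n / κ n) ^ 2) ^ i = 1 := by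
        rw [← mul_pow, ← mul_pow]
        have : κ n / h n * (h n / κ n) = 1 := by field_simp
        rw [this]; simp
      have e4 : κ n ^ m * (κ n ^ m)⁻¹ = 1 := mul_inv_cancel₀ hm.ne'
      calc ‖(sL1 Complex.im (h n))^[i] (G n) z‖ =
          ‖(sL1 Complex.im (h n))^[i] (G n) z‖ * (((κ n / h n) ^ 2) ^ i * ((h n / κ n) ^ 2) ^ i) *
          (κ n ^ m * (κ n ^ m)⁻¹) := by rw [e3, e4]; ring
        _ = _ := by ring
    rw [a2]
    exact mul_le_mul_of_nonneg_right a1 (by positivity)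
  have e2 : ∀ z ∈ S, ‖(sL1 Complex.im (h n))^[i] (G n) z * w n z / (z.im : ℂ) ^ 2‖ ≤
      (C * (((h n / κ n) ^ 2) ^ i * (κ n ^ m)⁻¹) * |M|) * ‖w n z‖ := by
    intro z hz
    rw [div_eq_mul_inv, norm_mul, norm_mul]
    have a2 : ‖((z.im : ℂ) ^ 2)⁻¹‖ ≤ |M| := (hM z hz).trans (le_abs_self M)
    calc ‖(sL1 Complex.im (h n))^[i] (G n) z‖ * ‖w n z‖ * ‖((z.im : ℂ) ^ 2)⁻¹‖ =
          (‖(sL1 Complex.im (h n))^[i] (G n) z‖ * ‖((z.im : ℂ) ^ 2)⁻¹‖) * ‖w n z‖ := by ring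
      _ ≤ _ := by
          refine mul_le_mul_of_nonneg_right ?_ (norm_nonneg _)
          exact mul_le_mul (b1 z hz) a2 (norm_nonneg _) (by positivity)
  have cG : ContinuousOn (fun z => ‖(sL1 Complex.im (h n))^[i] (G n) z * w n z /
      (z.im : ℂ) ^ 2‖) S := by
    have c1 := (csLi (t := h n) ((hG 0).sp.sm n) i).continuousOn.mono hSH
    have c2 := (hw.sm n).continuousOn.mono hSH
    have c3 := iy_cd.continuousOn.mono hSH
    have : ContinuousOn (fun z => ‖(sL1 Complex.im (h n))^[i] (G n) z * w n z *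
        ((z.im : ℂ) ^ 2)⁻¹‖) S := ((c1.mul c2).mul c3).norm
    simpa only [div_eq_mul_inv] using this
  have e3 : ‖∫ z in S, (sL1 Complex.im (h n))^[i] (G n) z * w n z / (z.im : ℂ) ^ 2‖ ≤
      (C * (((h n / κ n) ^ 2) ^ i * (κ n ^ m)⁻¹) * |M|) * ∫ z in S, ‖w n z‖ := by
    refine (norm_integral_le_integral_norm _).trans ?_
    rw [← integral_const_mul]
    exact intK_mono hS cG (continuousOn_const.mul cf) e2
  have h3 : ∫ z in S, ‖w n z‖ ≤ D := by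
    have : ∫ z in S, ‖w n z‖ ^ 1 ≤ D := h2
    simpa only [pow_one] using this
  rw [e1]
  refine e3.trans ?_
  calc (C * (((h n / κ n) ^ 2) ^ i * (κ n ^ m)⁻¹) * |M|) * ∫ z in S, ‖w n z‖ ≤
      (C * (((h n / κ n) ^ 2) ^ i * (κ n ^ m)⁻¹) * |M|) * D :=
        mul_le_mul_of_nonneg_left h3 (by positivity)
    _ = _ := by ring

end

end Pool.Agent.Y265.HY.DC
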