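import Pool.Agent.Y265.HY.DC1

/-! Decoupling of `f²` from products of slower eigenfunctions: the polynomial. -/
set_option autoImplicit false
open MeasureTheory Filter Topology Complex
open scoped ContDiff ENNReal

namespace Pool.Agent.Y265.HY.DC

open Pool.Agent.W745.RW Pool.Agent.TH294.RS Pool.Agent.TH421.DF Pool.Agent.Y265.HY.JC
open Pool.Agent.TH294.RG (sL1 opP lap_cg sR sL1_re)

noncomputable section

variable {S : Set ℂ} {h κ : ℕ → ℝ}

/-- a polynomial `1 + X^N Q` which vanishes at `4` and is small in mean on `[0, 4]` -/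
theorem poly (N : ℕ) (hN : 0 < N) {ε : ℝ} (hε : 0 < ε) : ∃ F : Polynomial ℝ, F.coeff 0 = 1 ∧
    (∀ i, 0 < i → i < N → F.coeff i = 0) ∧ F.eval 4 = 0 ∧ gI F < ε := by
  obtain ⟨q, hq⟩ : ∃ q : Polynomial ℝ, q = 1 - Polynomial.C ((1 / 4) ^ N) * Polynomial.X ^ N :=
    ⟨_, rfl⟩
  have ev : ∀ x : ℝ, q.eval x = 1 - (x / 4) ^ N := by
    intro x
    rw [hq]
    simp only [Polynomial.eval_sub, Polynomial.eval_one, Polynomial.eval_mul, Polynomial.eval_C,
      Polynomial.eval_pow, Polynomial.eval_X]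
    rw [← mul_pow]; ring
  have l := gI_lim q q 0 (fun x hx hx0 => by
    rw [ev]
    have x0 : 0 < x := lt_of_le_of_ne hx.1 (Ne.symm hx0)
    have a1 : 0 < (x / 4) ^ N := by positivity
    have a2 : (x / 4) ^ N ≤ 1 := pow_le_one₀ (by positivity) (by linarith [hx.2])
    rw [abs_lt]
    constructor <;> linarith) (by
    rw [ev]; simp [hN.ne'])
  obtain ⟨M, hM⟩ := (l.eventually (gt_mem_nhds hε)).exists
  have key : ∀ M : ℕ, ∃ Q : Polynomial ℝ, q ^ M * q = 1 + Polynomial.X ^ N * Q := by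
    intro M
    induction M with
    | zero => exact ⟨-Polynomial.C ((1 / 4) ^ N), by rw [hq]; ring⟩
    | succ M ih =>
      obtain ⟨Q, hQ⟩ := ih
      refine ⟨Q - Polynomial.C ((1 / 4) ^ N) - Polynomial.C ((1 / 4) ^ N) * Polynomial.X ^ N * Q, ?_⟩
      have e : q ^ (M + 1) * q = (q ^ M * q) * q := by ring
      rw [e, hQ, hq]; ring
  obtain ⟨Q, hQ⟩ := key M
  refine ⟨q ^ M * q, ?_, ?_, ?_, hM⟩
  · rw [hQ, Polynomial.coeff_add, Polynomial.coeff_X_pow_mul']
    simp [hN.ne']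
  · intro i h1 h2
    rw [hQ, Polynomial.coeff_add, Polynomial.coeff_X_pow_mul', if_neg (by omega)]
    simp [Polynomial.coeff_one, h1.ne']
  · rw [Polynomial.eval_mul, ev]; norm_num

/-- the polynomial in the Laplacian does not change the pairing with a slow function -/
theorem pair (hh : ∀ n, 0 < h n) (kp : ∀ n, 0 < κ n) (kl : Tendsto κ atTop (𝓝 0)) {m : ℕ}
    {G : ℕ → ℂ → ℂ} (hG : ∀ j, SK HP κ m j G) (hS : IsCompact S) (hSH : S ⊆ HP)
    (h0 : ∀ n z, z ∉ S → G n z = 0) {w : ℕ → ℂ → ℂ} (hw : LB HP 1 w) (N : ℕ)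
    (hi : ∀ i, N ≤ i → Tendsto (fun n => ((h n / κ n) ^ 2) ^ i * (κ n ^ m)⁻¹) atTop (𝓝 0))
    {F : Polynomial ℝ} (F0 : F.coeff 0 = 1) (F1 : ∀ i, 0 < i → i < N → F.coeff i = 0) :
    Tendsto (fun n => (∫ z, G n z * opP Complex.im (h n) F (w n) z / (z.im : ℂ) ^ 2) -
      ∫ z, G n z * w n z / (z.im : ℂ) ^ 2) atTop (𝓝 0) := by
  have sG : ∀ n, ContDiffOn ℝ ∞ (G n) HP := fun n => (hG 0).sp.sm n
  have e : ∀ n, (∫ z, G n z * opP Complex.im (h n) F (w n) z / (z.im : ℂ) ^ 2) -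
      ∫ z, G n z * w n z / (z.im : ℂ) ^ 2 = ∑ i ∈ F.support,
      (if i = 0 then 0 else (F.coeff i : ℂ) *
        ∫ z, (sL1 Complex.im (h n))^[i] (G n) z * w n z / (z.im : ℂ) ^ 2) := by
    intro n
    have i1 : ∀ i : ℕ, Integrable (fun z => G n z * (sL1 Complex.im (h n))^[i] (w n) z /
        (z.im : ℂ) ^ 2) := by
      intro i
      refine cint hS hSH ?_ fun z hz => by rw [h0 n z hz]; simp
      have : ContinuousOn (fun z => G n z * (sL1 Complex.im (h n))^[i] (w n) z *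
        ((z.im : ℂ) ^ 2)⁻¹) HP :=
        ((sG n).continuousOn.mul (csLi (t := h n) (hw.sm n) i).continuousOn).mul iy_cd.continuousOn
      simpa only [div_eq_mul_inv] using this
    have a1 : ∫ z, G n z * opP Complex.im (h n) F (w n) z / (z.im : ℂ) ^ 2 =
        ∑ i ∈ F.support, (F.coeff i : ℂ) *
        ∫ z, (sL1 Complex.im (h n))^[i] (G n) z * w n z / (z.im : ℂ) ^ 2 := by
      have b1 : ∀ i, (F.coeff i : ℂ) *
          ∫ z, (sL1 Complex.im (h n))^[i] (G n) z * w n z / (z.im : ℂ) ^ 2 =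
          ∫ z, (F.coeff i : ℂ) * (G n z * (sL1 Complex.im (h n))^[i] (w n) z /
          (z.im : ℂ) ^ 2) := by
        intro i
        rw [integral_const_mul, adj hS hSH (hw.sm n) i (sG n) (h0 n)]
      simp only [b1]
      rw [← integral_finsetSum _ fun i _ => (i1 i).const_mul _]
      congr 1; funext z
      simp only [opP, Polynomial.sum_def]
      rw [Finset.mul_sum, Finset.sum_div]
      refine Finset.sum_congr rfl fun i _ => ?_
      ring
    have m0 : (0 : ℕ) ∈ F.support := by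
      rw [Polynomial.mem_support_iff, F0]; exact one_ne_zero
    rw [a1, ← Finset.add_sum_erase _ _ m0, ← Finset.add_sum_erase (F.support)
      (fun i => (if i = 0 then 0 else (F.coeff i : ℂ) *
        ∫ z, (sL1 Complex.im (h n))^[i] (G n) z * w n z / (z.im : ℂ) ^ 2)) m0, F0]
    have a2 : ∑ i ∈ F.support.erase 0, (if i = 0 then 0 else (F.coeff i : ℂ) *
        ∫ z, (sL1 Complex.im (h n))^[i] (G n) z * w n z / (z.im : ℂ) ^ 2) =
        ∑ i ∈ F.support.erase 0, (F.coeff i : ℂ) *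
        ∫ z, (sL1 Complex.im (h n))^[i] (G n) z * w n z / (z.im : ℂ) ^ 2 := by
      refine Finset.sum_congr rfl fun i hi => ?_
      rw [if_neg (Finset.ne_of_mem_erase hi)]
    rw [a2]
    simp
  simp only [e]
  have : Tendsto (fun n => ∑ i ∈ F.support,
      (if i = 0 then 0 else (F.coeff i : ℂ) *
        ∫ z, (sL1 Complex.im (h n))^[i] (G n) z * w n z / (z.im : ℂ) ^ 2)) atTop
      (𝓝 (∑ i ∈ F.support, 0)) := by
    refine tendsto_finsetSum _ fun i hiF => ?_
    by_cases i0 : i = 0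
    · simp only [i0, if_true]; exact tendsto_const_nhds
    · simp only [if_neg i0]
      have c0 : F.coeff i ≠ 0 := Polynomial.mem_support_iff.1 hiF
      have iN : N ≤ i := by
        by_contra hlt
        exact c0 (F1 i (Nat.pos_of_ne_zero i0) (by omega))
      have := (small hh kp kl hG hS hSH h0 hw i (hi i iN)).const_mul ((F.coeff i : ℂ))
      rwa [mul_zero] at this
  simpa using this

/-- Cauchy-Schwarz with a majorant -/
theorem cs2 {Ω : Set ℂ} {φ χ : ℂ → ℝ} (hΩ : IsOpen Ω) (hφ : TF Ω φ) (hχ : TF Ω χ)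
    (h0 : ∀ z, |φ z| ≤ χ z) {X Y : ℂ → ℝ}
    (hX : ContinuousOn X Ω) (hY : ContinuousOn Y Ω) :
    (∫ z, φ z * (X z * Y z)) ^ 2 ≤ (∫ z, χ z * X z ^ 2) * ∫ z, χ z * Y z ^ 2 := by
  have i1 : Integrable (fun z => χ z * X z ^ 2) :=
    Pool.Agent.W311.RW.int_mul hΩ hχ (hX.pow 2)
  have i2 : Integrable (fun z => χ z * Y z ^ 2) :=
    Pool.Agent.W311.RW.int_mul hΩ hχ (hY.pow 2)
  have i3 : Integrable (fun z => φ z * (X z * Y z)) :=
    Pool.Agent.W311.RW.int_mul hΩ hφ (hX.mul hY)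
  have key : ∀ t : ℝ, 0 ≤ (∫ z, χ z * Y z ^ 2) * (t * t) +
      (2 * ∫ z, φ z * (X z * Y z)) * t + ∫ z, χ z * X z ^ 2 := by
    intro t
    have e : (∫ z, χ z * Y z ^ 2) * (t * t) +
      (2 * ∫ z, φ z * (X z * Y z)) * t + ∫ z, χ z * X z ^ 2 =
      ∫ z, ((t * t) * (χ z * Y z ^ 2) +
        ((2 * t) * (φ z * (X z * Y z)) + χ z * X z ^ 2)) := by
      have i4 : Integrable (fun z => (2 * t) * (φ z * (X z * Y z)) + χ z * X z ^ 2) :=
        (i3.const_mul _).add i1
      rw [integral_add (i2.const_mul _) i4,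
        integral_add (i3.const_mul _) i1, integral_const_mul, integral_const_mul]
      ring
    rw [e]
    refine integral_nonneg fun z => ?_
    have a1 : -(χ z * |2 * t * (X z * Y z)|) ≤ φ z * (2 * t * (X z * Y z)) := by
      have b1 : |φ z * (2 * t * (X z * Y z))| ≤ χ z * |2 * t * (X z * Y z)| := by
        rw [abs_mul]
        exact mul_le_mul_of_nonneg_right (h0 z) (abs_nonneg _)
      have := neg_abs_le (φ z * (2 * t * (X z * Y z)))
      linarith
    have c0 : 0 ≤ χ z := (abs_nonneg _).trans (h0 z)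
    have a2 : |2 * t * (X z * Y z)| ≤ (t * Y z) ^ 2 + X z ^ 2 := by
      rw [abs_le]
      constructor <;> nlinarith [sq_nonneg (t * Y z - X z), sq_nonneg (t * Y z + X z)]
    have a3 := mul_le_mul_of_nonneg_left a2 c0
    show 0 ≤ (t * t) * (χ z * Y z ^ 2) + ((2 * t) * (φ z * (X z * Y z)) + χ z * X z ^ 2)
    nlinarith
  have := discrim_le_zero key
  unfold discrim at this
  nlinarith

end

end Pool.Agent.Y265.HY.DC
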