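import Pool.Agent.Y265.HY.DC2

/-! Decoupling of `f²` from products of slower eigenfunctions: the inequality. -/
set_option autoImplicit false
open MeasureTheory Filter Topology Complex
open scoped ContDiff ENNReal

namespace Pool.Agent.Y265.HY.DC

open Pool.Agent.W745.RW Pool.Agent.TH294.RS Pool.Agent.TH421.DF Pool.Agent.Y265.HY.JC
open Pool.Agent.Y265.HY Pool.Agent.Y265.HY.PS
open Pool.Agent.TH294.RG (sL1 opP lap_cg sR sL1_re vv)

noncomputable section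

variable {κ lam mu : ℕ → ℝ} {u g0 : ℕ → ℂ → ℝ}

/-- the mean square of `F(L) u² - 1` -/
theorem msq (D : JD HP lam mu u g0) {χ : ℂ → ℝ} (hχ : TF HP χ) {F : Polynomial ℝ}
    (F0 : F.eval 0 = 1) (F4 : F.eval 4 = 0) {ε : ℝ} (hε : 0 < ε)
    (hF : gI F * |∫ z, χ z| < ε) :
    ∀ᶠ n in atTop, ∫ z, χ z * (PF F (hh lam n) (u n) z - 1) ^ 2 ≤
      2 / 3 * ((∫ z, χ z * u n z ^ 4) - 3 * ∫ z, χ z) + ε := by
  have k1 := D.f1 hχ F
  have k3 := (D.f3 hχ F).const_mul 2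
  have k := (k1.sub k3).add_const (∫ z, χ z)
  rw [F0, F4] at k
  have g1 : gI F * ∫ z, χ z < ε :=
    lt_of_le_of_lt (mul_le_mul_of_nonneg_left (le_abs_self _) (gI_nonneg F)) hF
  have e0 : ((1 : ℝ) ^ 2 + gI F) * (∫ z, χ z) - 2 * (1 * ∫ z, χ z) + ∫ z, χ z =
      gI F * ∫ z, χ z := by ring
  rw [e0] at k
  filter_upwards [k.eventually (gt_mem_nhds g1)] with n hn
  have c1 := D.PFc F n
  have i1 : Integrable (fun z => χ z * PF F (hh lam n) (u n) z ^ 2) :=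
    Pool.Agent.W311.RW.int_mul D.op hχ (c1.pow 2)
  have i2 : Integrable (fun z => χ z * PF F (hh lam n) (u n) z) :=
    Pool.Agent.W311.RW.int_mul D.op hχ c1
  have i3 : Integrable χ := by
    have := Pool.Agent.W311.RW.int_mul D.op hχ (continuousOn_const (c := (1 : ℝ)))
    simpa using this
  have e : ∫ z, χ z * (PF F (hh lam n) (u n) z - 1) ^ 2 =
      (∫ z, χ z * PF F (hh lam n) (u n) z ^ 2) - 2 * (∫ z, χ z * PF F (hh lam n) (u n) z) +
        ∫ z, χ z := by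
    have e1 : (∫ z, χ z * (PF F (hh lam n) (u n) z - 1) ^ 2) =
        ∫ z, (χ z * PF F (hh lam n) (u n) z ^ 2 - 2 * (χ z * PF F (hh lam n) (u n) z) + χ z) := by
      congr 1; funext z; ring
    have i4 : Integrable (fun z => χ z * PF F (hh lam n) (u n) z ^ 2 -
        2 * (χ z * PF F (hh lam n) (u n) z)) := i1.sub (i2.const_mul 2)
    rw [e1, integral_add i4 i3, integral_sub i1 (i2.const_mul 2), integral_const_mul]
  rw [e]
  have hn' : (∫ z, χ z * PF F (hh lam n) (u n) z ^ 2) -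
      (2 * 1 ^ 2 + 0 ^ 2) / 3 * ((∫ z, χ z * u n z ^ 4) - 3 * ∫ z, χ z) -
      2 * (∫ z, χ z * PF F (hh lam n) (u n) z) + ∫ z, χ z < ε := hn
  norm_num at hn'
  linarith

/-- **Decoupling.** -/
theorem dec (D : JD HP lam mu u g0) (kp : ∀ n, 0 < κ n) (kl : Tendsto κ atTop (𝓝 0)) {m : ℕ}
    {P : ℕ → ℂ → ℝ} (hP : ∀ j, SK HP κ m j (fun n z => (P n z : ℂ))) (N : ℕ) (hN : 0 < N)
    (hi : ∀ i, N ≤ i →
      Tendsto (fun n => ((hh lam n / κ n) ^ 2) ^ i * (κ n ^ m)⁻¹) atTop (𝓝 0))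
    (sP : ∀ n, ContinuousOn (P n) HP)
    {φ χ : ℂ → ℝ} (hφ : TF HP φ) (hχ : TF HP χ) (hφχ : ∀ z, |φ z| ≤ χ z) {ε : ℝ} (hε : 0 < ε) :
    ∀ᶠ n in atTop, |∫ z, φ z * ((u n z ^ 2 - 1) * P n z)| ≤
      √((2 / 3 * ((∫ z, χ z * u n z ^ 4) - 3 * ∫ z, χ z) + ε) * ∫ z, χ z * P n z ^ 2) + ε := by
  obtain ⟨F, F0, F1, F4, hF⟩ := poly N hN (ε := ε / (|∫ z, χ z| + 1)) (by positivity)
  have F0' : F.eval 0 = 1 := by rw [← Polynomial.coeff_zero_eq_eval_zero, F0]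
  have hF' : gI F * |∫ z, χ z| < ε := by
    have a1 : gI F * (|∫ z, χ z| + 1) < ε := by
      rwa [lt_div_iff₀ (by positivity)] at hF
    have a2 := gI_nonneg F
    nlinarith [abs_nonneg (∫ z, χ z)]
  have k1 := msq D hχ F0' F4 hε hF'
  have hp : ∀ n, 0 < hh lam n := D.sy.hpos
  have hw : LB HP 1 (fun n z => (u n z : ℂ) * (u n z : ℂ)) := by
    have := (qe_vv D.sy D.exx).lb D.sy
    exact this.congr fun n z _ => by rw [vv0]
  have cφ : ContDiffOn ℝ ∞ (fun z => (φ z : ℂ) * (z.im : ℂ) ^ 2) HP :=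
    ((Complex.ofRealCLM.contDiff.comp hφ.1).mul (im_cd.pow 2)).contDiffOn
  have hG : ∀ j, SK HP κ m j (fun n z => ((φ z : ℂ) * (z.im : ℂ) ^ 2) * (P n z : ℂ)) := fun j =>
    (hP j).smulc HPo kp kl cφ
  have z0 : ∀ (n : ℕ) (z : ℂ), z ∉ tsupport φ → ((φ z : ℂ) * (z.im : ℂ) ^ 2) * (P n z : ℂ) = 0 := by
    intro n z hz
    rw [image_eq_zero_of_notMem_tsupport hz]; simp
  have k2 := pair hp kp kl hG hφ.2.1 hφ.2.2 z0 hw N hi F0 F1
  have k3 := (Complex.continuous_re.tendsto _).comp k2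
  rw [Complex.zero_re] at k3
  have e3 : ∀ n, (∫ z, ((φ z : ℂ) * (z.im : ℂ) ^ 2) * (P n z : ℂ) *
      opP Complex.im (hh lam n) F (fun z => (u n z : ℂ) * (u n z : ℂ)) z / (z.im : ℂ) ^ 2) =
      ((∫ z, φ z * (PF F (hh lam n) (u n) z * P n z) : ℝ) : ℂ) := by
    intro n
    rw [← integral_complex_ofReal]
    congr 1; funext z
    by_cases hz : z ∈ HP
    · have h1 : (z.im : ℂ) ≠ 0 := by exact_mod_cast (ne_of_gt (hz : 0 < z.im))
      have h2 := D.opP_re F n hz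
      rw [vv0] at h2
      rw [h2]
      push_cast
      field_simp
    · rw [TF.zero hφ hz]; simp
  have e4 : ∀ n, (∫ z, ((φ z : ℂ) * (z.im : ℂ) ^ 2) * (P n z : ℂ) *
      ((u n z : ℂ) * (u n z : ℂ)) / (z.im : ℂ) ^ 2) =
      ((∫ z, φ z * (u n z ^ 2 * P n z) : ℝ) : ℂ) := by
    intro n
    rw [← integral_complex_ofReal]
    congr 1; funext z
    by_cases hz : z ∈ HP
    · have h1 : (z.im : ℂ) ≠ 0 := by exact_mod_cast (ne_of_gt (hz : 0 < z.im))
      push_cast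
      field_simp
    · rw [TF.zero hφ hz]; simp
  have k4 : Tendsto (fun n => (∫ z, φ z * (PF F (hh lam n) (u n) z * P n z)) -
      ∫ z, φ z * (u n z ^ 2 * P n z)) atTop (𝓝 0) := by
    refine k3.congr fun n => ?_
    simp only [Function.comp_def]
    rw [e3, e4, ← Complex.ofReal_sub, Complex.ofReal_re]
  have k5 := k4.abs
  rw [abs_zero] at k5
  filter_upwards [k1, k5.eventually (gt_mem_nhds hε)] with n n1 n2
  have c1 := D.PFc F n
  have i1 : Integrable (fun z => φ z * (PF F (hh lam n) (u n) z * P n z)) :=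
    Pool.Agent.W311.RW.int_mul D.op hφ (c1.mul (sP n))
  have i2 : Integrable (fun z => φ z * (u n z ^ 2 * P n z)) :=
    Pool.Agent.W311.RW.int_mul D.op hφ (((D.us n).continuousOn.pow 2).mul (sP n))
  have i3 : Integrable (fun z => φ z * P n z) :=
    Pool.Agent.W311.RW.int_mul D.op hφ (sP n)
  have e5 : ∫ z, φ z * ((u n z ^ 2 - 1) * P n z) =
      (∫ z, φ z * ((PF F (hh lam n) (u n) z - 1) * P n z)) -
      ((∫ z, φ z * (PF F (hh lam n) (u n) z * P n z)) - ∫ z, φ z * (u n z ^ 2 * P n z)) := by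
    have a1 : ∫ z, φ z * ((u n z ^ 2 - 1) * P n z) =
        (∫ z, φ z * (u n z ^ 2 * P n z)) - ∫ z, φ z * P n z := by
      rw [← integral_sub i2 i3]
      congr 1; funext z; ring
    have a2 : ∫ z, φ z * ((PF F (hh lam n) (u n) z - 1) * P n z) =
        (∫ z, φ z * (PF F (hh lam n) (u n) z * P n z)) - ∫ z, φ z * P n z := by
      rw [← integral_sub i1 i3]
      congr 1; funext z; ring
    rw [a1, a2]; ring
  have e6 := cs2 D.op hφ hχ hφχ (X := fun z => PF F (hh lam n) (u n) z - 1) (Y := P n)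
    (c1.sub continuousOn_const) (sP n)
  have m0 : 0 ≤ ∫ z, χ z * P n z ^ 2 :=
    integral_nonneg fun z => mul_nonneg ((abs_nonneg _).trans (hφχ z)) (sq_nonneg _)
  have e7 : |∫ z, φ z * ((PF F (hh lam n) (u n) z - 1) * P n z)| ≤
      √((2 / 3 * ((∫ z, χ z * u n z ^ 4) - 3 * ∫ z, χ z) + ε) * ∫ z, χ z * P n z ^ 2) :=
    Real.abs_le_sqrt (e6.trans (mul_le_mul_of_nonneg_right n1 m0))
  rw [e5]
  exact (abs_sub _ _).trans (add_le_add e7 n2.le)

end

end Pool.Agent.Y265.HY.DC
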