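import Pool.Agent.Y265.HY.DC3

/-! Bounded smooth functions of slow eigenfunctions. -/
set_option autoImplicit false
open MeasureTheory Filter Topology Complex
open scoped ContDiff ENNReal

namespace Pool.Agent.Y265.HY.DC

open Pool.Agent.W745.RW Pool.Agent.TH294.RS Pool.Agent.TH421.DF Pool.Agent.TH294.RG

noncomputable section

variable {κ : ℕ → ℝ}

/-- from the scale `κ` to the scale `κ³` -/
lemma resc (kp : ∀ n, 0 < κ n) (k1 : ∀ n, κ n ≤ 1) (j : ℕ) : ∀ {f : ℕ → ℂ → ℂ} {c : ℕ → ℝ},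
    (∀ n, |c n| ≤ κ n ^ 2) → SK HP κ 2 j f →
    SK HP (fun n => κ n ^ 3) 0 j (fun n z => (c n : ℂ) * f n z) := by
  have base : ∀ {f : ℕ → ℂ → ℂ} {c : ℕ → ℝ}, (∀ n, |c n| ≤ κ n ^ 2) → SP HP κ 2 f →
      SP HP (fun n => κ n ^ 3) 0 (fun n z => (c n : ℂ) * f n z) := by
    intro f c hc H
    refine ⟨fun n => contDiffOn_const.mul (H.sm n), fun K hK hKH => ?_⟩
    obtain ⟨C, hC0, hC⟩ := H.bd K hK hKH
    refine ⟨C, hC0, hC.mono fun n hn z hz => ?_⟩
    rw [pow_zero, mul_one, norm_mul, Complex.norm_real, Real.norm_eq_abs]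
    calc |c n| * ‖f n z‖ ≤ κ n ^ 2 * ‖f n z‖ := mul_le_mul_of_nonneg_right (hc n) (norm_nonneg _)
      _ = ‖f n z‖ * κ n ^ 2 := mul_comm _ _
      _ ≤ C := hn z hz
  induction j with
  | zero => intro f c hc H; exact base hc H
  | succ j ih =>
    intro f c hc H
    have e : ∀ v, ∀ n, ∀ z ∈ HP, hd (fun n => κ n ^ 3) v (fun n z => (c n : ℂ) * f n z) n z =
        ((c n * κ n ^ 2 : ℝ) : ℂ) * hd κ v f n z := by
      intro v n z hz
      simp only [hd]
      rw [fderiv_const_mul (fda HPo (H.1.sm n) hz)]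
      simp only [smul_apply, smul_eq_mul]
      push_cast; ring
    have hc' : ∀ n, |c n * κ n ^ 2| ≤ κ n ^ 2 := by
      intro n
      have a1 : κ n ^ 2 ≤ 1 := pow_le_one₀ (kp n).le (k1 n)
      have a2 : 0 ≤ κ n ^ 2 := sq_nonneg _
      rw [abs_mul, abs_of_nonneg a2]
      calc |c n| * κ n ^ 2 ≤ 1 * κ n ^ 2 := mul_le_mul_of_nonneg_right ((hc n).trans a1) a2
        _ = κ n ^ 2 := one_mul _
    exact ⟨base hc H.1, (ih hc' H.2.1).congr HPo (e 1), (ih hc' H.2.2).congr HPo (e I)⟩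

/-- a bounded smooth function of a slow function -/
lemma comp (kp : ∀ n, 0 < κ n) (k1 : ∀ n, κ n ≤ 1) {g : ℕ → ℂ → ℝ}
    (sg : ∀ n, ContDiffOn ℝ ∞ (g n) HP) (hg : ∀ j, SK HP κ 2 j (fun n z => (g n z : ℂ)))
    (j : ℕ) : ∀ {Φ : ℝ → ℝ}, ContDiff ℝ ∞ Φ → (∀ k, ∃ C, ∀ x, |iteratedDeriv k Φ x| ≤ C) →
    SK HP (fun n => κ n ^ 3) 0 j (fun n z => ((Φ (g n z) : ℝ) : ℂ)) := by
  have base : ∀ {Φ : ℝ → ℝ}, ContDiff ℝ ∞ Φ → (∀ k, ∃ C, ∀ x, |iteratedDeriv k Φ x| ≤ C) →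
      SP HP (fun n => κ n ^ 3) 0 (fun n z => ((Φ (g n z) : ℝ) : ℂ)) := by
    intro Φ hΦ hb
    refine ⟨fun n => Complex.ofRealCLM.contDiff.comp_contDiffOn (hΦ.comp_contDiffOn (sg n)),
      fun K hK hKH => ?_⟩
    obtain ⟨C, hC⟩ := hb 0
    refine ⟨|C|, abs_nonneg _, Eventually.of_forall fun n z hz => ?_⟩
    rw [pow_zero, mul_one, Complex.norm_real, Real.norm_eq_abs]
    have := hC (g n z)
    rw [iteratedDeriv_zero] at this
    exact this.trans (le_abs_self _)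
  induction j with
  | zero => intro Φ hΦ hb; exact base hΦ hb
  | succ j ih =>
    intro Φ hΦ hb
    have hΦ' : ContDiff ℝ ∞ (deriv Φ) := (contDiff_infty_iff_deriv.1 hΦ).2
    have hb' : ∀ k, ∃ C, ∀ x, |iteratedDeriv k (deriv Φ) x| ≤ C := by
      intro k
      obtain ⟨C, hC⟩ := hb (k + 1)
      refine ⟨C, fun x => ?_⟩
      rw [← iteratedDeriv_succ']; exact hC x
    have h1 := ih hΦ' hb'
    have h2 : ∀ v, SK HP κ 2 j (hd κ v (fun n z => (g n z : ℂ))) →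
        SK HP (fun n => κ n ^ 3) 0 j (hd (fun n => κ n ^ 3) v
          (fun n z => ((Φ (g n z) : ℝ) : ℂ))) := by
      intro v hv
      have h3 := resc kp k1 j (c := fun n => κ n ^ 2)
        (fun n => by rw [abs_of_nonneg (sq_nonneg _)]) hv
      have h4 := h1.mul HPo (fun n => pow_pos (kp n) 3) h3
      refine h4.congr HPo fun n z hz => ?_
      have d1 : DifferentiableAt ℝ (g n) z :=
        ((sg n).contDiffAt (HPo.mem_nhds hz)).differentiableAt (by simp)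
      have d2 : HasDerivAt Φ (deriv Φ (g n z)) (g n z) :=
        ((hΦ.differentiable (by simp)) _).hasDerivAt
      have d3 : HasFDerivAt (fun z => Φ (g n z)) (deriv Φ (g n z) • fderiv ℝ (g n) z) z :=
        d2.comp_hasFDerivAt z d1.hasFDerivAt
      have d4 : HasFDerivAt (fun z => ((Φ (g n z) : ℝ) : ℂ))
          (Complex.ofRealCLM.comp (deriv Φ (g n z) • fderiv ℝ (g n) z)) z :=
        Complex.ofRealCLM.hasFDerivAt.comp z d3
      have d5 : HasFDerivAt (fun z => ((g n z : ℝ) : ℂ))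
          (Complex.ofRealCLM.comp (fderiv ℝ (g n) z)) z :=
        Complex.ofRealCLM.hasFDerivAt.comp z d1.hasFDerivAt
      simp only [hd]
      rw [d4.fderiv, d5.fderiv]
      simp only [ContinuousLinearMap.comp_apply, smul_apply, smul_eq_mul, Complex.ofRealCLM_apply]
      push_cast; ring
    exact ⟨base hΦ hb, h2 1 (hg (j + 1)).2.1, h2 I (hg (j + 1)).2.2⟩

end

end Pool.Agent.Y265.HY.DC
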