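import Pool.Agent.Y265.HY.D

/-! Null forms of exact solutions. -/
set_option autoImplicit false
open MeasureTheory Filter Topology Complex
open scoped ContDiff Manifold

namespace Pool.Agent.Y265.HY

open Pool.Agent.W745.RW Pool.Agent.TH294.RS
open Pool.Agent.Y265.RW (cutoff DF L1b UG unifG null_df int_mul int_mulr)

noncomputable section

variable {B : Set ℂ} {h : ℕ → ℝ} {w : ℤ → ℕ → ℂ → ℂ} {a : ℂ → ℝ}

/-- products with smooth weak limits and majorants -/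
structure PL (B : Set ℂ) (p : ℕ → ℂ → ℂ) (L : ℂ → ℂ) : Prop where
  lb : LB B 1 p
  sl : ContDiffOn ℝ ∞ L B
  wn : WN B (fun n z => p n z - L z)
  mj : ∀ B' K : Set ℂ, IsOpen B' → IsCompact K → B' ⊆ K → K ⊆ B →
    ∃ (m : ℕ → ℂ → ℝ) (C : ℝ), (∀ n, ContinuousOn (m n) B') ∧ (∀ n, ∀ z ∈ B', ‖p n z‖ ≤ m n z) ∧
      ∀ φ, TF B' φ → Tendsto (fun n => ∫ z, φ z * m n z) atTop (𝓝 (C * ∫ z, φ z))

lemma PL.mul (H : SY B a h w) {f g : ℕ → ℂ → ℂ} (hf : Dec B h w f) (hg : Dec B h w g) {L : ℂ → ℂ}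
    (hL : WL B f g L) : PL B (fun n z => f n z * g n z) L := by
  refine ⟨LB.mul2 (hf.m H).lb (hg.m H).lb, hL.1, hL.2, fun B' K oB hK h1 h2 => ?_⟩
  obtain ⟨m1, C1, c1, b1, l1⟩ := hf.mj H oB hK h1 h2
  obtain ⟨m2, C2, c2, b2, l2⟩ := hg.mj H oB hK h1 h2
  refine ⟨fun n z => m1 n z + m2 n z, C1 + C2, fun n => (c1 n).add (c2 n), fun n z hz => ?_,
    fun φ hφ => ?_⟩
  · rw [norm_mul]
    nlinarith [b1 n z hz, b2 n z hz, sq_nonneg (‖f n z‖ - ‖g n z‖), sq_nonneg ‖f n z‖,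
      sq_nonneg ‖g n z‖]
  · have := (l1 φ hφ).add (l2 φ hφ)
    rw [add_mul]
    refine Tendsto.congr (fun n => ?_) this
    rw [← integral_add (int_mulr oB hφ (c1 n)) (int_mulr oB hφ (c2 n))]
    congr 1; funext z; ring

lemma PL.su {p : ℕ → ℂ → ℂ} {L : ℂ → ℂ} (hp : PL B p L) : SU B (fun n z => p n z - L z) := by
  refine ⟨fun n => (hp.lb.sm n).sub hp.sl, hp.wn, fun B' K oB hK h1 h2 => ?_⟩
  obtain ⟨m1, C1, c1, b1, l1⟩ := hp.mj B' K oB hK h1 h2
  obtain ⟨M, hM⟩ := hK.exists_bound_of_continuousOn (hp.sl.continuousOn.mono h2)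
  refine ⟨fun n z => m1 n z + M, C1 + M, fun n => (c1 n).add continuousOn_const, fun n z hz => ?_,
    fun φ hφ => ?_⟩
  · exact (norm_sub_le _ _).trans (add_le_add (b1 n z hz) (hM z (h1 hz)))
  · have := (l1 φ hφ).add_const (M * ∫ z, φ z)
    rw [add_mul]
    refine Tendsto.congr (fun n => ?_) this
    rw [← integral_const_mul, ← integral_add (int_mulr oB hφ (c1 n))
      ((hφ.1.continuous.integrable_of_hasCompactSupport hφ.2.1).const_mul M)]
    congr 1; funext z; ring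

lemma SU.congr {p q : ℕ → ℂ → ℂ} (hp : SU B p) (e : ∀ n, ∀ z ∈ B, q n z = p n z) : SU B q := by
  refine ⟨fun n => (hp.sm n).congr (e n), hp.wn.congr e, fun B' K oB hK h1 h2 => ?_⟩
  obtain ⟨m1, C1, c1, b1, l1⟩ := hp.mj B' K oB hK h1 h2
  exact ⟨m1, C1, c1, fun n z hz => by rw [e n z (h2 (h1 hz))]; exact b1 n z hz, l1⟩

lemma SU.add {p q : ℕ → ℂ → ℂ} (hp : SU B p) (hq : SU B q) : SU B (fun n z => p n z + q n z) := by
  refine ⟨fun n => (hp.sm n).add (hq.sm n), hp.wn.add hq.wn, fun B' K oB hK h1 h2 => ?_⟩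
  obtain ⟨m1, C1, c1, b1, l1⟩ := hp.mj B' K oB hK h1 h2
  obtain ⟨m2, C2, c2, b2, l2⟩ := hq.mj B' K oB hK h1 h2
  refine ⟨fun n z => m1 n z + m2 n z, C1 + C2, fun n => (c1 n).add (c2 n), fun n z hz => ?_,
    fun φ hφ => ?_⟩
  · exact (norm_add_le _ _).trans (add_le_add (b1 n z hz) (b2 n z hz))
  · have := (l1 φ hφ).add (l2 φ hφ)
    rw [add_mul]
    refine Tendsto.congr (fun n => ?_) this
    rw [← integral_add (int_mulr oB hφ (c1 n)) (int_mulr oB hφ (c2 n))]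
    congr 1; funext z; ring

lemma SU.smul (hB : IsOpen B) {p : ℕ → ℂ → ℂ} (hp : SU B p) {c : ℂ → ℂ}
    (hc : ContDiffOn ℝ ∞ c B) : SU B (fun n z => c z * p n z) := by
  refine ⟨fun n => hc.mul (hp.sm n), WNs hB hp.wn hc, fun B' K oB hK h1 h2 => ?_⟩
  obtain ⟨m1, C1, c1, b1, l1⟩ := hp.mj B' K oB hK h1 h2
  obtain ⟨M, hM⟩ := hK.exists_bound_of_continuousOn (hc.continuousOn.mono h2)
  refine ⟨fun n z => |M| * m1 n z, |M| * C1, fun n => continuousOn_const.mul (c1 n),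
    fun n z hz => ?_, fun φ hφ => ?_⟩
  · rw [norm_mul]
    exact mul_le_mul ((hM z (h1 hz)).trans (le_abs_self _)) (b1 n z hz) (norm_nonneg _)
      (abs_nonneg _)
  · have := (l1 φ hφ).const_mul |M|
    rw [mul_assoc]
    refine Tendsto.congr (fun n => ?_) this
    rw [← integral_const_mul]
    congr 1; funext z; ring

lemma l1b_of {p : ℕ → ℂ → ℂ} (hp : LB B 1 p) : L1b B p := by
  intro K hK hKB
  obtain ⟨C, hC⟩ := hp.bd K hK hKB
  refine ⟨C, hC.mono fun n hn => ?_⟩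
  simpa only [pow_one] using hn

/-- inverse height -/
def iy (z : ℂ) : ℂ := ((z.im : ℂ))⁻¹

lemma iy_sm (hBU : B ⊆ UH) : ContDiffOn ℝ ∞ iy B := by
  refine ContDiffOn.inv sim.contDiffOn fun z hz => ?_
  have : 0 < z.im := hBU hz
  exact_mod_cast this.ne'

lemma iy_mul {z : ℂ} (hz : z ∈ UH) : (z.im : ℂ) * iy z = 1 := by
  have : 0 < z.im := hz
  exact mul_inv_cancel₀ (by exact_mod_cast this.ne')

lemma iy_d {z : ℂ} (hz : z ∈ UH) (v : ℂ) : fderiv ℝ iy z v = -(v.im : ℂ) * iy z ^ 2 := by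
  have d1 := fda UH_open (iy_sm subset_rfl) hz
  have d2 := fda UH_open (sim.contDiffOn (s := UH)) hz
  have e1 := fderiv_fun_mul d2 d1
  have e2 : fderiv ℝ (fun z : ℂ => (z.im : ℂ) * iy z) z = 0 := by
    have : (fun z : ℂ => (z.im : ℂ) * iy z) =ᶠ[𝓝 z] fun _ => 1 := by
      filter_upwards [UH_open.mem_nhds hz] with w hw
      exact iy_mul hw
    rw [this.fderiv_eq]; simp
  rw [e2] at e1
  have e3 := congrArg (fun L : ℂ →L[ℝ] ℂ => L v) e1
  simp only [zero_apply, add_apply, smul_apply, smul_eq_mul, fim] at e3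
  have e4 := iy_mul hz
  linear_combination (-(iy z)) * e3 - (fderiv ℝ iy z v) * e4

/-- the three components in projective coordinates -/
def tp (s a b : ℂ → ℂ) (z : ℂ) : ℂ := iy z ^ 3 * (s z + (1/2) * (a z + b z))
def tc (a b : ℂ → ℂ) (z : ℂ) : ℂ := iy z ^ 2 * ((I/2) * (a z - b z))
def td (s a b : ℂ → ℂ) (z : ℂ) : ℂ := iy z * (s z - (1/2) * (a z + b z))
def tq (s a b : ℂ → ℂ) (z : ℂ) : ℂ := 2 * z.re * tp s a b z + 2 * tc a b z
def tr (s a b : ℂ → ℂ) (z : ℂ) : ℂ :=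
  4 * (z.re : ℂ) ^ 2 * tp s a b z + 8 * z.re * tc a b z + 4 * td s a b z

/-- the divergence free relations -/
def HC (B : Set ℂ) (s a b : ℂ → ℂ) : Prop :=
  ContDiffOn ℝ ∞ s B ∧ ContDiffOn ℝ ∞ a B ∧ ContDiffOn ℝ ∞ b B ∧ ∀ z ∈ B,
    (z.im : ℂ) * (dx a z + I * dy a z) + (z.im : ℂ) * (dx s z - I * dy s z) = 2 * I * a z ∧
    (z.im : ℂ) * (dx b z - I * dy b z) + (z.im : ℂ) * (dx s z + I * dy s z) = - (2 * I * b z)

lemma HC.hdf (hB : IsOpen B) (hBU : B ⊆ UH) {s a b : ℂ → ℂ} (H : HC B s a b) :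
    HDF B (tp s a b) (tq s a b) (tr s a b) := by
  obtain ⟨ss, sa, sb, he⟩ := H
  have si := iy_sm hBU
  have sx : ContDiffOn ℝ ∞ (fun z : ℂ => (z.re : ℂ)) B := sre.contDiffOn
  have u1 : ContDiffOn ℝ ∞ (fun z => s z + (1/2) * (a z + b z)) B :=
    ss.add (contDiffOn_const.mul (sa.add sb))
  have u2 : ContDiffOn ℝ ∞ (fun z => (I/2) * (a z - b z)) B := contDiffOn_const.mul (sa.sub sb)
  have u3 : ContDiffOn ℝ ∞ (fun z => s z - (1/2) * (a z + b z)) B :=
    ss.sub (contDiffOn_const.mul (sa.add sb))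
  have s1 : ContDiffOn ℝ ∞ (tp s a b) B := (si.pow 3).mul u1
  have s2 : ContDiffOn ℝ ∞ (tc a b) B := (si.pow 2).mul u2
  have s3 : ContDiffOn ℝ ∞ (td s a b) B := si.mul u3
  have s4 : ContDiffOn ℝ ∞ (tq s a b) B :=
    ((contDiffOn_const.mul sx).mul s1).add (contDiffOn_const.mul s2)
  have s5 : ContDiffOn ℝ ∞ (tr s a b) B :=
    (((contDiffOn_const.mul (sx.pow 2)).mul s1).add ((contDiffOn_const.mul sx).mul s2)).add
      (contDiffOn_const.mul s3)
  refine ⟨s1, s4, s5, fun z hz => ?_⟩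
  have m : ∀ {p q : ℂ → ℂ}, ContDiffOn ℝ ∞ p B → ContDiffOn ℝ ∞ q B → ∀ v,
      fderiv ℝ (fun z => p z * q z) z v = p z * fderiv ℝ q z v + q z * fderiv ℝ p z v := by
    intro p q hp hq v
    rw [fderiv_fun_mul (fda hB hp hz) (fda hB hq hz)]
    simp only [add_apply, smul_apply, smul_eq_mul]
  have ad : ∀ {p q : ℂ → ℂ}, ContDiffOn ℝ ∞ p B → ContDiffOn ℝ ∞ q B → ∀ v,
      fderiv ℝ (fun z => p z + q z) z v = fderiv ℝ p z v + fderiv ℝ q z v := by
    intro p q hp hq v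
    rw [fderiv_fun_add (fda hB hp hz) (fda hB hq hz)]
    simp only [add_apply]
  have sb' : ∀ {p q : ℂ → ℂ}, ContDiffOn ℝ ∞ p B → ContDiffOn ℝ ∞ q B → ∀ v,
      fderiv ℝ (fun z => p z - q z) z v = fderiv ℝ p z v - fderiv ℝ q z v := by
    intro p q hp hq v
    rw [fderiv_fun_sub (fda hB hp hz) (fda hB hq hz)]
    simp only [sub_apply]
  have cm : ∀ (c : ℂ) {p : ℂ → ℂ}, ContDiffOn ℝ ∞ p B → ∀ v,
      fderiv ℝ (fun z => c * p z) z v = c * fderiv ℝ p z v := by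
    intro c p hp v; exact fd_cm (fda hB hp hz) c v
  have p2 : ∀ v, fderiv ℝ (fun z => iy z ^ 2) z v = 2 * iy z * (-(v.im : ℂ) * iy z ^ 2) := by
    intro v
    have : (fun z => iy z ^ 2) = fun z => iy z * iy z := by funext z; ring
    rw [this, m si si, iy_d (hBU hz)]; ring
  have p3 : ∀ v, fderiv ℝ (fun z => iy z ^ 3) z v = 3 * iy z ^ 2 * (-(v.im : ℂ) * iy z ^ 2) := by
    intro v
    have : (fun z => iy z ^ 3) = fun z => iy z ^ 2 * iy z := by funext z; ring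
    rw [this, m (si.pow 2) si, iy_d (hBU hz), p2]; ring
  have dp : ∀ v, fderiv ℝ (tp s a b) z v = iy z ^ 3 * (fderiv ℝ s z v + (1/2) * (fderiv ℝ a z v +
      fderiv ℝ b z v)) + (s z + (1/2) * (a z + b z)) * (3 * iy z ^ 2 * (-(v.im : ℂ) * iy z ^ 2)) := by
    intro v
    have e0 : tp s a b = fun z => iy z ^ 3 * (s z + (1/2) * (a z + b z)) := rfl
    rw [e0, m (si.pow 3) u1, p3, ad ss (contDiffOn_const.mul (sa.add sb)),
      cm (1/2) (sa.add sb), ad sa sb]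
  have dc : ∀ v, fderiv ℝ (tc a b) z v = iy z ^ 2 * ((I/2) * (fderiv ℝ a z v -
      fderiv ℝ b z v)) + ((I/2) * (a z - b z)) * (2 * iy z * (-(v.im : ℂ) * iy z ^ 2)) := by
    intro v
    have e0 : tc a b = fun z => iy z ^ 2 * ((I/2) * (a z - b z)) := rfl
    rw [e0, m (si.pow 2) u2, p2, cm (I/2) (sa.sub sb), sb' sa sb]
  have dd' : ∀ v, fderiv ℝ (td s a b) z v = iy z * (fderiv ℝ s z v - (1/2) * (fderiv ℝ a z v +
      fderiv ℝ b z v)) + (s z - (1/2) * (a z + b z)) * (-(v.im : ℂ) * iy z ^ 2) := by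
    intro v
    have e0 : td s a b = fun z => iy z * (s z - (1/2) * (a z + b z)) := rfl
    rw [e0, m si u3, iy_d (hBU hz), sb' ss (contDiffOn_const.mul (sa.add sb)),
      cm (1/2) (sa.add sb), ad sa sb]
  have dq : ∀ v, fderiv ℝ (tq s a b) z v = 2 * (z.re : ℂ) * fderiv ℝ (tp s a b) z v +
      tp s a b z * (2 * (v.re : ℂ)) + 2 * fderiv ℝ (tc a b) z v := by
    intro v
    have e0 : tq s a b = fun z => (2 * (z.re : ℂ)) * tp s a b z + 2 * tc a b z := rfl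
    rw [e0, ad ((contDiffOn_const.mul sx).mul s1) (contDiffOn_const.mul s2),
      m (contDiffOn_const.mul sx) s1, cm 2 s2, cm 2 sx, fre]
  have x2 : ∀ v, fderiv ℝ (fun z : ℂ => (z.re : ℂ) ^ 2) z v = 2 * (z.re : ℂ) * v.re := by
    intro v
    have : (fun z : ℂ => (z.re : ℂ) ^ 2) = fun z : ℂ => (z.re : ℂ) * (z.re : ℂ) := by
      funext z; ring
    rw [this, m sx sx, fre]; ring
  have dr : ∀ v, fderiv ℝ (tr s a b) z v = 4 * (z.re : ℂ) ^ 2 * fderiv ℝ (tp s a b) z v +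
      tp s a b z * (4 * (2 * (z.re : ℂ) * v.re)) + 8 * (z.re : ℂ) * fderiv ℝ (tc a b) z v +
      tc a b z * (8 * (v.re : ℂ)) + 4 * fderiv ℝ (td s a b) z v := by
    intro v
    have e0 : tr s a b = fun z => (4 * (z.re : ℂ) ^ 2) * tp s a b z +
      (8 * (z.re : ℂ)) * tc a b z + 4 * td s a b z := rfl
    rw [e0, ad (((contDiffOn_const.mul (sx.pow 2)).mul s1).add ((contDiffOn_const.mul sx).mul s2))
      (contDiffOn_const.mul s3), ad ((contDiffOn_const.mul (sx.pow 2)).mul s1)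
      ((contDiffOn_const.mul sx).mul s2), m (contDiffOn_const.mul (sx.pow 2)) s1,
      m (contDiffOn_const.mul sx) s2, cm 4 s3, cm 4 (sx.pow 2), cm 8 sx, fre, x2]
    ring
  obtain ⟨r1, r2⟩ := he z hz
  have ey := iy_mul (hBU hz)
  simp only [dx, dy] at r1 r2 ⊢
  rw [dq, dr, dq, dp, dp, dc, dc, dd']
  simp only [one_re, one_im, I_re, I_im, ofReal_one, ofReal_zero, tp, tc]
  set y : ℂ := (z.im : ℂ)
  set x : ℂ := (z.re : ℂ)
  set q := iy z
  set s0 := s z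
  set a0 := a z
  set b0 := b z
  set s1' := fderiv ℝ s z 1
  set sI := fderiv ℝ s z I
  set a1 := fderiv ℝ a z 1
  set aI := fderiv ℝ a z I
  set b1 := fderiv ℝ b z 1
  set bI := fderiv ℝ b z I
  have r1' : (a1 + I * aI) + (s1' - I * sI) = 2 * I * a0 * q := by
    linear_combination q * r1 - ((a1 + I * aI) + (s1' - I * sI)) * ey
  have r2' : (b1 - I * bI) + (s1' + I * sI) = - (2 * I * b0 * q) := by
    linear_combination q * r2 - ((b1 - I * bI) + (s1' + I * sI)) * ey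
  have hI := Complex.I_sq
  have F1 : s1' + (1/2) * (a1 + b1) + (I/2) * (aI - bI) = I * (a0 - b0) * q := by
    linear_combination (1/2) * r1' + (1/2) * r2'
  have F2 : (I/2) * (a1 - b1) - (1/2) * (aI + bI) + sI = - (a0 + b0) * q := by
    linear_combination (I/2) * r1' - (I/2) * r2' + ((-1/2) * (aI + bI) + sI + (-1) * (a0 + b0) * q * (-1)) * hI
  constructor
  · linear_combination (2 * q ^ 2) * F1 + (2 * q ^ 2 * (s1' + (1/2) * (a1 + b1))) * ey
  · linear_combination (4 * y * q ^ 2) * F2 + (4 * x * q ^ 2) * F1 +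
      (x * q ^ 2 * (4 * s1' + 2 * a1 + 2 * b1) - q * (4 * sI - 2 * aI - 2 * bI) +
        q ^ 2 * (4 * s0 - 2 * a0 - 2 * b0)) * ey

/-- derivatives of weakly null smooth sequences are weakly null -/
lemma WN.d (hB : IsOpen B) {f : ℕ → ℂ → ℂ} (hs : ∀ n, ContDiffOn ℝ ∞ (f n) B) (hf : WN B f)
    (v : ℂ) : WN B (fun n z => fderiv ℝ (f n) z v) := by
  refine ⟨fun n => (cfd hB (hs n) v).continuousOn, fun φ hφ => ?_⟩
  have n2 := (hf.nul _ (Pool.Agent.W450.RW.T.tf_deriv hφ v)).neg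
  rw [neg_zero] at n2
  exact n2.congr fun n => (Pool.Agent.W450.RW.T.parts1 hB hφ (hs n) v).symm

lemma wn_const (hB : IsOpen B) {D : ℂ → ℂ} (hD : ContinuousOn D B) (hw : WN B (fun _ z => D z))
    {z : ℂ} (hz : z ∈ B) : D z = 0 := by
  have h1 : ∀ g : ℂ → ℝ, ContDiff ℝ ∞ g → HasCompactSupport g → tsupport g ⊆ B →
      ∫ x, g x • D x = 0 := by
    intro g h1 h2 h3
    have := hw.nul g ⟨h1, h2, h3⟩
    have := tendsto_nhds_unique this tendsto_const_nhds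
    simp only [real_smul]
    exact this.symm
  have h2 := hB.ae_eq_zero_of_integral_contDiff_smul_eq_zero
    (hD.locallyIntegrableOn hB.measurableSet) h1
  have h3 : D =ᵐ[volume.restrict B] fun _ => 0 := by
    rw [Filter.EventuallyEq, ae_restrict_iff' hB.measurableSet]
    exact h2
  exact Measure.eqOn_open_of_ae_eq h3 hB hD continuousOn_const hz

lemma wl_unique (hB : IsOpen B) {f g : ℕ → ℂ → ℂ} {L L' : ℂ → ℂ} (h1 : WL B f g L)
    (h2 : WL B f g L') {z : ℂ} (hz : z ∈ B) : L z = L' z := by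
  have := wn_const hB (h1.1.sub h2.1).continuousOn ((h2.2.sub h1.2).congr fun n z _ => by ring) hz
  exact sub_eq_zero.1 this

/-- the relations pass to weak limits -/
lemma HC.lim (hB : IsOpen B) {s a b : ℕ → ℂ → ℂ} (H : ∀ n, HC B (s n) (a n) (b n))
    {s0 a0 b0 : ℂ → ℂ} (h1 : PL B s s0) (h2 : PL B a a0) (h3 : PL B b b0) : HC B s0 a0 b0 := by
  refine ⟨h1.sl, h2.sl, h3.sl, fun z hz => ?_⟩
  have d1 : ∀ v, WN B (fun n z => fderiv ℝ (s n) z v - fderiv ℝ s0 z v) := fun v =>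
    (WN.d hB (fun n => (h1.lb.sm n).sub h1.sl) h1.wn v).congr fun n z hz => by
      rw [fderiv_fun_sub (fda hB (h1.lb.sm n) hz) (fda hB h1.sl hz)]; rfl
  have d2 : ∀ v, WN B (fun n z => fderiv ℝ (a n) z v - fderiv ℝ a0 z v) := fun v =>
    (WN.d hB (fun n => (h2.lb.sm n).sub h2.sl) h2.wn v).congr fun n z hz => by
      rw [fderiv_fun_sub (fda hB (h2.lb.sm n) hz) (fda hB h2.sl hz)]; rfl
  have d3 : ∀ v, WN B (fun n z => fderiv ℝ (b n) z v - fderiv ℝ b0 z v) := fun v =>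
    (WN.d hB (fun n => (h3.lb.sm n).sub h3.sl) h3.wn v).congr fun n z hz => by
      rw [fderiv_fun_sub (fda hB (h3.lb.sm n) hz) (fda hB h3.sl hz)]; rfl
  have sy : ContDiffOn ℝ ∞ (fun z : ℂ => (z.im : ℂ)) B := sim.contDiffOn
  constructor
  · have w1 := (((WNs hB (((d2 1).add ((d2 I).cmul I)).add ((d1 1).sub ((d1 I).cmul I))) sy).sub
      (h2.wn.cmul (2 * I))).neg).congr (g := fun _ z => (z.im : ℂ) * (dx a0 z + I * dy a0 z) +
        (z.im : ℂ) * (dx s0 z - I * dy s0 z) - 2 * I * a0 z) (fun n z hz => by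
        have := ((H n).2.2.2 z hz).1
        simp only [dx, dy] at this ⊢
        linear_combination this)
    have c : ContinuousOn (fun z => (z.im : ℂ) * (dx a0 z + I * dy a0 z) +
        (z.im : ℂ) * (dx s0 z - I * dy s0 z) - 2 * I * a0 z) B := w1.co 0
    exact sub_eq_zero.1 (wn_const hB c w1 hz)
  · have w1 := (((WNs hB (((d3 1).sub ((d3 I).cmul I)).add ((d1 1).add ((d1 I).cmul I))) sy).add
      (h3.wn.cmul (2 * I))).neg).congr (g := fun _ z => (z.im : ℂ) * (dx b0 z - I * dy b0 z) +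
        (z.im : ℂ) * (dx s0 z + I * dy s0 z) + 2 * I * b0 z) (fun n z hz => by
        have := ((H n).2.2.2 z hz).2
        simp only [dx, dy] at this ⊢
        linear_combination this)
    have c : ContinuousOn (fun z => (z.im : ℂ) * (dx b0 z - I * dy b0 z) +
        (z.im : ℂ) * (dx s0 z + I * dy s0 z) + 2 * I * b0 z) B := w1.co 0
    have := wn_const hB c w1 hz
    linear_combination this

lemma HC.sub (hB : IsOpen B) {s a b s0 a0 b0 : ℂ → ℂ} (H : HC B s a b) (H0 : HC B s0 a0 b0) :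
    HC B (fun z => s z - s0 z) (fun z => a z - a0 z) (fun z => b z - b0 z) := by
  refine ⟨H.1.sub H0.1, H.2.1.sub H0.2.1, H.2.2.1.sub H0.2.2.1, fun z hz => ?_⟩
  have e : ∀ {p q : ℂ → ℂ}, ContDiffOn ℝ ∞ p B → ContDiffOn ℝ ∞ q B → ∀ v,
      fderiv ℝ (fun z => p z - q z) z v = fderiv ℝ p z v - fderiv ℝ q z v := by
    intro p q hp hq v
    rw [fderiv_fun_sub (fda hB hp hz) (fda hB hq hz)]; rfl
  obtain ⟨r1, r2⟩ := H.2.2.2 z hz
  obtain ⟨q1, q2⟩ := H0.2.2.2 z hz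
  simp only [dx, dy] at r1 r2 q1 q2 ⊢
  rw [e H.1 H0.1, e H.1 H0.1, e H.2.1 H0.2.1, e H.2.1 H0.2.1, e H.2.2.1 H0.2.2.1,
    e H.2.2.1 H0.2.2.1]
  constructor
  · linear_combination r1 - q1
  · linear_combination r2 - q2

/-- **null forms of divergence free tensors on the hyperbolic plane** -/
theorem null_tri (hB : IsOpen B) (hBU : B ⊆ UH) {s a b s' a' b' : ℕ → ℂ → ℂ}
    (H : ∀ n, HC B (s n) (a n) (b n)) (H' : ∀ n, HC B (s' n) (a' n) (b' n))
    {s0 a0 b0 s0' a0' b0' : ℂ → ℂ} (h1 : PL B s s0) (h2 : PL B a a0) (h3 : PL B b b0)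
    (h1' : PL B s' s0') (h2' : PL B a' a0') (h3' : PL B b' b0') :
    WN B (fun n z => a n z * b' n z + b n z * a' n z - 2 * s n z * s' n z -
      (a0 z * b0' z + b0 z * a0' z - 2 * s0 z * s0' z)) := by
  have si := iy_sm hBU
  have sx : ContDiffOn ℝ ∞ (fun z : ℂ => (z.re : ℂ)) B := sre.contDiffOn
  have sy : ContDiffOn ℝ ∞ (fun z : ℂ => (z.im : ℂ)) B := sim.contDiffOn
  have H0' := HC.lim hB H' h1' h2' h3'
  -- linear combinations
  have lbp : ∀ c1 c2 c3 : ℂ → ℂ, ContDiffOn ℝ ∞ c1 B → ContDiffOn ℝ ∞ c2 B → ContDiffOn ℝ ∞ c3 B →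
      L1b B (fun n z => c1 z * s n z + c2 z * a n z + c3 z * b n z) := fun c1 c2 c3 k1 k2 k3 =>
    l1b_of (((h1.lb.smulc k1).add (h2.lb.smulc k2)).add (h3.lb.smulc k3))
  have sup : ∀ c1 c2 c3 : ℂ → ℂ, ContDiffOn ℝ ∞ c1 B → ContDiffOn ℝ ∞ c2 B → ContDiffOn ℝ ∞ c3 B →
      SU B (fun n z => c1 z * (s' n z - s0' z) + c2 z * (a' n z - a0' z) +
        c3 z * (b' n z - b0' z)) := fun c1 c2 c3 k1 k2 k3 =>
    ((h1'.su.smul hB k1).add (h2'.su.smul hB k2)).add (h3'.su.smul hB k3)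
  have k1 : ContDiffOn ℝ ∞ (fun z => iy z ^ 3) B := si.pow 3
  have k1' : ContDiffOn ℝ ∞ (fun z => iy z ^ 3 * (1/2)) B := (si.pow 3).mul contDiffOn_const
  have k2 : ContDiffOn ℝ ∞ (fun z : ℂ => 2 * (z.re : ℂ) * iy z ^ 3) B :=
    (contDiffOn_const.mul sx).mul k1
  have k2' : ContDiffOn ℝ ∞ (fun z : ℂ => 2 * (z.re : ℂ) * (iy z ^ 3 * (1/2)) + iy z ^ 2 * I) B :=
    ((contDiffOn_const.mul sx).mul k1').add ((si.pow 2).mul contDiffOn_const)
  have k2'' : ContDiffOn ℝ ∞ (fun z : ℂ => 2 * (z.re : ℂ) * (iy z ^ 3 * (1/2)) - iy z ^ 2 * I) B :=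
    ((contDiffOn_const.mul sx).mul k1').sub ((si.pow 2).mul contDiffOn_const)
  have k3 : ContDiffOn ℝ ∞ (fun z : ℂ => 4 * (z.re : ℂ) ^ 2 * iy z ^ 3 + 4 * iy z) B :=
    ((contDiffOn_const.mul (sx.pow 2)).mul k1).add (contDiffOn_const.mul si)
  have k3' : ContDiffOn ℝ ∞ (fun z : ℂ => 4 * (z.re : ℂ) ^ 2 * (iy z ^ 3 * (1/2)) +
      4 * (z.re : ℂ) * I * iy z ^ 2 - 2 * iy z) B :=
    (((contDiffOn_const.mul (sx.pow 2)).mul k1').add (((contDiffOn_const.mul sx).mul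
      contDiffOn_const).mul (si.pow 2))).sub (contDiffOn_const.mul si)
  have k3'' : ContDiffOn ℝ ∞ (fun z : ℂ => 4 * (z.re : ℂ) ^ 2 * (iy z ^ 3 * (1/2)) -
      4 * (z.re : ℂ) * I * iy z ^ 2 - 2 * iy z) B :=
    (((contDiffOn_const.mul (sx.pow 2)).mul k1').sub (((contDiffOn_const.mul sx).mul
      contDiffOn_const).mul (si.pow 2))).sub (contDiffOn_const.mul si)
  have cgL : ∀ {p q : ℕ → ℂ → ℂ}, L1b B p → (∀ n z, q n z = p n z) → L1b B q := by
    intro p q hp e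
    have : q = p := by funext n z; exact e n z
    rw [this]; exact hp
  have B1 : L1b B (fun n => tp (s n) (a n) (b n)) :=
    cgL (lbp _ _ _ k1 k1' k1') fun n z => by simp only [tp]; ring
  have B2 : L1b B (fun n => tq (s n) (a n) (b n)) :=
    cgL (lbp _ _ _ k2 k2' k2'') fun n z => by simp only [tq, tp, tc]; ring
  have B3 : L1b B (fun n => tr (s n) (a n) (b n)) :=
    cgL (lbp _ _ _ k3 k3' k3'') fun n z => by simp only [tr, tp, tc, td]; ring
  have S1 : SU B (fun n => tp (fun z => s' n z - s0' z) (fun z => a' n z - a0' z)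
      (fun z => b' n z - b0' z)) :=
    (sup _ _ _ k1 k1' k1').congr fun n z _ => by simp only [tp]; ring
  have S2 : SU B (fun n => tq (fun z => s' n z - s0' z) (fun z => a' n z - a0' z)
      (fun z => b' n z - b0' z)) :=
    (sup _ _ _ k2 k2' k2'').congr fun n z _ => by simp only [tq, tp, tc]; ring
  have S3 : SU B (fun n => tr (fun z => s' n z - s0' z) (fun z => a' n z - a0' z)
      (fun z => b' n z - b0' z)) :=
    (sup _ _ _ k3 k3' k3'').congr fun n z _ => by simp only [tr, tp, tc, td]; ring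
  -- the main part
  have W1 : WN B (fun n z => a n z * (b' n z - b0' z) + b n z * (a' n z - a0' z) -
      2 * s n z * (s' n z - s0' z)) := by
    refine ⟨fun n => ((((h2.lb.co n).mul ((h3'.lb.co n).sub h3'.sl.continuousOn)).add
      ((h3.lb.co n).mul ((h2'.lb.co n).sub h2'.sl.continuousOn))).sub
      ((continuousOn_const.mul (h1.lb.co n)).mul ((h1'.lb.co n).sub h1'.sl.continuousOn))),
      fun φ hφ => ?_⟩
    have ry : ContDiffOn ℝ ∞ (fun z : ℂ => (-1/4) * z.im ^ 4) B :=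
      (contDiff_const.mul (imCLM.contDiff.pow 4)).contDiffOn
    have t := TF.mulc hB hφ ry
    have key := null_hyp hB hBU t (fun n => (H n).hdf hB hBU)
      (fun n => ((H' n).sub hB H0').hdf hB hBU) B1 B2 B3 S1 S2 S3
    refine key.congr fun n => ?_
    refine integral_congr_ae (Eventually.of_forall fun z => ?_)
    simp only
    by_cases hz : z ∈ B
    · have ey := iy_mul (hBU hz)
      have e4 : (z.im : ℂ) ^ 4 * iy z ^ 4 = 1 := by rw [← mul_pow, ey, one_pow]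
      have hI := Complex.I_sq
      simp only [tp, tq, tr, tc, td]
      push_cast
      linear_combination ((φ z : ℂ) * (a n z * (b' n z - b0' z) + b n z * (a' n z - a0' z) -
        2 * s n z * (s' n z - s0' z))) * e4 +
        (φ z : ℂ) * (z.im : ℂ) ^ 4 * iy z ^ 4 * (1/2) * (a n z - b n z) *
        ((a' n z - a0' z) - (b' n z - b0' z)) * hI
    · rw [TF.zero hφ hz]; simp
  have W2 : WN B (fun n z => b0' z * (a n z - a0 z) + a0' z * (b n z - b0 z) +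
      (-2) * (s0' z * (s n z - s0 z))) :=
    ((WNs hB h2.wn h3'.sl).add (WNs hB h3.wn h2'.sl)).add ((WNs hB h1.wn h1'.sl).cmul (-2))
  exact (W1.add W2).congr fun n z _ => by ring

end

end Pool.Agent.Y265.HY
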