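import Pool.Agent.Y265.HY.E

/-! Quartic null forms and the Jacobian representation. -/
set_option autoImplicit false
open MeasureTheory Filter Topology Complex
open scoped ContDiff Manifold

namespace Pool.Agent.Y265.HY

open Pool.Agent.W745.RW Pool.Agent.TH294.RS

noncomputable section

variable {B : Set ℂ} {h : ℕ → ℝ} {w : ℤ → ℕ → ℂ → ℂ}

/-- the raising and lowering operators of the hyperbolic plane -/
abbrev P (h : ℕ → ℝ) (f : ℕ → ℂ → ℂ) : ℕ → ℂ → ℂ := sP Complex.im h f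
abbrev M (h : ℕ → ℝ) (f : ℕ → ℂ → ℂ) : ℕ → ℂ → ℂ := sM Complex.im h f

lemma Jm_eq (f g : ℕ → ℂ → ℂ) (n : ℕ) (z : ℂ) :
    Jm h f g n z = P h f n z * M h g n z - M h f n z * P h g n z := rfl

lemma ab_im (z : ℂ) : ab Complex.im z = I := by
  simp only [ab, db, dx, dy]
  rw [fim, fim]; simp
lemma ad_im (z : ℂ) : ad Complex.im z = -I := by
  simp only [ad, dd, dx, dy]
  rw [fim, fim]; simp

lemma EX.MP (H : SY B Complex.im h w) {f : ℕ → ℂ → ℂ} (hf : EX B h w f) (n : ℕ) {z : ℂ}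
    (hz : z ∈ B) : DM Complex.im (h n) (P h f n) z = - f n z + (h n : ℂ) * (I * P h f n z) := by
  have e1 := TH294.RS.MP H.op H.sa (h n) ((hf.dec.m H).sm n) hz
  have e2 := hf.pde n z hz
  simp only [hL] at e2
  have e3 : P h f n = DP Complex.im (h n) (f n) := rfl
  rw [e3, e1, ab_im]
  linear_combination e2

lemma EX.PM (H : SY B Complex.im h w) {f : ℕ → ℂ → ℂ} (hf : EX B h w f) (n : ℕ) {z : ℂ}
    (hz : z ∈ B) : DP Complex.im (h n) (M h f n) z = - f n z - (h n : ℂ) * (I * M h f n z) := by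
  have e1 := TH294.RS.PM H.op H.sa (h n) ((hf.dec.m H).sm n) hz
  have e2 := hf.pde n z hz
  simp only [hL] at e2
  have e3 : M h f n = DM Complex.im (h n) (f n) := rfl
  rw [e3, e1, ad_im]
  linear_combination e2

lemma EX.hc (H : SY B Complex.im h w) {f g : ℕ → ℂ → ℂ} (hf : EX B h w f) (hg : EX B h w g)
    (n : ℕ) : HC B (fun z => f n z * g n z) (fun z => P h f n z * P h g n z)
      (fun z => M h f n z * M h g n z) := by
  have hB := H.op
  have sf := (hf.dec.m H).sm n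
  have sg := (hg.dec.m H).sm n
  have pf := ((hf.dec.sP H).m H).sm n
  have pg := ((hg.dec.sP H).m H).sm n
  have mf := ((hf.dec.sM H).m H).sm n
  have mg := ((hg.dec.sM H).m H).sm n
  refine ⟨sf.mul sg, pf.mul pg, mf.mul mg, fun z hz => ?_⟩
  have hn : (h n : ℂ) ≠ 0 := by exact_mod_cast (H.hpos n).ne'
  have a1 := hf.MP H n hz
  have a2 := hg.MP H n hz
  have a3 := hf.PM H n hz
  have a4 := hg.PM H n hz
  have b1 := db_mul (fda hB pf hz) (fda hB pg hz)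
  have b2 := dd_mul (fda hB mf hz) (fda hB mg hz)
  have b3 := dd_mul (fda hB sf hz) (fda hB sg hz)
  have b4 := db_mul (fda hB sf hz) (fda hB sg hz)
  have c1 : P h f n z = (h n : ℂ) * ((z.im : ℂ) * dd (f n) z) := rfl
  have c2 : P h g n z = (h n : ℂ) * ((z.im : ℂ) * dd (g n) z) := rfl
  have c3 : M h f n z = (h n : ℂ) * ((z.im : ℂ) * db (f n) z) := rfl
  have c4 : M h g n z = (h n : ℂ) * ((z.im : ℂ) * db (g n) z) := rfl
  simp only [DP, DM] at a1 a2 a3 a4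
  constructor
  · have e1 : dx (fun z => P h f n z * P h g n z) z + I * dy (fun z => P h f n z * P h g n z) z =
      db (fun z => P h f n z * P h g n z) z := rfl
    have e2 : dx (fun z => f n z * g n z) z - I * dy (fun z => f n z * g n z) z =
      dd (fun z => f n z * g n z) z := rfl
    rw [e1, e2, b1, b3]
    apply mul_left_cancel₀ hn
    linear_combination (P h g n z) * a1 + (P h f n z) * a2 - (g n z) * c1 - (f n z) * c2
  · have e1 : dx (fun z => M h f n z * M h g n z) z - I * dy (fun z => M h f n z * M h g n z) z =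
      dd (fun z => M h f n z * M h g n z) z := rfl
    have e2 : dx (fun z => f n z * g n z) z + I * dy (fun z => f n z * g n z) z =
      db (fun z => f n z * g n z) z := rfl
    rw [e1, e2, b2, b4]
    apply mul_left_cancel₀ hn
    linear_combination (M h g n z) * a3 + (M h f n z) * a4 - (g n z) * c3 - (f n z) * c4

open Classical in
/-- the weak limit of a product -/
def lm (B : Set ℂ) (f g : ℕ → ℂ → ℂ) : ℂ → ℂ :=
  if H : ∃ L, WL B f g L then H.choose else fun _ => 0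

lemma lm_wl' {f g : ℕ → ℂ → ℂ} (H : ∃ L, WL B f g L) : WL B f g (lm B f g) := by
  unfold lm
  rw [dif_pos H]
  exact H.choose_spec

lemma lm_wl (H : SY B Complex.im h w) {f g : ℕ → ℂ → ℂ} (hf : Dec B h w f) (hg : Dec B h w g) :
    WL B f g (lm B f g) := lm_wl' (hf.wl H hg)

lemma lm_eq (hB : IsOpen B) {f g : ℕ → ℂ → ℂ} {L : ℂ → ℂ} (hL : WL B f g L) {z : ℂ} (hz : z ∈ B) :
    lm B f g z = L z := wl_unique hB (lm_wl' ⟨L, hL⟩) hL hz

lemma lm_symm (f g : ℕ → ℂ → ℂ) (z : ℂ) : lm B f g z = lm B g f z := by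
  have : WL B f g = WL B g f := by
    funext L
    have : (fun (n : ℕ) (z : ℂ) => f n z * g n z - L z) = fun n z => g n z * f n z - L z := by
      funext n z; ring
    unfold WL
    rw [this]
  unfold lm
  rw [this]

lemma lm_add (H : SY B Complex.im h w) {f f' g : ℕ → ℂ → ℂ} (hf : Dec B h w f)
    (hf' : Dec B h w f') (hg : Dec B h w g) {z : ℂ} (hz : z ∈ B) :
    lm B (fun n z => f n z + f' n z) g z = lm B f g z + lm B f' g z := by
  have h1 := lm_wl H hf hg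
  have h2 := lm_wl H hf' hg
  exact lm_eq H.op (L := fun z => lm B f g z + lm B f' g z)
    ⟨h1.1.add h2.1, (h1.2.add h2.2).congr fun n z _ => by ring⟩ hz

lemma lm_smul (H : SY B Complex.im h w) {f g : ℕ → ℂ → ℂ} {c : ℂ → ℂ} (hc : ContDiffOn ℝ ∞ c B)
    (hf : Dec B h w f) (hg : Dec B h w g) {z : ℂ} (hz : z ∈ B) :
    lm B (fun n z => c z * f n z) g z = c z * lm B f g z := by
  have h1 := lm_wl H hf hg
  exact lm_eq H.op (L := fun z => c z * lm B f g z)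
    ⟨hc.mul h1.1, (WNs H.op h1.2 hc).congr fun n z _ => by ring⟩ hz

lemma lm_err (H : SY B Complex.im h w) {e g : ℕ → ℂ → ℂ} (he : M2C B h e)
    (hg : Dec B h w g) {z : ℂ} (hz : z ∈ B) :
    lm B (fun n z => (h n : ℂ) * e n z) g z = 0 :=
  lm_eq H.op (L := fun _ => 0) ⟨contDiffOn_const,
    ((LB.mul2 he.lb (hg.m H).lb).wn H.hlim).congr fun n z _ => by ring⟩ hz

lemma lm_congr (H : SY B Complex.im h w) {f f' g : ℕ → ℂ → ℂ} (hf : Dec B h w f)
    (hg : Dec B h w g) (e : ∀ n, ∀ z ∈ B, f' n z = f n z) {z : ℂ} (hz : z ∈ B) :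
    lm B f' g z = lm B f g z := by
  have h1 := lm_wl H hf hg
  exact lm_eq H.op ⟨h1.1, h1.2.congr fun n z hz => by rw [e n z hz]⟩ hz

/-- limit of the null form -/
def E0 (B : Set ℂ) (h : ℕ → ℝ) (f f' g g' : ℕ → ℂ → ℂ) (z : ℂ) : ℂ :=
  lm B (P h f) (P h f') z * lm B (M h g) (M h g') z +
  lm B (M h f) (M h f') z * lm B (P h g) (P h g') z - 2 * lm B f f' z * lm B g g' z

/-- **the null quartic** -/
theorem nq (H : SY B Complex.im h w) (hBU : B ⊆ UH) {f f' g g' : ℕ → ℂ → ℂ} (hf : EX B h w f)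
    (hf' : EX B h w f') (hg : EX B h w g) (hg' : EX B h w g') :
    WN B (fun n z => P h f n z * P h f' n z * (M h g n z * M h g' n z) +
      M h f n z * M h f' n z * (P h g n z * P h g' n z) -
      2 * (f n z * f' n z) * (g n z * g' n z) - E0 B h f f' g g' z) := by
  have l : ∀ {p q : ℕ → ℂ → ℂ}, Dec B h w p → Dec B h w q →
      PL B (fun n z => p n z * q n z) (lm B p q) := fun hp hq => PL.mul H hp hq (lm_wl H hp hq)
  exact null_tri H.op hBU (fun n => hf.hc H hf' n) (fun n => hg.hc H hg' n)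
    (l hf.dec hf'.dec) (l (hf.dec.sP H) (hf'.dec.sP H)) (l (hf.dec.sM H) (hf'.dec.sM H))
    (l hg.dec hg'.dec) (l (hg.dec.sP H) (hg'.dec.sP H)) (l (hg.dec.sM H) (hg'.dec.sM H))

/-- limit of products of Jacobians -/
def QF (B : Set ℂ) (h : ℕ → ℝ) (f g f' g' : ℕ → ℂ → ℂ) (z : ℂ) : ℂ :=
  E0 B h f f' g g' z - E0 B h f g' g f' z

lemma QF_symm (f g f' g' : ℕ → ℂ → ℂ) (z : ℂ) : QF B h f g f' g' z = QF B h f' g' f g z := by
  unfold QF E0
  rw [lm_symm (P h f) (P h f'), lm_symm (M h g) (M h g'), lm_symm (M h f) (M h f'),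
    lm_symm (P h g) (P h g'), lm_symm f f', lm_symm g g', lm_symm (P h f) (P h g'),
    lm_symm (M h g) (M h f'), lm_symm (M h f) (M h g'), lm_symm (P h g) (P h f'),
    lm_symm f g', lm_symm g f']
  ring

lemma QF_swap (f g f' g' : ℕ → ℂ → ℂ) (z : ℂ) : QF B h g f f' g' z = - QF B h f g f' g' z := by
  unfold QF E0; ring

theorem nj (H : SY B Complex.im h w) (hBU : B ⊆ UH) {f g f' g' : ℕ → ℂ → ℂ} (hf : EX B h w f)
    (hg : EX B h w g) (hf' : EX B h w f') (hg' : EX B h w g') :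
    WN B (fun n z => Jm h f g n z * Jm h f' g' n z - QF B h f g f' g' z) := by
  refine ((nq H hBU hf hf' hg hg').sub (nq H hBU hf hg' hg hf')).congr fun n z _ => ?_
  simp only [Jm, QF, P, M]; ring

/-- exact representatives of Jacobians -/
inductive JJ (B : Set ℂ) (h : ℕ → ℝ) (w : ℤ → ℕ → ℂ → ℂ) :
    (ℕ → ℂ → ℂ) → (ℕ → ℂ → ℂ) → (ℕ → ℂ → ℂ) → Prop
  | ex {f g : ℕ → ℂ → ℂ} : EX B h w f → EX B h w g → JJ B h w f g (Jm h f g)
  | add {f f' g G G' : ℕ → ℂ → ℂ} : JJ B h w f g G → JJ B h w f' g G' →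
      JJ B h w (fun n z => f n z + f' n z) g (fun n z => G n z + G' n z)
  | smul {f g G : ℕ → ℂ → ℂ} {c : ℂ → ℂ} : ContDiffOn ℝ ∞ c B → JJ B h w f g G →
      JJ B h w (fun n z => c z * f n z) g (fun n z => c z * G n z)
  | err {e g : ℕ → ℂ → ℂ} : M2C B h e → RP B h w g →
      JJ B h w (fun n z => (h n : ℂ) * e n z) g (fun _ _ => 0)
  | congr {f f' g g' G G' : ℕ → ℂ → ℂ} : JJ B h w f g G → (∀ n, ∀ z ∈ B, f' n z = f n z) →
      (∀ n, ∀ z ∈ B, g' n z = g n z) → (∀ n, ∀ z ∈ B, G' n z = G n z) → JJ B h w f' g' G'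
  | swap {f g G : ℕ → ℂ → ℂ} : JJ B h w f g G → JJ B h w g f (fun n z => - G n z)

lemma JJ.rp {f g G : ℕ → ℂ → ℂ} (hJ : JJ B h w f g G) : RP B h w f ∧ RP B h w g := by
  induction hJ with
  | ex hf hg => exact ⟨RP.ex hf, RP.ex hg⟩
  | add _ _ h1 h2 => exact ⟨h1.1.add h2.1, h1.2⟩
  | smul hc _ h1 => exact ⟨h1.1.smul hc, h1.2⟩
  | err he hg => exact ⟨RP.err he, hg⟩
  | congr _ e1 e2 _ h1 => exact ⟨h1.1.congr e1, h1.2.congr e2⟩
  | swap _ h1 => exact ⟨h1.2, h1.1⟩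

lemma Jm_sm (H : SY B Complex.im h w) {f g : ℕ → ℂ → ℂ} (hf : M2C B h f) (hg : M2C B h g) (n : ℕ) :
    ContDiffOn ℝ ∞ (Jm h f g n) B :=
  (((hf.sP H.op H.hlim H.sa).sm n).mul ((hg.sM H.op H.hlim H.sa).sm n)).sub
    (((hf.sM H.op H.hlim H.sa).sm n).mul ((hg.sP H.op H.hlim H.sa).sm n))

lemma Jm_lb (H : SY B Complex.im h w) {f g : ℕ → ℂ → ℂ} (hf : M2C B h f) (hg : M2C B h g) :
    LB B 1 (Jm h f g) :=
  (LB.mul2 (hf.sP H.op H.hlim H.sa).lb (hg.sM H.op H.hlim H.sa).lb).sub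
    (LB.mul2 (hf.sM H.op H.hlim H.sa).lb (hg.sP H.op H.hlim H.sa).lb)

lemma JJ.sm (H : SY B Complex.im h w) {f g G : ℕ → ℂ → ℂ} (hJ : JJ B h w f g G) (n : ℕ) :
    ContDiffOn ℝ ∞ (G n) B := by
  induction hJ with
  | ex hf hg => exact Jm_sm H (hf.dec.m H) (hg.dec.m H) n
  | add _ _ h1 h2 => exact h1.add h2
  | smul hc _ h1 => exact hc.mul h1
  | err he hg => exact contDiffOn_const
  | congr _ _ _ e h1 => exact h1.congr (e n)
  | swap _ h1 => exact h1.neg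

lemma JJ.exist {f g : ℕ → ℂ → ℂ} (hf : RP B h w f) (hg : RP B h w g) : ∃ G, JJ B h w f g G := by
  induction hf with
  | ex hf =>
    induction hg with
    | ex hg => exact ⟨_, JJ.ex hf hg⟩
    | add _ _ h1 h2 =>
      obtain ⟨G1, h1⟩ := h1
      obtain ⟨G2, h2⟩ := h2
      exact ⟨_, ((h1.swap).add h2.swap).swap⟩
    | smul hc _ h1 =>
      obtain ⟨G1, h1⟩ := h1
      exact ⟨_, ((h1.swap).smul hc).swap⟩
    | err he => exact ⟨_, (JJ.err he (RP.ex hf)).swap⟩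
    | congr _ e h1 =>
      obtain ⟨G1, h1⟩ := h1
      exact ⟨G1, h1.congr (fun _ _ _ => rfl) e (fun _ _ _ => rfl)⟩
  | add _ _ h1 h2 =>
    obtain ⟨G1, h1⟩ := h1
    obtain ⟨G2, h2⟩ := h2
    exact ⟨_, h1.add h2⟩
  | smul hc _ h1 =>
    obtain ⟨G1, h1⟩ := h1
    exact ⟨_, h1.smul hc⟩
  | err he => exact ⟨_, JJ.err he hg⟩
  | congr _ e h1 =>
    obtain ⟨G1, h1⟩ := h1
    exact ⟨G1, h1.congr e (fun _ _ _ => rfl) (fun _ _ _ => rfl)⟩

/-- operators on sums, products -/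
lemma P_add (hB : IsOpen B) {f g : ℕ → ℂ → ℂ} (hf : ∀ n, ContDiffOn ℝ ∞ (f n) B)
    (hg : ∀ n, ContDiffOn ℝ ∞ (g n) B) (n : ℕ) {z : ℂ} (hz : z ∈ B) :
    P h (fun n z => f n z + g n z) n z = P h f n z + P h g n z := by
  simp only [P, TH294.RS.sP, DP]
  rw [dd_add (fda hB (hf n) hz) (fda hB (hg n) hz)]; ring
lemma M_add (hB : IsOpen B) {f g : ℕ → ℂ → ℂ} (hf : ∀ n, ContDiffOn ℝ ∞ (f n) B)
    (hg : ∀ n, ContDiffOn ℝ ∞ (g n) B) (n : ℕ) {z : ℂ} (hz : z ∈ B) :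
    M h (fun n z => f n z + g n z) n z = M h f n z + M h g n z := by
  simp only [M, TH294.RS.sM, DM]
  rw [db_add (fda hB (hf n) hz) (fda hB (hg n) hz)]; ring
lemma P_smul (hB : IsOpen B) {f : ℕ → ℂ → ℂ} {c : ℂ → ℂ} (hc : ContDiffOn ℝ ∞ c B)
    (hf : ∀ n, ContDiffOn ℝ ∞ (f n) B) (n : ℕ) {z : ℂ} (hz : z ∈ B) :
    P h (fun n z => c z * f n z) n z = c z * P h f n z +
      (h n : ℂ) * ((z.im : ℂ) * (dd c z * f n z)) := by
  simp only [P, TH294.RS.sP, DP]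
  rw [dd_mul (fda hB hc hz) (fda hB (hf n) hz)]; ring
lemma M_smul (hB : IsOpen B) {f : ℕ → ℂ → ℂ} {c : ℂ → ℂ} (hc : ContDiffOn ℝ ∞ c B)
    (hf : ∀ n, ContDiffOn ℝ ∞ (f n) B) (n : ℕ) {z : ℂ} (hz : z ∈ B) :
    M h (fun n z => c z * f n z) n z = c z * M h f n z +
      (h n : ℂ) * ((z.im : ℂ) * (db c z * f n z)) := by
  simp only [M, TH294.RS.sM, DM]
  rw [db_mul (fda hB hc hz) (fda hB (hf n) hz)]; ring
lemma P_h (hB : IsOpen B) {f : ℕ → ℂ → ℂ} (hf : ∀ n, ContDiffOn ℝ ∞ (f n) B) (n : ℕ) {z : ℂ}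
    (hz : z ∈ B) : P h (fun n z => (h n : ℂ) * f n z) n z = (h n : ℂ) * P h f n z := by
  simp only [P, TH294.RS.sP, DP]
  rw [dd_cm (fda hB (hf n) hz)]
  ring
lemma M_h (hB : IsOpen B) {f : ℕ → ℂ → ℂ} (hf : ∀ n, ContDiffOn ℝ ∞ (f n) B) (n : ℕ) {z : ℂ}
    (hz : z ∈ B) : M h (fun n z => (h n : ℂ) * f n z) n z = (h n : ℂ) * M h f n z := by
  simp only [M, TH294.RS.sM, DM]
  rw [db_cm (fda hB (hf n) hz)]
  ring
lemma P_cg (hB : IsOpen B) {f g : ℕ → ℂ → ℂ} (e : ∀ n, ∀ z ∈ B, g n z = f n z) (n : ℕ) {z : ℂ}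
    (hz : z ∈ B) : P h g n z = P h f n z := by
  simp only [P, TH294.RS.sP, DP]
  rw [dd_cg hB (e n) hz]
lemma M_cg (hB : IsOpen B) {f g : ℕ → ℂ → ℂ} (e : ∀ n, ∀ z ∈ B, g n z = f n z) (n : ℕ) {z : ℂ}
    (hz : z ∈ B) : M h g n z = M h f n z := by
  simp only [M, TH294.RS.sM, DM]
  rw [db_cg hB (e n) hz]
lemma P_conj (hB : IsOpen B) {f : ℕ → ℂ → ℂ} (hf : ∀ n, ContDiffOn ℝ ∞ (f n) B) (n : ℕ) {z : ℂ}
    (hz : z ∈ B) : P h (fun n z => (starRingEnd ℂ) (f n z)) n z = (starRingEnd ℂ) (M h f n z) :=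
  DP_conj (h n) (fda hB (hf n) hz)
lemma M_conj (hB : IsOpen B) {f : ℕ → ℂ → ℂ} (hf : ∀ n, ContDiffOn ℝ ∞ (f n) B) (n : ℕ) {z : ℂ}
    (hz : z ∈ B) : M h (fun n z => (starRingEnd ℂ) (f n z)) n z = (starRingEnd ℂ) (P h f n z) :=
  DM_conj (h n) (fda hB (hf n) hz)

/-- representatives are close to the Jacobians -/
lemma JJ.appr (H : SY B Complex.im h w) {f g G : ℕ → ℂ → ℂ} (hJ : JJ B h w f g G) :
    ∃ R, LB B 1 R ∧ ∀ n, ∀ z ∈ B, Jm h f g n z = G n z + (h n : ℂ) * R n z := by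
  have hB := H.op
  have z0 : LB B 1 (fun (_ : ℕ) (_ : ℂ) => (0 : ℂ)) := LB.const B 1 (c := fun _ => 0) contDiffOn_const
  induction hJ with
  | ex hf hg => exact ⟨_, z0, fun n z _ => by ring⟩
  | @add f f' g G G' j1 j2 h1 h2 =>
    obtain ⟨R1, r1, e1⟩ := h1
    obtain ⟨R2, r2, e2⟩ := h2
    refine ⟨_, r1.add r2, fun n z hz => ?_⟩
    have sf := (j1.rp.1.dec.m H).sm
    have sf' := (j2.rp.1.dec.m H).sm
    have a1 := e1 n z hz
    have a2 := e2 n z hz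
    rw [Jm_eq] at a1 a2 ⊢
    rw [P_add hB sf sf' n hz, M_add hB sf sf' n hz]
    linear_combination a1 + a2
  | @smul f g G c hc j1 h1 =>
    obtain ⟨R1, r1, e1⟩ := h1
    have mf := j1.rp.1.dec.m H
    have mg := j1.rp.2.dec.m H
    have q1 := LB.mul2 ((mf.smulc hB H.hlim (dd_sm hB hc)).smulc hB H.hlim (cxa H.sa)).lb
      (mg.sM hB H.hlim H.sa).lb
    have q2 := LB.mul2 ((mf.smulc hB H.hlim (db_sm hB hc)).smulc hB H.hlim (cxa H.sa)).lb
      (mg.sP hB H.hlim H.sa).lb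
    refine ⟨_, (r1.smulc hc).add (q1.sub q2), fun n z hz => ?_⟩
    have a1 := e1 n z hz
    rw [Jm_eq] at a1 ⊢
    rw [P_smul hB hc mf.sm n hz, M_smul hB hc mf.sm n hz]
    linear_combination (c z) * a1
  | @err e g he hg =>
    refine ⟨_, Jm_lb H he (hg.dec.m H), fun n z hz => ?_⟩
    rw [Jm_eq, Jm_eq]
    rw [P_h hB he.sm n hz, M_h hB he.sm n hz]; ring
  | @congr f f' g g' G G' j1 e1 e2 e3 h1 =>
    obtain ⟨R1, r1, a1⟩ := h1
    refine ⟨R1, r1, fun n z hz => ?_⟩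
    have := a1 n z hz
    rw [Jm_eq] at this ⊢
    rw [P_cg hB e1 n hz, M_cg hB e1 n hz, P_cg hB e2 n hz, M_cg hB e2 n hz, e3 n z hz]
    exact this
  | @swap f g G j1 h1 =>
    obtain ⟨R1, r1, a1⟩ := h1
    refine ⟨_, r1.neg, fun n z hz => ?_⟩
    have := a1 n z hz
    rw [Jm_eq] at this ⊢
    linear_combination -this

/-- conjugation -/
lemma JJ.conj (H : SY B Complex.im h w) {f g G : ℕ → ℂ → ℂ} (hJ : JJ B h w f g G) :
    JJ B h w (fun n z => (starRingEnd ℂ) (f n z)) (fun n z => (starRingEnd ℂ) (g n z))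
      (fun n z => - (starRingEnd ℂ) (G n z)) := by
  have hB := H.op
  induction hJ with
  | @ex f g hf hg =>
    refine (JJ.ex hf hg).congr hf.re hg.re fun n z hz => ?_
    have sf := (hf.dec.m H).sm
    have sg := (hg.dec.m H).sm
    simp only [Jm]
    rw [map_sub, map_mul, map_mul, ← P_conj hB sf n hz, ← P_conj hB sg n hz, ← M_conj hB sf n hz,
      ← M_conj hB sg n hz, P_cg hB hf.re n hz, P_cg hB hg.re n hz, M_cg hB hf.re n hz,
      M_cg hB hg.re n hz]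
    ring
  | add _ _ h1 h2 =>
    refine (h1.add h2).congr (fun n z _ => by rw [map_add]) (fun _ _ _ => rfl)
      (fun n z _ => by rw [map_add]; ring)
  | smul hc _ h1 =>
    refine (h1.smul (conj_sm hc)).congr (fun n z _ => by rw [map_mul]) (fun _ _ _ => rfl)
      (fun n z _ => by rw [map_mul]; ring)
  | err he hg =>
    refine (JJ.err (he.conj hB) (hg.conj H)).congr (fun n z _ => by rw [map_mul, conj_ofReal])
      (fun _ _ _ => rfl) (fun n z _ => by simp)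
  | congr _ e1 e2 e3 h1 =>
    exact h1.congr (fun n z hz => by rw [e1 n z hz]) (fun n z hz => by rw [e2 n z hz])
      (fun n z hz => by rw [e3 n z hz])
  | swap _ h1 =>
    exact h1.swap.congr (fun _ _ _ => rfl) (fun _ _ _ => rfl) (fun n z _ => by rw [map_neg])

/-- the bilinear extension step -/
lemma JJ.ext (H : SY B Complex.im h w) {f g G f' g' G' : ℕ → ℂ → ℂ} (hJ : JJ B h w f g G)
    (hf' : Dec B h w f') (hg' : Dec B h w g') (hG' : ∀ n, ContDiffOn ℝ ∞ (G' n) B)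
    (base : ∀ p q, EX B h w p → EX B h w q →
      WN B (fun n z => Jm h p q n z * G' n z - QF B h p q f' g' z)) :
    WN B (fun n z => G n z * G' n z - QF B h f g f' g' z) := by
  have hB := H.op
  have pf' := hf'.sP H
  have pg' := hg'.sP H
  have mf' := hf'.sM H
  have mg' := hg'.sM H
  induction hJ with
  | ex hf hg => exact base _ _ hf hg
  | @add f1 f2 g G1 G2 j1 j2 h1 h2 =>
    refine (h1.add h2).congr fun n z hz => ?_
    have d1 := j1.rp.1.dec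
    have d2 := j2.rp.1.dec
    have q1 := fun {X : ℕ → ℂ → ℂ} (hX : Dec B h w X) => lm_add H d1 d2 hX hz
    have q2 : ∀ {X : ℕ → ℂ → ℂ}, Dec B h w X → lm B (P h (fun n z => f1 n z + f2 n z)) X z =
        lm B (P h f1) X z + lm B (P h f2) X z := fun hX => by
      rw [lm_congr H ((d1.sP H).add (d2.sP H)) hX
        (fun n z hz => P_add hB (d1.m H).sm (d2.m H).sm n hz) hz]
      exact lm_add H (d1.sP H) (d2.sP H) hX hz
    have q3 : ∀ {X : ℕ → ℂ → ℂ}, Dec B h w X → lm B (M h (fun n z => f1 n z + f2 n z)) X z =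
        lm B (M h f1) X z + lm B (M h f2) X z := fun hX => by
      rw [lm_congr H ((d1.sM H).add (d2.sM H)) hX
        (fun n z hz => M_add hB (d1.m H).sm (d2.m H).sm n hz) hz]
      exact lm_add H (d1.sM H) (d2.sM H) hX hz
    simp only [QF, E0]
    rw [q1 hf', q1 hg', q2 pf', q2 pg', q3 mf', q3 mg']
    ring
  | @smul f1 g G1 c hc j1 h1 =>
    refine (WNs hB h1 hc).congr fun n z hz => ?_
    have d1 := j1.rp.1.dec
    have m1 := d1.m H
    have q1 := fun {X : ℕ → ℂ → ℂ} (hX : Dec B h w X) => lm_smul H hc d1 hX hz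
    have e1 := (m1.smulc hB H.hlim (dd_sm hB hc)).smulc hB H.hlim (cxa H.sa)
    have e2 := (m1.smulc hB H.hlim (db_sm hB hc)).smulc hB H.hlim (cxa H.sa)
    have q2 : ∀ {X : ℕ → ℂ → ℂ}, Dec B h w X → lm B (P h (fun n z => c z * f1 n z)) X z =
        c z * lm B (P h f1) X z := fun hX => by
      rw [lm_congr H (((d1.sP H).smul hc).add (Dec.err e1)) hX
        (fun n z hz => P_smul hB hc m1.sm n hz) hz, lm_add H ((d1.sP H).smul hc) (Dec.err e1) hX hz,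
        lm_smul H hc (d1.sP H) hX hz, lm_err H e1 hX hz, add_zero]
    have q3 : ∀ {X : ℕ → ℂ → ℂ}, Dec B h w X → lm B (M h (fun n z => c z * f1 n z)) X z =
        c z * lm B (M h f1) X z := fun hX => by
      rw [lm_congr H (((d1.sM H).smul hc).add (Dec.err e2)) hX
        (fun n z hz => M_smul hB hc m1.sm n hz) hz, lm_add H ((d1.sM H).smul hc) (Dec.err e2) hX hz,
        lm_smul H hc (d1.sM H) hX hz, lm_err H e2 hX hz, add_zero]
    simp only [QF, E0]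
    rw [q1 hf', q1 hg', q2 pf', q2 pg', q3 mf', q3 mg']
    ring
  | @err e g he hg =>
    have z0 : WN B (fun (_ : ℕ) (_ : ℂ) => (0 : ℂ)) := ⟨fun _ => continuousOn_const, fun φ _ => by
      simp only [mul_zero, integral_zero]; exact tendsto_const_nhds⟩
    refine z0.congr fun n z hz => ?_
    have q1 := fun {X : ℕ → ℂ → ℂ} (hX : Dec B h w X) => lm_err H he hX hz
    have e1 := he.sP hB H.hlim H.sa
    have e2 := he.sM hB H.hlim H.sa
    have q2 : ∀ {X : ℕ → ℂ → ℂ}, Dec B h w X → lm B (P h (fun n z => (h n : ℂ) * e n z)) X z =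
        0 := fun hX => by
      rw [lm_congr H (Dec.err e1) hX (fun n z hz => P_h hB he.sm n hz) hz, lm_err H e1 hX hz]
    have q3 : ∀ {X : ℕ → ℂ → ℂ}, Dec B h w X → lm B (M h (fun n z => (h n : ℂ) * e n z)) X z =
        0 := fun hX => by
      rw [lm_congr H (Dec.err e2) hX (fun n z hz => M_h hB he.sm n hz) hz, lm_err H e2 hX hz]
    simp only [QF, E0]
    rw [q1 hf', q1 hg', q2 pf', q2 pg', q3 mf', q3 mg']
    ring
  | @congr f1 f2 g1 g2 G1 G2 j1 e1 e2 e3 h1 =>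
    refine h1.congr fun n z hz => ?_
    have d1 := j1.rp.1.dec
    have d2 := j1.rp.2.dec
    have q1 : ∀ {X : ℕ → ℂ → ℂ}, Dec B h w X → lm B f2 X z = lm B f1 X z := fun hX =>
      lm_congr H d1 hX e1 hz
    have q2 : ∀ {X : ℕ → ℂ → ℂ}, Dec B h w X → lm B (P h f2) X z = lm B (P h f1) X z := fun hX =>
      lm_congr H (d1.sP H) hX (fun n z hz => P_cg hB e1 n hz) hz
    have q3 : ∀ {X : ℕ → ℂ → ℂ}, Dec B h w X → lm B (M h f2) X z = lm B (M h f1) X z := fun hX =>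
      lm_congr H (d1.sM H) hX (fun n z hz => M_cg hB e1 n hz) hz
    have t1 : ∀ {X : ℕ → ℂ → ℂ}, Dec B h w X → lm B g2 X z = lm B g1 X z := fun hX =>
      lm_congr H d2 hX e2 hz
    have t2 : ∀ {X : ℕ → ℂ → ℂ}, Dec B h w X → lm B (P h g2) X z = lm B (P h g1) X z := fun hX =>
      lm_congr H (d2.sP H) hX (fun n z hz => P_cg hB e2 n hz) hz
    have t3 : ∀ {X : ℕ → ℂ → ℂ}, Dec B h w X → lm B (M h g2) X z = lm B (M h g1) X z := fun hX =>
      lm_congr H (d2.sM H) hX (fun n z hz => M_cg hB e2 n hz) hz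
    simp only [QF, E0]
    rw [q1 hf', q1 hg', q2 pf', q2 pg', q3 mf', q3 mg', t1 hf', t1 hg', t2 pf', t2 pg', t3 mf',
      t3 mg', e3 n z hz]
  | @swap f1 g1 G1 j1 h1 =>
    refine h1.neg.congr fun n z hz => ?_
    rw [QF_swap]; ring

/-- **the Gram limits** -/
theorem JJ.gram (H : SY B Complex.im h w) (hBU : B ⊆ UH) {f g G f' g' G' : ℕ → ℂ → ℂ}
    (hJ : JJ B h w f g G) (hJ' : JJ B h w f' g' G') :
    WN B (fun n z => G n z * G' n z - QF B h f g f' g' z) := by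
  refine hJ.ext H hJ'.rp.1.dec hJ'.rp.2.dec (hJ'.sm H) fun p q hp hq => ?_
  refine (hJ'.ext H hp.dec hq.dec (Jm_sm H (hp.dec.m H) (hq.dec.m H)) fun p' q' hp' hq' =>
    nj H hBU hp' hq' hp hq).congr fun n z _ => ?_
  rw [QF_symm]; ring

end

end Pool.Agent.Y265.HY
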