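import Pool.Agent.Y265.HY.S

/-! Third moments on hyperbolic surfaces. -/
set_option autoImplicit false
open MeasureTheory Filter Topology Complex
open scoped ContDiff Manifold

namespace Pool.Agent.Y265.HY

open Pool.Agent.W745.RW Pool.Agent.TH294.RS
open Pool.Agent.Y265.RW (major wt3 wt3_le LL LL_bound gb gb_sum_nat relS relQ int_mul int_mulr)

noncomputable section

variable {B : Set ℂ} {h : ℕ → ℝ} {w : ℤ → ℕ → ℂ → ℂ}

/-- abstract averaging -/
theorem avg {T : ℕ → ℕ → ℂ} (t3 : ∀ k, Null (fun n => T (k+2) n + T (k+1) n + T k n))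
    {A : ℕ → ℕ → ℂ} (hA : ∀ N, Null (fun n => (∑ k ∈ Finset.range N, (wt3 k : ℂ) *
      (T (k+1) n - T k n)) - A N n)) {C Q : ℝ} (hC : 0 ≤ C) (hQ : 0 ≤ Q)
    (hb : ∀ N M : ℕ, 0 < M → ∀ᶠ n in atTop, ‖A N n‖ ≤ (1 / (2 * M)) * (C * N + 1) +
      (M / 2) * (Q + 1)) : Null (T 0) := by
  have tp : ∀ m : ℕ, Null (fun n => T (3*m) n - T 0 n) := by
    intro m
    induction m with
    | zero =>
      refine Tendsto.congr (fun n => ?_) (tendsto_const_nhds (x := (0:ℂ)))
      simp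
    | succ m ih =>
      have a1 := t3 (3*m)
      have a2 := t3 (3*m+1)
      refine Tendsto.congr (fun n => ?_) (RW.Null.add (RW.Null.sub a2 a1) ih)
      rw [show 3*m+1+2 = 3*(m+1) by ring, show 3*m+1+1 = 3*m+2 by ring]
      ring
  have ts : ∀ M : ℕ, Null (fun n => (∑ k ∈ Finset.range (3*M), (wt3 k : ℂ) * (T (k+1) n - T k n)) +
      3 * M * T 0 n) := by
    intro M
    induction M with
    | zero =>
      refine Tendsto.congr (fun n => ?_) (tendsto_const_nhds (x := (0:ℂ)))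
      simp
    | succ M ih =>
      have a1 := t3 (3*M)
      have a2 := RW.Null.cmul (tp M) (-3)
      refine Tendsto.congr (fun n => ?_) (RW.Null.add ih (RW.Null.add a1 a2))
      rw [show 3*(M+1) = 3*M+1+1+1 by ring, Finset.sum_range_succ, Finset.sum_range_succ,
        Finset.sum_range_succ]
      have w0 : wt3 (3*M) = 2 := by unfold wt3; rw [if_pos (by omega)]
      have w1 : wt3 (3*M+1) = 1 := by
        unfold wt3; rw [if_neg (by omega), if_pos (by omega)]
      have w2 : wt3 (3*M+1+1) = 0 := by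
        unfold wt3; rw [if_neg (by omega), if_neg (by omega)]
      rw [w0, w1, w2]
      push_cast
      ring_nf
  have main : ∀ M : ℕ, 0 < M → ∀ᶠ n in atTop, ‖T 0 n‖ ≤ (3 * C + Q + 3) / M := by
    intro M hM
    have hMr : (0 : ℝ) < M := by exact_mod_cast hM
    have hM1 : (1 : ℝ) ≤ M := by exact_mod_cast hM
    have b1 := hb (3 * (M*M)) M hM
    have b3 := (RW.Null.sub (ts (M*M)) (hA (3 * (M*M)))).norm
    rw [norm_zero] at b3
    have b3 := b3.eventually (gt_mem_nhds (zero_lt_one))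
    filter_upwards [b1, b3] with n h1 h3
    have e3 : ∑ k ∈ Finset.range (3 * (M * M)), (wt3 k : ℂ) * (T (k + 1) n - T k n) +
        3 * ((M * M : ℕ) : ℂ) * T 0 n - (∑ k ∈ Finset.range (3 * (M * M)), (wt3 k : ℂ) *
        (T (k + 1) n - T k n) - A (3 * (M * M)) n) = 3 * ((M * M : ℕ) : ℂ) * T 0 n +
        A (3 * (M * M)) n := by ring
    rw [e3] at h3
    have c3 : ‖3 * ((M*M : ℕ) : ℂ) * T 0 n‖ ≤ ‖A (3 * (M * M)) n‖ + 1 := by
      have := norm_sub_le (3 * ((M * M : ℕ) : ℂ) * T 0 n + A (3 * (M * M)) n)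
        (A (3 * (M * M)) n)
      rw [add_sub_cancel_right] at this
      linarith
    have c4 : ‖3 * ((M*M : ℕ) : ℂ) * T 0 n‖ = 3 * (M * M) * ‖T 0 n‖ := by
      rw [norm_mul, norm_mul, Complex.norm_natCast]
      push_cast
      simp
    rw [c4] at c3
    rw [le_div_iff₀ hMr]
    have c5 : (1 / (2 * M)) * (C * ((3 * (M*M) : ℕ) : ℝ) + 1) =
        (3 / 2) * C * M + 1 / (2 * M) := by
      push_cast; field_simp
    have c6 : 1 / (2 * M : ℝ) ≤ M := by
      rw [div_le_iff₀ (by positivity)]; nlinarith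
    have c7 : 3 * (M * M) * ‖T 0 n‖ ≤ M * ((3 / 2) * C + Q + 3) := by
      nlinarith [mul_nonneg hMr.le hQ]
    have c8 : 3 * (‖T 0 n‖ * M) ≤ (3 / 2) * C + Q + 3 := by
      have : M * (3 * (‖T 0 n‖ * M)) ≤ M * ((3 / 2) * C + Q + 3) := by linarith
      exact le_of_mul_le_mul_left this hMr
    have : 0 ≤ ‖T 0 n‖ * M := by positivity
    linarith
  have fin : Tendsto (T 0) atTop (𝓝 0) := by
    rw [Metric.tendsto_atTop']
    intro ε hε
    obtain ⟨M, hM⟩ := exists_nat_gt ((3 * C + Q + 3) / ε)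
    have hM0 : 0 < M := by
      have : (0 : ℝ) < M := lt_of_le_of_lt (by positivity) hM
      exact_mod_cast this
    have := main M hM0
    rw [eventually_atTop] at this
    obtain ⟨N, hN⟩ := this
    refine ⟨N, fun n hn => ?_⟩
    rw [dist_zero_right]
    refine (hN n hn.le).trans_lt ?_
    have hMr : (0 : ℝ) < M := by exact_mod_cast hM0
    rw [div_lt_iff₀ hMr]
    rw [div_lt_iff₀ hε] at hM
    linarith
  exact fin

lemma lmW (H : SY B Complex.im h w) (i j : ℤ) {z : ℂ} (hz : z ∈ B) : lm B (w i) (w j) z = CC i j :=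
  lm_eq H.op (L := fun _ => CC i j) ⟨contDiffOn_const, H.two i j⟩ hz

lemma PW (H : SY B Complex.im h w) (i : ℤ) {X : ℕ → ℂ → ℂ} (hX : Dec B h w X) {z : ℂ}
    (hz : z ∈ B) : lm B (P h (w i)) X z = lm B (w (i + 1)) X z := by
  obtain ⟨e, he, he0⟩ := H.up i
  have he' : ∀ n, ∀ z ∈ B, P h (w i) n z = w (i + 1) n z + (h n : ℂ) * e n z := he0
  rw [lm_congr H ((Dec.W (i + 1)).add (Dec.err he)) hX he' hz,
    lm_add H (Dec.W _) (Dec.err he) hX hz, lm_err H he hX hz, add_zero]

lemma MW (H : SY B Complex.im h w) (i : ℤ) {X : ℕ → ℂ → ℂ} (hX : Dec B h w X) {z : ℂ}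
    (hz : z ∈ B) : lm B (M h (w i)) X z = - lm B (w (i - 1)) X z := by
  obtain ⟨e, he, he'⟩ := H.dn i
  rw [lm_congr H (((Dec.W (i - 1)).cmul (-1)).add (Dec.err he)) hX (fun n z hz => by
    have := he' n z hz
    simp only [M, TH294.RS.sM]
    rw [this]; ring) hz,
    lm_add H ((Dec.W _).cmul (-1)) (Dec.err he) hX hz, lm_err H he hX hz, add_zero]
  rw [lm_smul H (c := fun _ => -1) contDiffOn_const (Dec.W _) hX hz]
  ring

lemma PPW (H : SY B Complex.im h w) (i j : ℤ) {z : ℂ} (hz : z ∈ B) :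
    lm B (P h (w i)) (P h (w j)) z = CC (i + 1) (j + 1) := by
  rw [PW H i ((Dec.W j).sP H) hz, lm_symm, PW H j (Dec.W _) hz, lm_symm, lmW H _ _ hz]

lemma MMW (H : SY B Complex.im h w) (i j : ℤ) {z : ℂ} (hz : z ∈ B) :
    lm B (M h (w i)) (M h (w j)) z = CC (i - 1) (j - 1) := by
  rw [MW H i ((Dec.W j).sM H) hz, lm_symm, MW H j (Dec.W _) hz, lm_symm, lmW H _ _ hz]
  ring

/-- the limit of products of Jacobians of ladder functions -/
lemma QFW (H : SY B Complex.im h w) (a b c d : ℤ) {z : ℂ} (hz : z ∈ B) :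
    QF B h (w (a + 1)) (w (b + 1)) (w (c + 1)) (w (d + 1)) z = LL CC CC CC a b c d := by
  simp only [QF, E0, PPW H _ _ hz, MMW H _ _ hz, lmW H _ _ hz, LL, add_sub_cancel_right]
  have e : ∀ x : ℤ, x + 1 + 1 = x + 2 := fun x => by ring
  simp only [e]
  rw [CC_symm b c, CC_symm (b + 2) (c + 2), CC_symm (b + 1) (c + 1)]
  ring

lemma norm_eps (k : ℕ) : ‖((-1 : ℂ)) ^ k‖ = 1 := by simp

/-- unit mass of the ladder functions -/
lemma unitW (H : SY B Complex.im h w) (k : ℤ) {φ : ℂ → ℝ} (hφ : TF B φ) :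
    Tendsto (fun n => ∫ z, φ z * ‖w k n z‖ ^ 2) atTop (𝓝 (∫ z, φ z)) := by
  have h1 := (H.two k (-k)).nul φ hφ
  have h2 := h1.const_mul ((-1) ^ k.natAbs)
  rw [mul_zero] at h2
  have h3 := h2.add_const ((∫ z, φ z : ℝ) : ℂ)
  rw [zero_add] at h3
  have hs : ((-1 : ℂ) ^ k.natAbs) * (-1) ^ k.natAbs = 1 := by rw [← mul_pow]; simp
  have hC : CC k (-k) = (-1) ^ k.natAbs := by
    unfold CC; rw [if_pos (by ring)]
  refine toR (Tendsto.congr (fun n => ?_) h3)
  have c1 : ContinuousOn (fun z => w k n z * w (-k) n z) B := ((H.bd k).co n).mul ((H.bd (-k)).co n)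
  have i1 : Integrable (fun z => (φ z : ℂ) * (w k n z * w (-k) n z - CC k (-k))) :=
    TF.cint hφ (c1.sub (continuousOn_const (c := CC k (-k))))
  have i2 := TF.cint hφ (continuousOn_const (c := (1 : ℂ)))
  have e1 : ((∫ z, φ z : ℝ) : ℂ) = ∫ z, (φ z : ℂ) * 1 := by
    rw [← integral_complex_ofReal]; congr 1; funext z; ring
  rw [e1, ← integral_const_mul, ← integral_add (i1.const_mul _) i2, ← integral_complex_ofReal]
  congr 1; funext z
  by_cases hz : z ∈ B
  · have h5 := H.cj k n z hz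
    have h6 := Complex.mul_conj (w k n z)
    rw [Complex.normSq_eq_norm_sq] at h6
    push_cast at h6 ⊢
    rw [← h6, h5, hC]
    linear_combination (-(φ z : ℂ)) * hs
  · rw [TF.zero hφ hz]; simp

/-- representatives of the antisymmetric products -/
lemma repr (H : SY B Complex.im h w) (h0 : EX B h w (w 0)) (a b : ℤ) :
    ∃ G, JJ B h w (w (a + 1)) (w (b + 1)) G ∧ ∃ R, LB B 1 R ∧ ∀ n, ∀ z ∈ B,
      w (a + 2) n z * w b n z - w a n z * w (b + 2) n z = - G n z + (h n : ℂ) * R n z := by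
  have hB := H.op
  obtain ⟨G, hG⟩ := JJ.exist (RP.W H h0 (a + 1)) (RP.W H h0 (b + 1))
  obtain ⟨R, hR, hR'⟩ := hG.appr H
  refine ⟨G, hG, ?_⟩
  obtain ⟨e1, he1, g1⟩ := H.up (a + 1)
  obtain ⟨e2, he2, g2⟩ := H.up (b + 1)
  obtain ⟨e3, he3, g3⟩ := H.dn (a + 1)
  obtain ⟨e4, he4, g4⟩ := H.dn (b + 1)
  have mP := (H.bd (b + 1)).sP hB H.hlim H.sa
  have mM := (H.bd (b + 1)).sM hB H.hlim H.sa
  have lb := ((LB.mul2 he1.lb mM.lb).add (LB.mul2 (H.bd (a + 2)).lb he4.lb)).sub
    ((LB.mul2 he3.lb mP.lb).sub (LB.mul2 (H.bd a).lb he2.lb))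
  refine ⟨_, lb.sub hR, fun n z hz => ?_⟩
  have c1 := g1 n z hz
  have c2 := g2 n z hz
  have c3 := g3 n z hz
  have c4 := g4 n z hz
  have c5 := hR' n z hz
  rw [show a + 1 + 1 = a + 2 by ring] at c1
  rw [show b + 1 + 1 = b + 2 by ring] at c2
  rw [add_sub_cancel_right] at c3 c4
  simp only [Jm] at c5
  have p1 : sP Complex.im h (w (a + 1)) n z = DP Complex.im (h n) (w (a + 1) n) z := rfl
  have p2 : sM Complex.im h (w (b + 1)) n z = DM Complex.im (h n) (w (b + 1) n) z := rfl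
  have p3 : sM Complex.im h (w (a + 1)) n z = DM Complex.im (h n) (w (a + 1) n) z := rfl
  have p4 : sP Complex.im h (w (b + 1)) n z = DP Complex.im (h n) (w (b + 1) n) z := rfl
  rw [p1, p2, p3, p4] at c5
  simp only [p2, p4]
  linear_combination (-1 : ℂ) * c5 + (DM Complex.im (h n) (w (b + 1) n) z) * c1 +
    (w (a + 2) n z) * c4 - (DP Complex.im (h n) (w (b + 1) n) z) * c3 + (w a n z) * c2

/-- **all third moments of the ladder vanish in the limit** -/
theorem thirdH (H : SY B Complex.im h w) (hBU : B ⊆ UH) (h0 : EX B h w (w 0)) (i j l : ℤ) :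
    WN B (fun n z => w i n z * w j n z * w l n z) := by
  have hB := H.op
  have co : ∀ k n, ContinuousOn (w k n) B := fun k n => (H.bd k).co n
  refine ⟨fun n => ((co i n).mul (co j n)).mul (co l n), fun φ hφ => ?_⟩
  set M3 : ℤ → ℤ → ℤ → ℕ → ℂ := fun a b c n => ∫ z, (φ z : ℂ) * (w a n z * w b n z * w c n z)
    with hM3
  have ii : ∀ a b c n, Integrable (fun z => (φ z : ℂ) * (w a n z * w b n z * w c n z)) :=
    fun a b c n => TF.cint hφ (((co a n).mul (co b n)).mul (co c n))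
  have r1 : ∀ a b c, Null (fun n => M3 (a+1) b c n + M3 a (b+1) c n + M3 a b (c+1) n) := by
    intro a b c
    refine ((rel3P H a b c).nul φ hφ).congr fun n => ?_
    have i12 : Integrable (fun z => (φ z : ℂ) * (w (a+1) n z * w b n z * w c n z) +
        (φ z : ℂ) * (w a n z * w (b+1) n z * w c n z)) :=
      (ii (a+1) b c n).add (ii a (b+1) c n)
    simp only [hM3]
    rw [← integral_add (ii _ _ _ n) (ii _ _ _ n), ← integral_add i12 (ii _ _ _ n)]
    congr 1; funext z; ring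
  have r2 : ∀ a b c, Null (fun n => M3 (a-1) b c n + M3 a (b-1) c n + M3 a b (c-1) n) := by
    intro a b c
    refine ((rel3M H a b c).nul φ hφ).congr fun n => ?_
    have i12 : Integrable (fun z => (φ z : ℂ) * (w (a-1) n z * w b n z * w c n z) +
        (φ z : ℂ) * (w a n z * w (b-1) n z * w c n z)) :=
      (ii (a-1) b c n).add (ii a (b-1) c n)
    simp only [hM3]
    rw [← integral_add (ii _ _ _ n) (ii _ _ _ n), ← integral_add i12 (ii _ _ _ n)]
    congr 1; funext z; ring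
  set T : ℕ → ℕ → ℂ := fun k n => M3 (i + 2*k) (j - 2*k) l n with hT
  have t3 : ∀ k, Null (fun n => T (k+2) n + T (k+1) n + T k n) := by
    intro k
    have := relS r1 r2 (i + 2*k) (j - 2*k - 4) l
    refine Tendsto.congr (fun n => ?_) this
    simp only [hT]
    push_cast
    rw [show i + 2*(k:ℤ) + 4 = i + 2*((k:ℤ) + 2) by ring, show j - 2*(k:ℤ) - 4 = j - 2*((k:ℤ)+2) by ring,
      show i + 2*(k:ℤ) + 2 = i + 2*((k:ℤ)+1) by ring, show j - 2*((k:ℤ)+2) + 2 = j - 2*((k:ℤ)+1) by ring,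
      show j - 2*((k:ℤ)+2) + 4 = j - 2*(k:ℤ) by ring]
  -- representatives
  have rep := fun k : ℕ => repr H h0 (i + 2*k) (j - 2*k - 2)
  choose G hG R hR hGR using rep
  have cG : ∀ k n, ContinuousOn (G k n) B := fun k n => ((hG k).sm H n).continuousOn
  have cR : ∀ k n, ContinuousOn (R k n) B := fun k n => (hR k).co n
  -- Gram limits
  set κ : ℕ → ℕ → ℂ := fun k m => -((-1) ^ (i + 2*(m:ℤ) + 1).natAbs *
    (-1) ^ (j - 2*(m:ℤ) - 2 + 1).natAbs) *
    LL CC CC CC (i + 2*k) (j - 2*k - 2) (-i - 2*m - 2) (-j + 2*m) with hκ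
  have gram : ∀ k m : ℕ, WN B (fun n z => G k n z * (starRingEnd ℂ) (G m n z) - κ k m) := by
    intro k m
    have J1 := (hG m).conj H
    have c1 : ∀ (x y : ℤ), x + y = 0 → ∀ n, ∀ z ∈ B, (starRingEnd ℂ) (w x n z) =
        (-1) ^ x.natAbs * w y n z := by
      intro x y hxy n z hz
      have : y = -x := by omega
      rw [this]; exact H.cj x n z hz
    have J2 : JJ B h w (fun n z => (-1) ^ (i + 2*(m:ℤ) + 1).natAbs * w (-i - 2*m - 2 + 1) n z)
        (fun n z => (-1) ^ (j - 2*(m:ℤ) - 2 + 1).natAbs * w (-j + 2*m + 1) n z)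
        (fun n z => - (starRingEnd ℂ) (G m n z)) :=
      J1.congr (fun n z hz => (c1 _ _ (by ring) n z hz).symm)
        (fun n z hz => (c1 _ _ (by ring) n z hz).symm) (fun _ _ _ => rfl)
    have g := (hG k).gram H hBU J2
    refine g.neg.congr fun n z hz => ?_
    have q : QF B h (w (i + 2*k + 1)) (w (j - 2*k - 2 + 1))
        (fun n z => (-1) ^ (i + 2*(m:ℤ) + 1).natAbs * w (-i - 2*m - 2 + 1) n z)
        (fun n z => (-1) ^ (j - 2*(m:ℤ) - 2 + 1).natAbs * w (-j + 2*m + 1) n z) z =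
        (-1) ^ (i + 2*(m:ℤ) + 1).natAbs * (-1) ^ (j - 2*(m:ℤ) - 2 + 1).natAbs *
        LL CC CC CC (i + 2*k) (j - 2*k - 2) (-i - 2*m - 2) (-j + 2*m) := by
      rw [← QFW H _ _ _ _ hz]
      set ε₁ : ℂ := (-1) ^ (i + 2*(m:ℤ) + 1).natAbs
      set ε₂ : ℂ := (-1) ^ (j - 2*(m:ℤ) - 2 + 1).natAbs
      have l1 : ∀ (ε : ℂ) (x : ℤ) {X : ℕ → ℂ → ℂ}, Dec B h w X →
          lm B X (fun n z => ε * w x n z) z = ε * lm B X (w x) z := by
        intro ε x X hX
        rw [lm_symm, lm_smul H (c := fun _ => ε) contDiffOn_const (Dec.W x) hX hz, lm_symm]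
      have l2 : ∀ (ε : ℂ) (x : ℤ) {X : ℕ → ℂ → ℂ}, Dec B h w X →
          lm B X (P h (fun n z => ε * w x n z)) z = ε * lm B X (P h (w x)) z := by
        intro ε x X hX
        have e : ∀ n, ∀ z ∈ B, P h (fun n z => ε * w x n z) n z = ε * P h (w x) n z := by
          intro n z hz
          simp only [P, TH294.RS.sP, DP]
          rw [dd_cm (fda hB ((H.bd x).sm n) hz)]; ring
        rw [lm_symm, lm_congr H (((Dec.W x).sP H).cmul ε) hX e hz,
          lm_smul H (c := fun _ => ε) contDiffOn_const ((Dec.W x).sP H) hX hz, lm_symm]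
      have l3 : ∀ (ε : ℂ) (x : ℤ) {X : ℕ → ℂ → ℂ}, Dec B h w X →
          lm B X (M h (fun n z => ε * w x n z)) z = ε * lm B X (M h (w x)) z := by
        intro ε x X hX
        have e : ∀ n, ∀ z ∈ B, M h (fun n z => ε * w x n z) n z = ε * M h (w x) n z := by
          intro n z hz
          simp only [M, TH294.RS.sM, DM]
          rw [db_cm (fda hB ((H.bd x).sm n) hz)]; ring
        rw [lm_symm, lm_congr H (((Dec.W x).sM H).cmul ε) hX e hz,
          lm_smul H (c := fun _ => ε) contDiffOn_const ((Dec.W x).sM H) hX hz, lm_symm]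
      simp only [QF, E0]
      rw [l2 ε₁ _ ((Dec.W _).sP H), l2 ε₁ _ ((Dec.W _).sP H), l2 ε₂ _ ((Dec.W _).sP H),
        l2 ε₂ _ ((Dec.W _).sP H), l3 ε₁ _ ((Dec.W _).sM H), l3 ε₁ _ ((Dec.W _).sM H),
        l3 ε₂ _ ((Dec.W _).sM H), l3 ε₂ _ ((Dec.W _).sM H), l1 ε₁ _ (Dec.W _), l1 ε₁ _ (Dec.W _),
        l1 ε₂ _ (Dec.W _), l1 ε₂ _ (Dec.W _)]
      ring
    rw [q]
    simp only [hκ]
    ring
  obtain ⟨ψ, hψ, hφψ⟩ := major hB hφ
  have hψ0 : ∀ z, 0 ≤ ψ z := fun z => (abs_nonneg _).trans (hφψ z)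
  set Q := ∫ z, ψ z with hQ
  have hQ0 : 0 ≤ Q := integral_nonneg hψ0
  set SG : ℕ → ℕ → ℂ → ℂ := fun N n z => ∑ k ∈ Finset.range N, (wt3 k : ℂ) * G k n z with hSG
  have cS : ∀ N n, ContinuousOn (SG N n) B := fun N n =>
    continuousOn_finsetSum _ (fun k _ => continuousOn_const.mul (cG k n))
  set γ : ℤ → ℝ := fun m => if m = 0 then 1 else 0 with hγ
  have γ1 : ∀ a b, ‖CC a b‖ ≤ γ (a + b) := fun a b => Pool.Agent.Y265.RW.CC_norm a b
  have γ0 : ∀ m, 0 ≤ γ m := by intro m; simp only [hγ]; split_ifs <;> norm_num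
  have hΓ : ∀ S : Finset ℤ, ∑ m ∈ S, γ m * γ (-m) ≤ 1 := by
    intro S
    have : ∀ m, γ m * γ (-m) = if m = 0 then 1 else 0 := by
      intro m; simp only [hγ]
      by_cases hm : m = 0
      · simp [hm]
      · simp [hm]
    simp only [this]
    exact Pool.Agent.Y265.RW.sum_ind S 0
  -- the bound
  have sb : ∀ N : ℕ, ∀ᶠ n in atTop, ∫ z, ψ z * ‖SG N n z‖ ^ 2 ≤ (32 * Q) * N + 1 := by
    intro N
    have lim : ∀ k m : ℕ, Tendsto (fun n => ∫ z, (ψ z : ℂ) * (G k n z *
        (starRingEnd ℂ) (G m n z))) atTop (𝓝 (κ k m * (Q : ℂ))) := by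
      intro k m
      have h1 := ((gram k m).nul ψ hψ).add_const (κ k m * (Q : ℂ))
      rw [zero_add] at h1
      refine Tendsto.congr (fun n => ?_) h1
      have c : ContinuousOn (fun z => G k n z * (starRingEnd ℂ) (G m n z)) B :=
        (cG k n).mul (Complex.continuous_conj.comp_continuousOn (cG m n))
      have i1 := TF.cint hψ c
      have i2 := TF.cint hψ (continuousOn_const (c := κ k m))
      have e : κ k m * (Q : ℂ) = ∫ z, (ψ z : ℂ) * κ k m := by
        rw [integral_mul_const, integral_complex_ofReal, mul_comm]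
      rw [e]
      have : (∫ z, (ψ z : ℂ) * (G k n z * (starRingEnd ℂ) (G m n z) - κ k m)) =
          (∫ z, (ψ z : ℂ) * (G k n z * (starRingEnd ℂ) (G m n z))) - ∫ z, (ψ z : ℂ) * κ k m := by
        rw [← integral_sub i1 i2]; congr 1; funext z; ring
      rw [this]; ring
    have tot : Tendsto (fun n => ∑ k ∈ Finset.range N, ∑ m ∈ Finset.range N,
        ((wt3 k * wt3 m : ℝ) : ℂ) * ∫ z, (ψ z : ℂ) * (G k n z * (starRingEnd ℂ) (G m n z))) atTop
        (𝓝 (∑ k ∈ Finset.range N, ∑ m ∈ Finset.range N, ((wt3 k * wt3 m : ℝ) : ℂ) *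
          (κ k m * (Q : ℂ)))) :=
      tendsto_finsetSum _ (fun k _ => tendsto_finsetSum _ (fun m _ => (lim k m).const_mul _))
    have bd : ‖∑ k ∈ Finset.range N, ∑ m ∈ Finset.range N, ((wt3 k * wt3 m : ℝ) : ℂ) *
          (κ k m * (Q : ℂ))‖ ≤ (32 * Q) * N := by
      calc _ ≤ ∑ k ∈ Finset.range N, ∑ m ∈ Finset.range N,
            4 * (gb (fun m => γ m * γ (-m)) (i - j) k m * Q) := by
            refine (norm_sum_le _ _).trans (Finset.sum_le_sum fun k _ => ?_)
            refine (norm_sum_le _ _).trans (Finset.sum_le_sum fun m _ => ?_)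
            have e1 : ‖κ k m‖ = ‖LL CC CC CC (i + 2*k) (j - 2*k - 2) (-i - 2*m - 2) (-j + 2*m)‖ := by
              simp only [hκ]
              rw [norm_mul, norm_neg, norm_mul, norm_eps, norm_eps, one_mul, one_mul]
            rw [norm_mul, norm_mul, e1, Complex.norm_real,
              Complex.norm_real, Real.norm_eq_abs, abs_mul, Real.norm_of_nonneg hQ0]
            have h1 : |wt3 k| * |wt3 m| ≤ 2 * 2 :=
              mul_le_mul (wt3_le k) (wt3_le m) (abs_nonneg _) (by norm_num)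
            have h2 := LL_bound γ1 γ0 i j k m
            have h3 : 0 ≤ ‖LL CC CC CC (i + 2*k) (j - 2*k - 2) (-i - 2*m - 2) (-j + 2*m)‖ * Q := by
              positivity
            have h4 := mul_le_mul_of_nonneg_right h2 hQ0
            nlinarith [mul_le_mul h1 h4 h3 (by norm_num)]
        _ = ∑ k ∈ Finset.range N, 4 * ((∑ m ∈ Finset.range N,
              gb (fun m => γ m * γ (-m)) (i - j) k m) * Q) := by
            refine Finset.sum_congr rfl fun k _ => ?_
            rw [Finset.sum_mul, Finset.mul_sum]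
        _ ≤ ∑ k ∈ Finset.range N, 4 * ((4 + 4 * 1) * Q) := by
            refine Finset.sum_le_sum fun k _ => ?_
            have := gb_sum_nat (ρ := fun m => γ m * γ (-m)) hΓ (i - j) k N
            have := mul_le_mul_of_nonneg_right this hQ0
            linarith
        _ = (32 * Q) * N := by
            rw [Finset.sum_const, Finset.card_range, nsmul_eq_mul]; ring
    have ev := (tot.norm).eventually (gt_mem_nhds (lt_of_le_of_lt bd (lt_add_one _)))
    filter_upwards [ev] with n hn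
    refine le_trans ?_ hn.le
    have cGG : ∀ k m : ℕ, ContinuousOn (fun z => G k n z * (starRingEnd ℂ) (G m n z)) B :=
      fun k m => (cG k n).mul (Complex.continuous_conj.comp_continuousOn (cG m n))
    have e : ((∫ z, ψ z * ‖SG N n z‖ ^ 2 : ℝ) : ℂ) =
        ∑ k ∈ Finset.range N, ∑ m ∈ Finset.range N,
        ((wt3 k * wt3 m : ℝ) : ℂ) * ∫ z, (ψ z : ℂ) * (G k n z * (starRingEnd ℂ) (G m n z)) := by
      simp_rw [← integral_const_mul]
      have ii : ∀ k m : ℕ, Integrable (fun z => ((wt3 k * wt3 m : ℝ) : ℂ) * ((ψ z : ℂ) *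
          (G k n z * (starRingEnd ℂ) (G m n z)))) := fun k m =>
        (int_mul hB hψ (cGG k m)).const_mul _
      simp_rw [← integral_finsetSum _ (fun m _ => ii _ m)]
      rw [← integral_finsetSum _ (fun k _ => integrable_finsetSum _ (fun m _ => ii k m)),
        ← integral_complex_ofReal]
      refine integral_congr_ae (Eventually.of_forall fun z => ?_)
      simp only
      have h1 := Complex.mul_conj (SG N n z)
      rw [Complex.normSq_eq_norm_sq] at h1
      push_cast at h1 ⊢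
      rw [← h1]
      simp only [hSG]
      rw [map_sum, Finset.sum_mul_sum, Finset.mul_sum]
      refine Finset.sum_congr rfl fun k _ => ?_
      rw [Finset.mul_sum]
      refine Finset.sum_congr rfl fun m _ => ?_
      rw [map_mul, Complex.conj_ofReal]
      ring
    rw [← e, Complex.norm_real]
    exact le_abs_self _
  set A : ℕ → ℕ → ℂ := fun N n => - ∫ z, (φ z : ℂ) * (SG N n z * w l n z) with hA
  have fin := avg (T := T) t3 (A := A) (C := 32 * Q) (Q := Q) ?_ (by positivity) hQ0 ?_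
  · have e0 : T 0 = fun n => ∫ z, (φ z : ℂ) * (w i n z * w j n z * w l n z) := by
      funext n
      simp [hT, hM3]
    rw [← e0]
    exact fin
  · -- comparison
    intro N
    have each : ∀ k : ℕ, Null (fun n => (T (k+1) n - T k n) +
        ∫ z, (φ z : ℂ) * (G k n z * w l n z)) := by
      intro k
      have w1 := (hRZ H (hR k) (Dec.W l)).nul φ hφ
      refine Tendsto.congr (fun n => ?_) w1
      have i1 := ii (i + 2*((k+1:ℕ):ℤ)) (j - 2*((k+1:ℕ):ℤ)) l n
      have i2 := ii (i + 2*(k:ℤ)) (j - 2*(k:ℤ)) l n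
      have i3 : Integrable (fun z => (φ z : ℂ) * (G k n z * w l n z)) :=
        TF.cint hφ ((cG k n).mul (co l n))
      have i12 : Integrable (fun z => (φ z : ℂ) * (w (i + 2*((k+1:ℕ):ℤ)) n z *
          w (j - 2*((k+1:ℕ):ℤ)) n z * w l n z) -
            (φ z : ℂ) * (w (i + 2*(k:ℤ)) n z * w (j - 2*(k:ℤ)) n z * w l n z)) := i1.sub i2
      have e1 : T (k+1) n - T k n + ∫ z, (φ z : ℂ) * (G k n z * w l n z) =
          ∫ z, ((φ z : ℂ) * (w (i + 2*((k+1:ℕ):ℤ)) n z * w (j - 2*((k+1:ℕ):ℤ)) n z * w l n z) -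
            (φ z : ℂ) * (w (i + 2*(k:ℤ)) n z * w (j - 2*(k:ℤ)) n z * w l n z) +
            (φ z : ℂ) * (G k n z * w l n z)) := by
        rw [integral_add i12 i3, integral_sub i1 i2]
      rw [e1]
      congr 1; funext z
      by_cases hz : z ∈ B
      · have := hGR k n z hz
        push_cast
        rw [show i + 2*((k:ℤ)+1) = i + 2*(k:ℤ) + 2 by ring,
          show j - 2*((k:ℤ)+1) = j - 2*(k:ℤ) - 2 by ring]
        rw [show j - 2*(k:ℤ) - 2 + 2 = j - 2*(k:ℤ) by ring] at this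
        linear_combination (-(φ z : ℂ) * w l n z) * this
      · rw [TF.zero hφ hz]; simp
    have tot : Tendsto (fun n => ∑ k ∈ Finset.range N, (wt3 k : ℂ) * ((T (k+1) n - T k n) +
        ∫ z, (φ z : ℂ) * (G k n z * w l n z))) atTop (𝓝 (∑ k ∈ Finset.range N, (wt3 k : ℂ) * 0)) :=
      tendsto_finsetSum _ (fun k _ => (each k).const_mul _)
    simp only [mul_zero, Finset.sum_const_zero] at tot
    refine Tendsto.congr (fun n => ?_) tot
    have i3 : ∀ k : ℕ, Integrable (fun z => (wt3 k : ℂ) * ((φ z : ℂ) * (G k n z * w l n z))) :=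
      fun k => (TF.cint hφ ((cG k n).mul (co l n))).const_mul _
    have e2 : A N n = - ∑ k ∈ Finset.range N, (wt3 k : ℂ) *
        ∫ z, (φ z : ℂ) * (G k n z * w l n z) := by
      simp only [hA, hSG]
      congr 1
      simp_rw [← integral_const_mul]
      rw [← integral_finsetSum _ (fun k _ => i3 k)]
      congr 1; funext z
      rw [Finset.sum_mul, Finset.mul_sum]
      refine Finset.sum_congr rfl fun k _ => ?_
      ring
    rw [e2, sub_neg_eq_add, ← Finset.sum_add_distrib]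
    refine Finset.sum_congr rfl fun k _ => ?_
    ring
  · -- Cauchy-Schwarz
    intro N M hM
    have hMr : (0 : ℝ) < M := by exact_mod_cast hM
    have b2 := (unitW H l hψ).eventually (gt_mem_nhds (lt_add_one _))
    filter_upwards [sb N, b2] with n h1 h2
    have iS : Integrable (fun z => ψ z * ‖SG N n z‖ ^ 2) := int_mulr hB hψ ((cS N n).norm.pow 2)
    have iZ : Integrable (fun z => ψ z * ‖w l n z‖ ^ 2) := int_mulr hB hψ ((co l n).norm.pow 2)
    have cs : ‖∫ z, (φ z : ℂ) * (SG N n z * w l n z)‖ ≤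
        ∫ z, ((1 / (2 * M)) * (ψ z * ‖SG N n z‖ ^ 2) + (M / 2) * (ψ z * ‖w l n z‖ ^ 2)) := by
      refine norm_integral_le_of_norm_le ((iS.const_mul _).add (iZ.const_mul _))
        (Eventually.of_forall fun z => ?_)
      rw [norm_mul, norm_mul, Complex.norm_real, Real.norm_eq_abs]
      set x := ‖SG N n z‖
      set y := ‖w l n z‖
      have hx : 0 ≤ x := norm_nonneg _
      have hy : 0 ≤ y := norm_nonneg _
      have q : x * y ≤ (1 / (2 * M)) * x ^ 2 + (M / 2) * y ^ 2 := by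
        have : (1 / (2 * M : ℝ)) * x ^ 2 + (M / 2) * y ^ 2 - x * y =
            (1 / (2 * M)) * (x - M * y) ^ 2 := by field_simp; ring
        nlinarith [sq_nonneg (x - M * y), show 0 ≤ (1 / (2 * M : ℝ)) * (x - M * y) ^ 2 by positivity]
      have h4 := hφψ z
      calc |φ z| * (x * y) ≤ ψ z * (x * y) := by gcongr
        _ ≤ ψ z * ((1 / (2 * M)) * x ^ 2 + (M / 2) * y ^ 2) :=
            mul_le_mul_of_nonneg_left q (hψ0 z)
        _ = _ := by ring
    rw [integral_add (iS.const_mul _) (iZ.const_mul _), integral_const_mul, integral_const_mul] at cs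
    have c1 : (1 / (2 * M)) * ∫ z, ψ z * ‖SG N n z‖ ^ 2 ≤ (1 / (2 * M)) * ((32 * Q) * N + 1) :=
      mul_le_mul_of_nonneg_left h1 (by positivity)
    have c2 : (M / 2 : ℝ) * ∫ z, ψ z * ‖w l n z‖ ^ 2 ≤ (M / 2) * (Q + 1) :=
      mul_le_mul_of_nonneg_left h2.le (by positivity)
    simp only [hA]
    rw [norm_neg]
    linarith

end

end Pool.Agent.Y265.HY
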