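import Pool.Agent.Y265.HY.PS2

/-! Pairing of quadratic expressions of the field with a second sequence. -/
set_option autoImplicit false
open MeasureTheory Filter Topology Complex Set
open scoped ContDiff Real Manifold

namespace Pool.Agent.Y265.HY.JC

open Pool.Agent.W745.RW Pool.Agent.TH294.RS Pool.Agent.Y265.HY Pool.Agent.Y265.HY.PS
open Pool.Agent.TH294.RG (vv sL sL1 opP sL_it)

noncomputable section

variable {B : Set ℂ} {h : ℕ → ℝ} {w : ℤ → ℕ → ℂ → ℂ}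

/-- cubic errors vanish -/
theorem hE3 (H : SY B Complex.im h w) (hBU : B ⊆ UH) {R f : ℕ → ℂ → ℂ} (hR : LB B 1 R)
    (hf : RP B h w f) :
    WN B (fun n z => (h n : ℂ) * (R n z * f n z)) := by
  refine ⟨fun n => continuousOn_const.mul ((hR.co n).mul ((hf.dec.m H).co n)), fun φ hφ => ?_⟩
  have hK : IsCompact (tsupport φ) := hφ.2.1
  obtain ⟨C, hC⟩ := l1b_of hR (tsupport φ) hK hφ.2.2
  obtain ⟨M', hM'⟩ := hK.exists_bound_of_continuousOn hφ.1.continuous.continuousOn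
  set M := max M' 0 with hM
  have hM0 : 0 ≤ M := le_max_right _ _
  have hb : ∀ z ∈ tsupport φ, ‖φ z‖ ≤ M := fun z hz => (hM' z hz).trans (le_max_left _ _)
  show Tendsto _ atTop (𝓝 0)
  rw [Metric.tendsto_atTop']
  intro ε hε
  have hpos : 0 < ε / (2 * (M * (|C| + 1) + 1)) := by positivity
  have := ((sup_rp H hBU hf hK hφ.2.2 hpos).and (H.hlim.eventually (gt_mem_nhds hpos))).and hC
  rw [eventually_atTop] at this
  obtain ⟨N, hN⟩ := this
  refine ⟨N, fun n hn => ?_⟩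
  obtain ⟨⟨h1, h1'⟩, h2⟩ := hN n hn.le
  rw [dist_zero_right]
  set η := ε / (2 * (M * (|C| + 1) + 1)) with hη
  have ip : IntegrableOn (fun z => ‖R n z‖) (tsupport φ) :=
    ContinuousOn.integrableOn_compact hK (((hR.co n).mono hφ.2.2).norm)
  have e : ∫ z, (φ z : ℂ) * ((h n : ℂ) * (R n z * f n z)) =
      ∫ z in tsupport φ, (φ z : ℂ) * ((h n : ℂ) * (R n z * f n z)) := by
    refine (setIntegral_eq_integral_of_forall_compl_eq_zero (fun z hz => ?_)).symm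
    rw [image_eq_zero_of_notMem_tsupport hz]; simp
  rw [e]
  have bb : ‖∫ z in tsupport φ, (φ z : ℂ) * ((h n : ℂ) * (R n z * f n z))‖ ≤
      ∫ z in tsupport φ, (M * η) * ‖R n z‖ := by
    refine norm_integral_le_of_norm_le (ip.const_mul _) ?_
    refine (ae_restrict_iff' hK.measurableSet).2 (Eventually.of_forall fun z hz => ?_)
    have hp := (H.hpos n).le
    rw [norm_mul, norm_mul, norm_mul (R n z), Complex.norm_real,
      Complex.norm_real, Real.norm_eq_abs (h n), abs_of_nonneg hp]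
    have a1 := hb z hz
    have a2 := h1 z hz
    have a4 : h n * ‖f n z‖ ≤ η := by
      have : ‖f n z‖ ≤ (1 + ‖f n z‖ ^ 2) / 2 := by
        nlinarith [sq_nonneg (‖f n z‖ - 1)]
      nlinarith [mul_le_mul_of_nonneg_left this hp]
    calc ‖φ z‖ * (h n * (‖R n z‖ * ‖f n z‖)) = ‖φ z‖ * (h n * ‖f n z‖) * ‖R n z‖ := by ring
      _ ≤ M * η * ‖R n z‖ := by gcongr
  rw [integral_const_mul] at bb
  have h3 : ∫ z in tsupport φ, ‖R n z‖ ≤ |C| + 1 := by
    have := le_abs_self C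
    linarith
  have h4 : M * η * (∫ z in tsupport φ, ‖R n z‖) ≤ M * η * (|C| + 1) :=
    mul_le_mul_of_nonneg_left h3 (by positivity)
  have h5 : M * η * (|C| + 1) < ε := by
    have e1 : η * (2 * (M * (|C| + 1) + 1)) = ε := by
      rw [hη]; field_simp
    have e2 : 0 ≤ M * (|C| + 1) := by positivity
    nlinarith
  linarith

lemma qe_wn (H : SY B Complex.im h w) (hBU : B ⊆ UH) {Q G : ℕ → ℂ → ℂ} (hQ : QE B h w Q)
    (hG : LB B 2 G) : WN B (fun n z => (h n : ℂ) * (Q n z * G n z)) := by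
  induction hQ with
  | @mul e f he hf =>
    exact (hE3 H hBU (LB.mul2 he.lb hG) hf).congr fun n z _ => by ring
  | add _ _ h1 h2 => exact (h1.add h2).congr fun n z _ => by ring
  | cg _ e h1 => exact h1.congr fun n z hz => by rw [e n z hz]

lemma inv_im (hBU : B ⊆ UH) : ContDiffOn ℝ ∞ (fun z : ℂ => ((z.im : ℂ))⁻¹) B := by
  refine ContDiffOn.inv (sim.contDiffOn) fun z hz => ?_
  have : 0 < z.im := hBU hz
  exact_mod_cast this.ne'

lemma qe_hd1 (H : SY B Complex.im h w) (hBU : B ⊆ UH) {Q : ℕ → ℂ → ℂ} (hQ : QE B h w Q) :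
    QE B h w (hd h 1 Q) := by
  refine ((((hQ.sP H).add (hQ.sM H)).smulc H (inv_im hBU)).cmul H (1 / 2)).cg fun n z hz => ?_
  have hz' : (z.im : ℂ) ≠ 0 := by
    have : 0 < z.im := hBU hz
    exact_mod_cast this.ne'
  simp only [TH294.RS.sP, TH294.RS.sM, DP, DM, dd, db, dx, dy, hd]
  field_simp
  ring

lemma qe_hdI (H : SY B Complex.im h w) (hBU : B ⊆ UH) {Q : ℕ → ℂ → ℂ} (hQ : QE B h w Q) :
    QE B h w (hd h I Q) := by
  refine ((((hQ.sM H).sub H (hQ.sP H)).smulc H (inv_im hBU)).cmul H (-I / 2)).cg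
    fun n z hz => ?_
  have hz' : (z.im : ℂ) ≠ 0 := by
    have : 0 < z.im := hBU hz
    exact_mod_cast this.ne'
  simp only [TH294.RS.sP, TH294.RS.sM, DP, DM, dd, db, dx, dy, hd]
  field_simp
  linear_combination (2 * (h n : ℂ) * fderiv ℝ (Q n) z I) * Complex.I_sq

/-- Green's identity in one direction -/
lemma green (hB : IsOpen B) {ψ : ℂ → ℝ} (hψ : TF B ψ) {E G : ℂ → ℂ} (hE : ContDiffOn ℝ ∞ E B)
    (hG : ContDiffOn ℝ ∞ G B) (v : ℂ) :
    ∫ z, (ψ z : ℂ) * (E z * fderiv ℝ (fun w => fderiv ℝ G w v) z v) =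
      (∫ z, (ψ z : ℂ) * (fderiv ℝ (fun w => fderiv ℝ E w v) z v * G z)) +
      (∫ z, ((fderiv ℝ (fun w => fderiv ℝ ψ w v) z v : ℝ) : ℂ) * (E z * G z)) +
      2 * ∫ z, ((fderiv ℝ ψ z v : ℝ) : ℂ) * (fderiv ℝ E z v * G z) := by
  have t1 := Pool.Agent.W450.RW.T.tf_deriv hψ v
  have t2 := Pool.Agent.W450.RW.T.tf_deriv t1 v
  have dE : ContDiffOn ℝ ∞ (fun w => fderiv ℝ E w v) B :=
    (hE.fderiv_of_isOpen hB (by simp)).clm_apply contDiffOn_const
  have dG : ContDiffOn ℝ ∞ (fun w => fderiv ℝ G w v) B :=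
    (hG.fderiv_of_isOpen hB (by simp)).clm_apply contDiffOn_const
  have ddE : ContDiffOn ℝ ∞ (fun w => fderiv ℝ (fun w => fderiv ℝ E w v) w v) B :=
    (dE.fderiv_of_isOpen hB (by simp)).clm_apply contDiffOn_const
  have ddG : ContDiffOn ℝ ∞ (fun w => fderiv ℝ (fun w => fderiv ℝ G w v) w v) B :=
    (dG.fderiv_of_isOpen hB (by simp)).clm_apply contDiffOn_const
  have p1 := Pool.Agent.W450.RW.T.parts1 hB hψ
    (G := fun z => E z * fderiv ℝ G z v - fderiv ℝ E z v * G z)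
    ((hE.mul dG).sub (dE.mul hG)) v
  have p2 := Pool.Agent.W450.RW.T.parts1 hB t1 (G := fun z => E z * G z) (hE.mul hG) v
  have i1 : Integrable (fun z => (ψ z : ℂ) * (E z * fderiv ℝ (fun w => fderiv ℝ G w v) z v)) :=
    TF.cint hψ (hE.mul ddG).continuousOn
  have i2 : Integrable (fun z => (ψ z : ℂ) * (fderiv ℝ (fun w => fderiv ℝ E w v) z v * G z)) :=
    TF.cint hψ (ddE.mul hG).continuousOn
  have i3 : Integrable (fun z => ((fderiv ℝ ψ z v : ℝ) : ℂ) * (fderiv ℝ E z v * G z)) :=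
    TF.cint t1 (dE.mul hG).continuousOn
  have i4 : Integrable (fun z => ((fderiv ℝ ψ z v : ℝ) : ℂ) * (E z * fderiv ℝ G z v)) :=
    TF.cint t1 (hE.mul dG).continuousOn
  have e1 : ∫ z, (ψ z : ℂ) * fderiv ℝ (fun z => E z * fderiv ℝ G z v - fderiv ℝ E z v * G z) z v =
      (∫ z, (ψ z : ℂ) * (E z * fderiv ℝ (fun w => fderiv ℝ G w v) z v)) -
      ∫ z, (ψ z : ℂ) * (fderiv ℝ (fun w => fderiv ℝ E w v) z v * G z) := by
    rw [← integral_sub i1 i2]
    congr 1; funext z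
    by_cases hz : z ∈ B
    · have d1 := fda hB hE hz
      have d2 := fda hB hG hz
      have d3 := fda hB dE hz
      have d4 := fda hB dG hz
      have s1 : DifferentiableAt ℝ (fun z => E z * fderiv ℝ G z v) z := d1.mul d4
      have s2 : DifferentiableAt ℝ (fun z => fderiv ℝ E z v * G z) z := d3.mul d2
      rw [fderiv_fun_sub s1 s2, fderiv_fun_mul d1 d4, fderiv_fun_mul d3 d2]
      simp only [sub_apply, add_apply, smul_apply, smul_eq_mul]
      ring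
    · rw [TF.zero hψ hz]; simp
  have e2 : ∫ z, ((fderiv ℝ ψ z v : ℝ) : ℂ) * fderiv ℝ (fun z => E z * G z) z v =
      (∫ z, ((fderiv ℝ ψ z v : ℝ) : ℂ) * (E z * fderiv ℝ G z v)) +
      ∫ z, ((fderiv ℝ ψ z v : ℝ) : ℂ) * (fderiv ℝ E z v * G z) := by
    rw [← integral_add i4 i3]
    congr 1; funext z
    by_cases hz : z ∈ B
    · have d1 := fda hB hE hz
      have d2 := fda hB hG hz
      rw [fderiv_fun_mul d1 d2]
      simp only [add_apply, smul_apply, smul_eq_mul]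
      ring
    · rw [TF.zero t1 hz]; simp
  have e3 : ∫ z, ((fderiv ℝ ψ z v : ℝ) : ℂ) * (E z * fderiv ℝ G z v - fderiv ℝ E z v * G z) =
      (∫ z, ((fderiv ℝ ψ z v : ℝ) : ℂ) * (E z * fderiv ℝ G z v)) -
      ∫ z, ((fderiv ℝ ψ z v : ℝ) : ℂ) * (fderiv ℝ E z v * G z) := by
    rw [← integral_sub i4 i3]
    congr 1; funext z; ring
  rw [e1, e3] at p1
  rw [e2] at p2
  linear_combination p1 - p2

/-- **Pairing.** -/
theorem pair1 (H : SY B Complex.im h w) (hBU : B ⊆ UH) {r : ℕ → ℝ} {G : ℕ → ℂ → ℂ}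
    (hG : LB B 2 G)
    (eG : ∀ n, ∀ z ∈ B, (h n : ℂ) ^ 2 * ((z.im : ℂ) ^ 2 * lap (G n) z) = -((r n : ℂ) * G n z))
    {E : ℕ → ℂ → ℂ} (hE : QE B h w E) {φ : ℂ → ℝ} (hφ : TF B φ) :
    Tendsto (fun n => (r n : ℂ) * (∫ z, (φ z : ℂ) * (E n z * G n z)) -
      ∫ z, (φ z : ℂ) * (sL Complex.im h E n z * G n z)) atTop (𝓝 0) := by
  have hB := H.op
  have hψ : TF B (fun z => φ z * z.im ^ 2) :=
    TF.mulc hB hφ ((imCLM.contDiff.pow 2).contDiffOn)
  set ψ : ℂ → ℝ := fun z => φ z * z.im ^ 2 with hψd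
  have t1 := fun v => Pool.Agent.W450.RW.T.tf_deriv hψ v
  have t2 := fun v => Pool.Agent.W450.RW.T.tf_deriv (t1 v) v
  have sE := (hE.lb H).sm
  have sG := hG.sm
  have n1 : ∀ v, Tendsto (fun n => ∫ z, ((fderiv ℝ (fun w => fderiv ℝ ψ w v) z v : ℝ) : ℂ) *
      ((h n : ℂ) * (((h n : ℂ) * E n z) * G n z))) atTop (𝓝 0) := fun v =>
    (qe_wn H hBU (hE.hmul H) hG).nul _ (t2 v)
  have n2 : Tendsto (fun n => ∫ z, ((fderiv ℝ ψ z 1 : ℝ) : ℂ) *
      ((h n : ℂ) * (hd h 1 E n z * G n z))) atTop (𝓝 0) :=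
    (qe_wn H hBU (qe_hd1 H hBU hE) hG).nul _ (t1 1)
  have n3 : Tendsto (fun n => ∫ z, ((fderiv ℝ ψ z I : ℝ) : ℂ) *
      ((h n : ℂ) * (hd h I E n z * G n z))) atTop (𝓝 0) :=
    (qe_wn H hBU (qe_hdI H hBU hE) hG).nul _ (t1 I)
  have n4 := (((n1 1).add (n1 I)).add ((n2.add n3).const_mul 2)).const_mul (-1)
  simp only [add_zero, mul_zero] at n4
  refine n4.congr fun n => ?_
  have g1 := green hB hψ (sE n) (sG n) 1
  have g2 := green hB hψ (sE n) (sG n) I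
  -- the left side
  have dsm : ∀ {F : ℂ → ℂ} (_ : ContDiffOn ℝ ∞ F B) (v : ℂ),
      ContDiffOn ℝ ∞ (fun w => fderiv ℝ F w v) B := fun hF v =>
    (hF.fderiv_of_isOpen hB (by simp)).clm_apply contDiffOn_const
  have a1 : (r n : ℂ) * (∫ z, (φ z : ℂ) * (E n z * G n z)) = -(h n : ℂ) ^ 2 *
      ((∫ z, (ψ z : ℂ) * (E n z * fderiv ℝ (fun w => fderiv ℝ (G n) w 1) z 1)) +
       ∫ z, (ψ z : ℂ) * (E n z * fderiv ℝ (fun w => fderiv ℝ (G n) w I) z I)) := by
    have i1 : Integrable (fun z => (ψ z : ℂ) *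
        (E n z * fderiv ℝ (fun w => fderiv ℝ (G n) w 1) z 1)) :=
      TF.cint hψ ((sE n).mul (dsm (dsm (sG n) 1) 1)).continuousOn
    have i2 : Integrable (fun z => (ψ z : ℂ) *
        (E n z * fderiv ℝ (fun w => fderiv ℝ (G n) w I) z I)) :=
      TF.cint hψ ((sE n).mul (dsm (dsm (sG n) I) I)).continuousOn
    rw [← integral_add i1 i2, ← integral_const_mul, ← integral_const_mul]
    congr 1; funext z
    by_cases hz : z ∈ B
    · have e1 := eG n z hz
      have e2 : lap (G n) z = fderiv ℝ (fun w => fderiv ℝ (G n) w 1) z 1 +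
        fderiv ℝ (fun w => fderiv ℝ (G n) w I) z I := rfl
      rw [e2] at e1
      simp only [hψd]
      push_cast
      linear_combination ((φ z : ℂ) * E n z) * e1
    · rw [TF.zero hφ hz, TF.zero hψ hz]; simp
  have a2 : ∫ z, (φ z : ℂ) * (sL Complex.im h E n z * G n z) = -(h n : ℂ) ^ 2 *
      ((∫ z, (ψ z : ℂ) * (fderiv ℝ (fun w => fderiv ℝ (E n) w 1) z 1 * G n z)) +
       ∫ z, (ψ z : ℂ) * (fderiv ℝ (fun w => fderiv ℝ (E n) w I) z I * G n z)) := by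
    have i1 : Integrable (fun z => (ψ z : ℂ) *
        (fderiv ℝ (fun w => fderiv ℝ (E n) w 1) z 1 * G n z)) :=
      TF.cint hψ ((dsm (dsm (sE n) 1) 1).mul (sG n)).continuousOn
    have i2 : Integrable (fun z => (ψ z : ℂ) *
        (fderiv ℝ (fun w => fderiv ℝ (E n) w I) z I * G n z)) :=
      TF.cint hψ ((dsm (dsm (sE n) I) I).mul (sG n)).continuousOn
    rw [← integral_add i1 i2, ← integral_const_mul]
    congr 1; funext z
    have e2 : lap (E n) z = fderiv ℝ (fun w => fderiv ℝ (E n) w 1) z 1 +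
        fderiv ℝ (fun w => fderiv ℝ (E n) w I) z I := rfl
    simp only [sL, hψd, e2]
    push_cast
    ring
  have b1 : ∀ v, ∫ z, ((fderiv ℝ (fun w => fderiv ℝ ψ w v) z v : ℝ) : ℂ) *
      ((h n : ℂ) * (((h n : ℂ) * E n z) * G n z)) = (h n : ℂ) ^ 2 *
      ∫ z, ((fderiv ℝ (fun w => fderiv ℝ ψ w v) z v : ℝ) : ℂ) * (E n z * G n z) := by
    intro v
    rw [← integral_const_mul]; congr 1; funext z; ring
  have b2 : ∀ v, ∫ z, ((fderiv ℝ ψ z v : ℝ) : ℂ) * ((h n : ℂ) * (hd h v E n z * G n z)) =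
      (h n : ℂ) ^ 2 * ∫ z, ((fderiv ℝ ψ z v : ℝ) : ℂ) * (fderiv ℝ (E n) z v * G n z) := by
    intro v
    rw [← integral_const_mul]; congr 1; funext z
    simp only [hd]; ring
  rw [b1, b1, b2, b2, a1, a2, g1, g2]
  ring

end

end Pool.Agent.Y265.HY.JC
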