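import Pool.Agent.Y265.HY.JC1

/-! Pairing with polynomials in the Laplacian applied to the square. -/
set_option autoImplicit false
open MeasureTheory Filter Topology Complex Set
open scoped ContDiff Real Manifold

namespace Pool.Agent.Y265.HY.JC

open Pool.Agent.W745.RW Pool.Agent.TH294.RS Pool.Agent.Y265.HY Pool.Agent.Y265.HY.PS
open Pool.Agent.TH294.RG (vv sL sL1 opP sL_it)

noncomputable section

variable {B : Set ℂ} {h : ℕ → ℝ} {w : ℤ → ℕ → ℂ → ℂ}

lemma mul_null {a b : ℕ → ℂ} (ha : Tendsto a atTop (𝓝 0)) (hb : ∀ n, ‖b n‖ ≤ 1) :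
    Tendsto (fun n => b n * a n) atTop (𝓝 0) := by
  refine squeeze_zero_norm (fun n => ?_) (by simpa using ha.norm)
  rw [norm_mul]
  exact mul_le_of_le_one_left (norm_nonneg _) (hb n)

lemma qe_it (H : SY B Complex.im h w) {E : ℕ → ℂ → ℂ} (hE : QE B h w E) (i : ℕ) :
    QE B h w ((sL Complex.im h)^[i] E) := by
  induction i with
  | zero => exact hE
  | succ i ih =>
    rw [Function.iterate_succ_apply']
    exact ih.sL H

lemma qe_vv (H : SY B Complex.im h w) (h0 : EX B h w (w 0)) : QE B h w (vv w 0) :=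
  (QE.mul (H.bd 0) (RP.W H h0 0)).cg fun n z _ => by simp [vv]

variable (H : SY B Complex.im h w) (hBU : B ⊆ UH) {r : ℕ → ℝ} (r0 : ∀ n, 0 ≤ r n)
  {G : ℕ → ℂ → ℂ} (hG : LB B 2 G)
  (eG : ∀ n, ∀ z ∈ B, (h n : ℂ) ^ 2 * ((z.im : ℂ) ^ 2 * lap (G n) z) = -((r n : ℂ) * G n z))

lemma nb {x : ℝ} (hx : 0 ≤ x) : ((1 + x : ℝ) : ℂ) ≠ 0 := by
  have : (0 : ℝ) < 1 + x := by linarith
  exact_mod_cast this.ne'

lemma nb1 {x : ℝ} (hx : 0 ≤ x) (i : ℕ) : ‖(1 : ℂ) / ((1 + x : ℝ) : ℂ) ^ i‖ ≤ 1 := by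
  rw [norm_div, norm_one, norm_pow, Complex.norm_real, Real.norm_eq_abs,
    abs_of_nonneg (by linarith)]
  rw [div_le_one (by positivity)]
  exact one_le_pow₀ (by linarith)

include H hBU r0 hG eG in
/-- iterated pairing -/
theorem pairI {E : ℕ → ℂ → ℂ} (hE : QE B h w E) {φ : ℂ → ℝ} (hφ : TF B φ) (i : ℕ) :
    Tendsto (fun n => ((r n : ℂ) ^ i * (∫ z, (φ z : ℂ) * (E n z * G n z)) -
      ∫ z, (φ z : ℂ) * ((sL Complex.im h)^[i] E n z * G n z)) / ((1 + r n : ℝ) : ℂ) ^ i)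
      atTop (𝓝 0) := by
  induction i with
  | zero => simp
  | succ i ih =>
    have p := pair1 H hBU hG eG (qe_it H hE i) hφ
    have b1 : ∀ n, ‖(r n : ℂ) / ((1 + r n : ℝ) : ℂ)‖ ≤ 1 := by
      intro n
      have := r0 n
      rw [norm_div, Complex.norm_real, Complex.norm_real, Real.norm_eq_abs, Real.norm_eq_abs,
        abs_of_nonneg this, abs_of_nonneg (by linarith : 0 ≤ 1 + r n),
        div_le_one (by linarith)]
      linarith
    have t := (mul_null ih b1).add (mul_null p fun n => nb1 (r0 n) (i + 1))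
    rw [add_zero] at t
    refine t.congr fun n => ?_
    rw [Function.iterate_succ_apply']
    have := nb (r0 n)
    field_simp
    ring

include H hBU r0 hG eG in
/-- pairing with a polynomial in the Laplacian applied to the square of the field -/
theorem pairP (h0 : EX B h w (w 0)) {φ : ℂ → ℝ} (hφ : TF B φ) (F : Polynomial ℝ) :
    Tendsto (fun n => (((F.eval (r n) : ℝ) : ℂ) * (∫ z, (φ z : ℂ) * (vv w 0 n z * G n z)) -
      ∫ z, (φ z : ℂ) * (opP Complex.im (h n) F (vv w 0 n) z * G n z)) /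
        ((1 + r n : ℝ) : ℂ) ^ F.natDegree) atTop (𝓝 0) := by
  have hQ := qe_vv H h0
  have t : Tendsto (fun n => ∑ i ∈ F.support, ((F.coeff i : ℝ) : ℂ) *
      (1 / ((1 + r n : ℝ) : ℂ) ^ (F.natDegree - i) *
      (((r n : ℂ) ^ i * (∫ z, (φ z : ℂ) * (vv w 0 n z * G n z)) -
      ∫ z, (φ z : ℂ) * ((sL Complex.im h)^[i] (vv w 0) n z * G n z)) /
        ((1 + r n : ℝ) : ℂ) ^ i))) atTop (𝓝 0) := by
    have := tendsto_finsetSum F.support fun i _ => (mul_null (pairI H hBU r0 hG eG hQ hφ i)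
      fun n => nb1 (r0 n) (F.natDegree - i)).const_mul ((F.coeff i : ℝ) : ℂ)
    simpa using this
  refine t.congr fun n => ?_
  have sm : ∀ i, ContDiffOn ℝ ∞ ((sL Complex.im h)^[i] (vv w 0) n) B := fun i =>
    ((qe_it H hQ i).lb H).sm n
  have ii : ∀ i, Integrable (fun z => (φ z : ℂ) *
      (((F.coeff i : ℝ) : ℂ) * (sL Complex.im h)^[i] (vv w 0) n z * G n z)) := fun i =>
    TF.cint hφ ((continuousOn_const.mul (sm i).continuousOn).mul (hG.sm n).continuousOn)
  have e1 : ∫ z, (φ z : ℂ) * (opP Complex.im (h n) F (vv w 0 n) z * G n z) =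
      ∑ i ∈ F.support, ((F.coeff i : ℝ) : ℂ) *
        ∫ z, (φ z : ℂ) * ((sL Complex.im h)^[i] (vv w 0) n z * G n z) := by
    simp only [opP, Polynomial.sum_def, ← integral_const_mul]
    rw [← integral_finsetSum _ fun i _ => ?_]
    · congr 1; funext z
      rw [Finset.sum_mul, Finset.mul_sum]
      refine Finset.sum_congr rfl fun i _ => ?_
      rw [sL_it]; ring
    · exact (ii i).congr (Eventually.of_forall fun z => by simp only; ring)
  have e2 : ((F.eval (r n) : ℝ) : ℂ) = ∑ i ∈ F.support, ((F.coeff i : ℝ) : ℂ) * (r n : ℂ) ^ i := by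
    rw [Polynomial.eval_eq_sum, Polynomial.sum_def]
    push_cast; rfl
  rw [e1, e2, Finset.sum_mul, ← Finset.sum_sub_distrib, Finset.sum_div]
  refine Finset.sum_congr rfl fun i hi => ?_
  have hd : i ≤ F.natDegree := Polynomial.le_natDegree_of_mem_supp i hi
  have hb := nb (r0 n)
  have e3 : ((1 + r n : ℝ) : ℂ) ^ F.natDegree = ((1 + r n : ℝ) : ℂ) ^ (F.natDegree - i) *
      ((1 + r n : ℝ) : ℂ) ^ i := by
    rw [← pow_add, Nat.sub_add_cancel hd]
  rw [e3]
  field_simp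

end

end Pool.Agent.Y265.HY.JC
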