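import Mathlib

/-! Polynomials which pick a frequency. -/
set_option autoImplicit false
open MeasureTheory Filter Topology

namespace Pool.Agent.Y265.HY.JC

noncomputable section

/-- the spectral integral of the Gaussian field -/
def gI (F : Polynomial ℝ) : ℝ :=
  1 / Real.pi * ∫ θ in (0 : ℝ)..(2 * Real.pi), F.eval (2 - 2 * Real.cos θ) ^ 2

lemma gI_nonneg (F : Polynomial ℝ) : 0 ≤ gI F := by
  unfold gI
  refine mul_nonneg (by positivity) ?_
  exact intervalIntegral.integral_nonneg (by positivity) fun θ _ => sq_nonneg _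

lemma cnt (c : ℝ) : {θ : ℝ | Real.cos θ = c}.Countable := by
  by_cases h : ∃ a, Real.cos a = c
  · obtain ⟨a, rfl⟩ := h
    refine ((Set.countable_range (fun k : ℤ => 2 * (k : ℝ) * Real.pi + a)).union
      (Set.countable_range (fun k : ℤ => 2 * (k : ℝ) * Real.pi - a))).mono ?_
    intro θ hθ
    have h1 : Real.cos a = Real.cos θ := hθ.symm
    rw [Real.cos_eq_cos_iff] at h1
    obtain ⟨k, hk | hk⟩ := h1
    · exact Or.inl ⟨k, hk.symm⟩
    · exact Or.inr ⟨k, hk.symm⟩
  · push Not at h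
    convert Set.countable_empty
    ext θ
    simp only [Set.mem_ofPred_eq, Set.mem_empty_iff_false, iff_false]
    exact h θ

theorem gI_lim (p q : Polynomial ℝ) (R : ℝ) (h1 : ∀ x ∈ Set.Icc (0 : ℝ) 4, x ≠ R → |q.eval x| < 1)
    (h2 : |q.eval R| ≤ 1) : Tendsto (fun N : ℕ => gI (q ^ N * p)) atTop (𝓝 0) := by
  have h3 : ∀ x ∈ Set.Icc (0 : ℝ) 4, |q.eval x| ≤ 1 := by
    intro x hx
    by_cases hR : x = R
    · rw [hR]; exact h2
    · exact (h1 x hx hR).le
  have hx : ∀ θ : ℝ, 2 - 2 * Real.cos θ ∈ Set.Icc (0 : ℝ) 4 := fun θ =>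
    ⟨by linarith [Real.cos_le_one θ], by linarith [Real.neg_one_le_cos θ]⟩
  have c1 : ∀ P : Polynomial ℝ, Continuous fun θ : ℝ => P.eval (2 - 2 * Real.cos θ) ^ 2 := fun P =>
    (P.continuous.comp (continuous_const.sub (continuous_const.mul Real.continuous_cos))).pow 2
  have key : Tendsto (fun N : ℕ => ∫ θ in (0 : ℝ)..(2 * Real.pi),
      (q ^ N * p).eval (2 - 2 * Real.cos θ) ^ 2) atTop
      (𝓝 (∫ _θ in (0 : ℝ)..(2 * Real.pi), (0 : ℝ))) := by
    refine intervalIntegral.tendsto_integral_filter_of_dominated_convergence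
      (fun θ => p.eval (2 - 2 * Real.cos θ) ^ 2)
      (Eventually.of_forall fun N => (c1 _).aestronglyMeasurable)
      (Eventually.of_forall fun N => ae_of_all _ fun θ _ => ?_)
      ((c1 p).intervalIntegrable _ _) ?_
    · rw [Real.norm_eq_abs, abs_of_nonneg (sq_nonneg _), Polynomial.eval_mul, Polynomial.eval_pow,
        mul_pow]
      have h4 := h3 _ (hx θ)
      have h5 : (q.eval (2 - 2 * Real.cos θ) ^ N) ^ 2 ≤ 1 := by
        rw [← sq_abs, abs_pow]
        exact pow_le_one₀ (by positivity) (pow_le_one₀ (abs_nonneg _) h4)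
      exact mul_le_of_le_one_left (sq_nonneg _) h5
    · have h6 : ∀ᵐ θ : ℝ, θ ∉ {θ : ℝ | Real.cos θ = (2 - R) / 2} :=
        measure_eq_zero_iff_ae_notMem.1 ((cnt _).measure_zero volume)
      filter_upwards [h6] with θ hθ _
      have h7 : 2 - 2 * Real.cos θ ≠ R := by
        intro h8
        apply hθ
        show Real.cos θ = _
        linarith
      have h9 := h1 _ (hx θ) h7
      have h10 := tendsto_pow_atTop_nhds_zero_of_abs_lt_one h9
      have h11 := (h10.mul_const (p.eval (2 - 2 * Real.cos θ))).pow 2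
      simp only [zero_mul, ne_eq, OfNat.ofNat_ne_zero, not_false_eq_true, zero_pow] at h11
      refine h11.congr fun N => ?_
      rw [Polynomial.eval_mul, Polynomial.eval_pow]
  have k2 := key.const_mul (1 / Real.pi)
  simpa [gI] using k2

/-- polynomials which pick the frequency `R` -/
theorem poly_ex (R : ℝ) (hR : 0 ≤ R) {ε : ℝ} (hε : 0 < ε) : ∃ F : Polynomial ℝ, F.eval R = 1 ∧
    (R ≠ 0 → F.eval 0 = 0) ∧ (R ≠ 4 → F.eval 4 = 0) ∧ gI F < ε := by
  have main : ∀ p q : Polynomial ℝ, (∀ x ∈ Set.Icc (0 : ℝ) 4, x ≠ R → |q.eval x| < 1) →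
      q.eval R = 1 → p.eval R = 1 → (R ≠ 0 → p.eval 0 = 0) → (R ≠ 4 → p.eval 4 = 0) →
      ∃ F : Polynomial ℝ, F.eval R = 1 ∧
      (R ≠ 0 → F.eval 0 = 0) ∧ (R ≠ 4 → F.eval 4 = 0) ∧ gI F < ε := by
    intro p q h1 h2 h3 h4 h5
    have l := gI_lim p q R h1 (by rw [h2]; simp)
    obtain ⟨N, hN⟩ := (l.eventually (gt_mem_nhds hε)).exists
    refine ⟨q ^ N * p, ?_, fun h => ?_, fun h => ?_, hN⟩
    · rw [Polynomial.eval_mul, Polynomial.eval_pow, h2, h3]; simp
    · rw [Polynomial.eval_mul, h4 h, mul_zero]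
    · rw [Polynomial.eval_mul, h5 h, mul_zero]
  by_cases r0 : R = 0
  · subst r0
    refine main (1 - Polynomial.C (1 / 4) * Polynomial.X) (1 - Polynomial.C (1 / 4) * Polynomial.X)
      (fun x hx hx0 => ?_) (by simp) (by simp) (fun h => absurd rfl h) (fun _ => by simp)
    simp only [Polynomial.eval_sub, Polynomial.eval_one, Polynomial.eval_mul, Polynomial.eval_C,
      Polynomial.eval_X]
    have : 0 < x := lt_of_le_of_ne hx.1 (Ne.symm hx0)
    rw [abs_lt]
    constructor <;> linarith [hx.2]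
  by_cases r4 : R = 4
  · subst r4
    refine main (Polynomial.C (1 / 4) * Polynomial.X) (Polynomial.C (1 / 4) * Polynomial.X)
      (fun x hx hx0 => ?_) (by simp) (by simp) (fun _ => by simp) (fun h => absurd rfl h)
    simp only [Polynomial.eval_mul, Polynomial.eval_C, Polynomial.eval_X]
    have : x < 4 := lt_of_le_of_ne hx.2 hx0
    rw [abs_lt]
    constructor <;> linarith [hx.1]
  have r4' : (4 : ℝ) - R ≠ 0 := fun h => r4 (by linarith)
  have pR : (Polynomial.C (1 / (R * (4 - R))) * (Polynomial.X * (Polynomial.C 4 -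
      Polynomial.X))).eval R = 1 := by
    simp only [Polynomial.eval_mul, Polynomial.eval_C, Polynomial.eval_X, Polynomial.eval_sub]
    field_simp
  by_cases hR4 : R < 4
  · refine main (Polynomial.C (1 / (R * (4 - R))) * (Polynomial.X * (Polynomial.C 4 -
      Polynomial.X))) (1 - Polynomial.C (1 / 16) * (Polynomial.X - Polynomial.C R) ^ 2)
      (fun x hx hx0 => ?_) (by simp) pR (fun _ => by simp) (fun _ => by simp)
    simp only [Polynomial.eval_sub, Polynomial.eval_one, Polynomial.eval_mul, Polynomial.eval_C,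
      Polynomial.eval_X, Polynomial.eval_pow]
    have h1 : 0 < (x - R) ^ 2 := by
      have : x - R ≠ 0 := sub_ne_zero.2 hx0
      positivity
    have h2 : (x - R) ^ 2 < 16 := by
      have a1 := hx.1
      have a2 := hx.2
      have a3 : 0 < R := lt_of_le_of_ne hR (Ne.symm r0)
      nlinarith
    rw [abs_lt]
    constructor <;> linarith
  · have hR5 : 4 < R := lt_of_le_of_ne (not_lt.1 hR4) (Ne.symm r4)
    refine main (Polynomial.C (1 / (R * (4 - R))) * (Polynomial.X * (Polynomial.C 4 -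
      Polynomial.X))) (Polynomial.C (1 / R) * Polynomial.X)
      (fun x hx hx0 => ?_) (by
        simp only [Polynomial.eval_mul, Polynomial.eval_C, Polynomial.eval_X]
        field_simp) pR (fun _ => by simp) (fun _ => by simp)
    simp only [Polynomial.eval_mul, Polynomial.eval_C, Polynomial.eval_X]
    have h1 : 0 ≤ 1 / R * x := mul_nonneg (by positivity) hx.1
    rw [abs_of_nonneg h1, one_div, inv_mul_lt_iff₀ (by linarith)]
    linarith [hx.2]

end

end Pool.Agent.Y265.HY.JC
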