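import Pool.Agent.Y265.HY.JC2
import Pool.Agent.Y265.HY.JC3

/-! Joint cubic moments: the ingredients. -/
set_option autoImplicit false
open MeasureTheory Filter Topology Complex Set
open scoped ContDiff Real Manifold

namespace Pool.Agent.Y265.HY.JC

open Pool.Agent.W745.RW Pool.Agent.TH294.RS Pool.Agent.Y265.HY Pool.Agent.Y265.HY.PS
open Pool.Agent.TH294.RG (vv sL sL1 opP sL_it sR sL1_re)

noncomputable section

/-- `u` satisfies microlocal quantum unique ergodicity, `g` is a second sequence -/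
structure JD (Ω : Set ℂ) (lam mu : ℕ → ℝ) (u g : ℕ → ℂ → ℝ) : Prop where
  op : IsOpen Ω
  hU : ∀ z ∈ Ω, 0 < z.im
  lp : ∀ n, 0 < lam n
  ll : Tendsto lam atTop atTop
  mp : ∀ n, 0 < mu n
  ml : Tendsto mu atTop atTop
  us : ∀ n, ContDiffOn ℝ ∞ (u n) Ω
  gs : ∀ n, ContDiffOn ℝ ∞ (g n) Ω
  ue : ∀ n, ∀ z ∈ Ω, z.im ^ 2 * lap (u n) z + lam n * u n z = 0
  ge : ∀ n, ∀ z ∈ Ω, z.im ^ 2 * lap (g n) z + mu n * g n z = 0
  gb : ∀ K : Set ℂ, IsCompact K → K ⊆ Ω → ∃ C : ℝ, ∀ᶠ n in atTop, ∫ z in K, g n z ^ 2 ≤ C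
  qe : ∀ φ, TF Ω φ → ∀ k : ℕ, Tendsto (fun n => ∫ z, ((φ z / z.im ^ 2 : ℝ) : ℂ) *
      ((u n z : ℂ) * (FD (lam n))^[k] (fun w => (u n w : ℂ)) z)) atTop
      (𝓝 (if k = 0 then ((∫ z, φ z / z.im ^ 2 : ℝ) : ℂ) else 0))

variable {Ω : Set ℂ} {lam mu : ℕ → ℝ} {u g : ℕ → ℂ → ℝ}

lemma JD.cmp (D : JD Ω lam mu u g) {σ : ℕ → ℕ} (hσ : Tendsto σ atTop atTop) :
    JD Ω (fun n => lam (σ n)) (fun n => mu (σ n)) (fun n => u (σ n)) (fun n => g (σ n)) where
  op := D.op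
  hU := D.hU
  lp := fun n => D.lp _
  ll := D.ll.comp hσ
  mp := fun n => D.mp _
  ml := D.ml.comp hσ
  us := fun n => D.us _
  gs := fun n => D.gs _
  ue := fun n => D.ue _
  ge := fun n => D.ge _
  gb := fun K hK hKΩ => by
    obtain ⟨C, hC⟩ := D.gb K hK hKΩ
    exact ⟨C, hσ.eventually hC⟩
  qe := fun φ hφ k => (D.qe φ hφ k).comp hσ

/-- the polynomial `F` in the normalised Laplacian applied to `v²` -/
def PF (F : Polynomial ℝ) (t : ℝ) (v : ℂ → ℝ) (z : ℂ) : ℝ :=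
  F.sum fun i c => c * (sR Complex.im t)^[i] (fun w => v w ^ 2) z

/-- the field is `u` -/
abbrev hh (lam : ℕ → ℝ) (n : ℕ) : ℝ := 1 / √(lam n)

lemma JD.sy (D : JD Ω lam mu u g) : SY Ω Complex.im (hh lam)
    (ww Complex.im (hh lam) (fun n z => (u n z : ℂ))) :=
  (hyp_sys D.op D.hU D.lp D.ll D.us D.ue D.qe).1

lemma JD.exx (D : JD Ω lam mu u g) : EX Ω (hh lam)
    (ww Complex.im (hh lam) (fun n z => (u n z : ℂ)))
    (ww Complex.im (hh lam) (fun n z => (u n z : ℂ)) 0) :=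
  (hyp_sys D.op D.hU D.lp D.ll D.us D.ue D.qe).2

lemma vv0 (n : ℕ) : vv (ww Complex.im (hh lam) (fun n z => (u n z : ℂ))) 0 n =
    fun w => (u n w : ℂ) * (u n w : ℂ) := by
  have w0 : ∀ z, ww Complex.im (hh lam) (fun n z => (u n z : ℂ)) 0 n z = (u n z : ℂ) :=
    fun z => rfl
  funext z
  simp only [vv, neg_zero, Int.natAbs_zero, pow_zero, one_mul, w0]

lemma JD.opP_re (D : JD Ω lam mu u g) (F : Polynomial ℝ) (n : ℕ) {z : ℂ} (hz : z ∈ Ω) :
    opP Complex.im (hh lam n) F (vv (ww Complex.im (hh lam) (fun n z => (u n z : ℂ))) 0 n) z =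
      ((PF F (hh lam n) (u n) z : ℝ) : ℂ) := by
  rw [vv0]
  simp only [PF, opP, Polynomial.sum_def]
  push_cast
  refine Finset.sum_congr rfl fun i _ => ?_
  rw [sL1_re D.op (show ContDiffOn ℝ ∞ Complex.im Ω from imCLM.contDiff.contDiffOn) _ ((D.us n).pow 2)
    (fun w _ => by push_cast; ring) i z hz]

lemma JD.PFc (D : JD Ω lam mu u g) (F : Polynomial ℝ) (n : ℕ) :
    ContinuousOn (PF F (hh lam n) (u n)) Ω := by
  have hQ := qe_vv D.sy D.exx
  have c1 : ContinuousOn (fun z => opP Complex.im (hh lam n) F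
      (vv (ww Complex.im (hh lam) (fun n z => (u n z : ℂ))) 0 n) z) Ω := by
    simp only [opP, Polynomial.sum_def]
    refine continuousOn_finsetSum _ fun i _ => continuousOn_const.mul ?_
    rw [← sL_it]
    exact (((qe_it D.sy hQ i).lb D.sy).sm n).continuousOn
  have c2 := Complex.continuous_re.comp_continuousOn c1
  refine c2.congr fun z hz => ?_
  simp only [Function.comp_def]
  rw [D.opP_re F n hz, Complex.ofReal_re]

lemma JD.lbg (D : JD Ω lam mu u g) : LB Ω 2 (fun n z => (g n z : ℂ)) := by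
  refine ⟨fun n => cxa (D.gs n), fun K hK hKΩ => ?_⟩
  obtain ⟨C, hC⟩ := D.gb K hK hKΩ
  refine ⟨C, hC.mono fun n hn => ?_⟩
  have e : ∀ z, ‖(g n z : ℂ)‖ ^ 2 = g n z ^ 2 := fun z => by
    rw [Complex.norm_real, Real.norm_eq_abs, sq_abs]
  simp only [e]
  exact hn

lemma hh2 (D : JD Ω lam mu u g) (n : ℕ) : (hh lam n) ^ 2 = 1 / lam n := by
  rw [div_pow, Real.sq_sqrt (D.lp n).le, one_pow]

/-- the power spectrum -/
theorem JD.f1 (D : JD Ω lam mu u g) {φ : ℂ → ℝ} (hφ : TF Ω φ) (F : Polynomial ℝ) :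
    Tendsto (fun n => (∫ z, φ z * PF F (hh lam n) (u n) z ^ 2) -
      (2 * F.eval 0 ^ 2 + F.eval 4 ^ 2) / 3 * ((∫ z, φ z * u n z ^ 4) - 3 * ∫ z, φ z)) atTop
      (𝓝 ((F.eval 0 ^ 2 + gI F) * ∫ z, φ z)) := by
  have key := spec_c D.sy D.hU D.exx hφ F
  have k2 := (Complex.continuous_re.tendsto _).comp key
  have e0 : (((F.eval 0 ^ 2 + 1 / Real.pi *
      ∫ θ in (0 : ℝ)..(2 * Real.pi), F.eval (2 - 2 * Real.cos θ) ^ 2 : ℝ) : ℂ) *
      ((∫ z, φ z : ℝ) : ℂ)).re = (F.eval 0 ^ 2 + gI F) * ∫ z, φ z := by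
    rw [← Complex.ofReal_mul, Complex.ofReal_re]; rfl
  rw [e0] at k2
  refine k2.congr fun n => ?_
  have w0 : ∀ z, ww Complex.im (hh lam) (fun n z => (u n z : ℂ)) 0 n z = (u n z : ℂ) :=
    fun z => rfl
  have a1 : ∫ z, ((φ z : ℝ) : ℂ) * (opP Complex.im (hh lam n) F
      (vv (ww Complex.im (hh lam) (fun n z => (u n z : ℂ))) 0 n) z *
      opP Complex.im (hh lam n) F
      (vv (ww Complex.im (hh lam) (fun n z => (u n z : ℂ))) 0 n) z) =
      ((∫ z, φ z * PF F (hh lam n) (u n) z ^ 2 : ℝ) : ℂ) := by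
    rw [← integral_complex_ofReal]
    congr 1; funext z
    by_cases hz : z ∈ Ω
    · rw [D.opP_re F n hz]
      push_cast; ring
    · have : φ z = 0 := TF.zero hφ hz
      rw [this]; simp
  have a2 : ∫ z, ((φ z : ℝ) : ℂ) * F4 (ww Complex.im (hh lam)
      (fun n z => (u n z : ℂ))) 0 0 0 0 n z = ((∫ z, φ z * u n z ^ 4 : ℝ) : ℂ) := by
    rw [← integral_complex_ofReal]
    congr 1; funext z
    simp only [F4, w0]
    push_cast; ring
  simp only [Function.comp_def]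
  rw [a1, a2]
  rw [show (3 : ℂ) = ((3 : ℝ) : ℂ) by norm_num, ← Complex.ofReal_mul, ← Complex.ofReal_sub,
    ← Complex.ofReal_mul, ← Complex.ofReal_sub, Complex.ofReal_re]

/-- the pairing -/
theorem JD.f2 (D : JD Ω lam mu u g) {φ : ℂ → ℝ} (hφ : TF Ω φ) (F : Polynomial ℝ) :
    Tendsto (fun n => (F.eval (mu n / lam n) * (∫ z, φ z * (u n z ^ 2 * g n z)) -
      ∫ z, φ z * (PF F (hh lam n) (u n) z * g n z)) / (1 + mu n / lam n) ^ F.natDegree) atTop
      (𝓝 0) := by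
  have eG : ∀ n, ∀ z ∈ Ω, (hh lam n : ℂ) ^ 2 * ((z.im : ℂ) ^ 2 *
      lap (fun w => ((g n w : ℝ) : ℂ)) z) = -(((mu n / lam n : ℝ) : ℂ) * (g n z : ℂ)) := by
    intro n z hz
    rw [Pool.Agent.TH294.RS.lap_re D.op (D.gs n) hz]
    have h1 := D.ge n z hz
    have h2 := hh2 D n
    have h3 := (D.lp n).ne'
    have h4 : (hh lam n) ^ 2 * (z.im ^ 2 * lap (g n) z) = -(mu n / lam n * g n z) := by
      rw [h2]
      have : z.im ^ 2 * lap (g n) z = -(mu n * g n z) := by linarith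
      rw [this]; field_simp
    exact_mod_cast h4
  have key := pairP D.sy D.hU (r := fun n => mu n / lam n)
    (fun n => div_nonneg (D.mp n).le (D.lp n).le) D.lbg eG D.exx hφ F
  have k2 := (Complex.continuous_re.tendsto _).comp key
  rw [Complex.zero_re] at k2
  refine k2.congr fun n => ?_
  have a1 : ∫ z, (φ z : ℂ) * (vv (ww Complex.im (hh lam) (fun n z => (u n z : ℂ))) 0 n z *
      (g n z : ℂ)) = ((∫ z, φ z * (u n z ^ 2 * g n z) : ℝ) : ℂ) := by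
    rw [← integral_complex_ofReal, vv0]
    congr 1; funext z
    push_cast; ring
  have a2 : ∫ z, (φ z : ℂ) * (opP Complex.im (hh lam n) F
      (vv (ww Complex.im (hh lam) (fun n z => (u n z : ℂ))) 0 n) z * (g n z : ℂ)) =
      ((∫ z, φ z * (PF F (hh lam n) (u n) z * g n z) : ℝ) : ℂ) := by
    rw [← integral_complex_ofReal]
    congr 1; funext z
    by_cases hz : z ∈ Ω
    · rw [D.opP_re F n hz]
      push_cast; ring
    · have : φ z = 0 := TF.zero hφ hz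
      rw [this]; simp
  simp only [Function.comp_def]
  rw [a1, a2, ← Complex.ofReal_mul, ← Complex.ofReal_sub, ← Complex.ofReal_pow,
    ← Complex.ofReal_div, Complex.ofReal_re]

lemma lb1 (Ω : Set ℂ) : LB Ω 2 (fun (_ : ℕ) (_ : ℂ) => (1 : ℂ)) :=
  ⟨fun _ => contDiffOn_const, fun K _ _ => ⟨∫ _z in K, ‖(1 : ℂ)‖ ^ 2,
    Eventually.of_forall fun _ => le_rfl⟩⟩

/-- the mean of `F(L) u²` -/
theorem JD.f3 (D : JD Ω lam mu u g) {φ : ℂ → ℝ} (hφ : TF Ω φ) (F : Polynomial ℝ) :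
    Tendsto (fun n => ∫ z, φ z * PF F (hh lam n) (u n) z) atTop (𝓝 (F.eval 0 * ∫ z, φ z)) := by
  have eG : ∀ n : ℕ, ∀ z ∈ Ω, (hh lam n : ℂ) ^ 2 * ((z.im : ℂ) ^ 2 *
      lap (fun _ : ℂ => (1 : ℂ)) z) = -(((0 : ℝ) : ℂ) * 1) := by
    intro n z hz
    have e0 : lap (fun _ : ℂ => (1 : ℂ)) z =
      fderiv ℝ (fun w => fderiv ℝ (fun _ : ℂ => (1 : ℂ)) w 1) z 1 +
      fderiv ℝ (fun w => fderiv ℝ (fun _ : ℂ => (1 : ℂ)) w I) z I := rfl
    rw [e0]; simp
  have key := pairP D.sy D.hU (r := fun _ => 0) (fun n => le_rfl) (lb1 Ω) eG D.exx hφ F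
  have k2 := (Complex.continuous_re.tendsto _).comp key
  rw [Complex.zero_re] at k2
  have q := (D.sy.qe 0).nul φ hφ
  have q2 := (Complex.continuous_re.tendsto _).comp q
  rw [Complex.zero_re] at q2
  have w0 : ∀ n z, ww Complex.im (hh lam) (fun n z => (u n z : ℂ)) 0 n z = (u n z : ℂ) :=
    fun n z => rfl
  have iu : ∀ n, Integrable (fun z => φ z * u n z ^ 2) := fun n =>
    Pool.Agent.W311.RW.int_mul D.op hφ ((D.us n).continuousOn.pow 2)
  have i1 : Integrable φ := by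
    have := Pool.Agent.W311.RW.int_mul D.op hφ (continuousOn_const (c := (1 : ℝ)))
    simpa using this
  have q3 : Tendsto (fun n => ∫ z, φ z * u n z ^ 2) atTop (𝓝 (∫ z, φ z)) := by
    have q4 := q2.add_const (∫ z, φ z)
    rw [zero_add] at q4
    refine q4.congr fun n => ?_
    simp only [Function.comp_def, w0, Nat.cast_zero, if_true]
    have : ∫ z, (φ z : ℂ) * ((u n z : ℂ) * (u n z : ℂ) - 1) =
        ((∫ z, (φ z * u n z ^ 2 - φ z) : ℝ) : ℂ) := by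
      rw [← integral_complex_ofReal]
      congr 1; funext z
      push_cast; ring
    rw [this, Complex.ofReal_re, integral_sub (iu n) i1]
    ring
  have k3 := (q3.const_mul (F.eval 0)).sub k2
  rw [sub_zero] at k3
  refine k3.congr fun n => ?_
  have a1 : ∫ z, (φ z : ℂ) * (vv (ww Complex.im (hh lam) (fun n z => (u n z : ℂ))) 0 n z *
      1) = ((∫ z, φ z * u n z ^ 2 : ℝ) : ℂ) := by
    rw [← integral_complex_ofReal, vv0]
    congr 1; funext z
    push_cast; ring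
  have a2 : ∫ z, (φ z : ℂ) * (opP Complex.im (hh lam n) F
      (vv (ww Complex.im (hh lam) (fun n z => (u n z : ℂ))) 0 n) z * 1) =
      ((∫ z, φ z * PF F (hh lam n) (u n) z : ℝ) : ℂ) := by
    rw [← integral_complex_ofReal]
    congr 1; funext z
    by_cases hz : z ∈ Ω
    · rw [D.opP_re F n hz]
      push_cast; ring
    · have : φ z = 0 := TF.zero hφ hz
      rw [this]; simp
  simp only [Function.comp_def]
  rw [a1, a2, ← Complex.ofReal_mul, ← Complex.ofReal_sub, ← Complex.ofReal_pow,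
    ← Complex.ofReal_div, Complex.ofReal_re]
  simp

/-- the second sequence has mean zero -/
theorem JD.f4 (D : JD Ω lam mu u g) {φ : ℂ → ℝ} (hφ : TF Ω φ) :
    Tendsto (fun n => ∫ z, φ z * g n z) atTop (𝓝 0) := by
  have hB := D.op
  have hψ : TF Ω (fun z => φ z * z.im ^ 2) :=
    TF.mulc hB hφ ((imCLM.contDiff.pow 2).contDiffOn)
  set ψ : ℂ → ℝ := fun z => φ z * z.im ^ 2 with hψd
  have t1 := fun v => Pool.Agent.W450.RW.T.tf_deriv hψ v
  have t2 := fun v => Pool.Agent.W450.RW.T.tf_deriv (t1 v) v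
  have l1 : LB Ω 1 (fun n z => (g n z : ℂ)) :=
    (LB.mul2 (lb1 Ω) D.lbg).congr fun n z _ => by ring
  have ml : Tendsto (fun n => 1 / mu n) atTop (𝓝 0) := by
    exact D.ml.inv_tendsto_atTop.congr fun n => by simp [one_div]
  have n1 := fun v => (l1.wn ml).nul _ (t2 v)
  have n2 := ((n1 1).add (n1 I)).const_mul (-1)
  rw [add_zero, mul_zero] at n2
  have k2 := (Complex.continuous_re.tendsto _).comp n2
  rw [Complex.zero_re] at k2
  refine k2.congr fun n => ?_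
  have sG : ContDiffOn ℝ ∞ (fun z => (g n z : ℂ)) Ω := cxa (D.gs n)
  have dsm : ∀ {F : ℂ → ℂ} (_ : ContDiffOn ℝ ∞ F Ω) (v : ℂ),
      ContDiffOn ℝ ∞ (fun w => fderiv ℝ F w v) Ω := fun hF v =>
    (hF.fderiv_of_isOpen hB (by simp)).clm_apply contDiffOn_const
  have b : ∀ v, ∫ z, (ψ z : ℂ) * fderiv ℝ (fun w => fderiv ℝ (fun z => (g n z : ℂ)) w v) z v =
      ∫ z, ((fderiv ℝ (fun w => fderiv ℝ ψ w v) z v : ℝ) : ℂ) * (g n z : ℂ) := by
    intro v
    rw [Pool.Agent.W450.RW.T.parts1 hB hψ (dsm sG v) v,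
      Pool.Agent.W450.RW.T.parts1 hB (t1 v) sG v, neg_neg]
  have a0 : ∀ v, ∫ z, ((fderiv ℝ (fun w => fderiv ℝ ψ w v) z v : ℝ) : ℂ) *
      (((1 / mu n : ℝ) : ℂ) * (g n z : ℂ)) = ((1 / mu n : ℝ) : ℂ) *
      ∫ z, (ψ z : ℂ) * fderiv ℝ (fun w => fderiv ℝ (fun z => (g n z : ℂ)) w v) z v := by
    intro v
    rw [b v, ← integral_const_mul]
    congr 1; funext z; ring
  have i1 : ∀ v, Integrable (fun z => (ψ z : ℂ) *
      fderiv ℝ (fun w => fderiv ℝ (fun z => (g n z : ℂ)) w v) z v) := fun v =>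
    TF.cint hψ (dsm (dsm sG v) v).continuousOn
  have a1 : -1 * ((∫ z, ((fderiv ℝ (fun w => fderiv ℝ ψ w 1) z 1 : ℝ) : ℂ) *
      (((1 / mu n : ℝ) : ℂ) * (g n z : ℂ))) +
      ∫ z, ((fderiv ℝ (fun w => fderiv ℝ ψ w I) z I : ℝ) : ℂ) *
      (((1 / mu n : ℝ) : ℂ) * (g n z : ℂ))) = ((∫ z, φ z * g n z : ℝ) : ℂ) := by
    rw [a0, a0, ← mul_add, ← integral_add (i1 1) (i1 I), ← mul_assoc, ← integral_const_mul,
      ← integral_complex_ofReal]
    congr 1; funext z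
    by_cases hz : z ∈ Ω
    · have e1 := Pool.Agent.TH294.RS.lap_re D.op (D.gs n) hz
      have e2 : lap (fun w => ((g n w : ℝ) : ℂ)) z =
        fderiv ℝ (fun w => fderiv ℝ (fun z => (g n z : ℂ)) w 1) z 1 +
        fderiv ℝ (fun w => fderiv ℝ (fun z => (g n z : ℂ)) w I) z I := rfl
      rw [← mul_add, ← e2, e1]
      have h1 := D.ge n z hz
      have h2 : z.im ^ 2 * lap (g n) z = -(mu n * g n z) := by linarith
      have h3 := (D.mp n).ne'
      have h4 : -1 * (1 / mu n) * (φ z * z.im ^ 2 * lap (g n) z) = φ z * g n z := by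
        rw [mul_assoc (φ z), h2]; field_simp
      simp only [hψd]
      exact_mod_cast h4
    · rw [TF.zero hφ hz, TF.zero hψ hz]; simp
  simp only [Function.comp_def]
  rw [a1, Complex.ofReal_re]

/-- the second sequence is bounded in mean square -/
theorem JD.f5 (D : JD Ω lam mu u g) {φ : ℂ → ℝ} (hφ : TF Ω φ) :
    ∃ C : ℝ, 0 ≤ C ∧ ∀ᶠ n in atTop, ∫ z, φ z * g n z ^ 2 ≤ C := by
  have l1 : LB Ω 1 (fun n z => (g n z : ℂ) * (g n z : ℂ)) := LB.mul2 D.lbg D.lbg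
  obtain ⟨C, hC⟩ := l1.bdd hφ
  refine ⟨|C|, abs_nonneg _, hC.mono fun n hn => ?_⟩
  have e : ∫ z, (φ z : ℂ) * ((g n z : ℂ) * (g n z : ℂ)) = ((∫ z, φ z * g n z ^ 2 : ℝ) : ℂ) := by
    rw [← integral_complex_ofReal]
    congr 1; funext z
    push_cast; ring
  rw [e, Complex.norm_real, Real.norm_eq_abs] at hn
  exact (le_abs_self _).trans (hn.trans (le_abs_self _))

/-- Cauchy-Schwarz -/
theorem cs {φ : ℂ → ℝ} (hΩ : IsOpen Ω) (hφ : TF Ω φ) (h0 : ∀ z, 0 ≤ φ z) {X Y : ℂ → ℝ}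
    (hX : ContinuousOn X Ω) (hY : ContinuousOn Y Ω) :
    (∫ z, φ z * (X z * Y z)) ^ 2 ≤ (∫ z, φ z * X z ^ 2) * ∫ z, φ z * Y z ^ 2 := by
  have i1 : Integrable (fun z => φ z * X z ^ 2) :=
    Pool.Agent.W311.RW.int_mul hΩ hφ (hX.pow 2)
  have i2 : Integrable (fun z => φ z * Y z ^ 2) :=
    Pool.Agent.W311.RW.int_mul hΩ hφ (hY.pow 2)
  have i3 : Integrable (fun z => φ z * (X z * Y z)) :=
    Pool.Agent.W311.RW.int_mul hΩ hφ (hX.mul hY)
  have key : ∀ t : ℝ, 0 ≤ (∫ z, φ z * Y z ^ 2) * (t * t) +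
      (2 * ∫ z, φ z * (X z * Y z)) * t + ∫ z, φ z * X z ^ 2 := by
    intro t
    have e : (∫ z, φ z * Y z ^ 2) * (t * t) +
      (2 * ∫ z, φ z * (X z * Y z)) * t + ∫ z, φ z * X z ^ 2 =
      ∫ z, φ z * (X z + t * Y z) ^ 2 := by
      have e1 : (∫ z, φ z * (X z + t * Y z) ^ 2) = ∫ z, ((t * t) * (φ z * Y z ^ 2) +
        ((2 * t) * (φ z * (X z * Y z)) + φ z * X z ^ 2)) := by
        congr 1; funext z; ring
      have i4 : Integrable (fun z => (2 * t) * (φ z * (X z * Y z)) + φ z * X z ^ 2) :=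
        (i3.const_mul _).add i1
      rw [e1, integral_add (i2.const_mul _) i4,
        integral_add (i3.const_mul _) i1, integral_const_mul, integral_const_mul]
      ring
    rw [e]
    exact integral_nonneg fun z => mul_nonneg (h0 z) (sq_nonneg _)
  have := discrim_le_zero key
  unfold discrim at this
  nlinarith

end

end Pool.Agent.Y265.HY.JC
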