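import Pool.Agent.Y265.HY.JC4

/-! Joint cubic moments: the main inequality. -/
set_option autoImplicit false
open MeasureTheory Filter Topology Complex Set
open scoped ContDiff Real Manifold

namespace Pool.Agent.Y265.HY.JC

open Pool.Agent.W745.RW Pool.Agent.TH294.RS Pool.Agent.Y265.HY Pool.Agent.Y265.HY.PS

noncomputable section

variable {Ω : Set ℂ} {lam mu : ℕ → ℝ} {u g : ℕ → ℂ → ℝ}

/-- the joint cubic moment -/
def JJ3 (φ u g : ℂ → ℝ) : ℝ := ∫ z, φ z * (u z ^ 2 * g z)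

/-- the excess -/
def eX (φ u : ℂ → ℝ) : ℝ := (∫ z, φ z * u z ^ 4) - 3 * ∫ z, φ z

/-- the mean square of the second function -/
def mS (φ g : ℂ → ℝ) : ℝ := ∫ z, φ z * g z ^ 2

/-- the constant -/
def cR (R : ℝ) : ℝ := open Classical in if R = 0 then 2 / 3 else if R = 4 then 1 / 3 else 0

lemma alg {J Z F B m e c ε η δ X1 C : ℝ} (hε : 0 < ε) (hη : 0 < η) (hη2 : (1 + η) ^ 2 ≤ 1 + ε)
    (e3 : 1 ≤ (1 + η) * F ^ 2) (hδ : F * J - Z = δ) (e4 : (1 + η) * (1 + 1 / η) * δ ^ 2 ≤ ε / 2)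
    (hZ : Z ^ 2 ≤ B * m) (hm : 0 ≤ m) (hmC : m ≤ C) (hX : 0 ≤ X1) (hB : B - c * e ≤ X1)
    (hX1 : (1 + ε) * X1 * C ≤ ε / 2) :
    J ^ 2 ≤ (1 + ε) * c * e * m + ε := by
  have h1 : J ^ 2 ≤ (1 + η) * (F * J) ^ 2 := by nlinarith [sq_nonneg J]
  have h2 : F * J = Z + δ := by linarith
  have h3 : (Z + δ) ^ 2 ≤ (1 + η) * Z ^ 2 + (1 + 1 / η) * δ ^ 2 := by
    have h4 : 0 ≤ (η * Z - δ) ^ 2 / η := by positivity
    have h5 : (η * Z - δ) ^ 2 / η = η * Z ^ 2 - 2 * Z * δ + 1 / η * δ ^ 2 := by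
      field_simp
      ring
    nlinarith
  have h6 : J ^ 2 ≤ (1 + η) ^ 2 * Z ^ 2 + (1 + η) * (1 + 1 / η) * δ ^ 2 := by
    calc J ^ 2 ≤ (1 + η) * (Z + δ) ^ 2 := by rw [← h2]; exact h1
      _ ≤ (1 + η) * ((1 + η) * Z ^ 2 + (1 + 1 / η) * δ ^ 2) :=
          mul_le_mul_of_nonneg_left h3 (by positivity)
      _ = _ := by ring
  have h7 : (1 + η) ^ 2 * Z ^ 2 ≤ (1 + ε) * (B * m) :=
    mul_le_mul hη2 hZ (sq_nonneg _) (by positivity)
  have h8 : B * m ≤ (c * e + X1) * m := mul_le_mul_of_nonneg_right (by linarith) hm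
  have h9 : X1 * m ≤ X1 * C := mul_le_mul_of_nonneg_left hmC hX
  have h10 : (1 + ε) * (B * m) ≤ (1 + ε) * ((c * e + X1) * m) :=
    mul_le_mul_of_nonneg_left h8 (by positivity)
  have h11 : (1 + ε) * (X1 * m) ≤ (1 + ε) * (X1 * C) :=
    mul_le_mul_of_nonneg_left h9 (by positivity)
  nlinarith

lemma int1 (hΩ : IsOpen Ω) {φ : ℂ → ℝ} (hφ : TF Ω φ) : Integrable φ := by
  have := Pool.Agent.W311.RW.int_mul hΩ hφ (continuousOn_const (c := (1 : ℝ)))
  simpa using this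

theorem JD.lim (D : JD Ω lam mu u g) {φ : ℂ → ℝ} (hφ : TF Ω φ) (h0 : ∀ z, 0 ≤ φ z) {R : ℝ}
    (hR0 : 0 ≤ R) (hR : Tendsto (fun n => mu n / lam n) atTop (𝓝 R)) {ε : ℝ} (hε : 0 < ε) :
    ∀ᶠ n in atTop, JJ3 φ (u n) (g n) ^ 2 ≤
      (1 + ε) * cR R * eX φ (u n) * mS φ (g n) + ε := by
  obtain ⟨C, hC0, hC⟩ := D.f5 hφ
  obtain ⟨I0, hI⟩ : ∃ I0, I0 = ∫ z, φ z := ⟨_, rfl⟩
  have I0n : 0 ≤ I0 := by rw [hI]; exact integral_nonneg h0
  obtain ⟨ε3, he3⟩ : ∃ x, x = ε / (2 * (1 + ε) * (C + 1)) := ⟨_, rfl⟩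
  have ε3p : 0 < ε3 := by rw [he3]; positivity
  obtain ⟨F, F1, F2, F3, F4⟩ := poly_ex R hR0 (ε := ε3 / (2 * (I0 + 1))) (by positivity)
  have gn := gI_nonneg F
  obtain ⟨κ, hκ⟩ : ∃ x, x = F.eval 0 := ⟨_, rfl⟩
  have hc : (2 * κ ^ 2 + F.eval 4 ^ 2) / 3 = cR R := by
    unfold cR
    by_cases r0 : R = 0
    · have e0 : F.eval 0 = 1 := by
        have := F1
        rwa [r0] at this
      rw [if_pos r0, hκ, F3 (by rw [r0]; norm_num), e0]; norm_num
    · rw [if_neg r0, hκ, F2 r0]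
      by_cases r4 : R = 4
      · have e4 : F.eval 4 = 1 := by
          have := F1
          rwa [r4] at this
        rw [if_pos r4, e4]; norm_num
      · rw [if_neg r4, F3 r4]; norm_num
  have cPF := D.PFc F
  -- the mean square of `F(L) u² - κ`
  obtain ⟨B, hB⟩ : ∃ B : ℕ → ℝ, ∀ n, B n = ∫ z, φ z * (PF F (hh lam n) (u n) z - κ) ^ 2 :=
    ⟨_, fun _ => rfl⟩
  have b1 : Tendsto (fun n => B n - cR R * eX φ (u n)) atTop (𝓝 (gI F * I0)) := by
    have k1 := D.f1 hφ F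
    have k2 := (D.f3 hφ F).const_mul (2 * κ)
    have k3 := (k1.sub k2).add_const (κ ^ 2 * I0)
    rw [← hκ, ← hI] at k3
    have e : (κ ^ 2 + gI F) * I0 - 2 * κ * (κ * I0) + κ ^ 2 * I0 = gI F * I0 := by ring
    rw [e] at k3
    refine k3.congr fun n => ?_
    have i1 : Integrable (fun z => φ z * PF F (hh lam n) (u n) z ^ 2) :=
      Pool.Agent.W311.RW.int_mul D.op hφ ((cPF n).pow 2)
    have i2 : Integrable (fun z => φ z * PF F (hh lam n) (u n) z) :=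
      Pool.Agent.W311.RW.int_mul D.op hφ (cPF n)
    have i3 : Integrable (fun z => (2 * κ) * (φ z * PF F (hh lam n) (u n) z) - κ ^ 2 * φ z) :=
      (i2.const_mul _).sub ((int1 D.op hφ).const_mul _)
    have e2 : B n = (∫ z, φ z * PF F (hh lam n) (u n) z ^ 2) -
        ((2 * κ) * (∫ z, φ z * PF F (hh lam n) (u n) z) - κ ^ 2 * I0) := by
      rw [hB, hI, ← integral_const_mul, ← integral_const_mul,
        ← integral_sub (i2.const_mul _) ((int1 D.op hφ).const_mul _), ← integral_sub i1 i3]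
      congr 1; funext z; ring
    rw [e2, ← hc]
    simp only [eX, ← hI]
    ring
  have b2 : Tendsto (fun n => F.eval (mu n / lam n) * JJ3 φ (u n) (g n) -
      ∫ z, φ z * ((PF F (hh lam n) (u n) z - κ) * g n z)) atTop (𝓝 0) := by
    have k1 := (D.f2 hφ F).mul ((hR.const_add 1).pow F.natDegree)
    rw [zero_mul] at k1
    have k2 := k1.add ((D.f4 hφ).const_mul κ)
    rw [mul_zero, add_zero] at k2
    refine k2.congr fun n => ?_
    have hp : (1 + mu n / lam n) ^ F.natDegree ≠ 0 := by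
      have := div_nonneg (D.mp n).le (D.lp n).le
      positivity
    rw [div_mul_cancel₀ _ hp]
    have i1 : Integrable (fun z => φ z * (PF F (hh lam n) (u n) z * g n z)) :=
      Pool.Agent.W311.RW.int_mul D.op hφ ((cPF n).mul (D.gs n).continuousOn)
    have i2 : Integrable (fun z => φ z * g n z) :=
      Pool.Agent.W311.RW.int_mul D.op hφ (D.gs n).continuousOn
    have e2 : ∫ z, φ z * ((PF F (hh lam n) (u n) z - κ) * g n z) =
        (∫ z, φ z * (PF F (hh lam n) (u n) z * g n z)) - κ * ∫ z, φ z * g n z := by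
      rw [← integral_const_mul, ← integral_sub i1 (i2.const_mul _)]
      congr 1; funext z; ring
    rw [e2]
    simp only [JJ3]
    ring
  have b3 : ∀ n, (∫ z, φ z * ((PF F (hh lam n) (u n) z - κ) * g n z)) ^ 2 ≤
      B n * mS φ (g n) := by
    intro n
    rw [hB]
    exact cs D.op hφ h0 ((cPF n).sub continuousOn_const) (D.gs n).continuousOn
  have m0 : ∀ n, 0 ≤ mS φ (g n) := fun n =>
    integral_nonneg fun z => mul_nonneg (h0 z) (sq_nonneg _)
  obtain ⟨η, hη⟩ : ∃ x, x = min (ε / 3) 1 := ⟨_, rfl⟩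
  have ηp : 0 < η := by rw [hη]; positivity
  have η1 : η ≤ 1 := by rw [hη]; exact min_le_right _ _
  have η3 : η ≤ ε / 3 := by rw [hη]; exact min_le_left _ _
  have η2 : (1 + η) ^ 2 ≤ 1 + ε := by nlinarith
  have E1 := b1.eventually (gt_mem_nhds (show gI F * I0 < gI F * I0 + ε3 / 2 by linarith))
  have E3 : ∀ᶠ n in atTop, 1 ≤ (1 + η) * F.eval (mu n / lam n) ^ 2 := by
    have k := ((F.continuous.tendsto R).comp hR).pow 2 |>.const_mul (1 + η)
    rw [F1] at k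
    have k2 := k.eventually (lt_mem_nhds (show 1 < (1 + η) * 1 ^ 2 by linarith))
    exact k2.mono fun n hn => hn.le
  have E4 : ∀ᶠ n in atTop, (1 + η) * (1 + 1 / η) * (F.eval (mu n / lam n) * JJ3 φ (u n) (g n) -
      ∫ z, φ z * ((PF F (hh lam n) (u n) z - κ) * g n z)) ^ 2 ≤ ε / 2 := by
    have k := (b2.pow 2).const_mul ((1 + η) * (1 + 1 / η))
    rw [zero_pow two_ne_zero, mul_zero] at k
    exact (k.eventually (gt_mem_nhds (show (0 : ℝ) < ε / 2 by positivity))).mono fun n hn => hn.le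
  filter_upwards [E1, hC, E3, E4] with n n1 n2 n3 n4
  have X0 : 0 ≤ gI F * I0 + ε3 / 2 := by positivity
  have X1 : gI F * I0 + ε3 / 2 ≤ ε3 := by
    have h1 : gI F * I0 ≤ ε3 / (2 * (I0 + 1)) * I0 := mul_le_mul_of_nonneg_right F4.le I0n
    have h2 : ε3 / (2 * (I0 + 1)) * I0 ≤ ε3 / 2 := by
      rw [div_mul_eq_mul_div, div_le_div_iff₀ (by positivity) (by positivity)]
      nlinarith
    linarith
  have X2 : (1 + ε) * (gI F * I0 + ε3 / 2) * C ≤ ε / 2 := by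
    have h3 : (1 + ε) * (gI F * I0 + ε3 / 2) * C ≤ (1 + ε) * ε3 * (C + 1) := by
      have a1 : (1 + ε) * (gI F * I0 + ε3 / 2) ≤ (1 + ε) * ε3 :=
        mul_le_mul_of_nonneg_left X1 (by positivity)
      exact mul_le_mul a1 (by linarith) hC0 (by positivity)
    have h4 : (1 + ε) * ε3 * (C + 1) = ε / 2 := by
      rw [he3]; field_simp
    linarith
  exact alg (J := JJ3 φ (u n) (g n))
    (Z := ∫ z, φ z * ((PF F (hh lam n) (u n) z - κ) * g n z)) (F := F.eval (mu n / lam n))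
    (B := B n) (m := mS φ (g n)) (e := eX φ (u n)) (c := cR R) (C := C)
    hε ηp η2 n3 rfl n4 (b3 n) (m0 n) n2 X0 n1.le X2

theorem JD.inf (D : JD Ω lam mu u g) {φ : ℂ → ℝ} (hφ : TF Ω φ) (h0 : ∀ z, 0 ≤ φ z)
    (hR : Tendsto (fun n => mu n / lam n) atTop atTop) :
    Tendsto (fun n => JJ3 φ (u n) (g n)) atTop (𝓝 0) := by
  obtain ⟨C, hC0, hC⟩ := D.f5 hφ
  obtain ⟨F, hF⟩ : ∃ F : Polynomial ℝ, F = Polynomial.X ^ 2 - Polynomial.C 4 * Polynomial.X :=
    ⟨_, rfl⟩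
  have Fd : F.natDegree = 2 := by rw [hF]; compute_degree!
  have Fe : ∀ x, F.eval x = x ^ 2 - 4 * x := fun x => by rw [hF]; simp
  have F0 : F.eval 0 = 0 := by rw [Fe]; ring
  have F4 : F.eval 4 = 0 := by rw [Fe]; ring
  have cPF := D.PFc F
  have r0 : ∀ n, 0 ≤ mu n / lam n := fun n => div_nonneg (D.mp n).le (D.lp n).le
  have k1 := D.f1 hφ F
  simp only [F0, F4] at k1
  obtain ⟨K, hK⟩ : ∃ K, K = ((0 : ℝ) ^ 2 + gI F) * ∫ z, φ z := ⟨_, rfl⟩
  have E1 := k1.eventually (gt_mem_nhds (show ((0 : ℝ) ^ 2 + gI F) * (∫ z, φ z) < K + 1 by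
    rw [hK]; linarith))
  have k2 := D.f2 hφ F
  rw [Fd] at k2
  have rl : Tendsto (fun n => 1 + mu n / lam n) atTop atTop :=
    tendsto_atTop_add_const_left _ _ hR
  have ri : Tendsto (fun n => (1 + mu n / lam n)⁻¹) atTop (𝓝 0) :=
    rl.inv_tendsto_atTop.congr fun n => rfl
  -- the pairing is bounded
  have E2 : ∀ᶠ n in atTop, |∫ z, φ z * (PF F (hh lam n) (u n) z * g n z)| ≤
      √(|K + 1| * C) := by
    filter_upwards [E1, hC] with n n1 n2
    have h1 := cs D.op hφ h0 (cPF n) (D.gs n).continuousOn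
    have h2 : (∫ z, φ z * PF F (hh lam n) (u n) z ^ 2) ≤ |K + 1| := by
      have : (∫ z, φ z * PF F (hh lam n) (u n) z ^ 2) < K + 1 := by linarith
      exact this.le.trans (le_abs_self _)
    have h3 : 0 ≤ ∫ z, φ z * g n z ^ 2 :=
      integral_nonneg fun z => mul_nonneg (h0 z) (sq_nonneg _)
    refine Real.abs_le_sqrt (h1.trans ?_)
    exact mul_le_mul h2 n2 h3 (abs_nonneg _)
  have k3 : Tendsto (fun n => (∫ z, φ z * (PF F (hh lam n) (u n) z * g n z)) *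
      ((1 + mu n / lam n)⁻¹ * (1 + mu n / lam n)⁻¹)) atTop (𝓝 0) := by
    have k4 : Tendsto (fun n => √(|K + 1| * C) * |(1 + mu n / lam n)⁻¹ * (1 + mu n / lam n)⁻¹|)
        atTop (𝓝 0) := by
      have := ((ri.mul ri).abs).const_mul (√(|K + 1| * C))
      simpa using this
    refine squeeze_zero_norm' (E2.mono fun n hn => ?_) k4
    rw [Real.norm_eq_abs, abs_mul]
    exact mul_le_mul_of_nonneg_right hn (abs_nonneg _)
  have k5 : Tendsto (fun n => F.eval (mu n / lam n) * ((1 + mu n / lam n)⁻¹ *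
      (1 + mu n / lam n)⁻¹)) atTop (𝓝 1) := by
    have e : ∀ n, F.eval (mu n / lam n) * ((1 + mu n / lam n)⁻¹ * (1 + mu n / lam n)⁻¹) =
        1 - 6 * (1 + mu n / lam n)⁻¹ + 5 * ((1 + mu n / lam n)⁻¹ * (1 + mu n / lam n)⁻¹) := by
      intro n
      have h1 : (1 + mu n / lam n) ≠ 0 := by have := r0 n; positivity
      rw [Fe]
      obtain ⟨x, hx⟩ : ∃ x, x = mu n / lam n := ⟨_, rfl⟩
      rw [← hx] at h1 ⊢
      field_simp
      ring
    simp only [e]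
    have := ((ri.const_mul 6).const_sub 1).add ((ri.mul ri).const_mul 5)
    simpa using this
  have k6 := (k2.add k3).mul (k5.inv₀ one_ne_zero)
  simp only [add_zero, zero_mul] at k6
  refine k6.congr' ?_
  filter_upwards [k5.eventually_ne one_ne_zero] with n hn
  have h1 : (1 + mu n / lam n) ≠ 0 := by have := r0 n; positivity
  have h2 : F.eval (mu n / lam n) ≠ 0 := fun h => hn (by rw [h, zero_mul])
  simp only [JJ3]
  obtain ⟨x, hx⟩ : ∃ x, x = mu n / lam n := ⟨_, rfl⟩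
  rw [← hx] at h1 h2 ⊢
  field_simp
  ring

/-- the excess is asymptotically nonnegative -/
theorem JD.low (D : JD Ω lam mu u g) {φ : ℂ → ℝ} (hφ : TF Ω φ) (h0 : ∀ z, 0 ≤ φ z) {ε : ℝ}
    (hε : 0 < ε) : ∀ᶠ n in atTop, -ε ≤ eX φ (u n) := by
  obtain ⟨I0, hI⟩ : ∃ I0, I0 = ∫ z, φ z := ⟨_, rfl⟩
  have I0n : 0 ≤ I0 := by rw [hI]; exact integral_nonneg h0
  obtain ⟨F, F1, F2, -, F4⟩ := poly_ex 4 (by norm_num) (ε := ε / (6 * (I0 + 1))) (by positivity)
  have gn := gI_nonneg F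
  have k1 := D.f1 hφ F
  rw [F1, F2 (by norm_num), ← hI] at k1
  have E1 := k1.eventually (gt_mem_nhds (show ((0 : ℝ) ^ 2 + gI F) * I0 <
    gI F * I0 + ε / 6 by nlinarith))
  filter_upwards [E1] with n n1
  have h1 : gI F * I0 ≤ ε / 6 := by
    have h1 : gI F * I0 ≤ ε / (6 * (I0 + 1)) * I0 := mul_le_mul_of_nonneg_right F4.le I0n
    have h2 : ε / (6 * (I0 + 1)) * I0 ≤ ε / 6 := by
      rw [div_mul_eq_mul_div, div_le_div_iff₀ (by positivity) (by positivity)]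
      nlinarith
    linarith
  have h2 : 0 ≤ ∫ z, φ z * PF F (hh lam n) (u n) z ^ 2 :=
    integral_nonneg fun z => mul_nonneg (h0 z) (sq_nonneg _)
  simp only [eX, ← hI]
  nlinarith

end

end Pool.Agent.Y265.HY.JC
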