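import Pool.Agent.Y265.HY.N5
import Pool.Agent.TH294.RG.SpecH

/-! Polynomials in the Laplacian applied to `u²`; error classes with sup bounds. -/
set_option autoImplicit false
open MeasureTheory Filter Topology Complex Set
open scoped ContDiff Real Manifold

namespace Pool.Agent.Y265.HY.PS

open Pool.Agent.W745.RW Pool.Agent.TH294.RS Pool.Agent.Y265.HY
open Pool.Agent.TH294.RG (vv vv_neg sL sL_eq lap_cg lap_lin sL1 opP sL_it)

noncomputable section

variable {B : Set ℂ} {h : ℕ → ℝ} {w : ℤ → ℕ → ℂ → ℂ}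

/-- quadratic error terms -/
inductive QE (B : Set ℂ) (h : ℕ → ℝ) (w : ℤ → ℕ → ℂ → ℂ) : (ℕ → ℂ → ℂ) → Prop
  | mul {e f : ℕ → ℂ → ℂ} (he : M2C B h e) (hf : RP B h w f) : QE B h w (fun n z => e n z * f n z)
  | add {f g : ℕ → ℂ → ℂ} (hf : QE B h w f) (hg : QE B h w g) : QE B h w (fun n z => f n z + g n z)
  | cg {f g : ℕ → ℂ → ℂ} (hf : QE B h w f) (e : ∀ n, ∀ z ∈ B, g n z = f n z) : QE B h w g

lemma QE.lb (H : SY B Complex.im h w) {f : ℕ → ℂ → ℂ} (hf : QE B h w f) : LB B 1 f := by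
  induction hf with
  | mul he hf => exact LB.mul2 he.lb ((hf.dec.m H).lb)
  | add _ _ ih1 ih2 => exact ih1.add ih2
  | cg _ e ih => exact ih.congr e

lemma QE.smulc (H : SY B Complex.im h w) {f : ℕ → ℂ → ℂ} (hf : QE B h w f) {c : ℂ → ℂ}
    (hc : ContDiffOn ℝ ∞ c B) : QE B h w (fun n z => c z * f n z) := by
  induction hf with
  | mul he hg => exact (QE.mul (he.smulc H.op H.hlim hc) hg).cg fun n z _ => by ring
  | add _ _ ih1 ih2 => exact (ih1.add ih2).cg fun n z _ => by ring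
  | cg _ e ih => exact ih.cg fun n z hz => by rw [e n z hz]

lemma QE.cmul (H : SY B Complex.im h w) {f : ℕ → ℂ → ℂ} (hf : QE B h w f) (c : ℂ) :
    QE B h w (fun n z => c * f n z) := hf.smulc H (c := fun _ => c) contDiffOn_const

lemma QE.hmul (H : SY B Complex.im h w) {f : ℕ → ℂ → ℂ} (hf : QE B h w f) :
    QE B h w (fun n z => (h n : ℂ) * f n z) := by
  induction hf with
  | mul he hg => exact (QE.mul (he.hmul H.op H.hlim) hg).cg fun n z _ => by ring
  | add _ _ ih1 ih2 => exact (ih1.add ih2).cg fun n z _ => by ring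
  | cg _ e ih => exact ih.cg fun n z hz => by rw [e n z hz]

lemma QE.sub (H : SY B Complex.im h w) {f g : ℕ → ℂ → ℂ} (hf : QE B h w f) (hg : QE B h w g) :
    QE B h w (fun n z => f n z - g n z) :=
  (hf.add (hg.cmul H (-1))).cg fun n z _ => by ring

lemma QE.sP (H : SY B Complex.im h w) {f : ℕ → ℂ → ℂ} (hf : QE B h w f) :
    QE B h w (TH294.RS.sP Complex.im h f) := by
  have hB := H.op
  induction hf with
  | mul he hg =>
    refine ((QE.mul (he.sP hB H.hlim H.sa) hg).add (QE.mul he (hg.sP H))).cg fun n z hz => ?_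
    simp only [TH294.RS.sP, DP]
    rw [dd_mul (fda hB (he.sm n) hz) (fda hB ((hg.dec.m H).sm n) hz)]
    ring
  | add hf hg ih1 ih2 =>
    refine (ih1.add ih2).cg fun n z hz => ?_
    simp only [TH294.RS.sP, DP]
    rw [HY.dd_add (fda hB ((hf.lb H).sm n) hz) (fda hB ((hg.lb H).sm n) hz)]
    ring
  | cg _ e ih =>
    refine ih.cg fun n z hz => ?_
    simp only [TH294.RS.sP]
    exact DP_cg hB (h n) (e n) hz

lemma DM_cg (hB : IsOpen B) (t : ℝ) {f g : ℂ → ℂ} (e : ∀ z ∈ B, f z = g z) {z : ℂ} (hz : z ∈ B) :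
    DM Complex.im t f z = DM Complex.im t g z := by
  simp only [DM]; rw [db_cg hB e hz]

lemma QE.sM (H : SY B Complex.im h w) {f : ℕ → ℂ → ℂ} (hf : QE B h w f) :
    QE B h w (TH294.RS.sM Complex.im h f) := by
  have hB := H.op
  induction hf with
  | mul he hg =>
    refine ((QE.mul (he.sM hB H.hlim H.sa) hg).add (QE.mul he (hg.sM H))).cg fun n z hz => ?_
    simp only [TH294.RS.sM, DM]
    rw [db_mul (fda hB (he.sm n) hz) (fda hB ((hg.dec.m H).sm n) hz)]
    ring
  | add hf hg ih1 ih2 =>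
    refine (ih1.add ih2).cg fun n z hz => ?_
    simp only [TH294.RS.sM, DM]
    rw [HY.db_add (fda hB ((hf.lb H).sm n) hz) (fda hB ((hg.lb H).sm n) hz)]
    ring
  | cg _ e ih =>
    refine ih.cg fun n z hz => ?_
    simp only [TH294.RS.sM]
    exact DM_cg hB (h n) (e n) hz

lemma QE.sL (H : SY B Complex.im h w) {f : ℕ → ℂ → ℂ} (hf : QE B h w f) :
    QE B h w (TH294.RG.sL Complex.im h f) := by
  refine ((((hf.sP H).sM H).cmul H (-1)).add
    (((hf.sP H).smulc H (ab_sm H.op H.sa)).hmul H)).cg fun n z hz => ?_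
  rw [sL_eq H.op H.sa (hf.lb H).sm n hz]; ring

/-- `-h² y² Δ` of a product of two elements of the ladder -/
lemma sL_prod (H : SY B Complex.im h w) (h0 : EX B h w (w 0)) (i j : ℤ) :
    ∃ Q, QE B h w Q ∧ ∀ n, ∀ z ∈ B, sL Complex.im h (fun n z => w i n z * w j n z) n z =
      2 * (w i n z * w j n z) + w (i + 1) n z * w (j - 1) n z + w (i - 1) n z * w (j + 1) n z +
      (h n : ℂ) * Q n z := by
  have hB := H.op
  have rp : ∀ k, RP B h w (w k) := fun k => RP.W H h0 k
  obtain ⟨e1, he1, g1⟩ := H.up i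
  obtain ⟨e2, he2, g2⟩ := H.up j
  obtain ⟨f1, hf1, k1⟩ := H.dn (i + 1)
  obtain ⟨f2, hf2, k2⟩ := H.dn j
  obtain ⟨f3, hf3, k3⟩ := H.dn i
  obtain ⟨f4, hf4, k4⟩ := H.dn (j + 1)
  have cmm : ∀ {e f : ℕ → ℂ → ℂ}, M2C B h e → RP B h w f → QE B h w (fun n z => f n z * e n z) :=
    fun he hf => (QE.mul he hf).cg fun n z _ => by ring
  have q0 : QE B h w (fun n z => w i n z * w j n z) := QE.mul (H.bd i) (rp j)
  have q1 : QE B h w (fun n z => e1 n z * w j n z + w i n z * e2 n z) :=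
    (QE.mul he1 (rp j)).add (cmm he2 (rp i))
  have q2 : QE B h w (fun n z => (f1 n z * w j n z + w (i + 1) n z * f2 n z) +
      (f3 n z * w (j + 1) n z + w i n z * f4 n z)) :=
    ((QE.mul hf1 (rp j)).add (cmm hf2 (rp _))).add
      ((QE.mul hf3 (rp _)).add (cmm hf4 (rp _)))
  have q3 : QE B h w (fun n z => ab Complex.im z *
      TH294.RS.sP Complex.im h (fun n z => w i n z * w j n z) n z) :=
    (q0.sP H).smulc H (ab_sm hB H.sa)
  have q4 := q1.sM H
  refine ⟨_, (q3.sub H q2).sub H q4, fun n z hz => ?_⟩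
  have sw : ∀ k, ContDiffOn ℝ ∞ (w k n) B := fun k => (H.bd k).sm n
  rw [sL_eq hB H.sa (q0.lb H).sm n hz]
  -- `DP` of the product
  have eP : ∀ z ∈ B, TH294.RS.sP Complex.im h (fun n z => w i n z * w j n z) n z =
      (w (i + 1) n z * w j n z + w i n z * w (j + 1) n z) +
      (h n : ℂ) * (e1 n z * w j n z + w i n z * e2 n z) := by
    intro z hz
    have c1 := g1 n z hz
    have c2 := g2 n z hz
    simp only [TH294.RS.sP, DP] at c1 c2 ⊢
    rw [dd_mul (fda hB (sw i) hz) (fda hB (sw j) hz)]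
    linear_combination (w j n z) * c1 + (w i n z) * c2
  have eM : TH294.RS.sM Complex.im h (TH294.RS.sP Complex.im h (fun n z => w i n z * w j n z)) n z =
      DM Complex.im (h n) (fun z => (w (i + 1) n z * w j n z + w i n z * w (j + 1) n z) +
      (h n : ℂ) * (e1 n z * w j n z + w i n z * e2 n z)) z := DM_cg hB (h n) eP hz
  have s1 := fda hB ((sw (i + 1)).mul (sw j)) hz
  have s2 := fda hB ((sw i).mul (sw (j + 1))) hz
  have s3 := fda hB ((q1.lb H).sm n) hz
  have eM2 : DM Complex.im (h n) (fun z => (w (i + 1) n z * w j n z + w i n z * w (j + 1) n z) +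
      (h n : ℂ) * (e1 n z * w j n z + w i n z * e2 n z)) z =
      DM Complex.im (h n) (fun z => w (i + 1) n z * w j n z) z +
      DM Complex.im (h n) (fun z => w i n z * w (j + 1) n z) z +
      (h n : ℂ) * TH294.RS.sM Complex.im h (fun n z => e1 n z * w j n z + w i n z * e2 n z) n z := by
    simp only [DM, TH294.RS.sM]
    rw [HY.db_add (f := fun z => w (i + 1) n z * w j n z + w i n z * w (j + 1) n z)
      (g := fun z => (h n : ℂ) * (e1 n z * w j n z + w i n z * e2 n z)) (s1.add s2)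
      (s3.const_mul _), HY.db_add s1 s2, db_cm s3]
    ring
  have m1 : DM Complex.im (h n) (fun z => w (i + 1) n z * w j n z) z =
      -(w i n z * w j n z) - w (i + 1) n z * w (j - 1) n z +
      (h n : ℂ) * (f1 n z * w j n z + w (i + 1) n z * f2 n z) := by
    have c1 := k1 n z hz
    have c2 := k2 n z hz
    rw [add_sub_cancel_right] at c1
    simp only [DM] at c1 c2 ⊢
    rw [db_mul (fda hB (sw (i + 1)) hz) (fda hB (sw j) hz)]
    linear_combination (w j n z) * c1 + (w (i + 1) n z) * c2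
  have m2 : DM Complex.im (h n) (fun z => w i n z * w (j + 1) n z) z =
      -(w (i - 1) n z * w (j + 1) n z) - w i n z * w j n z +
      (h n : ℂ) * (f3 n z * w (j + 1) n z + w i n z * f4 n z) := by
    have c1 := k3 n z hz
    have c2 := k4 n z hz
    rw [add_sub_cancel_right] at c2
    simp only [DM] at c1 c2 ⊢
    rw [db_mul (fda hB (sw i) hz) (fda hB (sw (j + 1)) hz)]
    linear_combination (w (j + 1) n z) * c1 + (w i n z) * c2
  rw [eM, eM2, m1, m2]
  ring

/-- the recursion for the functions `vv` -/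
lemma sL_vv (H : SY B Complex.im h w) (h0 : EX B h w (w 0)) (m : ℤ) :
    ∃ Q, QE B h w Q ∧ ∀ n, ∀ z ∈ B, sL Complex.im h (vv w m) n z =
      2 * vv w m n z - vv w (m + 1) n z - vv w (m - 1) n z + (h n : ℂ) * Q n z := by
  have hB := H.op
  obtain ⟨Q, hQ, hQ'⟩ := sL_prod H h0 m (-m)
  refine ⟨fun n z => (-1) ^ m.natAbs * Q n z, hQ.cmul H _, fun n z hz => ?_⟩
  have sm : ContDiffOn ℝ ∞ (fun z => w m n z * w (-m) n z) B :=
    ((H.bd m).sm n).mul ((H.bd (-m)).sm n)
  have e1 : sL Complex.im h (vv w m) n z =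
      (-1) ^ m.natAbs * sL Complex.im h (fun n z => w m n z * w (-m) n z) n z := by
    have e2 : lap (vv w m n) z = lap (fun z => (-1) ^ m.natAbs * (w m n z * w (-m) n z) +
        0 * (w m n z * w (-m) n z)) z := by
      congr 1; funext z; simp only [vv]; ring
    simp only [sL]
    rw [e2, lap_lin hB sm sm _ _ hz]
    ring
  have e3 := sgn_succ m
  have e4 := sgn_succ (m - 1)
  rw [sub_add_cancel] at e4
  rw [e1, hQ' n z hz]
  simp only [vv]
  rw [e3, show -(m + 1) = -m - 1 by ring, show -(m - 1) = -m + 1 by ring]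
  have e5 : (-1 : ℂ) ^ (m - 1).natAbs = - (-1) ^ m.natAbs := by rw [e4]; ring
  rw [e5]
  ring

/-- `E` is the combination of the `vv m` with symbol `s`, up to `O(h)` -/
def Good (B : Set ℂ) (h : ℕ → ℝ) (w : ℤ → ℕ → ℂ → ℂ) (E : ℕ → ℂ → ℂ) (s : ℝ → ℝ) : Prop :=
  ∃ c : ℕ →₀ ℝ, (∀ α, (c.sum fun m x => x * Real.cos (m * α)) = s α) ∧
    ∃ Q, QE B h w Q ∧ ∀ n, ∀ z ∈ B,
      E n z = (c.sum fun m x => (x : ℂ) * vv w m n z) + (h n : ℂ) * Q n z

lemma QE.zero (H : SY B Complex.im h w) (h0 : EX B h w (w 0)) : QE B h w (fun _ _ => 0) :=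
  ((QE.mul (H.bd 0) (RP.W H h0 0)).cmul H 0).cg fun n z _ => by ring

lemma Good.cg {E E' : ℕ → ℂ → ℂ} {s s' : ℝ → ℝ} (H : Good B h w E s)
    (e : ∀ n, ∀ z ∈ B, E' n z = E n z) (e' : ∀ α, s' α = s α) : Good B h w E' s' := by
  obtain ⟨c, hc, Q, hQ, hQ'⟩ := H
  exact ⟨c, fun α => by rw [hc, e'], Q, hQ, fun n z hz => by rw [e n z hz, hQ' n z hz]⟩

lemma Good.add {E E' : ℕ → ℂ → ℂ} {s s' : ℝ → ℝ} (H : Good B h w E s) (H' : Good B h w E' s') :
    Good B h w (fun n z => E n z + E' n z) (fun α => s α + s' α) := by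
  obtain ⟨c, hc, Q, hQ, hQ'⟩ := H
  obtain ⟨d, hd, R, hR, hR'⟩ := H'
  refine ⟨c + d, fun α => ?_, _, hQ.add hR, fun n z hz => ?_⟩
  · rw [Finsupp.sum_add_index' (fun _ => by ring) (fun _ _ _ => by ring), hc, hd]
  · rw [Finsupp.sum_add_index' (fun _ => by simp) (fun _ _ _ => by push_cast; ring)]
    beta_reduce
    rw [hQ' n z hz, hR' n z hz]
    ring

lemma Good.cmul (H0 : SY B Complex.im h w) {E : ℕ → ℂ → ℂ} {s : ℝ → ℝ}
    (H : Good B h w E s) (r : ℝ) :
    Good B h w (fun n z => (r : ℂ) * E n z) (fun α => r * s α) := by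
  obtain ⟨c, hc, Q, hQ, hQ'⟩ := H
  refine ⟨r • c, fun α => ?_, _, hQ.cmul H0 (r : ℂ), fun n z hz => ?_⟩
  · rw [Finsupp.sum_smul_index' (fun _ => by simp)]
    beta_reduce
    rw [← hc α, Finsupp.mul_sum]
    refine Finsupp.sum_congr fun m _ => ?_
    simp only [smul_eq_mul]; ring
  · rw [Finsupp.sum_smul_index' (fun _ => by simp)]
    beta_reduce
    rw [hQ' n z hz, mul_add, Finsupp.mul_sum]
    congr 1
    · refine Finsupp.sum_congr fun m _ => ?_
      simp only [smul_eq_mul]; push_cast; ring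
    · ring

lemma Good.hq {Q : ℕ → ℂ → ℂ} (hQ : QE B h w Q) :
    Good B h w (fun n z => (h n : ℂ) * Q n z) (fun _ => 0) :=
  ⟨0, fun α => by simp, Q, hQ, fun n z _ => by simp⟩

lemma good_v (H0 : SY B Complex.im h w) (h0 : EX B h w (w 0)) (m : ℕ) :
    Good B h w (vv w m) (fun α => Real.cos (m * α)) := by
  refine ⟨Finsupp.single m 1, fun α => ?_, _, QE.zero H0 h0, fun n z _ => ?_⟩
  · rw [Finsupp.sum_single_index (by ring)]; ring
  · rw [Finsupp.sum_single_index (by simp)]; push_cast; ring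

variable (H0 : SY B Complex.im h w) (h0 : EX B h w (w 0))

include H0 h0 in
lemma good_sLv (m : ℕ) :
    Good B h w (sL Complex.im h (vv w m)) (fun α => (2 - 2 * Real.cos α) * Real.cos (m * α)) := by
  obtain ⟨Q, hQ, hQ'⟩ := sL_vv H0 h0 (m : ℤ)
  have g0 := (good_v H0 h0 m).cmul H0 2
  have g1 := (good_v H0 h0 (m + 1)).cmul H0 (-1)
  have c1 : ∀ α : ℝ, Real.cos (((m + 1 : ℕ) : ℝ) * α) =
      Real.cos (m * α) * Real.cos α - Real.sin (m * α) * Real.sin α := by
    intro α
    rw [← Real.cos_add]; congr 1; push_cast; ring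
  cases m with
  | zero =>
    refine (((g0.add g1).add g1).add (Good.hq hQ)).cg (fun n z hz => ?_) fun α => ?_
    · rw [hQ' n z hz]
      have e1 : ((0 : ℕ) : ℤ) + 1 = ((0 + 1 : ℕ) : ℤ) := by simp
      have e2 : ((0 : ℕ) : ℤ) - 1 = -((0 + 1 : ℕ) : ℤ) := by simp
      rw [e1, e2, vv_neg]
      push_cast; ring
    · have := c1 α
      simp only [this]
      simp; ring
  | succ m =>
    have g2 := (good_v H0 h0 m).cmul H0 (-1)
    refine (((g0.add g1).add g2).add (Good.hq hQ)).cg (fun n z hz => ?_) fun α => ?_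
    · rw [hQ' n z hz]
      have e1 : (((m + 1 : ℕ) : ℤ)) + 1 = ((m + 1 + 1 : ℕ) : ℤ) := by push_cast; ring
      have e2 : (((m + 1 : ℕ) : ℤ)) - 1 = (m : ℤ) := by push_cast; ring
      rw [e1, e2]
      push_cast; ring
    · have e3 : Real.cos ((m : ℝ) * α) = Real.cos (((m + 1 : ℕ) : ℝ) * α) * Real.cos α +
          Real.sin (((m + 1 : ℕ) : ℝ) * α) * Real.sin α := by
        rw [← Real.cos_sub]; congr 1; push_cast; ring
      have := c1 α
      simp only [this, e3]
      ring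

lemma vv_sm (H0 : SY B Complex.im h w) (m : ℤ) (n : ℕ) : ContDiffOn ℝ ∞ (vv w m n) B :=
  contDiffOn_const.mul (((H0.bd m).sm n).mul ((H0.bd (-m)).sm n))

lemma sum_sm (H0 : SY B Complex.im h w) (c : ℕ →₀ ℝ) (n : ℕ) :
    ContDiffOn ℝ ∞ (fun z => c.sum fun m x => (x : ℂ) * vv w m n z) B := by
  simp only [Finsupp.sum]
  exact ContDiffOn.sum fun m _ => contDiffOn_const.mul (vv_sm H0 m n)

include H0 h0 in
lemma good_sLsum (c : ℕ →₀ ℝ) :
    Good B h w (sL Complex.im h (fun n z => c.sum fun m x => (x : ℂ) * vv w m n z))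
      (fun α => (2 - 2 * Real.cos α) * c.sum fun m x => x * Real.cos (m * α)) := by
  induction c using Finsupp.induction_linear with
  | zero =>
    refine (Good.hq (QE.zero H0 h0)).cg (fun n z hz => ?_) fun α => by simp
    have e : (fun (n : ℕ) (z : ℂ) => (0 : ℕ →₀ ℝ).sum fun m x => (x : ℂ) * vv w m n z) =
        fun _ _ => 0 := by funext n z; simp
    rw [e]
    have e2 : lap (fun _ : ℂ => (0 : ℂ)) z = 0 := by
      have e0 : lap (fun _ : ℂ => (0 : ℂ)) z =
        fderiv ℝ (fun w => fderiv ℝ (fun _ : ℂ => (0 : ℂ)) w 1) z 1 +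
        fderiv ℝ (fun w => fderiv ℝ (fun _ : ℂ => (0 : ℂ)) w I) z I := rfl
      rw [e0]; simp
    simp only [sL, e2]; ring
  | add c d ih1 ih2 =>
    refine (ih1.add ih2).cg (fun n z hz => ?_) fun α => ?_
    · have e : (fun z => (c + d).sum fun m x => (x : ℂ) * vv w m n z) =
          fun z => 1 * (c.sum fun m x => (x : ℂ) * vv w m n z) +
            1 * (d.sum fun m x => (x : ℂ) * vv w m n z) := by
        funext z
        rw [Finsupp.sum_add_index' (fun _ => by simp) (fun _ _ _ => by push_cast; ring)]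
        ring
      simp only [sL]
      rw [e, lap_lin H0.op (sum_sm H0 c n) (sum_sm H0 d n) 1 1 hz]
      ring
    · rw [Finsupp.sum_add_index' (fun _ => by ring) (fun _ _ _ => by ring)]; ring
  | single m x =>
    refine ((good_sLv H0 h0 m).cmul H0 x).cg (fun n z hz => ?_) fun α => ?_
    · have e : (fun z => (Finsupp.single m x).sum fun m x => (x : ℂ) * vv w m n z) =
          fun z => (x : ℂ) * vv w m n z + 0 * vv w m n z := by
        funext z
        rw [Finsupp.sum_single_index (by simp)]; ring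
      simp only [sL]
      rw [e, lap_lin H0.op (vv_sm H0 m n) (vv_sm H0 m n) _ _ hz]
      ring
    · rw [Finsupp.sum_single_index (by ring)]; ring

include H0 h0 in
lemma Good.sL {E : ℕ → ℂ → ℂ} {s : ℝ → ℝ} (H : Good B h w E s) :
    Good B h w (TH294.RG.sL Complex.im h E) (fun α => (2 - 2 * Real.cos α) * s α) := by
  obtain ⟨c, hc, Q, hQ, hQ'⟩ := H
  refine ((good_sLsum H0 h0 c).add (Good.hq (hQ.sL H0))).cg
    (fun n z hz => ?_) fun α => ?_
  · have e : ∀ z ∈ B, E n z = 1 * (c.sum fun m x => (x : ℂ) * vv w m n z) +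
        (h n : ℂ) * Q n z := fun z hz => by rw [hQ' n z hz, one_mul]
    simp only [TH294.RG.sL]
    rw [lap_cg H0.op e hz, lap_lin H0.op (sum_sm H0 c n) ((hQ.lb H0).sm n) _ _ hz]
    ring
  · rw [hc]; ring

include H0 h0 in
lemma good_it {E : ℕ → ℂ → ℂ} {s : ℝ → ℝ} (H : Good B h w E s) (i : ℕ) :
    Good B h w ((TH294.RG.sL Complex.im h)^[i] E) (fun α => (2 - 2 * Real.cos α) ^ i * s α) := by
  induction i with
  | zero => exact H.cg (fun _ _ _ => rfl) fun α => by ring
  | succ i ih =>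
    rw [Function.iterate_succ_apply']
    exact (Good.sL H0 h0 ih).cg (fun _ _ _ => rfl) fun α => by ring

lemma good_sum (H0 : SY B Complex.im h w) (h0 : EX B h w (w 0))
    {ι : Type*} (t : Finset ι) {E : ι → ℕ → ℂ → ℂ} {s : ι → ℝ → ℝ}
    (H : ∀ i, Good B h w (E i) (s i)) :
    Good B h w (fun n z => ∑ i ∈ t, E i n z) (fun α => ∑ i ∈ t, s i α) := by
  classical
  induction t using Finset.induction_on with
  | empty => exact (Good.hq (QE.zero H0 h0)).cg (fun n z _ => by simp) fun α => by simp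
  | insert i t hi ih =>
    refine ((H i).add ih).cg (fun n z _ => ?_) fun α => ?_
    · rw [Finset.sum_insert hi]
    · rw [Finset.sum_insert hi]

include H0 h0 in
theorem good_poly (F : Polynomial ℝ) :
    Good B h w (fun n z => opP Complex.im (h n) F (vv w 0 n) z)
      (fun α => F.eval (2 - 2 * Real.cos α)) := by
  have g0 : Good B h w (vv w 0) (fun _ => 1) :=
    (good_v H0 h0 0).cg (fun _ _ _ => rfl) fun α => by simp
  refine (good_sum H0 h0 F.support fun i =>
    ((good_it H0 h0 g0 i).cmul H0 (F.coeff i))).cg (fun n z hz => ?_) fun α => ?_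
  · simp only [opP, Polynomial.sum_def]
    refine Finset.sum_congr rfl fun i _ => ?_
    rw [sL_it]
  · rw [Polynomial.eval_eq_sum, Polynomial.sum_def]
    refine Finset.sum_congr rfl fun i _ => ?_
    ring

end

end Pool.Agent.Y265.HY.PS
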