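import Pool.Agent.Y265.HY.PS1

/-! The power spectrum of `u²`: second moments. -/
set_option autoImplicit false
open MeasureTheory Filter Topology Complex Set
open scoped ContDiff Real Manifold

namespace Pool.Agent.Y265.HY.PS

open Pool.Agent.W745.RW Pool.Agent.TH294.RS Pool.Agent.Y265.HY
open Pool.Agent.TH294.RG (vv vv_neg opP ejk ep_ejk pq ss fin_id ea mu0 unif ang ang_sum ang_unif
  GG' cc MZ GGss ea_meas ea_norm MM_unif mark0)

noncomputable section

variable {B : Set ℂ} {h : ℕ → ℝ} {w : ℤ → ℕ → ℂ → ℂ}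

/-- the limits of the two point functions in the uniform case -/
abbrev MU : ℕ → ℂ → ℂ := TH294.RG.MM (fun _ => 1) ea unif

/-- Gaussian coefficient of the pair `(j, k)` -/
def pj (j k : ℕ) : ℝ := pq MU j k 0

lemma MZ_u (k : ℤ) (z : ℂ) : MZ MU k z = if k = 0 then 1 else 0 := by
  unfold MZ
  simp only [MU, MM_unif, Int.natAbs_eq_zero]
  by_cases hk : k = 0
  · simp [hk]
  · simp [hk]

lemma cc_u (a b : ℤ) (z : ℂ) : cc MU a b z = CC a b := by
  unfold cc CC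
  rw [MZ_u]
  by_cases hab : a + b = 0
  · rw [if_pos hab, if_pos hab, hab]; simp
  · rw [if_neg hab, if_neg hab]; simp

lemma GG_u (a b c d : ℤ) (z : ℂ) : GG' MU a b c d z = GG a b c d := by
  unfold GG' GG
  simp only [cc_u]

lemma gco (j k : ℕ) : (-1 : ℂ) ^ j * (-1) ^ k * GG (j : ℤ) (-(j : ℤ)) k (-(k : ℤ)) =
    ((pj j k : ℝ) : ℂ) := by
  have h1 := GGss (M := MU) (fun z => by simp only [MU, MM_unif]; simp) j k 0
  rw [GG_u] at h1
  exact h1

/-- second moments of the `vv` -/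
lemma vv4 {φ : ℂ → ℝ} (DDr : DD (D4 w φ)) (j k : ℕ) :
    Tendsto (fun n => (∫ z, (φ z : ℂ) * (vv w j n z * vv w k n z)) -
      ((pj j k : ℝ) : ℂ) * ((∫ z, φ z : ℝ) : ℂ) - ((ejk j k : ℝ) : ℂ) *
      ((∫ z, (φ z : ℂ) * F4 w 0 0 0 0 n z) - 3 * ((∫ z, φ z : ℝ) : ℂ))) atTop (𝓝 0) := by
  set J : ℂ := ((∫ z, φ z : ℝ) : ℂ) with hJ
  have h1 := DDr.even (j : ℤ) (-(j : ℤ)) (k : ℤ) (-(k : ℤ)) 0 (by ring)
  have h2 := Pool.Agent.Y265.RW.Null.cmul h1 ((-1) ^ j * (-1) ^ k)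
  refine Tendsto.congr (fun n => ?_) h2
  have g3 : GG 0 0 0 0 = 3 := by simp [GG, CC]; norm_num
  have e2 : (-1 : ℂ) ^ j * (-1) ^ k * ∫ z, (φ z : ℂ) * F4 w j (-j) k (-k) n z =
      ∫ z, (φ z : ℂ) * (vv w j n z * vv w k n z) := by
    rw [← integral_const_mul]
    congr 1; funext z
    simp only [F4, vv, Int.natAbs_natCast]
    ring
  have e3 := ep_ejk j k
  have e4 := gco j k
  rw [← e2, ← e3, ← e4]
  simp only [D4, mul_zero]
  rw [g3]
  ring

lemma crossW (H : SY B Complex.im h w) (hBU : B ⊆ UH) (h0 : EX B h w (w 0)) (j : ℤ)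
    {Q : ℕ → ℂ → ℂ} (hQ : QE B h w Q) : WN B (fun n z => (h n : ℂ) * (vv w j n z * Q n z)) := by
  induction hQ with
  | @mul e f he hf =>
    refine ((hE4 H hBU (LB.mul2 he.lb (H.bd j).lb) (RP.W H h0 (-j)) hf).cmul
      ((-1) ^ j.natAbs)).congr fun n z _ => ?_
    simp only [vv]; ring
  | add _ _ h1 h2 => exact (h1.add h2).congr fun n z _ => by ring
  | cg _ e h1 => exact h1.congr fun n z hz => by rw [e n z hz]

lemma crossQ (H : SY B Complex.im h w) (hBU : B ⊆ UH)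
    {Q Q' : ℕ → ℂ → ℂ} (hQ : QE B h w Q) (hQ' : QE B h w Q') :
    WN B (fun n z => (h n : ℂ) * ((h n : ℂ) * (Q n z * Q' n z))) := by
  induction hQ with
  | @mul e f he hf =>
    induction hQ' with
    | @mul e' f' he' hf' =>
      refine (hE4 H hBU ((LB.mul2 he.lb he'.lb).hmul H.hlim) hf hf').congr fun n z _ => ?_
      ring
    | add _ _ h1 h2 => exact (h1.add h2).congr fun n z _ => by ring
    | cg _ e h1 => exact h1.congr fun n z hz => by rw [e n z hz]
  | add _ _ h1 h2 => exact (h1.add h2).congr fun n z _ => by ring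
  | cg _ e h1 => exact h1.congr fun n z hz => by rw [e n z hz]

/-- **Second moments of quadratic expressions** -/
theorem pow4 (H : SY B Complex.im h w) (hBU : B ⊆ UH) (h0 : EX B h w (w 0)) {φ : ℂ → ℝ}
    (hφ : TF B φ) {E : ℕ → ℂ → ℂ} {s : ℝ → ℝ} (G : Good B h w E s) :
    ∃ c : ℕ →₀ ℝ, (∀ α, (c.sum fun m x => x * Real.cos (m * α)) = s α) ∧
    Tendsto (fun n => (∫ z, (φ z : ℂ) * (E n z * E n z)) -
      (((2 * s 0 ^ 2 + s Real.pi ^ 2) / 3 : ℝ) : ℂ) *
      ((∫ z, (φ z : ℂ) * F4 w 0 0 0 0 n z) - 3 * ((∫ z, φ z : ℝ) : ℂ))) atTop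
      (𝓝 (((∑ j ∈ c.support, ∑ k ∈ c.support, c j * c k * pj j k : ℝ) : ℂ) *
        ((∫ z, φ z : ℝ) : ℂ))) := by
  have DDr : DD (D4 w φ) := dd4 H hBU h0 hφ
  obtain ⟨c, hc, Q, hQ, hQ'⟩ := G
  refine ⟨c, hc, ?_⟩
  set J : ℂ := ((∫ z, φ z : ℝ) : ℂ) with hJ
  obtain ⟨S, hS⟩ : ∃ S : ℕ → ℂ → ℂ, S = fun n z => ∑ j ∈ c.support, (c j : ℂ) * vv w j n z :=
    ⟨_, rfl⟩
  have SQ : ∀ n, ∀ z ∈ B, E n z = S n z + (h n : ℂ) * Q n z := by
    intro n z hz
    rw [hQ' n z hz, hS]; rfl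
  have cvv : ∀ (j : ℕ) n, ContinuousOn (vv w j n) B := fun j n => (vv_sm H j n).continuousOn
  have cS : ∀ n, ContinuousOn (S n) B := fun n => by
    rw [hS]
    exact continuousOn_finsetSum _ fun j _ => continuousOn_const.mul (cvv j n)
  have cQ : ∀ n, ContinuousOn (Q n) B := fun n => (hQ.lb H).co n
  -- the error terms
  have err1 : WN B (fun n z => (h n : ℂ) * (S n z * Q n z)) := by
    rw [hS]
    have : ∀ t : Finset ℕ, WN B (fun n z => (h n : ℂ) *
        ((∑ j ∈ t, (c j : ℂ) * vv w j n z) * Q n z)) := by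
      intro t
      classical
      induction t using Finset.induction_on with
      | empty =>
        exact ((crossW H hBU h0 0 hQ).cmul 0).congr fun n z _ => by simp
      | insert i t hi ih =>
        exact (((crossW H hBU h0 i hQ).cmul (c i : ℂ)).add ih).congr fun n z _ => by
          rw [Finset.sum_insert hi]; ring
    exact this _
  have err : WN B (fun n z => (h n : ℂ) * (2 * (S n z * Q n z) + (h n : ℂ) * (Q n z * Q n z))) :=
    ((err1.cmul 2).add (crossQ H hBU hQ hQ)).congr fun n z _ => by ring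
  -- the main term
  have eS : Tendsto (fun n => ∑ j ∈ c.support, ∑ k ∈ c.support, ((c j : ℂ) * (c k : ℂ)) *
      ((∫ z, (φ z : ℂ) * (vv w j n z * vv w k n z)) -
      ((pj j k : ℝ) : ℂ) * J - ((ejk j k : ℝ) : ℂ) *
      ((∫ z, (φ z : ℂ) * F4 w 0 0 0 0 n z) - 3 * J))) atTop (𝓝 0) := by
    have := tendsto_finsetSum c.support fun j _ => tendsto_finsetSum c.support fun k _ =>
      (vv4 DDr j k).const_mul ((c j : ℂ) * (c k : ℂ))
    simpa using this
  have t1' : Tendsto (fun n => ∫ z, (φ z : ℂ) * ((h n : ℂ) * (2 * (S n z * Q n z) +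
      (h n : ℂ) * (Q n z * Q n z)))) atTop (𝓝 0) := err.nul φ hφ
  have t2 := eS.add t1'
  rw [add_zero] at t2
  have t3 := t2.add_const
    (((∑ j ∈ c.support, ∑ k ∈ c.support, c j * c k * pj j k : ℝ) : ℂ) * J)
  rw [zero_add] at t3
  refine t3.congr fun n => ?_
  -- rewrite
  have a1 : ∫ z, (φ z : ℂ) * (S n z * S n z) = ∑ j ∈ c.support, ∑ k ∈ c.support,
      ((c j : ℂ) * (c k : ℂ)) * ∫ z, (φ z : ℂ) * (vv w j n z * vv w k n z) := by
    have b1 : ∀ z, (φ z : ℂ) * (S n z * S n z) = ∑ j ∈ c.support, ∑ k ∈ c.support,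
        ((c j : ℂ) * (c k : ℂ)) * ((φ z : ℂ) * (vv w j n z * vv w k n z)) := by
      intro z
      rw [hS]
      beta_reduce
      rw [Finset.sum_mul_sum, Finset.mul_sum]
      refine Finset.sum_congr rfl fun j _ => ?_
      rw [Finset.mul_sum]
      refine Finset.sum_congr rfl fun k _ => ?_
      ring
    have ii : ∀ j k : ℕ, Integrable (fun z => ((c j : ℂ) * (c k : ℂ)) * ((φ z : ℂ) *
        (vv w j n z * vv w k n z))) := fun j k =>
      (TF.cint hφ ((cvv j n).mul (cvv k n))).const_mul _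
    simp only [b1]
    rw [integral_finsetSum _ fun j _ => integrable_finsetSum _ fun k _ => ii j k]
    refine Finset.sum_congr rfl fun j _ => ?_
    rw [integral_finsetSum _ fun k _ => ii j k]
    refine Finset.sum_congr rfl fun k _ => ?_
    rw [integral_const_mul]
  have a2 : ∫ z, (φ z : ℂ) * (E n z * E n z) = (∫ z, (φ z : ℂ) * (S n z * S n z)) +
      ∫ z, (φ z : ℂ) * ((h n : ℂ) * (2 * (S n z * Q n z) + (h n : ℂ) * (Q n z * Q n z))) := by
    have c1 : ContinuousOn (fun z => S n z * S n z) B := (cS n).mul (cS n)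
    have c2 : ContinuousOn (fun z => (h n : ℂ) * (2 * (S n z * Q n z) +
        (h n : ℂ) * (Q n z * Q n z))) B :=
      continuousOn_const.mul ((continuousOn_const.mul ((cS n).mul (cQ n))).add
        (continuousOn_const.mul ((cQ n).mul (cQ n))))
    rw [← integral_add (TF.cint hφ c1) (TF.cint hφ c2)]
    congr 1; funext z
    by_cases hz : z ∈ B
    · rw [SQ n z hz]; ring
    · rw [TF.zero hφ hz]; simp
  have a3 : ((∑ j ∈ c.support, ∑ k ∈ c.support, c j * c k * pj j k : ℝ) : ℂ) * J =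
      ∑ j ∈ c.support, ∑ k ∈ c.support, ((c j : ℂ) * (c k : ℂ)) * (((pj j k : ℝ) : ℂ) * J) := by
    push_cast
    rw [Finset.sum_mul]
    refine Finset.sum_congr rfl fun j _ => ?_
    rw [Finset.sum_mul]
    refine Finset.sum_congr rfl fun k _ => ?_
    ring
  have a4 : (((2 * s 0 ^ 2 + s Real.pi ^ 2) / 3 : ℝ) : ℂ) = ∑ j ∈ c.support, ∑ k ∈ c.support,
      ((c j : ℂ) * (c k : ℂ)) * ((ejk j k : ℝ) : ℂ) := by
    have b0 : s 0 = ∑ j ∈ c.support, c j := by
      rw [← hc 0]; simp [Finsupp.sum]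
    have b1 : s Real.pi = ∑ j ∈ c.support, c j * (-1) ^ j := by
      rw [← hc Real.pi]; simp [Finsupp.sum, Real.cos_nat_mul_pi]
    have b2 : (2 * s 0 ^ 2 + s Real.pi ^ 2) / 3 = ∑ j ∈ c.support, ∑ k ∈ c.support,
        (c j * c k) * ejk j k := by
      rw [b0, b1, sq, sq, Finset.sum_mul_sum, Finset.sum_mul_sum]
      simp only [Finset.mul_sum, ejk]
      rw [← Finset.sum_add_distrib, Finset.sum_div]
      refine Finset.sum_congr rfl fun j _ => ?_
      rw [← Finset.sum_add_distrib, Finset.sum_div]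
      refine Finset.sum_congr rfl fun k _ => ?_
      ring
    rw [b2]; push_cast; rfl
  rw [a2, a1, a3, a4]
  exact fin_id _ _ _ _ _ _ _

/-- **The power spectrum**, complex form -/
theorem spec_c (H : SY B Complex.im h w) (hBU : B ⊆ UH) (h0 : EX B h w (w 0)) {φ : ℂ → ℝ}
    (hφ : TF B φ) (F : Polynomial ℝ) :
    Tendsto (fun n => (∫ z, (φ z : ℂ) * (opP Complex.im (h n) F (vv w 0 n) z *
      opP Complex.im (h n) F (vv w 0 n) z)) -
      (((2 * F.eval 0 ^ 2 + F.eval 4 ^ 2) / 3 : ℝ) : ℂ) *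
      ((∫ z, (φ z : ℂ) * F4 w 0 0 0 0 n z) - 3 * ((∫ z, φ z : ℝ) : ℂ))) atTop
      (𝓝 (((F.eval 0 ^ 2 + 1 / Real.pi *
        ∫ θ in (0 : ℝ)..(2 * Real.pi), F.eval (2 - 2 * Real.cos θ) ^ 2 : ℝ) : ℂ) *
        ((∫ z, φ z : ℝ) : ℂ))) := by
  obtain ⟨c, hc, lim⟩ := pow4 H hBU h0 hφ (good_poly H h0 F)
  have e3 : (2 * F.eval (2 - 2 * Real.cos 0) ^ 2 + F.eval (2 - 2 * Real.cos Real.pi) ^ 2) / 3 =
      (2 * F.eval 0 ^ 2 + F.eval 4 ^ 2) / 3 := by
    rw [Real.cos_zero, Real.cos_pi]; norm_num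
  simp only [e3] at lim
  have a := ang_sum (m := fun _ => (1 : ℝ)) (ν := unif) ea_meas ea_norm hc 0
  have e4 : ∑ j ∈ c.support, ∑ k ∈ c.support, c j * c k * pj j k =
      F.eval 0 ^ 2 + 1 / Real.pi *
        ∫ θ in (0 : ℝ)..(2 * Real.pi), F.eval (2 - 2 * Real.cos θ) ^ 2 := by
    have : ∀ z : ℂ, unif z = mu0 := fun z => by
      simp only [unif, ProbabilityTheory.Kernel.const_apply]
    rw [this, ang_unif, one_pow, one_mul] at a
    exact a
  rw [e4] at lim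
  exact lim

end

end Pool.Agent.Y265.HY.PS
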