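import Pool.Agent.Y265.HY.F

/-! Sup bounds and cubic errors. -/
set_option autoImplicit false
open MeasureTheory Filter Topology Complex
open scoped ContDiff Manifold

namespace Pool.Agent.Y265.HY

open Pool.Agent.W745.RW Pool.Agent.TH294.RS
open Pool.Agent.Y265.RW (cutoff UG L1b NG SC GG GG_cmul GG_xy tfS tfx tfy loc_d int_mul int_mulr)

noncomputable section

variable {B : Set ℂ} {h : ℕ → ℝ} {w : ℤ → ℕ → ℂ → ℂ} {a : ℂ → ℝ}

lemma hd_mul2 (hB : IsOpen B) {f g : ℕ → ℂ → ℂ} (hf : ∀ n, ContDiffOn ℝ ∞ (f n) B)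
    (hg : ∀ n, ContDiffOn ℝ ∞ (g n) B) (v : ℂ) (n : ℕ) {z : ℂ} (hz : z ∈ B) :
    hd h v (fun n z => f n z * g n z) n z = hd h v f n z * g n z + f n z * hd h v g n z := by
  simp only [hd]
  rw [fderiv_fun_mul (fda hB (hf n) hz) (fda hB (hg n) hz)]
  simp only [add_apply, smul_apply, smul_eq_mul]; ring

/-- second derivatives of products of decomposable functions -/
lemma su_dd (H : SY B a h w) {f g : ℕ → ℂ → ℂ} (hf : Dec B h w f) (hg : Dec B h w g) :
    SU B (hd h 1 (hd h I (fun n z => f n z * g n z))) := by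
  have hB := H.op
  have sf := (hf.m H).sm
  have sg := (hg.m H).sm
  have fI := hf.dI H
  have gI := hg.dI H
  have f1 := hf.d1 H
  have g1 := hg.d1 H
  have fI1 := fI.d1 H
  have gI1 := gI.d1 H
  have e1 : ∀ n, ∀ z ∈ B, hd h I (fun n z => f n z * g n z) n z =
      hd h I f n z * g n z + f n z * hd h I g n z := fun n z hz => hd_mul2 hB sf sg I n hz
  have e2 : ∀ n, ∀ z ∈ B, hd h 1 (hd h I (fun n z => f n z * g n z)) n z =
      (hd h 1 (hd h I f) n z * g n z + hd h I f n z * hd h 1 g n z) +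
      (hd h 1 f n z * hd h I g n z + f n z * hd h 1 (hd h I g) n z) := by
    intro n z hz
    rw [hd_congr hB e1 1 n z hz,
      hd_add hB (fun n => ((fI.m H).sm n).mul (sg n)) (fun n => (sf n).mul ((gI.m H).sm n)) 1 n hz,
      hd_mul2 hB (fI.m H).sm sg 1 n hz, hd_mul2 hB sf (gI.m H).sm 1 n hz]
  have lb : LB B 1 (hd h I (fun n z => f n z * g n z)) :=
    ((LB.mul2 (fI.m H).lb (hg.m H).lb).add (LB.mul2 (hf.m H).lb (gI.m H).lb)).congr e1
  have wn0 : WN B (hd h 1 (hd h I (fun n z => f n z * g n z))) := by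
    refine (lb.parts hB H.hlim (a := fun _ => 1) contDiffOn_const 1).congr fun n z _ => ?_
    simp [hd]
  obtain ⟨L1, l1⟩ := fI1.wl H hg
  obtain ⟨L2, l2⟩ := fI.wl H g1
  obtain ⟨L3, l3⟩ := f1.wl H gI
  obtain ⟨L4, l4⟩ := hf.wl H gI1
  have S := ((PL.mul H fI1 hg l1).su.add (PL.mul H fI g1 l2).su).add
    ((PL.mul H f1 gI l3).su.add (PL.mul H hf gI1 l4).su)
  have wnL : WN B (fun _ z => L1 z + L2 z + (L3 z + L4 z)) :=
    (wn0.sub S.wn).congr fun n z hz => by rw [e2 n z hz]; ring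
  have L0 : ∀ z ∈ B, L1 z + L2 z + (L3 z + L4 z) = 0 := fun z hz =>
    wn_const hB (wnL.co 0) wnL hz
  exact S.congr fun n z hz => by
    rw [e2 n z hz]
    have := L0 z hz
    linear_combination this

/-- `h sup_K |f| → 0` -/
theorem sup_dec (H : SY B a h w) {f : ℕ → ℂ → ℂ} (hf : Dec B h w f) {K : Set ℂ}
    (hK : IsCompact K) (hKB : K ⊆ B) {ε : ℝ} (hε : 0 < ε) :
    ∀ᶠ n in atTop, ∀ z ∈ K, |h n| * ‖f n z‖ ≤ ε := by
  have hB := H.op
  obtain ⟨ζ, hζ, hζ0, -, hζ1⟩ := cutoff hB hK hKB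
  set g : ℕ → ℂ → ℂ := fun n z => (starRingEnd ℂ) (f n z) with hg
  have dg : Dec B h w g := hf.conj H
  set G : ℕ → ℂ → ℂ := fun n z => f n z * g n z with hG
  have sG : ∀ n, ContDiffOn ℝ ∞ (G n) B := fun n => ((hf.m H).sm n).mul ((dg.m H).sm n)
  have lG : LB B 1 G := LB.mul2 (hf.m H).lb (dg.m H).lb
  have lv : ∀ v : ℂ, (Dec B h w (hd h v f)) → Dec B h w (hd h v g) → LB B 1 (hd h v G) :=
    fun v hf' hg' => ((LB.mul2 (hf'.m H).lb (dg.m H).lb).add
      (LB.mul2 (hf.m H).lb (hg'.m H).lb)).congr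
      fun n z hz => hd_mul2 hB (hf.m H).sm (dg.m H).sm v n hz
  have l1 := lv 1 (hf.d1 H) (dg.d1 H)
  have lI := lv I (hf.dI H) (dg.dI H)
  have S := su_dd H hf dg
  have N0 : NG (fun n z => (ζ z : ℂ) * hd h 1 (hd h I G) n z) :=
    ⟨fun n => tfS hB hζ (S.sm n), S.ug hB ζ hζ⟩
  have N1 := NG.h hB H.hlim (tfx hζ) lI.sm (l1b_of lI)
  have N2 := NG.h hB H.hlim (tfy hζ) l1.sm (l1b_of l1)
  have N3 := NG.h2 hB H.hlim (tfx (tfy hζ)) sG (l1b_of lG)
  have N := ((N0.add N1).add N2).add N3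
  filter_upwards [N.2 K hK (ε ^ 2) (by positivity)] with n hn z hz
  have hP : SC (fun z => (ζ z : ℂ) * G n z) := tfS hB hζ (sG n)
  have h1 := hn z hz
  have dyG : ContDiffOn ℝ ∞ (dy (G n)) B := cfd hB (sG n) I
  have e : (fun z => (ζ z : ℂ) * hd h 1 (hd h I G) n z +
      (h n : ℂ) * (((dx ζ z : ℝ) : ℂ) * hd h I G n z) +
      (h n : ℂ) * (((dy ζ z : ℝ) : ℂ) * hd h 1 G n z) +
      (h n : ℂ) * ((h n : ℂ) * (((dx (dy ζ) z : ℝ) : ℂ) * G n z))) = fun z => (h n : ℂ) ^ 2 *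
      dx (dy (fun z => (ζ z : ℂ) * G n z)) z := by
    funext x
    have a1 : dy (fun z => (ζ z : ℂ) * G n z) = fun z => (ζ z : ℂ) * dy (G n) z +
        ((dy ζ z : ℝ) : ℂ) * G n z := by
      funext x; exact loc_d hB hζ (sG n) x I
    have s1 := (tfS hB hζ dyG).1.differentiable (by simp) x
    have s2 := (tfS hB (tfy hζ) (sG n)).1.differentiable (by simp) x
    have a2 : dx (fun z => (ζ z : ℂ) * dy (G n) z + ((dy ζ z : ℝ) : ℂ) * G n z) x =
        dx (fun z => (ζ z : ℂ) * dy (G n) z) x + dx (fun z => ((dy ζ z : ℝ) : ℂ) * G n z) x := by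
      simp only [dx]
      rw [fderiv_fun_add s1 s2]; rfl
    have a3 : dx (fun z => (ζ z : ℂ) * dy (G n) z) x = (ζ x : ℂ) * dx (dy (G n)) x +
        ((dx ζ x : ℝ) : ℂ) * dy (G n) x := loc_d hB hζ dyG x 1
    have a4 : dx (fun z => ((dy ζ z : ℝ) : ℂ) * G n z) x = ((dy ζ x : ℝ) : ℂ) * dx (G n) x +
        ((dx (dy ζ) x : ℝ) : ℂ) * G n x := loc_d hB (tfy hζ) (sG n) x 1
    rw [a1, a2, a3, a4]
    have b1 : (ζ x : ℂ) * hd h 1 (hd h I G) n x = (ζ x : ℂ) * ((h n : ℂ) ^ 2 * dx (dy (G n)) x) := by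
      by_cases hx : x ∈ B
      · have : hd h I G n = fun w => (h n : ℂ) * dy (G n) w := rfl
        have e2 : hd h 1 (hd h I G) n x = (h n : ℂ) * fderiv ℝ (hd h I G n) x 1 := rfl
        have e3 : dx (dy (G n)) x = fderiv ℝ (dy (G n)) x 1 := rfl
        rw [e2, this, fd_cm (fda hB dyG hx), e3]; ring
      · rw [TF.zero hζ hx]; simp
    have b2 : hd h I G n x = (h n : ℂ) * dy (G n) x := rfl
    have b3 : hd h 1 G n x = (h n : ℂ) * dx (G n) x := rfl
    rw [b1, b2, b3]; ring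
  rw [e, GG_cmul, GG_xy hP, hζ1 z hz] at h1
  have h2 : ‖(h n : ℂ) ^ 2 * (((1 : ℝ) : ℂ) * G n z)‖ = (|h n| * ‖f n z‖) ^ 2 := by
    simp only [hG, hg]
    rw [norm_mul, norm_mul, norm_mul, norm_pow, Complex.norm_real, Real.norm_eq_abs,
      RCLike.norm_conj, Complex.ofReal_one, norm_one]
    ring
  rw [h2] at h1
  exact abs_le_of_sq_le_sq' h1 hε.le |>.2

/-- cubic errors vanish -/
theorem hRZ (H : SY B a h w) {R Z : ℕ → ℂ → ℂ} (hR : LB B 1 R) (hZ : Dec B h w Z) :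
    WN B (fun n z => (h n : ℂ) * (R n z * Z n z)) := by
  refine ⟨fun n => continuousOn_const.mul ((hR.co n).mul (((hZ.m H).sm n).continuousOn)),
    fun φ hφ => ?_⟩
  have hK : IsCompact (tsupport φ) := hφ.2.1
  obtain ⟨C, hC⟩ := l1b_of hR (tsupport φ) hK hφ.2.2
  obtain ⟨M', hM'⟩ := hK.exists_bound_of_continuousOn hφ.1.continuous.continuousOn
  set M := max M' 0 with hM
  have hM0 : 0 ≤ M := le_max_right _ _
  have hb : ∀ z ∈ tsupport φ, ‖φ z‖ ≤ M := fun z hz => (hM' z hz).trans (le_max_left _ _)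
  have h0 : Tendsto (fun n => ∫ z, (φ z : ℂ) * ((h n : ℂ) * (R n z * Z n z))) atTop (𝓝 0) := by
    rw [Metric.tendsto_atTop']
    intro ε hε
    have hpos : 0 < ε / (2 * (M * (|C| + 1) + 1)) := by positivity
    have := (sup_dec H hZ hK hφ.2.2 hpos).and hC
    rw [eventually_atTop] at this
    obtain ⟨N, hN⟩ := this
    refine ⟨N, fun n hn => ?_⟩
    obtain ⟨h1, h2⟩ := hN n hn.le
    rw [dist_zero_right]
    set η := ε / (2 * (M * (|C| + 1) + 1)) with hη
    have ip : IntegrableOn (fun z => ‖R n z‖) (tsupport φ) :=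
      ContinuousOn.integrableOn_compact hK (((hR.co n).mono hφ.2.2).norm)
    have e : ∫ z, (φ z : ℂ) * ((h n : ℂ) * (R n z * Z n z)) =
        ∫ z in tsupport φ, (φ z : ℂ) * ((h n : ℂ) * (R n z * Z n z)) := by
      refine (setIntegral_eq_integral_of_forall_compl_eq_zero (fun z hz => ?_)).symm
      rw [image_eq_zero_of_notMem_tsupport hz]; simp
    rw [e]
    have bb : ‖∫ z in tsupport φ, (φ z : ℂ) * ((h n : ℂ) * (R n z * Z n z))‖ ≤
        ∫ z in tsupport φ, (M * η) * ‖R n z‖ := by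
      refine norm_integral_le_of_norm_le (ip.const_mul _) ?_
      refine (ae_restrict_iff' hK.measurableSet).2 (Eventually.of_forall fun z hz => ?_)
      rw [norm_mul, norm_mul, norm_mul (R n z), Complex.norm_real, Complex.norm_real,
        Real.norm_eq_abs (h n)]
      have a1 := hb z hz
      have a2 := h1 z hz
      calc ‖φ z‖ * (|h n| * (‖R n z‖ * ‖Z n z‖)) = ‖φ z‖ * (|h n| * ‖Z n z‖) * ‖R n z‖ := by ring
        _ ≤ M * η * ‖R n z‖ := by gcongr
    refine bb.trans_lt ?_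
    rw [integral_const_mul]
    have hC' : ∫ z in tsupport φ, ‖R n z‖ ≤ |C| + 1 := h2.trans (by linarith [le_abs_self C])
    calc M * η * ∫ z in tsupport φ, ‖R n z‖
        ≤ M * η * (|C| + 1) := by gcongr
      _ = (M * (|C| + 1)) / (M * (|C| + 1) + 1) * (ε / 2) := by
          rw [hη]; field_simp
      _ ≤ 1 * (ε / 2) := by
          gcongr
          rw [div_le_one (by positivity)]; linarith
      _ < ε := by linarith
  exact h0

/-- integration by parts for sequences whose product with `h` is weakly null -/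
lemma parts' (hB : IsOpen B) {G : ℕ → ℂ → ℂ} (hs : ∀ n, ContDiffOn ℝ ∞ (G n) B)
    (hG : WN B (fun n z => (h n : ℂ) * G n z)) (ha : ContDiffOn ℝ ∞ a B) (v : ℂ) :
    WN B (fun n z => (h n : ℂ) * ((a z : ℂ) * fderiv ℝ (G n) z v)) := by
  have ha' : ContDiffOn ℝ ∞ (fun z => (a z : ℂ)) B := ofRealCLM.contDiff.comp_contDiffOn ha
  have hd : ∀ n, ContDiffOn ℝ ∞ (fun z => fderiv ℝ (G n) z v) B := fun n =>
    ((hs n).fderiv_of_isOpen hB (by simp)).clm_apply contDiffOn_const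
  refine ⟨fun n => continuousOn_const.mul (ha'.continuousOn.mul (hd n).continuousOn),
    fun φ hφ => ?_⟩
  have t1 := TF.mulc hB hφ ha
  have t2 := Pool.Agent.W450.RW.T.tf_deriv t1 v
  have n1 := hG.nul _ t2
  have n2 := n1.neg
  rw [neg_zero] at n2
  refine n2.congr fun n => ?_
  have p := Pool.Agent.W450.RW.T.parts1 hB t1 (hs n) v
  have e1 : ∫ z, (φ z : ℂ) * ((h n : ℂ) * ((a z : ℂ) * fderiv ℝ (G n) z v)) =
      (h n : ℂ) * ∫ z, ((φ z * a z : ℝ) : ℂ) * fderiv ℝ (G n) z v := by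
    rw [← integral_const_mul]; congr 1; funext z; push_cast; ring
  rw [e1, p, mul_neg, ← integral_const_mul]
  congr 2; funext z; ring

lemma tripP (H : SY B a h w) {f g Z : ℕ → ℂ → ℂ} (hf : Dec B h w f) (hg : Dec B h w g)
    (hZ : Dec B h w Z) : WN B (fun n z => DP a (h n) (fun z => f n z * g n z * Z n z) z) ∧
    WN B (fun n z => DM a (h n) (fun z => f n z * g n z * Z n z) z) := by
  have hB := H.op
  have hs : ∀ n, ContDiffOn ℝ ∞ (fun z => f n z * g n z * Z n z) B := fun n =>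
    (((hf.m H).sm n).mul ((hg.m H).sm n)).mul ((hZ.m H).sm n)
  have w0 := hRZ H (LB.mul2 (hf.m H).lb (hg.m H).lb) hZ
  have h1 := parts' hB (G := fun n z => f n z * g n z * Z n z) hs w0 H.sa 1
  have h2 := (parts' hB (G := fun n z => f n z * g n z * Z n z) hs w0 H.sa I).cmul I
  exact ⟨(h1.sub h2).congr fun n z _ => by simp only [DP, dd, dx, dy]; ring,
    (h1.add h2).congr fun n z _ => by simp only [DM, db, dx, dy]; ring⟩

lemma rel3P (H : SY B a h w) (i j k : ℤ) :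
    WN B (fun n z => w (i + 1) n z * w j n z * w k n z + w i n z * w (j + 1) n z * w k n z +
      w i n z * w j n z * w (k + 1) n z) := by
  have hB := H.op
  obtain ⟨e1, he1, g1⟩ := H.up i
  obtain ⟨e2, he2, g2⟩ := H.up j
  obtain ⟨e3, he3, g3⟩ := H.up k
  have T := (tripP H (Dec.W i) (Dec.W j) (Dec.W k)).1
  have E1 := hRZ H (LB.mul2 he1.lb (H.bd j).lb) (Dec.W k)
  have E2 := hRZ H (LB.mul2 (H.bd i).lb he2.lb) (Dec.W k)
  have E3 := hRZ H (LB.mul2 he3.lb (H.bd i).lb) (Dec.W j)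
  refine (T.sub ((E1.add E2).add E3)).congr fun n z hz => ?_
  have c1 := g1 n z hz
  have c2 := g2 n z hz
  have c3 := g3 n z hz
  have d1 := da hB ((H.bd i).sm n) hz
  have d2 := da hB ((H.bd j).sm n) hz
  have d3 := da hB ((H.bd k).sm n) hz
  simp only [DP] at c1 c2 c3 ⊢
  rw [dd_mul (f := fun z => w i n z * w j n z) (d1.mul d2) d3, dd_mul d1 d2]
  linear_combination (-(w j n z * w k n z)) * c1 - (w i n z * w k n z) * c2
    - (w i n z * w j n z) * c3

lemma rel3M (H : SY B a h w) (i j k : ℤ) :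
    WN B (fun n z => w (i - 1) n z * w j n z * w k n z + w i n z * w (j - 1) n z * w k n z +
      w i n z * w j n z * w (k - 1) n z) := by
  have hB := H.op
  obtain ⟨e1, he1, g1⟩ := H.dn i
  obtain ⟨e2, he2, g2⟩ := H.dn j
  obtain ⟨e3, he3, g3⟩ := H.dn k
  have T := (tripP H (Dec.W i) (Dec.W j) (Dec.W k)).2
  have E1 := hRZ H (LB.mul2 he1.lb (H.bd j).lb) (Dec.W k)
  have E2 := hRZ H (LB.mul2 (H.bd i).lb he2.lb) (Dec.W k)
  have E3 := hRZ H (LB.mul2 he3.lb (H.bd i).lb) (Dec.W j)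
  refine (((E1.add E2).add E3).sub T).congr fun n z hz => ?_
  have c1 := g1 n z hz
  have c2 := g2 n z hz
  have c3 := g3 n z hz
  have d1 := da hB ((H.bd i).sm n) hz
  have d2 := da hB ((H.bd j).sm n) hz
  have d3 := da hB ((H.bd k).sm n) hz
  simp only [DM] at c1 c2 c3 ⊢
  rw [db_mul (f := fun z => w i n z * w j n z) (d1.mul d2) d3, db_mul d1 d2]
  linear_combination (w j n z * w k n z) * c1 + (w i n z * w k n z) * c2
    + (w i n z * w j n z) * c3

end

end Pool.Agent.Y265.HY
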