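import Mathlib

/-! Circular means and the energy inequality. -/
set_option autoImplicit false
open MeasureTheory Filter Topology Complex Set
open scoped ContDiff Real

namespace Pool.Agent.Y265.HY

noncomputable section

/-- the unit vector -/
def ev (θ : ℝ) : ℂ := (Real.cos θ : ℂ) + (Real.sin θ : ℂ) * I

lemma ev_re (θ : ℝ) : (ev θ).re = Real.cos θ := by
  unfold ev
  rw [Complex.add_re, Complex.mul_re, Complex.ofReal_re, Complex.ofReal_re, Complex.ofReal_im,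
    Complex.I_re, Complex.I_im]; ring
lemma ev_im (θ : ℝ) : (ev θ).im = Real.sin θ := by
  unfold ev
  rw [Complex.add_im, Complex.mul_im, Complex.ofReal_re, Complex.ofReal_im, Complex.ofReal_im,
    Complex.I_re, Complex.I_im]; ring

lemma ev_norm (θ : ℝ) : ‖ev θ‖ = 1 := by
  have h : Complex.normSq (ev θ) = 1 := by
    rw [Complex.normSq_apply, ev_re, ev_im]
    nlinarith [Real.sin_sq_add_cos_sq θ]
  rw [Complex.norm_def, h, Real.sqrt_one]

lemma ev_cont : Continuous ev := by unfold ev; fun_prop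

/-- directional derivatives -/
def fx (F : ℂ → ℝ) (z : ℂ) : ℝ := fderiv ℝ F z 1
def fy (F : ℂ → ℝ) (z : ℂ) : ℝ := fderiv ℝ F z I

lemma fx_sm {F : ℂ → ℝ} (hF : ContDiff ℝ ∞ F) : ContDiff ℝ ∞ (fx F) :=
  (hF.fderiv_right (by simp)).clm_apply contDiff_const
lemma fy_sm {F : ℂ → ℝ} (hF : ContDiff ℝ ∞ F) : ContDiff ℝ ∞ (fy F) :=
  (hF.fderiv_right (by simp)).clm_apply contDiff_const

lemma fd_lin (F : ℂ → ℝ) (z : ℂ) (a b : ℝ) :
    fderiv ℝ F z ((a : ℂ) + (b : ℂ) * I) = a * fx F z + b * fy F z := by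
  have h1 : (a : ℂ) + (b : ℂ) * I = a • (1 : ℂ) + b • I := by simp
  rw [h1, map_add, map_smul, map_smul]; rfl

lemma dr {F : ℂ → ℝ} (hF : ContDiff ℝ ∞ F) (ρ θ : ℝ) :
    HasDerivAt (fun ρ : ℝ => F ((ρ : ℂ) * ev θ))
      (Real.cos θ * fx F ((ρ : ℂ) * ev θ) + Real.sin θ * fy F ((ρ : ℂ) * ev θ)) ρ := by
  have h1 : HasDerivAt (fun ρ : ℝ => (ρ : ℂ) * ev θ) (ev θ) ρ := by
    simpa using! (Complex.ofRealCLM.hasDerivAt (x := ρ)).mul_const (ev θ)
  have h2 := ((hF.differentiable (by simp) ((ρ : ℂ) * ev θ)).hasFDerivAt).comp_hasDerivAt ρ h1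
  have h3 : fderiv ℝ F ((ρ : ℂ) * ev θ) (ev θ) = Real.cos θ * fx F ((ρ : ℂ) * ev θ) +
      Real.sin θ * fy F ((ρ : ℂ) * ev θ) := fd_lin F _ _ _
  rw [← h3]; exact h2

lemma dθ {F : ℂ → ℝ} (hF : ContDiff ℝ ∞ F) (ρ θ : ℝ) :
    HasDerivAt (fun θ : ℝ => F ((ρ : ℂ) * ev θ))
      (ρ * (-Real.sin θ * fx F ((ρ : ℂ) * ev θ) + Real.cos θ * fy F ((ρ : ℂ) * ev θ))) θ := by
  have h0 : HasDerivAt ev (((-Real.sin θ : ℝ) : ℂ) + (Real.cos θ : ℂ) * I) θ := by
    have a1 := (Real.hasDerivAt_cos θ).ofReal_comp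
    have a2 := ((Real.hasDerivAt_sin θ).ofReal_comp).mul_const I
    exact a1.add a2
  have h1 : HasDerivAt (fun θ : ℝ => (ρ : ℂ) * ev θ)
      ((ρ : ℂ) * (((-Real.sin θ : ℝ) : ℂ) + (Real.cos θ : ℂ) * I)) θ := h0.const_mul _
  have h2 := ((hF.differentiable (by simp) ((ρ : ℂ) * ev θ)).hasFDerivAt).comp_hasDerivAt θ h1
  have h3 : fderiv ℝ F ((ρ : ℂ) * ev θ)
      ((ρ : ℂ) * (((-Real.sin θ : ℝ) : ℂ) + (Real.cos θ : ℂ) * I)) =
      ρ * (-Real.sin θ * fx F ((ρ : ℂ) * ev θ) + Real.cos θ * fy F ((ρ : ℂ) * ev θ)) := by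
    have e : (ρ : ℂ) * (((-Real.sin θ : ℝ) : ℂ) + (Real.cos θ : ℂ) * I) =
        ((ρ * -Real.sin θ : ℝ) : ℂ) + ((ρ * Real.cos θ : ℝ) : ℂ) * I := by push_cast; ring
    rw [e, fd_lin]; ring
  rw [← h3]; exact h2

/-- weighted circular means -/
def Av (c : ℝ → ℝ) (F : ℂ → ℝ) (ρ : ℝ) : ℝ := ∫ θ in (-π)..π, c θ * F ((ρ : ℂ) * ev θ)

lemma arg_cont : Continuous (fun p : ℝ × ℝ => (p.1 : ℂ) * ev p.2) :=
  (Complex.continuous_ofReal.comp continuous_fst).mul (ev_cont.comp continuous_snd)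

lemma Av_d {c : ℝ → ℝ} (hc : Continuous c) {F : ℂ → ℝ} (hF : ContDiff ℝ ∞ F) (ρ : ℝ) :
    HasDerivAt (Av c F) (Av (fun θ => c θ * Real.cos θ) (fx F) ρ +
      Av (fun θ => c θ * Real.sin θ) (fy F) ρ) ρ := by
  have cF := hF.continuous
  have cx := (fx_sm hF).continuous
  have cy := (fy_sm hF).continuous
  have ce : ∀ ρ : ℝ, Continuous (fun θ : ℝ => (ρ : ℂ) * ev θ) := fun ρ =>
    continuous_const.mul ev_cont
  set G : ℝ × ℝ → ℝ := fun p => c p.2 * (Real.cos p.2 * fx F ((p.1 : ℂ) * ev p.2) +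
    Real.sin p.2 * fy F ((p.1 : ℂ) * ev p.2)) with hG
  have cG : Continuous G := (hc.comp continuous_snd).mul
    (((Real.continuous_cos.comp continuous_snd).mul (cx.comp arg_cont)).add
      ((Real.continuous_sin.comp continuous_snd).mul (cy.comp arg_cont)))
  have hcomp : IsCompact (Icc (ρ - 1) (ρ + 1) ×ˢ Icc (-π) π) := isCompact_Icc.prod isCompact_Icc
  obtain ⟨C, hC⟩ := hcomp.exists_bound_of_continuousOn cG.continuousOn
  have key := intervalIntegral.hasDerivAt_integral_of_dominated_loc_of_deriv_le (𝕜 := ℝ)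
    (μ := volume) (a := -π) (b := π) (F := fun (ρ : ℝ) (θ : ℝ) => c θ * F ((ρ : ℂ) * ev θ))
    (F' := fun (ρ : ℝ) (θ : ℝ) => G (ρ, θ)) (x₀ := ρ) (s := Metric.ball ρ 1) (bound := fun _ => C)
    (Metric.ball_mem_nhds ρ one_pos)
    (Eventually.of_forall fun r => (hc.mul (cF.comp (ce r))).aestronglyMeasurable)
    ((hc.mul (cF.comp (ce ρ))).intervalIntegrable _ _)
    ((cG.comp (continuous_const.prodMk continuous_id)).aestronglyMeasurable)
    (Eventually.of_forall fun θ hθ r hr => by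
      rw [uIoc_of_le (by linarith [Real.pi_pos])] at hθ
      refine hC (r, θ) ⟨?_, ⟨hθ.1.le, hθ.2⟩⟩
      rw [Metric.mem_ball, Real.dist_eq, abs_lt] at hr
      exact ⟨by linarith [hr.1], by linarith [hr.2]⟩)
    intervalIntegrable_const
    (Eventually.of_forall fun θ _ r _ => (dr hF r θ).const_mul (c θ))
  have e : Av (fun θ => c θ * Real.cos θ) (fx F) ρ + Av (fun θ => c θ * Real.sin θ) (fy F) ρ =
      ∫ θ in (-π)..π, G (ρ, θ) := by
    unfold Av
    rw [← intervalIntegral.integral_add]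
    · congr 1; funext θ; simp only [hG]; ring
    · exact ((hc.mul Real.continuous_cos).mul (cx.comp (ce ρ))).intervalIntegrable _ _
    · exact ((hc.mul Real.continuous_sin).mul (cy.comp (ce ρ))).intervalIntegrable _ _
  rw [e]
  exact key.2

/-- the mean, and its derivative -/
def MM (F : ℂ → ℝ) : ℝ → ℝ := Av (fun _ => 1) F
def PP' (F : ℂ → ℝ) (ρ : ℝ) : ℝ := Av Real.cos (fx F) ρ + Av Real.sin (fy F) ρ

lemma MM_d {F : ℂ → ℝ} (hF : ContDiff ℝ ∞ F) (ρ : ℝ) : HasDerivAt (MM F) (PP' F ρ) ρ := by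
  have := Av_d (c := fun _ => 1) continuous_const hF ρ
  simpa [MM, PP'] using this

/-- the radial equation -/
lemma NN_d {F : ℂ → ℝ} (hF : ContDiff ℝ ∞ F) (ρ : ℝ) :
    HasDerivAt (fun ρ => ρ * PP' F ρ)
      (ρ * Av (fun _ => 1) (fun z => fx (fx F) z + fy (fy F) z) ρ) ρ := by
  have sx := fx_sm hF
  have sy := fy_sm hF
  have cxx := (fx_sm sx).continuous
  have cxy := (fy_sm sx).continuous
  have cyx := (fx_sm sy).continuous
  have cyy := (fy_sm sy).continuous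
  have ce : Continuous (fun θ : ℝ => (ρ : ℂ) * ev θ) := continuous_const.mul ev_cont
  have h1 := Av_d Real.continuous_cos sx ρ
  have h2 := Av_d Real.continuous_sin sy ρ
  have h3 := (hasDerivAt_id ρ).mul (h1.add h2)
  have ii : ∀ {g : ℝ → ℝ}, Continuous g → IntervalIntegrable g volume (-π) π := fun hg =>
    hg.intervalIntegrable _ _
  -- the angular identity
  set A : ℝ → ℝ := fun θ => -Real.sin θ * fx F ((ρ : ℂ) * ev θ) +
    Real.cos θ * fy F ((ρ : ℂ) * ev θ) with hA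
  have dA : ∀ θ, HasDerivAt A ((-Real.cos θ * fx F ((ρ : ℂ) * ev θ) + -Real.sin θ *
      (ρ * (-Real.sin θ * fx (fx F) ((ρ : ℂ) * ev θ) + Real.cos θ * fy (fx F) ((ρ : ℂ) * ev θ)))) +
      (-Real.sin θ * fy F ((ρ : ℂ) * ev θ) + Real.cos θ *
      (ρ * (-Real.sin θ * fx (fy F) ((ρ : ℂ) * ev θ) + Real.cos θ * fy (fy F) ((ρ : ℂ) * ev θ))))) θ := by
    intro θ
    exact (((Real.hasDerivAt_sin θ).neg).mul (dθ sx ρ θ)).add
      ((Real.hasDerivAt_cos θ).mul (dθ sy ρ θ))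
  have cA' : Continuous (fun θ : ℝ => (-Real.cos θ * fx F ((ρ : ℂ) * ev θ) + -Real.sin θ *
      (ρ * (-Real.sin θ * fx (fx F) ((ρ : ℂ) * ev θ) + Real.cos θ * fy (fx F) ((ρ : ℂ) * ev θ)))) +
      (-Real.sin θ * fy F ((ρ : ℂ) * ev θ) + Real.cos θ *
      (ρ * (-Real.sin θ * fx (fy F) ((ρ : ℂ) * ev θ) + Real.cos θ * fy (fy F) ((ρ : ℂ) * ev θ))))) := by
    have k1 := sx.continuous.comp ce
    have k2 := sy.continuous.comp ce
    have k3 := cxx.comp ce
    have k4 := cxy.comp ce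
    have k5 := cyx.comp ce
    have k6 := cyy.comp ce
    exact ((Real.continuous_cos.neg.mul k1).add (Real.continuous_sin.neg.mul
      (continuous_const.mul ((Real.continuous_sin.neg.mul k3).add (Real.continuous_cos.mul k4))))).add
      ((Real.continuous_sin.neg.mul k2).add (Real.continuous_cos.mul
      (continuous_const.mul ((Real.continuous_sin.neg.mul k5).add (Real.continuous_cos.mul k6)))))
  have hA0 := intervalIntegral.integral_eq_sub_of_hasDerivAt (fun θ _ => dA θ) (ii cA')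
  have ev0 : ev π = ev (-π) := by unfold ev; rw [Real.cos_neg, Real.sin_neg, Real.sin_pi]; simp
  have hA1 : A π - A (-π) = 0 := by
    simp only [hA, ev0, Real.sin_neg, Real.sin_pi, Real.cos_neg]; ring
  rw [hA1] at hA0
  have sym : ∀ z, fy (fx F) z = fx (fy F) z := by
    intro z
    have hs : IsSymmSndFDerivAt ℝ F z := hF.contDiffAt.isSymmSndFDerivAt (by
      simp only [minSmoothness_of_isRCLikeNormedField]
      exact (WithTop.coe_le_coe.mpr (le_top : (2 : ℕ∞) ≤ ⊤) :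
        ((2 : ℕ∞) : WithTop ℕ∞) ≤ ((⊤ : ℕ∞) : WithTop ℕ∞)))
    have d1 : DifferentiableAt ℝ (fderiv ℝ F) z :=
      (hF.fderiv_right (m := ∞) (by simp)).differentiable (by simp) z
    have e1 : ∀ a b : ℂ, fderiv ℝ (fun w => fderiv ℝ F w b) z a = fderiv ℝ (fderiv ℝ F) z a b := by
      intro a b
      have h0 := (d1.hasFDerivAt.clm_apply (hasFDerivAt_const b z)).fderiv
      change fderiv ℝ (fun w => fderiv ℝ F w b) z = _ at h0
      rw [h0]; simp
    show fderiv ℝ (fun w => fderiv ℝ F w 1) z I = fderiv ℝ (fun w => fderiv ℝ F w I) z 1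
    rw [e1, e1]
    exact hs I 1
  refine h3.congr_deriv ?_
  have k1 := sx.continuous.comp ce
  have k2 := sy.continuous.comp ce
  have k3 := cxx.comp ce
  have k4 := cxy.comp ce
  have k5 := cyx.comp ce
  have k6 := cyy.comp ce
  have cc := Real.continuous_cos
  have cs := Real.continuous_sin
  simp only [Pi.add_apply, Av, id, one_mul] at hA0 ⊢
  have i1 : IntervalIntegrable (fun θ => Real.cos θ * fx F ((ρ : ℂ) * ev θ)) volume (-π) π :=
    ii (cc.mul k1)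
  have i2 : IntervalIntegrable (fun θ => Real.sin θ * fy F ((ρ : ℂ) * ev θ)) volume (-π) π :=
    ii (cs.mul k2)
  have i3 : IntervalIntegrable (fun θ => Real.cos θ * Real.cos θ * fx (fx F) ((ρ : ℂ) * ev θ))
    volume (-π) π := ii ((cc.mul cc).mul k3)
  have i4 : IntervalIntegrable (fun θ => Real.cos θ * Real.sin θ * fy (fx F) ((ρ : ℂ) * ev θ))
    volume (-π) π := ii ((cc.mul cs).mul k4)
  have i5 : IntervalIntegrable (fun θ => Real.sin θ * Real.cos θ * fx (fy F) ((ρ : ℂ) * ev θ))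
    volume (-π) π := ii ((cs.mul cc).mul k5)
  have i6 : IntervalIntegrable (fun θ => Real.sin θ * Real.sin θ * fy (fy F) ((ρ : ℂ) * ev θ))
    volume (-π) π := ii ((cs.mul cs).mul k6)
  have i7 : IntervalIntegrable (fun θ => fx (fx F) ((ρ : ℂ) * ev θ) + fy (fy F) ((ρ : ℂ) * ev θ))
    volume (-π) π := ii (k3.add k6)
  have i12 : IntervalIntegrable (fun θ => Real.cos θ * fx F ((ρ : ℂ) * ev θ) +
    Real.sin θ * fy F ((ρ : ℂ) * ev θ)) volume (-π) π := i1.add i2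
  have i34 : IntervalIntegrable (fun θ => Real.cos θ * Real.cos θ * fx (fx F) ((ρ : ℂ) * ev θ) +
    Real.cos θ * Real.sin θ * fy (fx F) ((ρ : ℂ) * ev θ)) volume (-π) π := i3.add i4
  have i56 : IntervalIntegrable (fun θ => Real.sin θ * Real.cos θ * fx (fy F) ((ρ : ℂ) * ev θ) +
    Real.sin θ * Real.sin θ * fy (fy F) ((ρ : ℂ) * ev θ)) volume (-π) π := i5.add i6
  have i36 : IntervalIntegrable (fun θ => (Real.cos θ * Real.cos θ * fx (fx F) ((ρ : ℂ) * ev θ) +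
    Real.cos θ * Real.sin θ * fy (fx F) ((ρ : ℂ) * ev θ)) +
    (Real.sin θ * Real.cos θ * fx (fy F) ((ρ : ℂ) * ev θ) +
    Real.sin θ * Real.sin θ * fy (fy F) ((ρ : ℂ) * ev θ))) volume (-π) π := i34.add i56
  have j36 : IntervalIntegrable (fun θ => ρ * ((Real.cos θ * Real.cos θ * fx (fx F) ((ρ : ℂ) * ev θ) +
    Real.cos θ * Real.sin θ * fy (fx F) ((ρ : ℂ) * ev θ)) +
    (Real.sin θ * Real.cos θ * fx (fy F) ((ρ : ℂ) * ev θ) +
    Real.sin θ * Real.sin θ * fy (fy F) ((ρ : ℂ) * ev θ)))) volume (-π) π := i36.const_mul ρ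
  have j7 : IntervalIntegrable (fun θ => ρ * (fx (fx F) ((ρ : ℂ) * ev θ) +
    fy (fy F) ((ρ : ℂ) * ev θ))) volume (-π) π := i7.const_mul ρ
  have T : (∫ θ in (-π)..π, Real.cos θ * fx F ((ρ : ℂ) * ev θ)) +
      (∫ θ in (-π)..π, Real.sin θ * fy F ((ρ : ℂ) * ev θ)) +
      ρ * ((∫ θ in (-π)..π, Real.cos θ * Real.cos θ * fx (fx F) ((ρ : ℂ) * ev θ)) +
        (∫ θ in (-π)..π, Real.cos θ * Real.sin θ * fy (fx F) ((ρ : ℂ) * ev θ)) +
        ((∫ θ in (-π)..π, Real.sin θ * Real.cos θ * fx (fy F) ((ρ : ℂ) * ev θ)) +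
        (∫ θ in (-π)..π, Real.sin θ * Real.sin θ * fy (fy F) ((ρ : ℂ) * ev θ)))) -
      ρ * (∫ θ in (-π)..π, (fx (fx F) ((ρ : ℂ) * ev θ) + fy (fy F) ((ρ : ℂ) * ev θ))) =
      - 0 := by
    rw [← hA0, ← intervalIntegral.integral_add i1 i2, ← intervalIntegral.integral_add i3 i4,
      ← intervalIntegral.integral_add i5 i6,
      ← intervalIntegral.integral_add i34 i56, ← intervalIntegral.integral_const_mul,
      ← intervalIntegral.integral_const_mul, ← intervalIntegral.integral_neg,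
      ← intervalIntegral.integral_add i12 j36,
      ← intervalIntegral.integral_sub (i12.add j36) j7]
    refine intervalIntegral.integral_congr fun θ _ => ?_
    have h1 := Real.sin_sq_add_cos_sq θ
    simp only [sym]
    linear_combination (ρ * (fx (fx F) ((ρ : ℂ) * ev θ) + fy (fy F) ((ρ : ℂ) * ev θ))) * h1
  linarith

end

end Pool.Agent.Y265.HY
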