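import Mathlib

/-! The energy inequality for radial solutions. -/
set_option autoImplicit false
open MeasureTheory Filter Topology Set
open scoped Real

namespace Pool.Agent.Y265.HY

noncomputable section

/-- behaviour near the origin -/
lemma near0 {M P Lam : ℝ → ℝ} {L r : ℝ} (hL : 0 < L) (hr : 0 < r) (hLr : L * r ^ 2 ≤ 1)
    (hM : ∀ ρ, HasDerivAt M (P ρ) ρ) (hP0 : P 0 = 0)
    (hN : ∀ ρ ∈ Icc 0 r, HasDerivAt (fun ρ => ρ * P ρ) (-(ρ * Lam ρ * M ρ)) ρ)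
    (h1 : ∀ ρ ∈ Icc 0 r, 0 ≤ Lam ρ) (h2 : ∀ ρ ∈ Icc 0 r, Lam ρ ≤ 8 / 7 * L) :
    9 / 25 * M 0 ^ 2 ≤ M r ^ 2 := by
  have cM : Continuous M := continuous_iff_continuousAt.2 fun x => (hM x).continuousAt
  obtain ⟨x0, hx0, hmax⟩ := isCompact_Icc.exists_isMaxOn (nonempty_Icc.2 hr.le)
    (cM.abs.continuousOn (s := Icc 0 r))
  set A := |M x0| with hA
  have hA0 : 0 ≤ A := abs_nonneg _
  have hb : ∀ x ∈ Icc 0 r, |M x| ≤ A := fun x hx => hmax hx
  have n1 : ∀ x ∈ Icc 0 r, ‖x * P x‖ ≤ 4 / 7 * L * A * x ^ 2 := by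
    refine image_norm_le_of_norm_deriv_right_le_deriv_boundary (f := fun x => x * P x)
      (f' := fun ρ => -(ρ * Lam ρ * M ρ)) (B := fun x => 4 / 7 * L * A * x ^ 2)
      (B' := fun x => 8 / 7 * L * A * x) (fun x hx => (hN x hx).continuousAt.continuousWithinAt)
      (fun x hx => (hN x ⟨hx.1, hx.2.le⟩).hasDerivWithinAt) (by simp) (fun x => ?_) (fun x hx => ?_)
    · have := ((hasDerivAt_pow 2 x).const_mul (4 / 7 * L * A))
      refine this.congr_deriv ?_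
      norm_num; ring
    · have hx' : x ∈ Icc 0 r := ⟨hx.1, hx.2.le⟩
      rw [norm_neg, norm_mul, norm_mul, Real.norm_eq_abs, Real.norm_eq_abs, Real.norm_eq_abs,
        abs_of_nonneg hx.1, abs_of_nonneg (h1 x hx')]
      calc x * Lam x * |M x| ≤ x * (8 / 7 * L) * A := by
            gcongr
            · exact mul_nonneg hx.1 (by positivity)
            · exact hx.1
            · exact h2 x hx'
            · exact hb x hx'
        _ = 8 / 7 * L * A * x := by ring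
  have n2 : ∀ x ∈ Icc 0 r, ‖P x‖ ≤ 4 / 7 * L * A * x := by
    intro x hx
    rcases eq_or_lt_of_le hx.1 with h | h
    · rw [← h, hP0]; simp
    · have := n1 x hx
      rw [norm_mul, Real.norm_eq_abs, abs_of_pos h] at this
      have h3 : x * ‖P x‖ ≤ x * (4 / 7 * L * A * x) := by
        calc x * ‖P x‖ ≤ 4 / 7 * L * A * x ^ 2 := this
          _ = _ := by ring
      exact le_of_mul_le_mul_left h3 h
  have n3 : ∀ x ∈ Icc 0 r, ‖M x - M 0‖ ≤ 2 / 7 * L * A * x ^ 2 := by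
    refine image_norm_le_of_norm_deriv_right_le_deriv_boundary (f := fun x => M x - M 0)
      (f' := P) (B := fun x => 2 / 7 * L * A * x ^ 2)
      (B' := fun x => 4 / 7 * L * A * x) ((cM.sub continuous_const).continuousOn)
      (fun x hx => ((hM x).sub_const _).hasDerivWithinAt) (by simp) (fun x => ?_) (fun x hx => ?_)
    · have := ((hasDerivAt_pow 2 x).const_mul (2 / 7 * L * A))
      refine this.congr_deriv ?_
      norm_num; ring
    · exact n2 x ⟨hx.1, hx.2.le⟩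
  have n4 : ∀ x ∈ Icc 0 r, |M x - M 0| ≤ 2 / 7 * A := by
    intro x hx
    have h3 := n3 x hx
    rw [Real.norm_eq_abs] at h3
    refine h3.trans ?_
    have : L * x ^ 2 ≤ 1 := (mul_le_mul_of_nonneg_left (pow_le_pow_left₀ hx.1 hx.2 2) hL.le).trans hLr
    nlinarith
  have h5 := n4 x0 hx0
  have h6 := n4 r ⟨hr.le, le_rfl⟩
  have h7 : A ≤ 7 / 5 * |M 0| := by
    have : |M x0| ≤ |M x0 - M 0| + |M 0| := by
      have := abs_add_le (M x0 - M 0) (M 0)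
      simpa using this
    rw [← hA] at this
    linarith
  have h8 : 3 / 5 * |M 0| ≤ |M r| := by
    have : |M 0| ≤ |M r - M 0| + |M r| := by
      have := abs_sub_abs_le_abs_sub (M 0) (M r)
      rw [abs_sub_comm] at this
      linarith
    linarith
  have h9 : (3 / 5 * |M 0|) ^ 2 ≤ |M r| ^ 2 := pow_le_pow_left₀ (by positivity) h8 2
  rw [mul_pow, sq_abs, sq_abs] at h9
  linarith

/-- the upper bound of the boundary energy -/
lemma up_en {M P Lam Lam' : ℝ → ℝ} {L R : ℝ} (hR : 0 < R)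
    (hM : ∀ ρ, HasDerivAt M (P ρ) ρ)
    (hN : ∀ ρ ∈ Icc 0 R, HasDerivAt (fun ρ => ρ * P ρ) (-(ρ * Lam ρ * M ρ)) ρ)
    (hLam : ∀ ρ ∈ Icc 0 R, HasDerivAt Lam (Lam' ρ) ρ)
    (h3 : ∀ ρ ∈ Icc 0 R, 2 * Lam ρ + ρ * Lam' ρ ≤ 4 * L) :
    (R * P R) ^ 2 + R ^ 2 * Lam R * M R ^ 2 ≤ 4 * L * ∫ s in (0:ℝ)..R, s * M s ^ 2 := by
  have cM : Continuous M := continuous_iff_continuousAt.2 fun x => (hM x).continuousAt
  have ci : Continuous (fun s : ℝ => s * M s ^ 2) := continuous_id.mul (cM.pow 2)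
  set K : ℝ → ℝ := fun ρ => (ρ * P ρ) ^ 2 + ρ ^ 2 * Lam ρ * M ρ ^ 2 -
    4 * L * ∫ s in (0:ℝ)..ρ, s * M s ^ 2 with hK
  have dK : ∀ ρ ∈ Icc 0 R, HasDerivAt K ((2 * Lam ρ + ρ * Lam' ρ - 4 * L) * (ρ * M ρ ^ 2)) ρ := by
    intro ρ hρ
    have d1 := (hN ρ hρ).pow 2
    have d2 := (((hasDerivAt_pow 2 ρ).mul (hLam ρ hρ)).mul ((hM ρ).pow 2))
    have d3 := (intervalIntegral.integral_hasDerivAt_right (ci.intervalIntegrable 0 ρ)
      (ci.stronglyMeasurableAtFilter _ _) ci.continuousAt).const_mul (4 * L)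
    refine ((d1.add d2).sub d3).congr_deriv ?_
    simp only [Nat.cast_ofNat, Pi.mul_apply, Pi.pow_apply, Nat.add_one_sub_one, pow_one]
    ring
  have anti : AntitoneOn K (Icc 0 R) := by
    refine antitoneOn_of_deriv_nonpos (convex_Icc 0 R)
      (fun x hx => (dK x hx).continuousAt.continuousWithinAt)
      (fun x hx => ?_) (fun x hx => ?_)
    · rw [interior_Icc] at hx
      exact (dK x ⟨hx.1.le, hx.2.le⟩).differentiableAt.differentiableWithinAt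
    · rw [interior_Icc] at hx
      rw [(dK x ⟨hx.1.le, hx.2.le⟩).deriv]
      have := h3 x ⟨hx.1.le, hx.2.le⟩
      exact mul_nonpos_of_nonpos_of_nonneg (by linarith) (mul_nonneg hx.1.le (sq_nonneg _))
  have := anti (left_mem_Icc.2 hR.le) (right_mem_Icc.2 hR.le) hR.le
  simp only [hK, zero_mul, intervalIntegral.integral_same] at this
  norm_num at this
  linarith

/-- the energy inequality -/
theorem energy {M P Lam Lam' : ℝ → ℝ} {L R : ℝ} (hL : 0 < L) (hR : 0 < R) (hLR : 1 ≤ L * R ^ 2)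
    (hM : ∀ ρ, HasDerivAt M (P ρ) ρ) (hP0 : P 0 = 0)
    (hN : ∀ ρ ∈ Icc 0 R, HasDerivAt (fun ρ => ρ * P ρ) (-(ρ * Lam ρ * M ρ)) ρ)
    (hLam : ∀ ρ ∈ Icc 0 R, HasDerivAt Lam (Lam' ρ) ρ)
    (h0 : ∀ ρ ∈ Icc 0 R, 0 ≤ Lam' ρ) (h1 : ∀ ρ ∈ Icc 0 R, L ≤ Lam ρ)
    (h2 : ∀ ρ ∈ Icc 0 R, Lam ρ ≤ 8 / 7 * L)
    (h3 : ∀ ρ ∈ Icc 0 R, 2 * Lam ρ + ρ * Lam' ρ ≤ 4 * L) :
    M 0 ^ 2 ≤ 32 * (√L / R) * ∫ s in (0:ℝ)..R, s * M s ^ 2 := by
  have sL : 0 < √L := Real.sqrt_pos.2 hL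
  have sq : √L ^ 2 = L := Real.sq_sqrt hL.le
  set r : ℝ := 1 / √L with hr
  have hr0 : 0 < r := by positivity
  have hLr : L * r ^ 2 = 1 := by
    rw [hr, div_pow, one_pow, sq]; field_simp
  have hrR : r ≤ R := by
    have : r ^ 2 ≤ R ^ 2 := by
      have : L * r ^ 2 ≤ L * R ^ 2 := by rw [hLr]; exact hLR
      exact le_of_mul_le_mul_left this hL
    exact (pow_le_pow_iff_left₀ hr0.le hR.le (by norm_num)).1 this
  have sub : Icc 0 r ⊆ Icc 0 R := Icc_subset_Icc_right hrR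
  have m0 := near0 hL hr0 hLr.le hM hP0 (fun ρ hρ => hN ρ (sub hρ))
    (fun ρ hρ => hL.le.trans (h1 ρ (sub hρ))) (fun ρ hρ => h2 ρ (sub hρ))
  have up := up_en hR hM hN hLam h3
  set N : ℝ → ℝ := fun ρ => ρ * P ρ with hNd
  set H : ℝ → ℝ := fun ρ => (N ρ ^ 2 + N ρ * M ρ + M ρ ^ 2 / 2) / ρ + ρ * Lam ρ * M ρ ^ 2 with hH
  set k : ℝ → ℝ := fun ρ => 1 - 1 / (4 * L * ρ ^ 2) with hk
  have dH : ∀ ρ ∈ Ioc 0 R, HasDerivAt H ((ρ * Lam' ρ - 1 / (2 * ρ ^ 2)) * M ρ ^ 2) ρ := by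
    intro ρ hρ
    have hρ' : ρ ∈ Icc 0 R := ⟨hρ.1.le, hρ.2⟩
    have hne : ρ ≠ 0 := hρ.1.ne'
    have d1 := hN ρ hρ'
    have d2 := hM ρ
    have e := (((d1.pow 2).add (d1.mul d2)).add ((d2.pow 2).div_const 2)).div (hasDerivAt_id ρ) hne
    have e2 := ((hasDerivAt_id ρ).mul (hLam ρ hρ')).mul (d2.pow 2)
    refine (e.add e2).congr_deriv ?_
    simp only [Nat.cast_ofNat, Pi.mul_apply, Pi.pow_apply, Pi.add_apply, Nat.add_one_sub_one,
      pow_one, id, hNd]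
    field_simp
    ring
  have dk : ∀ ρ ∈ Ioc 0 R, HasDerivAt k (1 / (2 * L * ρ ^ 3)) ρ := by
    intro ρ hρ
    have hne : ρ ≠ 0 := hρ.1.ne'
    have d1 := ((hasDerivAt_pow 2 ρ).const_mul (4 * L))
    have d2 := ((hasDerivAt_const ρ (1:ℝ)).sub ((hasDerivAt_const ρ (1:ℝ)).div d1
      (by positivity)))
    refine d2.congr_deriv ?_
    norm_num
    field_simp
    ring
  have hHl : ∀ ρ ∈ Ioc 0 R, ρ * L * M ρ ^ 2 + M ρ ^ 2 / (4 * ρ) ≤ H ρ := by
    intro ρ hρ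
    have hne : ρ ≠ 0 := hρ.1.ne'
    have hp := hρ.1
    have a1 : M ρ ^ 2 / 4 ≤ N ρ ^ 2 + N ρ * M ρ + M ρ ^ 2 / 2 := by
      nlinarith [sq_nonneg (N ρ + M ρ / 2)]
    have a2 : M ρ ^ 2 / (4 * ρ) ≤ (N ρ ^ 2 + N ρ * M ρ + M ρ ^ 2 / 2) / ρ := by
      rw [div_le_div_iff₀ (by positivity) hp]
      nlinarith
    have a3 : ρ * L * M ρ ^ 2 ≤ ρ * Lam ρ * M ρ ^ 2 := by
      have := h1 ρ ⟨hp.le, hρ.2⟩
      gcongr
    simp only [hH]; linarith
  have mono : MonotoneOn (fun ρ => H ρ * k ρ) (Icc r R) := by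
    have hin : ∀ x ∈ Icc r R, x ∈ Ioc 0 R := fun x hx => ⟨hr0.trans_le hx.1, hx.2⟩
    refine monotoneOn_of_deriv_nonneg (convex_Icc r R)
      (fun x hx => ((dH x (hin x hx)).mul (dk x (hin x hx))).continuousAt.continuousWithinAt)
      (fun x hx => ?_) (fun x hx => ?_)
    · rw [interior_Icc] at hx
      have hx' : x ∈ Icc r R := ⟨hx.1.le, hx.2.le⟩
      exact ((dH x (hin x hx')).mul (dk x (hin x hx'))).differentiableAt.differentiableWithinAt
    · rw [interior_Icc] at hx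
      have hx' : x ∈ Icc r R := ⟨hx.1.le, hx.2.le⟩
      have hi := hin x hx'
      have dHk : HasDerivAt (fun ρ => H ρ * k ρ) ((x * Lam' x - 1 / (2 * x ^ 2)) * M x ^ 2 * k x +
        H x * (1 / (2 * L * x ^ 3))) x := (dH x hi).mul (dk x hi)
      rw [dHk.deriv]
      have hp := hi.1
      have b1 := hHl x hi
      have b2 : 0 ≤ Lam' x := h0 x ⟨hp.le, hi.2⟩
      have Lx : 1 ≤ L * x ^ 2 := by
        rw [← hLr]
        have := pow_le_pow_left₀ hr0.le hx'.1 2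
        exact mul_le_mul_of_nonneg_left this hL.le
      have k0 : 0 ≤ k x := by
        simp only [hk]
        rw [sub_nonneg, div_le_one (by positivity)]; nlinarith
      have k1 : k x ≤ 1 := by
        simp only [hk]
        have : 0 ≤ 1 / (4 * L * x ^ 2) := by positivity
        linarith
      have c1 : -(1 / (2 * x ^ 2) * M x ^ 2) ≤ (x * Lam' x - 1 / (2 * x ^ 2)) * M x ^ 2 * k x := by
        have t1 : 0 ≤ x * Lam' x * M x ^ 2 * k x := by positivity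
        have t2 : 1 / (2 * x ^ 2) * M x ^ 2 * k x ≤ 1 / (2 * x ^ 2) * M x ^ 2 * 1 := by
          gcongr
        nlinarith
      have c2 : 1 / (2 * x ^ 2) * M x ^ 2 ≤ H x * (1 / (2 * L * x ^ 3)) := by
        have t1 : x * L * M x ^ 2 ≤ H x := by
          have : 0 ≤ M x ^ 2 / (4 * x) := by positivity
          linarith
        calc 1 / (2 * x ^ 2) * M x ^ 2 = x * L * M x ^ 2 * (1 / (2 * L * x ^ 3)) := by
              field_simp
          _ ≤ _ := by gcongr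
      linarith
  have mm := mono (left_mem_Icc.2 hrR) (right_mem_Icc.2 hrR) hrR
  simp only at mm
  have kr : k r = 3 / 4 := by
    simp only [hk]
    rw [mul_assoc, hLr]; norm_num
  have kR : k R ≤ 1 := by
    simp only [hk]
    have : 0 ≤ 1 / (4 * L * R ^ 2) := by positivity
    linarith
  have HR0 : 0 ≤ H R := by
    refine le_trans ?_ (hHl R ⟨hR, le_rfl⟩)
    positivity
  have q1 : H r * (3 / 4) ≤ H R := by
    rw [kr] at mm
    refine mm.trans ?_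
    calc H R * k R ≤ H R * 1 := by gcongr
      _ = H R := mul_one _
  have q2 := hHl r ⟨hr0, hrR⟩
  have q3 : r * L = √L := by
    rw [hr, div_mul_eq_mul_div, one_mul]
    rw [div_eq_iff sL.ne', ← pow_two, sq]
  have q4 : 1 / (4 * r) = √L / 4 := by rw [hr]; field_simp
  have q5 : M r ^ 2 / (4 * r) = √L / 4 * M r ^ 2 := by
    rw [← q4]; ring
  rw [q3, q5] at q2
  have q6 : √L / 4 * M 0 ^ 2 ≤ H R := by
    have : √L * (9 / 25 * M 0 ^ 2) ≤ √L * M r ^ 2 := by gcongr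
    have hp : 0 ≤ √L * M 0 ^ 2 := by positivity
    nlinarith
  have q7 : H R ≤ (2 / R) * ((R * P R) ^ 2 + R ^ 2 * Lam R * M R ^ 2) := by
    have e1 : R ^ 2 * Lam R * M R ^ 2 ≥ M R ^ 2 := by
      have t1 : 1 ≤ R ^ 2 * Lam R := by
        have := h1 R ⟨hR.le, le_rfl⟩
        calc 1 ≤ L * R ^ 2 := hLR
          _ = R ^ 2 * L := by ring
          _ ≤ R ^ 2 * Lam R := by gcongr
      nlinarith [sq_nonneg (M R)]
    have e2 : H R = (1 / R) * (N R ^ 2 + N R * M R + M R ^ 2 / 2 + R ^ 2 * Lam R * M R ^ 2) := by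
      simp only [hH]; field_simp
    rw [e2]
    have e3 : N R ^ 2 + N R * M R + M R ^ 2 / 2 + R ^ 2 * Lam R * M R ^ 2 ≤
        2 * ((R * P R) ^ 2 + R ^ 2 * Lam R * M R ^ 2) := by
      have e4 : N R = R * P R := rfl
      rw [e4]
      have e5 := sq_nonneg (R * P R - M R)
      have e7 : (R * P R - M R) ^ 2 = (R * P R) ^ 2 - 2 * (R * P R * M R) + M R ^ 2 := by ring
      have e6 : R * P R * M R ≤ (R * P R) ^ 2 / 2 + M R ^ 2 / 2 := by linarith
      linarith [sq_nonneg (R * P R), sq_nonneg (M R)]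
    calc _ ≤ (1 / R) * (2 * ((R * P R) ^ 2 + R ^ 2 * Lam R * M R ^ 2)) := by gcongr
      _ = _ := by ring
  have q8 : √L / 4 * M 0 ^ 2 ≤ (2 / R) * (4 * L * ∫ s in (0:ℝ)..R, s * M s ^ 2) :=
    (q6.trans q7).trans (by gcongr)
  have q9 : √L * M 0 ^ 2 ≤ √L * (32 * (√L / R) * ∫ s in (0:ℝ)..R, s * M s ^ 2) := by
    calc √L * M 0 ^ 2 = 4 * (√L / 4 * M 0 ^ 2) := by ring
      _ ≤ 4 * ((2 / R) * (4 * L * ∫ s in (0:ℝ)..R, s * M s ^ 2)) := by gcongr
      _ = 4 * ((2 / R) * (4 * √L ^ 2 * ∫ s in (0:ℝ)..R, s * M s ^ 2)) := by rw [sq]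
      _ = _ := by ring
  exact le_of_mul_le_mul_left q9 sL

end

end Pool.Agent.Y265.HY
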