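import Pool.Agent.Y265.HY.SB1
import Pool.Agent.Y265.HY.SB2

/-! The pointwise bound for solutions on the disc. -/
set_option autoImplicit false
open MeasureTheory Filter Topology Complex Set
open scoped ContDiff Real

namespace Pool.Agent.Y265.HY

noncomputable section

lemma PP0 {F : ℂ → ℝ} : PP' F 0 = 0 := by
  unfold PP' Av
  have h1 : ∀ θ : ℝ, ((0 : ℝ) : ℂ) * ev θ = 0 := fun θ => by simp
  simp only [h1]
  rw [intervalIntegral.integral_mul_const, intervalIntegral.integral_mul_const, integral_cos,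
    integral_sin]
  simp

lemma MM0 {F : ℂ → ℝ} : MM F 0 = 2 * π * F 0 := by
  unfold MM Av
  have h1 : ∀ θ : ℝ, ((0 : ℝ) : ℂ) * ev θ = 0 := fun θ => by simp
  simp only [h1]
  rw [intervalIntegral.integral_const]
  simp only [one_mul, smul_eq_mul]; ring

lemma cs_mean {f : ℝ → ℝ} (hf : Continuous f) :
    (∫ θ in (-π)..π, f θ) ^ 2 ≤ 2 * π * ∫ θ in (-π)..π, f θ ^ 2 := by
  have hp := Real.pi_pos
  set t : ℝ := (∫ θ in (-π)..π, f θ) / (2 * π) with ht
  have h0 : 0 ≤ ∫ θ in (-π)..π, (f θ - t) ^ 2 :=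
    intervalIntegral.integral_nonneg (by linarith) fun θ _ => sq_nonneg _
  have e : ∫ θ in (-π)..π, (f θ - t) ^ 2 = (∫ θ in (-π)..π, f θ ^ 2) -
      2 * t * (∫ θ in (-π)..π, f θ) + t ^ 2 * (2 * π) := by
    have i1 : IntervalIntegrable (fun θ => f θ ^ 2) volume (-π) π :=
      (hf.pow 2).intervalIntegrable _ _
    have i2 : IntervalIntegrable (fun θ => 2 * t * f θ) volume (-π) π :=
      (continuous_const.mul hf).intervalIntegrable _ _
    have i3 : IntervalIntegrable (fun _ : ℝ => t ^ 2) volume (-π) π :=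
      continuous_const.intervalIntegrable _ _
    have i12 : IntervalIntegrable (fun θ => f θ ^ 2 - 2 * t * f θ) volume (-π) π := i1.sub i2
    have e3 : ∫ _ in (-π)..π, t ^ 2 = t ^ 2 * (2 * π) := by
      rw [intervalIntegral.integral_const]; simp; ring
    rw [← e3, ← intervalIntegral.integral_const_mul, ← intervalIntegral.integral_sub i1 i2,
      ← intervalIntegral.integral_add i12 i3]
    refine intervalIntegral.integral_congr fun θ _ => ?_
    ring
  rw [e] at h0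
  have e2 : (∫ θ in (-π)..π, f θ) = t * (2 * π) := by rw [ht]; field_simp
  rw [e2] at h0 ⊢
  nlinarith

lemma polar {F : ℂ → ℝ} (hF : Continuous F) {R : ℝ} (hR : 0 < R) :
    ∫ z in Metric.ball (0 : ℂ) R, F z ^ 2 =
      ∫ s in (0:ℝ)..R, s * ∫ θ in (-π)..π, F ((s : ℂ) * ev θ) ^ 2 := by
  have hp := Real.pi_pos
  have pol := Complex.integral_comp_polarCoord_symm
    (fun z => (Metric.ball (0:ℂ) R).indicator (fun z => F z ^ 2) z)
  rw [integral_indicator measurableSet_ball] at pol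
  rw [← pol]
  have cG : Continuous (fun p : ℝ × ℝ => p.1 * F ((p.1 : ℂ) * ev p.2) ^ 2) :=
    continuous_fst.mul ((hF.comp arg_cont).pow 2)
  have e1 : ∫ p in Ioi (0:ℝ) ×ˢ Ioo (-π) π, p.1 • (Metric.ball (0:ℂ) R).indicator
      (fun z => F z ^ 2) (Complex.polarCoord.symm p) =
      ∫ p in Ioo (0:ℝ) R ×ˢ Ioo (-π) π, p.1 * F ((p.1 : ℂ) * ev p.2) ^ 2 := by
    rw [← integral_indicator (measurableSet_Ioi.prod measurableSet_Ioo),
      ← integral_indicator (measurableSet_Ioo.prod measurableSet_Ioo)]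
    congr 1; funext p
    have hs : Complex.polarCoord.symm p = (p.1 : ℂ) * ev p.2 := by
      rw [Complex.polarCoord_symm_apply]; rfl
    have hn : ‖(p.1 : ℂ) * ev p.2‖ = |p.1| := by
      rw [norm_mul, ev_norm, mul_one, Complex.norm_real, Real.norm_eq_abs]
    by_cases h1 : p ∈ Ioi (0:ℝ) ×ˢ Ioo (-π) π
    · rw [indicator_of_mem h1]
      have h0 : 0 < p.1 := h1.1
      by_cases h2 : p.1 < R
      · have h3 : p ∈ Ioo (0:ℝ) R ×ˢ Ioo (-π) π := ⟨⟨h0, h2⟩, h1.2⟩
        have h4 : (p.1 : ℂ) * ev p.2 ∈ Metric.ball (0:ℂ) R := by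
          rw [mem_ball_zero_iff, hn, abs_of_pos h0]; exact h2
        rw [indicator_of_mem h3, hs, indicator_of_mem h4, smul_eq_mul]
      · have h3 : p ∉ Ioo (0:ℝ) R ×ˢ Ioo (-π) π := fun h => h2 h.1.2
        have h4 : (p.1 : ℂ) * ev p.2 ∉ Metric.ball (0:ℂ) R := by
          rw [mem_ball_zero_iff, hn, abs_of_pos h0]; exact h2
        rw [indicator_of_notMem h3, hs, indicator_of_notMem h4, smul_zero]
    · have h3 : p ∉ Ioo (0:ℝ) R ×ˢ Ioo (-π) π := fun h => h1 ⟨h.1.1, h.2⟩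
      rw [indicator_of_notMem h1, indicator_of_notMem h3]
  have e0 : polarCoord.target = Ioi (0:ℝ) ×ˢ Ioo (-π) π := rfl
  rw [e0, e1]
  have hint : IntegrableOn (fun p : ℝ × ℝ => p.1 * F ((p.1 : ℂ) * ev p.2) ^ 2)
      (Ioo (0:ℝ) R ×ˢ Ioo (-π) π) (volume.prod volume) :=
    (cG.continuousOn.integrableOn_compact (isCompact_Icc.prod isCompact_Icc)).mono_set
      (prod_mono Ioo_subset_Icc_self Ioo_subset_Icc_self)
  have e2 := setIntegral_prod (μ := volume) (ν := volume)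
    (fun p : ℝ × ℝ => p.1 * F ((p.1 : ℂ) * ev p.2) ^ 2) hint
  rw [Measure.volume_eq_prod, e2, intervalIntegral.integral_of_le hR.le,
    integral_Ioc_eq_integral_Ioo]
  congr 1; funext s
  rw [intervalIntegral.integral_of_le (by linarith), integral_Ioc_eq_integral_Ioo,
    integral_const_mul]

/-- the pointwise bound -/
theorem ptw {F : ℂ → ℝ} (hF : ContDiff ℝ ∞ F) {L R : ℝ} (hL : 0 < L) (hR : 0 < R)
    (hR4 : R ≤ 1 / 4) (hLR : 1 ≤ L * R ^ 2)
    (pde : ∀ z : ℂ, ‖z‖ ≤ R → fx (fx F) z + fy (fy F) z = -(L / (1 - ‖z‖ ^ 2) ^ 2 * F z)) :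
    F 0 ^ 2 ≤ 16 / π * (√L / R) * ∫ z in Metric.ball (0 : ℂ) R, F z ^ 2 := by
  have hp := Real.pi_pos
  have cF := hF.continuous
  have ce : ∀ ρ : ℝ, Continuous (fun θ : ℝ => (ρ : ℂ) * ev θ) := fun ρ =>
    continuous_const.mul ev_cont
  have bd : ∀ ρ ∈ Icc 0 R, 15 / 16 ≤ 1 - ρ ^ 2 := fun ρ hρ => by
    have : ρ ^ 2 ≤ (1 / 4) ^ 2 := pow_le_pow_left₀ hρ.1 (hρ.2.trans hR4) 2
    norm_num at this ⊢; linarith
  have bd1 : ∀ ρ ∈ Icc 0 R, 1 - ρ ^ 2 ≤ 1 := fun ρ hρ => by nlinarith [sq_nonneg ρ]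
  have en := energy (M := MM F) (P := PP' F) (Lam := fun ρ => L / (1 - ρ ^ 2) ^ 2)
    (Lam' := fun ρ => 4 * L * ρ / (1 - ρ ^ 2) ^ 3) hL hR hLR (fun ρ => MM_d hF ρ) PP0
    (fun ρ hρ => by
      refine (NN_d hF ρ).congr_deriv ?_
      have e : Av (fun _ => 1) (fun z => fx (fx F) z + fy (fy F) z) ρ =
          -(L / (1 - ρ ^ 2) ^ 2 * MM F ρ) := by
        unfold MM Av
        rw [← intervalIntegral.integral_const_mul, ← intervalIntegral.integral_neg]
        refine intervalIntegral.integral_congr fun θ _ => ?_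
        have hn : ‖(ρ : ℂ) * ev θ‖ = ρ := by
          rw [norm_mul, ev_norm, mul_one, Complex.norm_real, Real.norm_eq_abs, abs_of_nonneg hρ.1]
        have := pde ((ρ : ℂ) * ev θ) (by rw [hn]; exact hρ.2)
        rw [hn] at this
        simp only [this]; ring
      rw [e]; ring)
    (fun ρ hρ => by
      have hb := bd ρ hρ
      have hne : (1 - ρ ^ 2) ≠ 0 := by linarith
      have d1 := (((hasDerivAt_const ρ (1:ℝ)).sub (hasDerivAt_pow 2 ρ)).pow 2)
      have d2 := (hasDerivAt_const ρ L).div d1 (by simpa using pow_ne_zero 2 hne)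
      refine d2.congr_deriv ?_
      simp only [Nat.cast_ofNat, Pi.sub_apply, Pi.pow_apply, Nat.add_one_sub_one, pow_one]
      field_simp
      ring)
    (fun ρ hρ => by
      have := bd ρ hρ
      have h3 : 0 < (1 - ρ ^ 2) ^ 3 := by
        have : 0 < 1 - ρ ^ 2 := by linarith
        positivity
      exact div_nonneg (mul_nonneg (by positivity) hρ.1) h3.le)
    (fun ρ hρ => by
      have := bd ρ hρ
      have h2 : 0 < (1 - ρ ^ 2) ^ 2 := by
        have : 0 < 1 - ρ ^ 2 := by linarith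
        positivity
      rw [le_div_iff₀ h2]
      have : (1 - ρ ^ 2) ^ 2 ≤ 1 := pow_le_one₀ (by linarith) (bd1 ρ hρ)
      nlinarith)
    (fun ρ hρ => by
      have hb := bd ρ hρ
      have h2 : 0 < (1 - ρ ^ 2) ^ 2 := by
        have : 0 < 1 - ρ ^ 2 := by linarith
        positivity
      rw [div_le_iff₀ h2]
      have : (15 / 16) ^ 2 ≤ (1 - ρ ^ 2) ^ 2 := pow_le_pow_left₀ (by norm_num) hb 2
      nlinarith)
    (fun ρ hρ => by
      have hb := bd ρ hρ
      have hx : 0 < 1 - ρ ^ 2 := by linarith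
      have h2 : 0 < (1 - ρ ^ 2) ^ 2 := by positivity
      have h3 : 0 < (1 - ρ ^ 2) ^ 3 := by positivity
      have e1 : 2 * (L / (1 - ρ ^ 2) ^ 2) + ρ * (4 * L * ρ / (1 - ρ ^ 2) ^ 3) =
          L * ((2 * (1 - ρ ^ 2) + 4 * ρ ^ 2) / (1 - ρ ^ 2) ^ 3) := by
        field_simp
      rw [e1]
      have e2 : (2 * (1 - ρ ^ 2) + 4 * ρ ^ 2) / (1 - ρ ^ 2) ^ 3 ≤ 4 := by
        rw [div_le_iff₀ h3]
        have : (15 / 16) ^ 3 ≤ (1 - ρ ^ 2) ^ 3 := pow_le_pow_left₀ (by norm_num) hb 3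
        nlinarith
      nlinarith)
  have cs : ∀ s : ℝ, MM F s ^ 2 ≤ 2 * π * ∫ θ in (-π)..π, F ((s : ℂ) * ev θ) ^ 2 := fun s => by
    have := cs_mean (cF.comp (ce s))
    simpa [MM, Av] using this
  have cM : Continuous (MM F) := continuous_iff_continuousAt.2 fun x => (MM_d hF x).continuousAt
  have cM2 : Continuous (fun s : ℝ => ∫ θ in (-π)..π, F ((s : ℂ) * ev θ) ^ 2) := by
    have : Continuous (MM (fun z => F z ^ 2)) := continuous_iff_continuousAt.2 fun x =>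
      (MM_d (hF.pow 2) x).continuousAt
    have e : MM (fun z => F z ^ 2) = fun s : ℝ => ∫ θ in (-π)..π, F ((s : ℂ) * ev θ) ^ 2 := by
      funext s; simp [MM, Av]
    rwa [e] at this
  have le1 : ∫ s in (0:ℝ)..R, s * MM F s ^ 2 ≤
      ∫ s in (0:ℝ)..R, 2 * π * (s * ∫ θ in (-π)..π, F ((s : ℂ) * ev θ) ^ 2) := by
    refine intervalIntegral.integral_mono_on hR.le ((continuous_id.mul (cM.pow 2)).intervalIntegrable
      _ _) ((continuous_const.mul (continuous_id.mul cM2)).intervalIntegrable _ _) fun s hs => ?_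
    have h1 := mul_le_mul_of_nonneg_left (cs s) hs.1
    calc s * MM F s ^ 2 ≤ s * (2 * π * ∫ θ in (-π)..π, F ((s : ℂ) * ev θ) ^ 2) := h1
      _ = _ := by ring
  rw [intervalIntegral.integral_const_mul, ← polar cF hR] at le1
  rw [MM0] at en
  have k0 : 0 ≤ 32 * (√L / R) := by positivity
  have en2 := en.trans (mul_le_mul_of_nonneg_left le1 k0)
  have hpp : (0:ℝ) < (2 * π) ^ 2 := by positivity
  have : (2 * π) ^ 2 * F 0 ^ 2 ≤ (2 * π) ^ 2 * (16 / π * (√L / R) *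
      ∫ z in Metric.ball (0 : ℂ) R, F z ^ 2) := by
    calc (2 * π) ^ 2 * F 0 ^ 2 = (2 * π * F 0) ^ 2 := by ring
      _ ≤ 32 * (√L / R) * (2 * π * ∫ z in Metric.ball (0 : ℂ) R, F z ^ 2) := en2
      _ = _ := by field_simp; ring
  exact le_of_mul_le_mul_left this hpp

end

end Pool.Agent.Y265.HY
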