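import Pool.Agent.Y265.HY.SB3
import Pool.Agent.Y265.HY.G

/-! Pointwise bounds on the hyperbolic plane. -/
set_option autoImplicit false
open MeasureTheory Filter Topology Complex Set
open scoped ContDiff Real Manifold

namespace Pool.Agent.Y265.HY

open Pool.Agent.W745.RW Pool.Agent.TH294.RS
open Pool.Agent.Y265.RW (cutoff)

noncomputable section

lemma det_mul (c : ℂ) (L : ℂ →L[ℝ] ℂ) (hL : ∀ v, L v = c * v) : L.det = Complex.normSq c := by
  have h1 : (L : ℂ →ₗ[ℝ] ℂ) = Algebra.lmul ℝ ℂ c := by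
    ext v
    all_goals simp [hL]
  rw [ContinuousLinearMap.det, h1, ← Algebra.norm_complex_apply]
  rfl

/-- the disc coordinates centred at `p` -/
def tau (p w : ℂ) : ℂ := (p.re : ℂ) + (p.im : ℂ) * I * ((1 + w) / (1 - w))
def tau1 (p w : ℂ) : ℂ := 2 * (p.im : ℂ) * I / (1 - w) ^ 2
def tau2 (p w : ℂ) : ℂ := 4 * (p.im : ℂ) * I / (1 - w) ^ 3

lemma one_sub_ne {w : ℂ} (hw : ‖w‖ < 1) : 1 - w ≠ 0 := fun h => by
  have : w = 1 := by linear_combination -h
  rw [this, norm_one] at hw; exact lt_irrefl _ hw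

lemma tau_d (p : ℂ) {w : ℂ} (hw : ‖w‖ < 1) : HasDerivAt (tau p) (tau1 p w) w := by
  have h0 := one_sub_ne hw
  have d1 := (((hasDerivAt_id w).const_add 1).div ((hasDerivAt_id w).const_sub 1) h0).const_mul
    ((p.im : ℂ) * I)
  refine (d1.const_add (p.re : ℂ)).congr_deriv ?_
  simp only [id, tau1]
  field_simp
  ring

lemma tau1_d (p : ℂ) {w : ℂ} (hw : ‖w‖ < 1) : HasDerivAt (tau1 p) (tau2 p w) w := by
  have h0 := one_sub_ne hw
  have d1 := ((hasDerivAt_const w (2 * (p.im : ℂ) * I)).div (((hasDerivAt_id w).const_sub 1).pow 2)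
    (pow_ne_zero 2 h0))
  refine d1.congr_deriv ?_
  simp only [id, tau2, Nat.cast_ofNat, Nat.add_one_sub_one, pow_one, zero_mul, zero_sub,
    Pi.pow_apply]
  field_simp
  ring

lemma tau_0 (p : ℂ) : tau p 0 = p := by
  simp only [tau, add_zero, sub_zero, div_one, mul_one]
  exact re_add_im p

lemma tau_im {p w : ℂ} (hw : ‖w‖ < 1) :
    (tau p w).im = p.im * (1 - normSq w) / normSq (1 - w) := by
  have h0 := one_sub_ne hw
  have h1 : normSq (1 - w) ≠ 0 := (normSq_pos.2 h0).ne'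
  unfold tau
  rw [add_im, ofReal_im, zero_add, mul_assoc, im_ofReal_mul, I_mul_im, div_re, ← add_div]
  rw [mul_div_assoc]
  congr 2
  simp only [normSq_apply, add_re, one_re, sub_re, add_im, one_im, sub_im]
  ring

lemma tau_inj {p : ℂ} (hp : 0 < p.im) {v w : ℂ} (hv : ‖v‖ < 1) (hw : ‖w‖ < 1)
    (h : tau p v = tau p w) : v = w := by
  have h0 := one_sub_ne hv
  have h1 := one_sub_ne hw
  have hpi : (p.im : ℂ) * I ≠ 0 := mul_ne_zero (by exact_mod_cast hp.ne') I_ne_zero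
  have h2 : (1 + v) / (1 - v) = (1 + w) / (1 - w) := by
    unfold tau at h
    exact mul_left_cancel₀ hpi (add_left_cancel h)
  rw [div_eq_div_iff h0 h1] at h2
  linear_combination (1 / 2) * h2

lemma tau_near {p : ℂ} (hp : 0 < p.im) {R : ℝ} (hR4 : R ≤ 1 / 4) {w : ℂ}
    (hw : ‖w‖ ≤ R) : ‖tau p w - p‖ ≤ 8 / 3 * p.im * ‖w‖ := by
  have hw1 : ‖w‖ < 1 := by linarith
  have h0 := one_sub_ne hw1
  have e : tau p w - p = (p.im : ℂ) * I * (2 * w / (1 - w)) := by
    have e1 : tau p w - p = tau p w - ((p.re : ℂ) + (p.im : ℂ) * I) := by rw [re_add_im]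
    rw [e1]
    unfold tau
    field_simp
    ring
  rw [e, norm_mul, norm_mul, norm_div, norm_mul, Complex.norm_real, norm_I, Real.norm_eq_abs,
    abs_of_pos hp]
  have h3 : 3 / 4 ≤ ‖1 - w‖ := by
    have := norm_sub_norm_le (1 : ℂ) w
    rw [norm_one] at this
    linarith
  have h4 : ‖(2 : ℂ)‖ = 2 := by simp
  rw [h4]
  have h5 : 2 * ‖w‖ / ‖1 - w‖ ≤ 8 / 3 * ‖w‖ := by
    rw [div_le_iff₀ (by linarith)]
    nlinarith [norm_nonneg w]
  calc p.im * 1 * (2 * ‖w‖ / ‖1 - w‖) ≤ p.im * 1 * (8 / 3 * ‖w‖) := by gcongr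
    _ = _ := by ring

/-- the chain rule for the Laplacian -/
lemma lap_comp {B V : Set ℂ} (hB : IsOpen B) (hV : IsOpen V) {T T1 T2 : ℂ → ℂ}
    (d1 : ∀ w ∈ V, HasDerivAt T (T1 w) w) (d2 : ∀ w ∈ V, HasDerivAt T1 (T2 w) w)
    (hVB : ∀ w ∈ V, T w ∈ B) {u : ℂ → ℝ} (hu : ContDiffOn ℝ ∞ u B) {w : ℂ} (hw : w ∈ V) :
    lap (fun w => u (T w)) w = normSq (T1 w) * lap u (T w) := by
  have hdu : ∀ v : ℂ, ContDiffOn ℝ ∞ (fun z => fderiv ℝ u z v) B := fun v =>
    (hu.fderiv_of_isOpen hB (by simp)).clm_apply contDiffOn_const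
  have ch : ∀ {g : ℂ → ℝ}, ContDiffOn ℝ ∞ g B → ∀ w ∈ V, HasFDerivAt (fun w => g (T w))
      ((fderiv ℝ g (T w)).comp ((ContinuousLinearMap.toSpanSingleton ℂ (T1 w)).restrictScalars ℝ))
        w := by
    intro g hg w hw
    have a1 := ((hg.contDiffAt (hB.mem_nhds (hVB w hw))).differentiableAt (by simp)).hasFDerivAt
    have a2 := (d1 w hw).hasFDerivAt.restrictScalars ℝ
    exact a1.comp w a2
  have chv : ∀ {g : ℂ → ℝ}, ContDiffOn ℝ ∞ g B → ∀ w ∈ V, ∀ v : ℂ,
      fderiv ℝ (fun w => g (T w)) w v = fderiv ℝ g (T w) (v * T1 w) := by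
    intro g hg w hw v
    rw [(ch hg w hw).fderiv]
    simp
  have lin : ∀ (g : ℂ → ℝ) (z c : ℂ), fderiv ℝ g z c = c.re * dx g z + c.im * dy g z := by
    intro g z c
    have h1 : c = c.re • (1 : ℂ) + c.im • I := by
      simp
    conv_lhs => rw [h1]
    rw [map_add, map_smul, map_smul]; rfl
  have X1 : ∀ {g : ℂ → ℝ}, ContDiffOn ℝ ∞ g B → ∀ w ∈ V, dx (fun w => g (T w)) w =
      (T1 w).re * dx g (T w) + (T1 w).im * dy g (T w) := by
    intro g hg w hw
    show fderiv ℝ _ w 1 = _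
    rw [chv hg w hw, one_mul, lin]
  have X2 : ∀ {g : ℂ → ℝ}, ContDiffOn ℝ ∞ g B → ∀ w ∈ V, dy (fun w => g (T w)) w =
      -(T1 w).im * dx g (T w) + (T1 w).re * dy g (T w) := by
    intro g hg w hw
    show fderiv ℝ _ w I = _
    rw [chv hg w hw, lin]
    simp
  -- derivatives of the coefficients
  have aT : HasFDerivAt T1 ((ContinuousLinearMap.toSpanSingleton ℂ (T2 w)).restrictScalars ℝ) w :=
    (d2 w hw).hasFDerivAt.restrictScalars ℝ
  have aRe : HasFDerivAt (fun w => (T1 w).re) (reCLM.comp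
      ((ContinuousLinearMap.toSpanSingleton ℂ (T2 w)).restrictScalars ℝ)) w :=
    reCLM.hasFDerivAt.comp w aT
  have aIm : HasFDerivAt (fun w => (T1 w).im) (imCLM.comp
      ((ContinuousLinearMap.toSpanSingleton ℂ (T2 w)).restrictScalars ℝ)) w :=
    imCLM.hasFDerivAt.comp w aT
  have sx : ContDiffOn ℝ ∞ (dx u) B := hdu 1
  have sy : ContDiffOn ℝ ∞ (dy u) B := hdu I
  have cx := ch sx w hw
  have cy := ch sy w hw
  have E1 : dx (dx (fun w => u (T w))) w = dx (fun w => (T1 w).re * dx u (T w) +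
      (T1 w).im * dy u (T w)) w := by
    show fderiv ℝ _ w 1 = fderiv ℝ _ w 1
    have : dx (fun w => u (T w)) =ᶠ[𝓝 w] fun w => (T1 w).re * dx u (T w) +
      (T1 w).im * dy u (T w) := by
      filter_upwards [hV.mem_nhds hw] with x hx using X1 hu x hx
    rw [this.fderiv_eq]
  have E2 : dy (dy (fun w => u (T w))) w = dy (fun w => -(T1 w).im * dx u (T w) +
      (T1 w).re * dy u (T w)) w := by
    show fderiv ℝ _ w I = fderiv ℝ _ w I
    have : dy (fun w => u (T w)) =ᶠ[𝓝 w] fun w => -(T1 w).im * dx u (T w) +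
      (T1 w).re * dy u (T w) := by
      filter_upwards [hV.mem_nhds hw] with x hx using X2 hu x hx
    rw [this.fderiv_eq]
  have F1 : HasFDerivAt (fun w => (T1 w).re * dx u (T w) + (T1 w).im * dy u (T w)) _ w :=
    (aRe.mul cx).add (aIm.mul cy)
  have F2 : HasFDerivAt (fun w => -(T1 w).im * dx u (T w) + (T1 w).re * dy u (T w)) _ w :=
    (aIm.neg.mul cx).add (aRe.mul cy)
  have G1 : dx (fun w => (T1 w).re * dx u (T w) + (T1 w).im * dy u (T w)) w =
      ((T1 w).re * ((T1 w).re * dx (dx u) (T w) + (T1 w).im * dy (dx u) (T w)) +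
        dx u (T w) * (T2 w).re) +
      ((T1 w).im * ((T1 w).re * dx (dy u) (T w) + (T1 w).im * dy (dy u) (T w)) +
        dy u (T w) * (T2 w).im) := by
    show fderiv ℝ _ w 1 = _
    rw [F1.fderiv]
    simp only [add_apply, smul_apply, ContinuousLinearMap.comp_apply,
      ContinuousLinearMap.coe_restrictScalars', ContinuousLinearMap.toSpanSingleton_apply,
      smul_eq_mul, one_mul, lin, reCLM_apply, imCLM_apply]
  have G2 : dy (fun w => -(T1 w).im * dx u (T w) + (T1 w).re * dy u (T w)) w =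
      (-(T1 w).im * (-(T1 w).im * dx (dx u) (T w) + (T1 w).re * dy (dx u) (T w)) +
        dx u (T w) * -(T2 w).re) +
      ((T1 w).re * (-(T1 w).im * dx (dy u) (T w) + (T1 w).re * dy (dy u) (T w)) +
        dy u (T w) * -(T2 w).im) := by
    show fderiv ℝ _ w I = _
    rw [F2.fderiv]
    simp only [add_apply, smul_apply, neg_apply, Pi.neg_apply, ContinuousLinearMap.comp_apply,
      ContinuousLinearMap.coe_restrictScalars', ContinuousLinearMap.toSpanSingleton_apply,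
      smul_eq_mul, lin, reCLM_apply, imCLM_apply, I_mul_re, I_mul_im]
  simp only [lap]
  rw [E1, E2, G1, G2, normSq_apply]
  ring

end

end Pool.Agent.Y265.HY
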