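import Pool.Agent.Y265.HY.SB4

/-! Pointwise bounds on the hyperbolic plane. -/
set_option autoImplicit false
open MeasureTheory Filter Topology Complex Set
open scoped ContDiff Real Manifold

namespace Pool.Agent.Y265.HY

open Pool.Agent.W745.RW Pool.Agent.TH294.RS
open Pool.Agent.Y265.RW (cutoff)

noncomputable section

lemma nq_tau1 (p w : ℂ) : normSq (tau1 p w) = 4 * p.im ^ 2 / normSq (1 - w) ^ 2 := by
  unfold tau1
  rw [normSq_div, map_pow, normSq_mul, normSq_mul, normSq_I, normSq_ofReal]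
  have : normSq (2 : ℂ) = 4 := by
    rw [show (2 : ℂ) = ((2 : ℝ) : ℂ) by norm_num, normSq_ofReal]; norm_num
  rw [this]; ring

theorem disc_bound {B : Set ℂ} (hB : IsOpen B) {u : ℂ → ℝ} (hu : ContDiffOn ℝ ∞ u B) {lam : ℝ}
    (hlam : 0 < lam) (pde : ∀ z ∈ B, z.im ^ 2 * lap u z = -(lam * u z)) {p : ℂ} (hp : 0 < p.im)
    {R : ℝ} (hR0 : 0 < R) (hR : R ≤ 1 / 8) (hsub : Metric.closedBall p (6 * p.im * R) ⊆ B)
    (hlamR : 1 ≤ 4 * lam * R ^ 2) :
    u p ^ 2 ≤ 16 / π * (√(4 * lam) / R) * ((p.im ^ 2)⁻¹ *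
      ∫ z in Metric.ball p (3 * p.im * R), u z ^ 2) := by
  have hpi := Real.pi_pos
  set V : Set ℂ := Metric.ball (0 : ℂ) 1 ∩ tau p ⁻¹' B with hVd
  have ct : ContinuousOn (tau p) (Metric.ball (0 : ℂ) 1) := fun w hw =>
    (tau_d p (by simpa using hw)).continuousAt.continuousWithinAt
  have hV : IsOpen V := ct.isOpen_inter_preimage Metric.isOpen_ball hB
  have V1 : ∀ w ∈ V, ‖w‖ < 1 := fun w hw => by simpa using hw.1
  have hKV : Metric.closedBall (0 : ℂ) (2 * R) ⊆ V := by
    intro w hw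
    rw [mem_closedBall_zero_iff] at hw
    refine ⟨by rw [mem_ball_zero_iff]; linarith, hsub ?_⟩
    rw [Metric.mem_closedBall, dist_eq_norm]
    refine (tau_near hp (R := 2 * R) (by linarith) hw).trans ?_
    have : 8 / 3 * p.im * ‖w‖ ≤ 8 / 3 * p.im * (2 * R) := by gcongr
    nlinarith [mul_pos hp hR0]
  have sT : ContDiffOn ℝ ∞ (tau p) V := by
    have : ContDiffOn ℝ ∞ (fun w => (p.re : ℂ) + (p.im : ℂ) * I * ((1 + w) * (1 - w)⁻¹)) V :=
      contDiffOn_const.add (contDiffOn_const.mul ((contDiffOn_const.add contDiffOn_id).mul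
        (ContDiffOn.inv (contDiffOn_const.sub contDiffOn_id) fun w hw => one_sub_ne (V1 w hw))))
    exact this.congr fun w _ => by unfold tau; rw [div_eq_mul_inv]
  have sv : ContDiffOn ℝ ∞ (fun w => u (tau p w)) V := hu.comp sT fun w hw => hw.2
  obtain ⟨ζ, hζ, -, -, hζ1⟩ := cutoff hV (isCompact_closedBall (0 : ℂ) (2 * R)) hKV
  set F : ℂ → ℝ := fun w => ζ w * u (tau p w) with hF
  have sF : ContDiff ℝ ∞ F := (TF.mulc hV hζ sv).1
  have sub12 : Metric.closedBall (0 : ℂ) R ⊆ Metric.closedBall (0 : ℂ) (2 * R) :=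
    Metric.closedBall_subset_closedBall (by linarith)
  have Feq : ∀ w ∈ Metric.closedBall (0 : ℂ) R, F w = u (tau p w) := fun w hw => by
    simp only [hF]; rw [hζ1 w (sub12 hw), one_mul]
  have key := ptw sF (L := 4 * lam) (by positivity) hR0 (by linarith) hlamR (fun z hz => by
    have hzK : z ∈ Metric.closedBall (0 : ℂ) R := by rwa [mem_closedBall_zero_iff]
    have hzV : z ∈ V := hKV (sub12 hzK)
    have hev : F =ᶠ[𝓝 z] fun w => u (tau p w) := by
      have : Metric.ball (0 : ℂ) (2 * R) ∈ 𝓝 z := Metric.isOpen_ball.mem_nhds (by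
        rw [mem_ball_zero_iff]; linarith)
      filter_upwards [this] with x hx
      simp only [hF]; rw [hζ1 x (Metric.ball_subset_closedBall hx), one_mul]
    have hl : fx (fx F) z + fy (fy F) z = lap (fun w => u (tau p w)) z := by
      have h1 : ∀ v : ℂ, (fun w => fderiv ℝ F w v) =ᶠ[𝓝 z]
          fun w => fderiv ℝ (fun w => u (tau p w)) w v := fun v => by
        filter_upwards [hev.fderiv (𝕜 := ℝ)] with x hx
        rw [hx]
      have h2 : fderiv ℝ (fun w => fderiv ℝ F w 1) z 1 =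
          fderiv ℝ (fun w => fderiv ℝ (fun w => u (tau p w)) w 1) z 1 := by
        rw [(h1 1).fderiv_eq]
      have h3 : fderiv ℝ (fun w => fderiv ℝ F w I) z I =
          fderiv ℝ (fun w => fderiv ℝ (fun w => u (tau p w)) w I) z I := by
        rw [(h1 I).fderiv_eq]
      have e1 : fx (fx F) z = fderiv ℝ (fun w => fderiv ℝ F w 1) z 1 := rfl
      have e2 : fy (fy F) z = fderiv ℝ (fun w => fderiv ℝ F w I) z I := rfl
      rw [e1, e2, h2, h3]; rfl
    rw [hl, lap_comp hB hV (fun w hw => tau_d p (V1 w hw)) (fun w hw => tau1_d p (V1 w hw))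
      (fun w hw => hw.2) hu hzV, Feq z hzK]
    have hq := pde (tau p z) hzV.2
    rw [tau_im (V1 z hzV)] at hq
    rw [nq_tau1, ← Complex.normSq_eq_norm_sq]
    have hqp : 0 < normSq (1 - z) := normSq_pos.2 (one_sub_ne (V1 z hzV))
    have hmp : 0 < 1 - normSq z := by
      rw [Complex.normSq_eq_norm_sq]
      have := V1 z hzV
      nlinarith [norm_nonneg z]
    have e3 : 4 * p.im ^ 2 / normSq (1 - z) ^ 2 * lap u (tau p z) =
        4 / (1 - normSq z) ^ 2 * ((p.im * (1 - normSq z) / normSq (1 - z)) ^ 2 *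
          lap u (tau p z)) := by
      field_simp
    rw [e3, hq]
    ring)
  have F0 : F 0 = u p := by
    rw [Feq 0 (by simp [hR0.le]), tau_0]
  rw [F0] at key
  refine key.trans ?_
  have k0 : 0 ≤ 16 / π * (√(4 * lam) / R) := by positivity
  refine mul_le_mul_of_nonneg_left ?_ k0
  -- change of variables
  have cv : ContinuousOn (fun w => u (tau p w)) V := sv.continuousOn
  have e4 : ∫ z in Metric.ball (0 : ℂ) R, F z ^ 2 =
      ∫ z in Metric.ball (0 : ℂ) R, u (tau p z) ^ 2 :=
    setIntegral_congr_fun measurableSet_ball fun w hw => by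
      simp only [Feq w (Metric.ball_subset_closedBall hw)]
  rw [e4]
  have subV : Metric.closedBall (0 : ℂ) R ⊆ V := sub12.trans hKV
  have cu := integral_image_eq_integral_abs_det_fderiv_smul (μ := (volume : Measure ℂ))
    (measurableSet_ball (x := (0 : ℂ)) (ε := R))
    (f := tau p) (f' := fun w => (ContinuousLinearMap.toSpanSingleton ℂ (tau1 p w)).restrictScalars ℝ)
    (fun w hw => ((tau_d p (V1 w (subV (Metric.ball_subset_closedBall hw)))).hasFDerivAt.restrictScalars
      ℝ).hasFDerivWithinAt)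
    (fun v hv w hw h => tau_inj hp (V1 v (subV (Metric.ball_subset_closedBall hv)))
      (V1 w (subV (Metric.ball_subset_closedBall hw))) h) (fun z => u z ^ 2)
  have hdet : ∀ w : ℂ, ((ContinuousLinearMap.toSpanSingleton ℂ (tau1 p w)).restrictScalars ℝ :
      ℂ →L[ℝ] ℂ).det = normSq (tau1 p w) := fun w => det_mul _ _ fun v => by
    simp [mul_comm]
  have cu2 : ∫ x in tau p '' Metric.ball (0 : ℂ) R, u x ^ 2 =
      ∫ w in Metric.ball (0 : ℂ) R, normSq (tau1 p w) * u (tau p w) ^ 2 := by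
    rw [cu]
    refine setIntegral_congr_fun measurableSet_ball fun w _ => ?_
    simp only [hdet, smul_eq_mul]
    rw [abs_of_nonneg (normSq_nonneg _)]
  have hc1 : ContinuousOn (fun w => u (tau p w) ^ 2) (Metric.closedBall (0 : ℂ) R) :=
    (cv.mono subV).pow 2
  have hc2 : ContinuousOn (fun w => normSq (tau1 p w) * u (tau p w) ^ 2)
      (Metric.closedBall (0 : ℂ) R) := by
    refine ContinuousOn.mul ?_ hc1
    refine continuous_normSq.comp_continuousOn fun w hw => ?_
    exact (tau1_d p (V1 w (subV hw))).continuousAt.continuousWithinAt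
  have i1 : IntegrableOn (fun w => u (tau p w) ^ 2) (Metric.ball (0 : ℂ) R) :=
    (hc1.integrableOn_compact (isCompact_closedBall _ _)).mono_set Metric.ball_subset_closedBall
  have i2 : IntegrableOn (fun w => normSq (tau1 p w) * u (tau p w) ^ 2) (Metric.ball (0 : ℂ) R) :=
    (hc2.integrableOn_compact (isCompact_closedBall _ _)).mono_set Metric.ball_subset_closedBall
  have m1 : ∫ w in Metric.ball (0 : ℂ) R, p.im ^ 2 * u (tau p w) ^ 2 ≤
      ∫ w in Metric.ball (0 : ℂ) R, normSq (tau1 p w) * u (tau p w) ^ 2 := by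
    refine setIntegral_mono_on (i1.const_mul _) i2 measurableSet_ball fun w hw => ?_
    have hw' : ‖w‖ < R := by simpa using hw
    have hqp : 0 < normSq (1 - w) :=
      normSq_pos.2 (one_sub_ne (V1 w (subV (Metric.ball_subset_closedBall hw))))
    have hq2 : normSq (1 - w) ≤ 2 := by
      rw [Complex.normSq_eq_norm_sq]
      have : ‖1 - w‖ ≤ 9 / 8 := by
        refine (norm_sub_le _ _).trans ?_
        rw [norm_one]; linarith
      nlinarith [norm_nonneg (1 - w)]
    have : p.im ^ 2 ≤ normSq (tau1 p w) := by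
      rw [nq_tau1, le_div_iff₀ (by positivity)]
      have : normSq (1 - w) ^ 2 ≤ 4 := by nlinarith
      nlinarith [sq_nonneg p.im]
    gcongr
  rw [integral_const_mul, ← cu2] at m1
  have subI : tau p '' Metric.ball (0 : ℂ) R ⊆ Metric.ball p (3 * p.im * R) := by
    rintro _ ⟨w, hw, rfl⟩
    have hw' : ‖w‖ < R := by simpa using hw
    rw [Metric.mem_ball, dist_eq_norm]
    refine (tau_near hp (R := R) (by linarith) hw'.le).trans_lt ?_
    have : 8 / 3 * p.im * ‖w‖ ≤ 8 / 3 * p.im * R := by gcongr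
    nlinarith [mul_pos hp hR0]
  have i3 : IntegrableOn (fun z => u z ^ 2) (Metric.ball p (3 * p.im * R)) := by
    have : ContinuousOn (fun z => u z ^ 2) (Metric.closedBall p (6 * p.im * R)) :=
      (hu.continuousOn.mono hsub).pow 2
    refine (this.integrableOn_compact (isCompact_closedBall _ _)).mono_set ?_
    refine (Metric.ball_subset_ball ?_).trans Metric.ball_subset_closedBall
    nlinarith [mul_pos hp hR0]
  have m2 : ∫ x in tau p '' Metric.ball (0 : ℂ) R, u x ^ 2 ≤
      ∫ z in Metric.ball p (3 * p.im * R), u z ^ 2 :=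
    setIntegral_mono_set i3 (Eventually.of_forall fun z => sq_nonneg _)
      (LE.le.eventuallyLE subI)
  have hY : 0 < p.im ^ 2 := by positivity
  rw [← mul_le_mul_iff_right₀ hY, ← mul_assoc, mul_inv_cancel₀ hY.ne', one_mul]
  exact m1.trans m2

end

end Pool.Agent.Y265.HY
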