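import Pool.Agent.Y265.HY.SB5

/-! `h |f|² → 0` locally uniformly. -/
set_option autoImplicit false
open MeasureTheory Filter Topology Complex Set
open scoped ContDiff Real Manifold

namespace Pool.Agent.Y265.HY

open Pool.Agent.W745.RW Pool.Agent.TH294.RS
open Pool.Agent.Y265.RW (cutoff int_mulr)

noncomputable section

variable {B : Set ℂ} {h : ℕ → ℝ} {w : ℤ → ℕ → ℂ → ℂ}

lemma fd_re {f : ℂ → ℂ} {z : ℂ} (hf : DifferentiableAt ℝ f z) (v : ℂ) :
    fderiv ℝ (fun z => (f z).re) z v = (fderiv ℝ f z v).re := by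
  have := (reCLM.hasFDerivAt.comp z hf.hasFDerivAt).fderiv
  have e : fderiv ℝ (fun z => (f z).re) z = reCLM.comp (fderiv ℝ f z) := this
  rw [e]; rfl

lemma lap_re (hB : IsOpen B) {f : ℂ → ℂ} (hf : ContDiffOn ℝ ∞ f B) {z : ℂ} (hz : z ∈ B) :
    lap (fun z => (f z).re) z = (lap f z).re := by
  have h2 : ∀ v : ℂ, fderiv ℝ (fun w => fderiv ℝ (fun z => (f z).re) w v) z v =
      (fderiv ℝ (fun w => fderiv ℝ f w v) z v).re := by
    intro v
    have e : (fun w => fderiv ℝ (fun z => (f z).re) w v) =ᶠ[𝓝 z]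
        fun w => (fderiv ℝ f w v).re := by
      filter_upwards [hB.mem_nhds hz] with x hx using fd_re (fda hB hf hx) v
    rw [e.fderiv_eq, fd_re (f := fun w => fderiv ℝ f w v) (fda hB (cfd hB hf v) hz)]
  have e1 : lap (fun z => (f z).re) z =
      fderiv ℝ (fun w => fderiv ℝ (fun z => (f z).re) w 1) z 1 +
      fderiv ℝ (fun w => fderiv ℝ (fun z => (f z).re) w I) z I := rfl
  have e2 : lap f z = fderiv ℝ (fun w => fderiv ℝ f w 1) z 1 +
      fderiv ℝ (fun w => fderiv ℝ f w I) z I := rfl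
  rw [e1, e2, h2, h2, add_re]

/-- bumps -/
lemma bump {U : Set ℂ} (q : ℂ) {δ : ℝ} (hδ : 0 < δ) (hU : Metric.closedBall q (3 * δ) ⊆ U) :
    ∃ φ : ℂ → ℝ, TF U φ ∧ (∀ z, 0 ≤ φ z) ∧ (∀ z ∈ Metric.ball q (2 * δ), φ z = 1) ∧
      ∫ z, φ z ≤ 9 * π * δ ^ 2 := by
  have hp := Real.pi_pos
  let b : ContDiffBump q := ⟨2 * δ, 3 * δ, by positivity, by linarith⟩
  refine ⟨b, ⟨b.contDiff, b.hasCompactSupport, ?_⟩, fun z => b.nonneg, fun z hz =>
    b.one_of_mem_closedBall (Metric.ball_subset_closedBall hz), ?_⟩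
  · rw [b.tsupport_eq]; exact hU
  · have e1 : ∫ z, b z = ∫ z in Metric.closedBall q (3 * δ), b z := by
      refine (setIntegral_eq_integral_of_forall_compl_eq_zero fun z hz => ?_).symm
      have : z ∉ Function.support b := fun h => by
        rw [b.support_eq] at h
        exact hz (Metric.ball_subset_closedBall h)
      simpa using this
    rw [e1]
    have i1 : IntegrableOn (fun z => b z) (Metric.closedBall q (3 * δ)) :=
      b.continuous.continuousOn.integrableOn_compact (isCompact_closedBall _ _)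
    have i2 : IntegrableOn (fun _ : ℂ => (1 : ℝ)) (Metric.closedBall q (3 * δ)) :=
      continuousOn_const.integrableOn_compact (isCompact_closedBall _ _)
    refine (setIntegral_mono i1 i2 fun z => b.le_one).trans ?_
    rw [setIntegral_const, smul_eq_mul, mul_one, Measure.real, Complex.volume_closedBall]
    rw [ENNReal.toReal_mul, ENNReal.toReal_pow, ENNReal.toReal_ofReal (by positivity)]
    have : (NNReal.pi : ENNReal).toReal = π := rfl
    rw [this]
    nlinarith

/-- `h |f|² → 0` -/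
theorem sup_ex (H : SY B Complex.im h w) (hBU : B ⊆ UH) {f : ℕ → ℂ → ℂ} (hf : EX B h w f)
    {K : Set ℂ} (hK : IsCompact K) (hKB : K ⊆ B) {ε : ℝ} (hε : 0 < ε) :
    ∀ᶠ n in atTop, ∀ z ∈ K, h n * ‖f n z‖ ^ 2 ≤ ε := by
  have hpi := Real.pi_pos
  have hB := H.op
  obtain ⟨L, hL, h1, h2⟩ := exists_compact_between hK hB hKB
  obtain ⟨m, C, mc, mb, ml⟩ := hf.dec.mj H isOpen_interior hL interior_subset h2
  obtain ⟨δ0, hδ0, hth⟩ := hK.exists_cthickening_subset_open isOpen_interior h1
  obtain ⟨Y0, hY0⟩ := hK.exists_bound_of_continuousOn (f := Complex.im)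
    Complex.continuous_im.continuousOn
  obtain ⟨y0, hy0⟩ := hK.exists_bound_of_continuousOn (f := fun z => (z.im)⁻¹)
    (Complex.continuous_im.continuousOn.inv₀ fun z hz => (hBU (hKB hz) : 0 < z.im).ne')
  set Y : ℝ := |Y0| + 1 with hY
  have Yp : 0 < Y := by positivity
  set C' : ℝ := |C| with hC'
  set D : ℝ := 16 / π * 2 * (y0 ^ 2 * ((9 * π * C' + 1) * (9 * Y ^ 2))) with hD
  have D0 : 0 ≤ D := by positivity
  set R : ℝ := min (min (1 / 8) (δ0 / (9 * Y))) (ε / (D + 1)) with hR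
  have R0 : 0 < R := by
    refine lt_min (lt_min (by norm_num) (by positivity)) (by positivity)
  have R1 : R ≤ 1 / 8 := (min_le_left _ _).trans (min_le_left _ _)
  have R2 : 9 * Y * R ≤ δ0 := by
    have : R ≤ δ0 / (9 * Y) := (min_le_left _ _).trans (min_le_right _ _)
    rw [le_div_iff₀ (by positivity)] at this
    linarith
  have R3 : D * R ≤ ε := by
    have : R ≤ ε / (D + 1) := min_le_right _ _
    rw [le_div_iff₀ (by positivity)] at this
    nlinarith
  set δ : ℝ := 3 * Y * R with hδ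
  have δ0' : 0 < δ := by positivity
  obtain ⟨t, htK, htf, htc⟩ := hK.finite_cover_balls δ0'
  have ball_in : ∀ q ∈ K, ∀ r ≤ δ0, Metric.closedBall q r ⊆ interior L := fun q hq r hr =>
    (Metric.closedBall_subset_cthickening hq r).trans ((Metric.cthickening_mono hr K).trans hth)
  have hbump : ∀ q ∈ t, ∃ φ : ℂ → ℝ, TF (interior L) φ ∧ (∀ z, 0 ≤ φ z) ∧
      (∀ z ∈ Metric.ball q (2 * δ), φ z = 1) ∧ ∫ z, φ z ≤ 9 * π * δ ^ 2 := fun q hq =>
    bump q δ0' (ball_in q (htK hq) _ (by rw [hδ]; linarith))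
  have ev1 : ∀ᶠ n in atTop, ∀ q ∈ t, ∫ z in Metric.ball q (2 * δ), ‖f n z‖ ^ 2 ≤
      (9 * π * C' + 1) * δ ^ 2 := by
    rw [eventually_all_finite htf]
    intro q hq
    obtain ⟨φ, hφ, hφ0, hφ1, hφI⟩ := hbump q hq
    have hlim := ml φ hφ
    have hlt : C * ∫ z, φ z < (9 * π * C' + 1) * δ ^ 2 := by
      have hI0 : 0 ≤ ∫ z, φ z := integral_nonneg hφ0
      have : C * ∫ z, φ z ≤ C' * (9 * π * δ ^ 2) := by
        calc C * ∫ z, φ z ≤ C' * ∫ z, φ z := by gcongr; exact le_abs_self C
          _ ≤ _ := by gcongr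
      nlinarith [pow_pos δ0' 2]
    filter_upwards [hlim.eventually (gt_mem_nhds hlt)] with n hn
    refine le_trans ?_ hn.le
    have i1 := int_mulr isOpen_interior hφ (mc n)
    have hsub : Metric.ball q (2 * δ) ⊆ interior L := by
      refine Metric.ball_subset_closedBall.trans (ball_in q (htK hq) _ ?_)
      rw [hδ]; nlinarith [mul_pos Yp R0]
    have mnn : ∀ z, 0 ≤ φ z * m n z := fun z => by
      by_cases hz : z ∈ interior L
      · exact mul_nonneg (hφ0 z) ((sq_nonneg _).trans (mb n z hz))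
      · rw [TF.zero hφ hz, zero_mul]
    calc ∫ z in Metric.ball q (2 * δ), ‖f n z‖ ^ 2
        ≤ ∫ z in Metric.ball q (2 * δ), φ z * m n z := by
          have hcl : Metric.closedBall q (2 * δ) ⊆ interior L := by
            refine (ball_in q (htK hq) _ ?_)
            rw [hδ]; nlinarith [mul_pos Yp R0]
          refine setIntegral_mono_on ?_ i1.integrableOn measurableSet_ball fun z hz => ?_
          · refine (ContinuousOn.integrableOn_compact (isCompact_closedBall q (2 * δ)) ?_).mono_set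
              Metric.ball_subset_closedBall
            exact ((((hf.dec.m H).co n).mono ((hcl.trans interior_subset).trans h2)).norm.pow 2)
          · rw [hφ1 z hz, one_mul]
            exact mb n z (hsub hz)
      _ ≤ ∫ z, φ z * m n z := setIntegral_le_integral i1 (Eventually.of_forall mnn)
  have ev2 : ∀ᶠ n in atTop, h n < 2 * R := H.hlim.eventually (gt_mem_nhds (by positivity))
  filter_upwards [ev1, ev2] with n hn1 hn2 p hp
  have hpB := hKB hp
  have pim : 0 < p.im := hBU hpB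
  have hh := H.hpos n
  have pY : p.im ≤ Y := by
    have := hY0 p hp
    rw [Real.norm_eq_abs, abs_of_pos pim] at this
    exact this.trans ((le_abs_self _).trans (by rw [hY]; linarith))
  have py : (p.im ^ 2)⁻¹ ≤ y0 ^ 2 := by
    have := hy0 p hp
    rw [Real.norm_eq_abs, abs_of_pos (inv_pos.2 pim)] at this
    rw [← inv_pow]
    exact pow_le_pow_left₀ (inv_pos.2 pim).le this 2
  set u : ℂ → ℝ := fun z => (f n z).re with hu
  have su : ContDiffOn ℝ ∞ u B := reCLM.contDiff.comp_contDiffOn ((hf.dec.m H).sm n)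
  have fu : ∀ z ∈ B, ‖f n z‖ ^ 2 = u z ^ 2 := fun z hz => by
    have h3 := hf.re n z hz
    have h4 : (f n z).im = 0 := conj_eq_iff_im.1 h3
    rw [← Complex.normSq_eq_norm_sq, normSq_apply, h4]
    simp only [hu]; ring
  have pde : ∀ z ∈ B, z.im ^ 2 * lap u z = -(1 / h n ^ 2 * u z) := fun z hz => by
    have h3 : (z.im : ℂ) ^ 2 * ((h n : ℂ) ^ 2 * lap (f n) z) = - f n z := hf.pde n z hz
    have h4 := congrArg Complex.re h3
    rw [lap_re hB ((hf.dec.m H).sm n) hz]
    have e1 : ((z.im : ℂ) ^ 2 * ((h n : ℂ) ^ 2 * lap (f n) z)) =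
        ((z.im ^ 2 * h n ^ 2 : ℝ) : ℂ) * lap (f n) z := by push_cast; ring
    rw [e1, re_ofReal_mul, neg_re] at h4
    have h5 : h n ^ 2 ≠ 0 := pow_ne_zero 2 hh.ne'
    simp only [hu]
    field_simp
    linarith
  have hsub : Metric.closedBall p (6 * p.im * R) ⊆ B := by
    refine ((ball_in p hp _ ?_).trans interior_subset).trans h2
    nlinarith [mul_pos pim R0, mul_pos Yp R0]
  have db := disc_bound hB su (lam := 1 / h n ^ 2) (by positivity) pde pim R0 R1 hsub (by
    rw [mul_one_div, div_mul_eq_mul_div, le_div_iff₀ (by positivity)]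
    nlinarith)
  have hs : √(4 * (1 / h n ^ 2)) = 2 / h n := by
    rw [show (4 : ℝ) * (1 / h n ^ 2) = (2 / h n) ^ 2 by field_simp; norm_num]
    exact Real.sqrt_sq (by positivity)
  rw [hs] at db
  rw [fu p hpB]
  have hmass : ∫ z in Metric.ball p (3 * p.im * R), u z ^ 2 ≤ (9 * π * C' + 1) * δ ^ 2 := by
    obtain ⟨q, hq, hpq⟩ : ∃ q ∈ t, p ∈ Metric.ball q δ := by
      have := htc hp
      simpa using this
    refine le_trans ?_ (hn1 q hq)
    have s1 : Metric.ball p (3 * p.im * R) ⊆ Metric.ball q (2 * δ) := by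
      refine Metric.ball_subset_ball' ?_
      have : dist p q < δ := hpq
      rw [hδ] at this ⊢
      nlinarith [mul_pos pim R0, mul_pos Yp R0]
    have hcl : Metric.closedBall q (2 * δ) ⊆ B := by
      refine ((ball_in q (htK hq) _ ?_).trans interior_subset).trans h2
      rw [hδ]; nlinarith [mul_pos Yp R0]
    have i1 : IntegrableOn (fun z => ‖f n z‖ ^ 2) (Metric.ball q (2 * δ)) :=
      (ContinuousOn.integrableOn_compact (isCompact_closedBall q (2 * δ))
        ((((hf.dec.m H).co n).mono hcl).norm.pow 2)).mono_set Metric.ball_subset_closedBall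
    have e5 : ∫ z in Metric.ball p (3 * p.im * R), u z ^ 2 =
        ∫ z in Metric.ball p (3 * p.im * R), ‖f n z‖ ^ 2 :=
      setIntegral_congr_fun measurableSet_ball fun z hz =>
        (fu z (hcl (Metric.ball_subset_closedBall (s1 hz)))).symm
    rw [e5]
    exact setIntegral_mono_set i1 (Eventually.of_forall fun z => sq_nonneg _)
      (LE.le.eventuallyLE s1)
  calc h n * u p ^ 2 ≤ h n * (16 / π * (2 / h n / R) * ((p.im ^ 2)⁻¹ *
        ∫ z in Metric.ball p (3 * p.im * R), u z ^ 2)) := by gcongr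
    _ ≤ h n * (16 / π * (2 / h n / R) * (y0 ^ 2 * ((9 * π * C' + 1) * δ ^ 2))) := by
        gcongr
    _ = D * R := by
        rw [hD, hδ]; field_simp; ring
    _ ≤ ε := R3

end

end Pool.Agent.Y265.HY
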