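import Pool.Agent.Y265.HY.SB6

/-! Sup bounds for all classes; quartic errors. -/
set_option autoImplicit false
open MeasureTheory Filter Topology Complex Set
open scoped ContDiff Real Manifold

namespace Pool.Agent.Y265.HY

open Pool.Agent.W745.RW Pool.Agent.TH294.RS
open Pool.Agent.Y265.RW (cutoff UG L1b NG SC GG GG_cmul GG_xy GG_add GG_bound tfS tfx tfy loc_d
  int_mul int_mulr)

noncomputable section

variable {B : Set ℂ} {h : ℕ → ℝ} {w : ℤ → ℕ → ℂ → ℂ}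

theorem sup_m2 (hB : IsOpen B) (hh : Tendsto h atTop (𝓝 0)) {f : ℕ → ℂ → ℂ} (hf : M2C B h f)
    {K : Set ℂ} (hK : IsCompact K) (hKB : K ⊆ B) :
    ∃ C : ℝ, 0 ≤ C ∧ ∀ᶠ n in atTop, ∀ z ∈ K, |h n| * ‖f n z‖ ≤ C := by
  obtain ⟨ζ, hζ, hζ0, -, hζ1⟩ := cutoff hB hK hKB
  set g : ℕ → ℂ → ℂ := fun n z => (starRingEnd ℂ) (f n z) with hg
  have dg : M2C B h g := hf.conj hB
  set G : ℕ → ℂ → ℂ := fun n z => f n z * g n z with hG
  have sG : ∀ n, ContDiffOn ℝ ∞ (G n) B := fun n => (hf.sm n).mul (dg.sm n)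
  have lG : LB B 1 G := LB.mul2 hf.lb dg.lb
  have e1 : ∀ v : ℂ, ∀ n, ∀ z ∈ B, hd h v G n z = hd h v f n z * g n z + f n z * hd h v g n z :=
    fun v n z hz => hd_mul2 hB hf.sm dg.sm v n hz
  have l1 : LB B 1 (hd h 1 G) :=
    ((LB.mul2 hf.d1.lb dg.lb).add (LB.mul2 hf.lb dg.d1.lb)).congr (e1 1)
  have lI : LB B 1 (hd h I G) :=
    ((LB.mul2 hf.dI.lb dg.lb).add (LB.mul2 hf.lb dg.dI.lb)).congr (e1 I)
  have e2 : ∀ n, ∀ z ∈ B, hd h 1 (hd h I G) n z =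
      (hd h 1 (hd h I f) n z * g n z + hd h I f n z * hd h 1 g n z) +
      (hd h 1 f n z * hd h I g n z + f n z * hd h 1 (hd h I g) n z) := by
    intro n z hz
    rw [hd_congr hB (e1 I) 1 n z hz,
      hd_add hB (fun n => (hf.dI.sm n).mul (dg.sm n)) (fun n => (hf.sm n).mul (dg.dI.sm n)) 1 n hz,
      hd_mul2 hB hf.dI.sm dg.sm 1 n hz, hd_mul2 hB hf.sm dg.dI.sm 1 n hz]
  have l2 : LB B 1 (hd h 1 (hd h I G)) :=
    (((LB.mul2 hf.dI.d1.lb dg.lb).add (LB.mul2 hf.dI.lb dg.d1.lb)).add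
      ((LB.mul2 hf.d1.lb dg.dI.lb).add (LB.mul2 hf.lb dg.dI.d1.lb))).congr e2
  obtain ⟨C0, hC0⟩ := GG_bound hB hζ l2.sm (l1b_of l2)
  have N1 := NG.h hB hh (tfx hζ) lI.sm (l1b_of lI)
  have N2 := NG.h hB hh (tfy hζ) l1.sm (l1b_of l1)
  have N3 := NG.h2 hB hh (tfx (tfy hζ)) sG (l1b_of lG)
  have N := (N1.add N2).add N3
  refine ⟨|C0| + 2, by positivity, ?_⟩
  filter_upwards [N.2 K hK 1 one_pos, hC0] with n hn hc z hz
  have hP : SC (fun z => (ζ z : ℂ) * G n z) := tfS hB hζ (sG n)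
  have h1 := hn z hz
  have dyG : ContDiffOn ℝ ∞ (dy (G n)) B := cfd hB (sG n) I
  have e : (fun z => (ζ z : ℂ) * hd h 1 (hd h I G) n z +
      ((h n : ℂ) * (((dx ζ z : ℝ) : ℂ) * hd h I G n z) +
      (h n : ℂ) * (((dy ζ z : ℝ) : ℂ) * hd h 1 G n z) +
      (h n : ℂ) * ((h n : ℂ) * (((dx (dy ζ) z : ℝ) : ℂ) * G n z)))) = fun z => (h n : ℂ) ^ 2 *
      dx (dy (fun z => (ζ z : ℂ) * G n z)) z := by
    funext x
    have a1 : dy (fun z => (ζ z : ℂ) * G n z) = fun z => (ζ z : ℂ) * dy (G n) z +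
        ((dy ζ z : ℝ) : ℂ) * G n z := by
      funext x; exact loc_d hB hζ (sG n) x I
    have s1 := (tfS hB hζ dyG).1.differentiable (by simp) x
    have s2 := (tfS hB (tfy hζ) (sG n)).1.differentiable (by simp) x
    have a2 : dx (fun z => (ζ z : ℂ) * dy (G n) z + ((dy ζ z : ℝ) : ℂ) * G n z) x =
        dx (fun z => (ζ z : ℂ) * dy (G n) z) x + dx (fun z => ((dy ζ z : ℝ) : ℂ) * G n z) x := by
      simp only [dx]
      rw [fderiv_fun_add s1 s2]; rfl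
    have a3 : dx (fun z => (ζ z : ℂ) * dy (G n) z) x = (ζ x : ℂ) * dx (dy (G n)) x +
        ((dx ζ x : ℝ) : ℂ) * dy (G n) x := loc_d hB hζ dyG x 1
    have a4 : dx (fun z => ((dy ζ z : ℝ) : ℂ) * G n z) x = ((dy ζ x : ℝ) : ℂ) * dx (G n) x +
        ((dx (dy ζ) x : ℝ) : ℂ) * G n x := loc_d hB (tfy hζ) (sG n) x 1
    rw [a1, a2, a3, a4]
    have b1 : (ζ x : ℂ) * hd h 1 (hd h I G) n x = (ζ x : ℂ) * ((h n : ℂ) ^ 2 * dx (dy (G n)) x) := by
      by_cases hx : x ∈ B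
      · have : hd h I G n = fun w => (h n : ℂ) * dy (G n) w := rfl
        have e2 : hd h 1 (hd h I G) n x = (h n : ℂ) * fderiv ℝ (hd h I G n) x 1 := rfl
        have e3 : dx (dy (G n)) x = fderiv ℝ (dy (G n)) x 1 := rfl
        rw [e2, this, fd_cm (fda hB dyG hx), e3]; ring
      · rw [TF.zero hζ hx]; simp
    have b2 : hd h I G n x = (h n : ℂ) * dy (G n) x := rfl
    have b3 : hd h 1 G n x = (h n : ℂ) * dx (G n) x := rfl
    rw [b1, b2, b3]; ring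
  have h3 := GG_add (tfS hB hζ (l2.sm n)) (N.1 n) z
  rw [e, GG_cmul, GG_xy hP, hζ1 z hz] at h3
  have h4 : ‖(h n : ℂ) ^ 2 * (((1 : ℝ) : ℂ) * G n z)‖ ≤ |C0| + 1 := by
    rw [h3]
    refine (norm_add_le _ _).trans ?_
    exact add_le_add ((hc z).trans (le_abs_self _)) h1
  have h2 : ‖(h n : ℂ) ^ 2 * (((1 : ℝ) : ℂ) * G n z)‖ = (|h n| * ‖f n z‖) ^ 2 := by
    simp only [hG, hg]
    rw [norm_mul, norm_mul, norm_mul, norm_pow, Complex.norm_real, Real.norm_eq_abs,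
      RCLike.norm_conj, Complex.ofReal_one, norm_one]
    ring
  rw [h2] at h4
  have h5 : 0 ≤ |h n| * ‖f n z‖ := by positivity
  nlinarith [abs_nonneg C0]

/-- `h |f|² → 0` -/
theorem sup_rp (H : SY B Complex.im h w) (hBU : B ⊆ UH) {f : ℕ → ℂ → ℂ} (hf : RP B h w f)
    {K : Set ℂ} (hK : IsCompact K) (hKB : K ⊆ B) : ∀ {ε : ℝ}, 0 < ε →
    ∀ᶠ n in atTop, ∀ z ∈ K, h n * ‖f n z‖ ^ 2 ≤ ε := by
  induction hf with
  | ex hf => exact fun hε => sup_ex H hBU hf hK hKB hε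
  | @add f g _ _ h1 h2 =>
    intro ε hε
    filter_upwards [h1 (ε := ε / 4) (by positivity), h2 (ε := ε / 4) (by positivity)] with n a b z hz
    have h3 := pow_le_pow_left₀ (norm_nonneg _) (norm_add_le (f n z) (g n z)) 2
    have h4 : (‖f n z‖ + ‖g n z‖) ^ 2 ≤ 2 * ‖f n z‖ ^ 2 + 2 * ‖g n z‖ ^ 2 := by
      nlinarith [sq_nonneg (‖f n z‖ - ‖g n z‖)]
    calc h n * ‖f n z + g n z‖ ^ 2 ≤ h n * (2 * ‖f n z‖ ^ 2 + 2 * ‖g n z‖ ^ 2) := by
          have := (H.hpos n).le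
          gcongr
          exact h3.trans h4
      _ = 2 * (h n * ‖f n z‖ ^ 2) + 2 * (h n * ‖g n z‖ ^ 2) := by ring
      _ ≤ ε := by linarith [a z hz, b z hz]
  | @smul f c hc _ h1 =>
    intro ε hε
    obtain ⟨M, hM⟩ := hK.exists_bound_of_continuousOn (hc.continuousOn.mono hKB)
    filter_upwards [h1 (ε := ε / (M ^ 2 + 1)) (by positivity)] with n a z hz
    have h3 : ‖c z‖ ^ 2 ≤ M ^ 2 := pow_le_pow_left₀ (norm_nonneg _) (hM z hz) 2
    have h4 := a z hz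
    rw [le_div_iff₀ (by positivity)] at h4
    have h5 : 0 ≤ h n * ‖f n z‖ ^ 2 := mul_nonneg (H.hpos n).le (sq_nonneg _)
    rw [norm_mul, mul_pow]
    calc h n * (‖c z‖ ^ 2 * ‖f n z‖ ^ 2) = ‖c z‖ ^ 2 * (h n * ‖f n z‖ ^ 2) := by ring
      _ ≤ M ^ 2 * (h n * ‖f n z‖ ^ 2) := by gcongr
      _ ≤ ε := by nlinarith
  | @err e he =>
    intro ε hε
    obtain ⟨C, hC0, hC⟩ := sup_m2 H.op H.hlim he hK hKB
    have hl : Tendsto (fun n => h n * C ^ 2) atTop (𝓝 0) := by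
      have := H.hlim.mul_const (C ^ 2)
      rwa [zero_mul] at this
    filter_upwards [hC, hl.eventually (gt_mem_nhds hε)] with n a b z hz
    have h3 := pow_le_pow_left₀ (by positivity) (a z hz) 2
    have hp := (H.hpos n).le
    calc h n * ‖(h n : ℂ) * e n z‖ ^ 2 = h n * (|h n| * ‖e n z‖) ^ 2 := by
          rw [norm_mul, Complex.norm_real, Real.norm_eq_abs]
      _ ≤ h n * C ^ 2 := by gcongr
      _ ≤ ε := b.le
  | @congr f g _ e h1 =>
    intro ε hε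
    filter_upwards [h1 hε] with n a z hz
    rw [e n z (hKB hz)]
    exact a z hz

/-- quartic errors vanish -/
theorem hE4 (H : SY B Complex.im h w) (hBU : B ⊆ UH) {R f g : ℕ → ℂ → ℂ} (hR : LB B 1 R)
    (hf : RP B h w f) (hg : RP B h w g) :
    WN B (fun n z => (h n : ℂ) * (R n z * (f n z * g n z))) := by
  refine ⟨fun n => continuousOn_const.mul ((hR.co n).mul ((((hf.dec.m H).co n)).mul
    ((hg.dec.m H).co n))), fun φ hφ => ?_⟩
  have hK : IsCompact (tsupport φ) := hφ.2.1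
  obtain ⟨C, hC⟩ := l1b_of hR (tsupport φ) hK hφ.2.2
  obtain ⟨M', hM'⟩ := hK.exists_bound_of_continuousOn hφ.1.continuous.continuousOn
  set M := max M' 0 with hM
  have hM0 : 0 ≤ M := le_max_right _ _
  have hb : ∀ z ∈ tsupport φ, ‖φ z‖ ≤ M := fun z hz => (hM' z hz).trans (le_max_left _ _)
  show Tendsto _ atTop (𝓝 0)
  rw [Metric.tendsto_atTop']
  intro ε hε
  have hpos : 0 < ε / (2 * (M * (|C| + 1) + 1)) := by positivity
  have := ((sup_rp H hBU hf hK hφ.2.2 hpos).and (sup_rp H hBU hg hK hφ.2.2 hpos)).and hC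
  rw [eventually_atTop] at this
  obtain ⟨N, hN⟩ := this
  refine ⟨N, fun n hn => ?_⟩
  obtain ⟨⟨h1, h1'⟩, h2⟩ := hN n hn.le
  rw [dist_zero_right]
  set η := ε / (2 * (M * (|C| + 1) + 1)) with hη
  have ip : IntegrableOn (fun z => ‖R n z‖) (tsupport φ) :=
    ContinuousOn.integrableOn_compact hK (((hR.co n).mono hφ.2.2).norm)
  have e : ∫ z, (φ z : ℂ) * ((h n : ℂ) * (R n z * (f n z * g n z))) =
      ∫ z in tsupport φ, (φ z : ℂ) * ((h n : ℂ) * (R n z * (f n z * g n z))) := by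
    refine (setIntegral_eq_integral_of_forall_compl_eq_zero (fun z hz => ?_)).symm
    rw [image_eq_zero_of_notMem_tsupport hz]; simp
  rw [e]
  have bb : ‖∫ z in tsupport φ, (φ z : ℂ) * ((h n : ℂ) * (R n z * (f n z * g n z)))‖ ≤
      ∫ z in tsupport φ, (M * η) * ‖R n z‖ := by
    refine norm_integral_le_of_norm_le (ip.const_mul _) ?_
    refine (ae_restrict_iff' hK.measurableSet).2 (Eventually.of_forall fun z hz => ?_)
    have hp := (H.hpos n).le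
    rw [norm_mul, norm_mul, norm_mul (R n z), norm_mul (f n z), Complex.norm_real,
      Complex.norm_real, Real.norm_eq_abs (h n), abs_of_nonneg hp]
    have a1 := hb z hz
    have a2 := h1 z hz
    have a3 := h1' z hz
    have a4 : h n * (‖f n z‖ * ‖g n z‖) ≤ η := by
      have : ‖f n z‖ * ‖g n z‖ ≤ (‖f n z‖ ^ 2 + ‖g n z‖ ^ 2) / 2 := by
        nlinarith [sq_nonneg (‖f n z‖ - ‖g n z‖)]
      calc h n * (‖f n z‖ * ‖g n z‖) ≤ h n * ((‖f n z‖ ^ 2 + ‖g n z‖ ^ 2) / 2) := by gcongr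
        _ ≤ η := by linarith
    calc ‖φ z‖ * (h n * (‖R n z‖ * (‖f n z‖ * ‖g n z‖))) =
          ‖φ z‖ * (h n * (‖f n z‖ * ‖g n z‖)) * ‖R n z‖ := by ring
      _ ≤ M * η * ‖R n z‖ := by gcongr
  refine bb.trans_lt ?_
  rw [integral_const_mul]
  have hC' : ∫ z in tsupport φ, ‖R n z‖ ≤ |C| + 1 := h2.trans (by linarith [le_abs_self C])
  calc M * η * ∫ z in tsupport φ, ‖R n z‖
      ≤ M * η * (|C| + 1) := by gcongr
    _ = (M * (|C| + 1)) / (M * (|C| + 1) + 1) * (ε / 2) := by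
        rw [hη]; field_simp
    _ ≤ 1 * (ε / 2) := by
        gcongr
        rw [div_le_one (by positivity)]; linarith
    _ < ε := by linarith

end

end Pool.Agent.Y265.HY
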