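import Pool.Agent.Y265.HY.SB7

/-! Fourth order relations. -/
set_option autoImplicit false
open MeasureTheory Filter Topology Complex Set
open scoped ContDiff Real Manifold

namespace Pool.Agent.Y265.HY

open Pool.Agent.W745.RW Pool.Agent.TH294.RS

noncomputable section

variable {B : Set ℂ} {h : ℕ → ℝ} {w : ℤ → ℕ → ℂ → ℂ}

lemma RP.sM (H : SY B Complex.im h w) {f : ℕ → ℂ → ℂ} (hf : RP B h w f) :
    RP B h w (TH294.RS.sM Complex.im h f) := by
  have hB := H.op
  have sf := (hf.dec.m H).sm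
  refine (((hf.conj H).sP H).conj H).congr fun n z hz => ?_
  have e1 := P_conj (h := h) hB (f := f) sf n hz
  have e2 : TH294.RS.sP Complex.im h (fun n z => (starRingEnd ℂ) (f n z)) n z =
      (starRingEnd ℂ) (TH294.RS.sM Complex.im h f n z) := e1
  rw [e2, Complex.conj_conj]

/-- the quartic null form -/
def Q4 (h : ℕ → ℝ) (f f' g g' : ℕ → ℂ → ℂ) (n : ℕ) (z : ℂ) : ℂ :=
  P h f n z * P h f' n z * (M h g n z * M h g' n z) +
      M h f n z * M h f' n z * (P h g n z * P h g' n z) -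
      2 * (f n z * f' n z) * (g n z * g' n z)

lemma Q4_s1 (f f' g g' : ℕ → ℂ → ℂ) (n : ℕ) (z : ℂ) : Q4 h f f' g g' n z = Q4 h f' f g g' n z := by
  unfold Q4; ring
lemma Q4_s2 (f f' g g' : ℕ → ℂ → ℂ) (n : ℕ) (z : ℂ) : Q4 h f f' g g' n z = Q4 h g g' f f' n z := by
  unfold Q4; ring
lemma E0_s1 (f f' g g' : ℕ → ℂ → ℂ) (z : ℂ) : E0 B h f f' g g' z = E0 B h f' f g g' z := by
  unfold E0
  rw [lm_symm (P h f) (P h f'), lm_symm (M h f) (M h f'), lm_symm f f']
lemma E0_s2 (f f' g g' : ℕ → ℂ → ℂ) (z : ℂ) : E0 B h f f' g g' z = E0 B h g g' f f' z := by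
  unfold E0
  ring

lemma WN.s1 {f f' g g' : ℕ → ℂ → ℂ} (hw : WN B (fun n z => Q4 h f f' g g' n z - E0 B h f f' g g' z)) :
    WN B (fun n z => Q4 h f' f g g' n z - E0 B h f' f g g' z) :=
  hw.congr fun n z _ => by rw [Q4_s1, E0_s1]
lemma WN.s2 {f f' g g' : ℕ → ℂ → ℂ} (hw : WN B (fun n z => Q4 h f f' g g' n z - E0 B h f f' g g' z)) :
    WN B (fun n z => Q4 h g g' f f' n z - E0 B h g g' f f' z) :=
  hw.congr fun n z _ => by rw [Q4_s2, E0_s2]

/-- multilinear extension of the null form -/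
lemma ext4 (H : SY B Complex.im h w) (hBU : B ⊆ UH) {f f' g g' : ℕ → ℂ → ℂ} (hf : RP B h w f)
    (hf' : RP B h w f') (hg : RP B h w g) (hg' : RP B h w g')
    (base : ∀ p, EX B h w p → WN B (fun n z => Q4 h p f' g g' n z - E0 B h p f' g g' z)) :
    WN B (fun n z => Q4 h f f' g g' n z - E0 B h f f' g g' z) := by
  have hB := H.op
  have pf' := hf'.dec.sP H
  have mf' := hf'.dec.sM H
  induction hf with
  | ex hf => exact base _ hf
  | @add f1 f2 r1 r2 h1 h2 =>
    refine (h1.add h2).congr fun n z hz => ?_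
    have d1 := r1.dec
    have d2 := r2.dec
    have q1 := lm_add H d1 d2 hf'.dec hz
    have q2 : lm B (P h (fun n z => f1 n z + f2 n z)) (P h f') z =
        lm B (P h f1) (P h f') z + lm B (P h f2) (P h f') z := by
      rw [lm_congr H ((d1.sP H).add (d2.sP H)) pf'
        (fun n z hz => P_add hB (d1.m H).sm (d2.m H).sm n hz) hz]
      exact lm_add H (d1.sP H) (d2.sP H) pf' hz
    have q3 : lm B (M h (fun n z => f1 n z + f2 n z)) (M h f') z =
        lm B (M h f1) (M h f') z + lm B (M h f2) (M h f') z := by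
      rw [lm_congr H ((d1.sM H).add (d2.sM H)) mf'
        (fun n z hz => M_add hB (d1.m H).sm (d2.m H).sm n hz) hz]
      exact lm_add H (d1.sM H) (d2.sM H) mf' hz
    simp only [Q4, E0]
    rw [q1, q2, q3, P_add hB (d1.m H).sm (d2.m H).sm n hz, M_add hB (d1.m H).sm (d2.m H).sm n hz]
    ring
  | @smul f1 c hc r1 h1 =>
    have d1 := r1.dec
    have m1 := d1.m H
    have e1 := (m1.smulc hB H.hlim (dd_sm hB hc)).smulc hB H.hlim (cxa H.sa)
    have e2 := (m1.smulc hB H.hlim (db_sm hB hc)).smulc hB H.hlim (cxa H.sa)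
    have E1 := hE4 H hBU (LB.mul2 e1.lb (pf'.m H).lb) (hg.sM H) (hg'.sM H)
    have E2 := hE4 H hBU (LB.mul2 e2.lb (mf'.m H).lb) (hg.sP H) (hg'.sP H)
    refine (((WNs hB h1 hc).add E1).add E2).congr fun n z hz => ?_
    have q1 := lm_smul H hc d1 hf'.dec hz
    have q2 : lm B (P h (fun n z => c z * f1 n z)) (P h f') z =
        c z * lm B (P h f1) (P h f') z := by
      rw [lm_congr H (((d1.sP H).smul hc).add (Dec.err e1)) pf'
        (fun n z hz => P_smul hB hc m1.sm n hz) hz, lm_add H ((d1.sP H).smul hc) (Dec.err e1) pf' hz,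
        lm_smul H hc (d1.sP H) pf' hz, lm_err H e1 pf' hz, add_zero]
    have q3 : lm B (M h (fun n z => c z * f1 n z)) (M h f') z =
        c z * lm B (M h f1) (M h f') z := by
      rw [lm_congr H (((d1.sM H).smul hc).add (Dec.err e2)) mf'
        (fun n z hz => M_smul hB hc m1.sm n hz) hz, lm_add H ((d1.sM H).smul hc) (Dec.err e2) mf' hz,
        lm_smul H hc (d1.sM H) mf' hz, lm_err H e2 mf' hz, add_zero]
    simp only [Q4, E0]
    rw [q1, q2, q3, P_smul hB hc m1.sm n hz, M_smul hB hc m1.sm n hz]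
    ring
  | @err e he =>
    have e1 := he.sP hB H.hlim H.sa
    have e2 := he.sM hB H.hlim H.sa
    have E1 := hE4 H hBU (LB.mul2 e1.lb (pf'.m H).lb) (hg.sM H) (hg'.sM H)
    have E2 := hE4 H hBU (LB.mul2 e2.lb (mf'.m H).lb) (hg.sP H) (hg'.sP H)
    have E3 := (hE4 H hBU (LB.mul2 he.lb (hf'.dec.m H).lb) hg hg').cmul 2
    refine ((E1.add E2).sub E3).congr fun n z hz => ?_
    have q1 := lm_err H he hf'.dec hz
    have q2 : lm B (P h (fun n z => (h n : ℂ) * e n z)) (P h f') z = 0 := by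
      rw [lm_congr H (Dec.err e1) pf' (fun n z hz => P_h hB he.sm n hz) hz, lm_err H e1 pf' hz]
    have q3 : lm B (M h (fun n z => (h n : ℂ) * e n z)) (M h f') z = 0 := by
      rw [lm_congr H (Dec.err e2) mf' (fun n z hz => M_h hB he.sm n hz) hz, lm_err H e2 mf' hz]
    simp only [Q4, E0]
    rw [q1, q2, q3, P_h hB he.sm n hz, M_h hB he.sm n hz]
    ring
  | @congr f1 f2 r1 e h1 =>
    refine h1.congr fun n z hz => ?_
    have d1 := r1.dec
    have q1 := lm_congr H d1 hf'.dec e hz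
    have q2 : lm B (P h f2) (P h f') z = lm B (P h f1) (P h f') z :=
      lm_congr H (d1.sP H) pf' (fun n z hz => P_cg hB e n hz) hz
    have q3 : lm B (M h f2) (M h f') z = lm B (M h f1) (M h f') z :=
      lm_congr H (d1.sM H) mf' (fun n z hz => M_cg hB e n hz) hz
    simp only [Q4, E0]
    rw [q1, q2, q3, P_cg hB e n hz, M_cg hB e n hz, e n z hz]

/-- the null form for combinations of exact solutions -/
theorem nq4 (H : SY B Complex.im h w) (hBU : B ⊆ UH) {f f' g g' : ℕ → ℂ → ℂ} (hf : RP B h w f)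
    (hf' : RP B h w f') (hg : RP B h w g) (hg' : RP B h w g') :
    WN B (fun n z => Q4 h f f' g g' n z - E0 B h f f' g g' z) := by
  refine ext4 H hBU hf hf' hg hg' fun p hp => ?_
  refine WN.s1 (ext4 H hBU hf' (RP.ex hp) hg hg' fun p' hp' => ?_)
  refine WN.s2 (ext4 H hBU hg hg' (RP.ex hp') (RP.ex hp) fun q hq => ?_)
  refine WN.s1 (ext4 H hBU hg' (RP.ex hq) (RP.ex hp') (RP.ex hp) fun q' hq' => ?_)
  exact nq H hBU hq' hq hp' hp

/-- the null form of the ladder -/
theorem nW (H : SY B Complex.im h w) (hBU : B ⊆ UH) (h0 : EX B h w (w 0)) (a b c d : ℤ) :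
    WN B (fun n z => w (a + 1) n z * w (b + 1) n z * w (c - 1) n z * w (d - 1) n z +
      w (a - 1) n z * w (b - 1) n z * w (c + 1) n z * w (d + 1) n z -
      2 * (w a n z * w b n z * w c n z * w d n z) -
      (CC (a + 1) (b + 1) * CC (c - 1) (d - 1) + CC (a - 1) (b - 1) * CC (c + 1) (d + 1) -
        2 * CC a b * CC c d)) := by
  have hB := H.op
  have key := nq4 H hBU (RP.W H h0 a) (RP.W H h0 b) (RP.W H h0 c) (RP.W H h0 d)
  have rP : ∀ k, RP B h w (P h (w k)) := fun k => (RP.W H h0 k).sP H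
  have rM : ∀ k, RP B h w (M h (w k)) := fun k => (RP.W H h0 k).sM H
  have up : ∀ k, ∃ e, M2C B h e ∧ ∀ n, ∀ z ∈ B, P h (w k) n z = w (k + 1) n z + (h n : ℂ) * e n z :=
    H.up
  have dn : ∀ k, ∃ e, M2C B h e ∧ ∀ n, ∀ z ∈ B, M h (w k) n z = - w (k - 1) n z +
      (h n : ℂ) * e n z := H.dn
  have half : ∀ a b c d : ℤ, WN B (fun n z => P h (w a) n z * P h (w b) n z *
      (M h (w c) n z * M h (w d) n z) -
      w (a + 1) n z * w (b + 1) n z * w (c - 1) n z * w (d - 1) n z) := by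
    intro a b c d
    obtain ⟨e1, he1, g1⟩ := up a
    obtain ⟨e2, he2, g2⟩ := up b
    obtain ⟨e3, he3, g3⟩ := dn c
    obtain ⟨e4, he4, g4⟩ := dn d
    have F1 := hE4 H hBU (LB.mul2 he1.lb (((rP b).dec.m H)).lb) (rM c) (rM d)
    have F2 := hE4 H hBU (LB.mul2 he2.lb (H.bd (a + 1)).lb) (rM c) (rM d)
    have F3 := hE4 H hBU (LB.mul2 he3.lb ((rM d).dec.m H).lb) (RP.W H h0 (a + 1)) (RP.W H h0 (b + 1))
    have F4 := hE4 H hBU (LB.mul2 he4.lb (H.bd (c - 1)).lb) (RP.W H h0 (a + 1)) (RP.W H h0 (b + 1))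
    refine (((F1.add F2).add F3).sub F4).congr fun n z hz => ?_
    have c1 := g1 n z hz
    have c2 := g2 n z hz
    have c3 := g3 n z hz
    have c4 := g4 n z hz
    linear_combination (P h (w b) n z * (M h (w c) n z * M h (w d) n z)) * c1 +
      (w (a + 1) n z * (M h (w c) n z * M h (w d) n z)) * c2 +
      (w (a + 1) n z * w (b + 1) n z * M h (w d) n z) * c3 -
      (w (a + 1) n z * w (b + 1) n z * w (c - 1) n z) * c4
  refine ((key.sub (half a b c d)).sub (half c d a b)).congr fun n z hz => ?_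
  simp only [Q4, E0]
  rw [PPW H a b hz, MMW H c d hz, MMW H a b hz, PPW H c d hz, lmW H a b hz, lmW H c d hz]
  ring

/-- translation relations -/
lemma quadP (H : SY B Complex.im h w) (hBU : B ⊆ UH) (h0 : EX B h w (w 0)) (i j k l : ℤ) :
    WN B (fun n z => DP Complex.im (h n) (fun z => w i n z * w j n z * (w k n z * w l n z)) z) ∧
    WN B (fun n z => DM Complex.im (h n) (fun z => w i n z * w j n z * (w k n z * w l n z)) z) := by
  have hB := H.op
  have hs : ∀ n, ContDiffOn ℝ ∞ (fun z => w i n z * w j n z * (w k n z * w l n z)) B := fun n =>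
    (((H.bd i).sm n).mul ((H.bd j).sm n)).mul (((H.bd k).sm n).mul ((H.bd l).sm n))
  have w0 := hE4 H hBU (LB.mul2 (H.bd i).lb (H.bd j).lb) (RP.W H h0 k) (RP.W H h0 l)
  have h1 := parts' hB (G := fun n z => w i n z * w j n z * (w k n z * w l n z)) hs w0 H.sa 1
  have h2 := (parts' hB (G := fun n z => w i n z * w j n z * (w k n z * w l n z)) hs w0 H.sa I).cmul I
  exact ⟨(h1.sub h2).congr fun n z _ => by simp only [DP, dd, dx, dy]; ring,
    (h1.add h2).congr fun n z _ => by simp only [DM, db, dx, dy]; ring⟩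

lemma tr4P (H : SY B Complex.im h w) (hBU : B ⊆ UH) (h0 : EX B h w (w 0)) (i j k l : ℤ) :
    WN B (fun n z => w (i + 1) n z * w j n z * w k n z * w l n z +
      w i n z * w (j + 1) n z * w k n z * w l n z + w i n z * w j n z * w (k + 1) n z * w l n z +
      w i n z * w j n z * w k n z * w (l + 1) n z) := by
  have hB := H.op
  obtain ⟨e1, he1, g1⟩ := H.up i
  obtain ⟨e2, he2, g2⟩ := H.up j
  obtain ⟨e3, he3, g3⟩ := H.up k
  obtain ⟨e4, he4, g4⟩ := H.up l
  have T := (quadP H hBU h0 i j k l).1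
  have E1 := hE4 H hBU (LB.mul2 he1.lb (H.bd j).lb) (RP.W H h0 k) (RP.W H h0 l)
  have E2 := hE4 H hBU (LB.mul2 (H.bd i).lb he2.lb) (RP.W H h0 k) (RP.W H h0 l)
  have E3 := hE4 H hBU (LB.mul2 he3.lb (H.bd l).lb) (RP.W H h0 i) (RP.W H h0 j)
  have E4 := hE4 H hBU (LB.mul2 (H.bd k).lb he4.lb) (RP.W H h0 i) (RP.W H h0 j)
  refine (T.sub (((E1.add E2).add E3).add E4)).congr fun n z hz => ?_
  have c1 := g1 n z hz
  have c2 := g2 n z hz
  have c3 := g3 n z hz
  have c4 := g4 n z hz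
  have d1 := da hB ((H.bd i).sm n) hz
  have d2 := da hB ((H.bd j).sm n) hz
  have d3 := da hB ((H.bd k).sm n) hz
  have d4 := da hB ((H.bd l).sm n) hz
  simp only [DP] at c1 c2 c3 c4 ⊢
  rw [dd_mul (f := fun z => w i n z * w j n z) (g := fun z => w k n z * w l n z) (d1.mul d2)
    (d3.mul d4), dd_mul d1 d2, dd_mul d3 d4]
  linear_combination (-(w j n z * w k n z * w l n z)) * c1 - (w i n z * w k n z * w l n z) * c2
    - (w i n z * w j n z * w l n z) * c3 - (w i n z * w j n z * w k n z) * c4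

lemma tr4M (H : SY B Complex.im h w) (hBU : B ⊆ UH) (h0 : EX B h w (w 0)) (i j k l : ℤ) :
    WN B (fun n z => w (i - 1) n z * w j n z * w k n z * w l n z +
      w i n z * w (j - 1) n z * w k n z * w l n z + w i n z * w j n z * w (k - 1) n z * w l n z +
      w i n z * w j n z * w k n z * w (l - 1) n z) := by
  have hB := H.op
  obtain ⟨e1, he1, g1⟩ := H.dn i
  obtain ⟨e2, he2, g2⟩ := H.dn j
  obtain ⟨e3, he3, g3⟩ := H.dn k
  obtain ⟨e4, he4, g4⟩ := H.dn l
  have T := (quadP H hBU h0 i j k l).2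
  have E1 := hE4 H hBU (LB.mul2 he1.lb (H.bd j).lb) (RP.W H h0 k) (RP.W H h0 l)
  have E2 := hE4 H hBU (LB.mul2 (H.bd i).lb he2.lb) (RP.W H h0 k) (RP.W H h0 l)
  have E3 := hE4 H hBU (LB.mul2 he3.lb (H.bd l).lb) (RP.W H h0 i) (RP.W H h0 j)
  have E4 := hE4 H hBU (LB.mul2 (H.bd k).lb he4.lb) (RP.W H h0 i) (RP.W H h0 j)
  refine ((((E1.add E2).add E3).add E4).sub T).congr fun n z hz => ?_
  have c1 := g1 n z hz
  have c2 := g2 n z hz
  have c3 := g3 n z hz
  have c4 := g4 n z hz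
  have d1 := da hB ((H.bd i).sm n) hz
  have d2 := da hB ((H.bd j).sm n) hz
  have d3 := da hB ((H.bd k).sm n) hz
  have d4 := da hB ((H.bd l).sm n) hz
  simp only [DM] at c1 c2 c3 c4 ⊢
  rw [db_mul (f := fun z => w i n z * w j n z) (g := fun z => w k n z * w l n z) (d1.mul d2)
    (d3.mul d4), db_mul d1 d2, db_mul d3 d4]
  linear_combination ((w j n z * w k n z * w l n z)) * c1 + (w i n z * w k n z * w l n z) * c2
    + (w i n z * w j n z * w l n z) * c3 + (w i n z * w j n z * w k n z) * c4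

end

end Pool.Agent.Y265.HY
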