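import Pool.Agent.Y265.HY.SB8

/-! All fourth order moments on hyperbolic surfaces, without any `L⁴` bound. -/
set_option autoImplicit false
open MeasureTheory Filter Topology Complex Set
open scoped ContDiff Real Manifold

namespace Pool.Agent.Y265.HY

open Pool.Agent.W745.RW Pool.Agent.TH294.RS

noncomputable section

lemma diagRed {F : ℤ → ℤ → ℂ} (hs : ∀ a b, F a b = F b a)
    (hr : ∀ a b, F (a + 1) b + F a (b + 1) = 0) (h0 : ∀ a, F a a = 0) : ∀ a b, F a b = 0 := by
  have key : ∀ n : ℕ, ∀ a : ℤ, F a (a + n) = 0 := by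
    intro n
    induction n using Nat.strong_induction_on with
    | _ n ih =>
      intro a
      match n, ih with
      | 0, _ => simpa using h0 a
      | 1, _ =>
        have h1 := hr a a
        have h2 := hs (a + 1) a
        rw [h2] at h1
        have : F a (a + 1) = 0 := by linear_combination (1 / 2) * h1
        simpa using this
      | (m + 2), ih =>
        have h1 := hr a (a + 1 + m)
        have h2 := ih m (by omega) (a + 1)
        rw [h2, zero_add] at h1
        have e : a + ((m + 2 : ℕ) : ℤ) = a + 1 + m + 1 := by push_cast; ring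
        rw [e]; exact h1
  intro a b
  rcases le_total a b with h | h
  · obtain ⟨n, hn⟩ := Int.eq_ofNat_of_zero_le (sub_nonneg.2 h)
    have : b = a + n := by omega
    rw [this]; exact key n a
  · obtain ⟨n, hn⟩ := Int.eq_ofNat_of_zero_le (sub_nonneg.2 h)
    have : a = b + n := by omega
    rw [hs, this]; exact key n b

/-- the null form relation together with the translation relations -/
theorem scalN (d : ℤ → ℤ → ℤ → ℤ → ℂ)
    (s1 : ∀ a b c e, d a b c e = d b a c e) (s2 : ∀ a b c e, d a b c e = d a c b e)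
    (s3 : ∀ a b c e, d a b c e = d a b e c)
    (R1 : ∀ a b c e, d (a+1) b c e + d a (b+1) c e + d a b (c+1) e + d a b c (e+1) = 0)
    (R2 : ∀ a b c e, d (a-1) b c e + d a (b-1) c e + d a b (c-1) e + d a b c (e-1) = 0)
    (N : ∀ a b c e, d (a+1) (b+1) (c-1) (e-1) + d (a-1) (b-1) (c+1) (e+1) - 2 * d a b c e = 0) :
    ∀ a b c e, d (a+1) (b+1) c e = d a b (c+1) (e+1) := by
  have sw : ∀ a b c e, d a b c e = d c e a b := by
    intro a b c e
    rw [s2 a b c e, s1 a c b e, s3 c a b e, s2 c a e b]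
  set F : ℤ → ℤ → ℤ → ℤ → ℂ := fun a b c e => d (a+1) (b+1) c e - d a b (c+1) (e+1) with hF
  have F1 : ∀ a b c e, F a b c e = F b a c e := fun a b c e => by
    simp only [hF]; rw [s1 (a+1) (b+1), s1 a b]
  have F2 : ∀ a b c e, F c e a b = - F a b c e := fun a b c e => by
    simp only [hF]; rw [sw (c+1) (e+1) a b, sw c e (a+1) (b+1)]; ring
  have F3 : ∀ a b c e, F (a+1) b c e + F a (b+1) c e = 0 := fun a b c e => by
    have h1 := R1 (a+1) (b+1) c e
    have h2 := R2 (a+1) (b+1) (c+1) (e+1)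
    simp only [add_sub_cancel_right] at h2
    simp only [hF]
    linear_combination h1 - h2
  have F4 : ∀ a b c e, F a b (c+1) e + F a b c (e+1) = 0 := fun a b c e => by
    have := F3 c e a b
    rw [F2 a b (c+1) e, F2 a b c (e+1)] at this
    linear_combination -this
  have F5 : ∀ a b c e, F a b c e = F a b e c := fun a b c e => by
    have h1 := F1 c e a b
    rw [F2 a b c e, F2 a b e c] at h1
    linear_combination -h1
  have F6 : ∀ a b c e, F (a+1) (b+1) c e = F a b (c+1) (e+1) := fun a b c e => by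
    have h1 := N (a+1) (b+1) (c+1) (e+1)
    simp only [add_sub_cancel_right] at h1
    simp only [hF]
    linear_combination h1
  have D0 : ∀ p q, F p p q q = 0 := by
    have G : ∀ n : ℕ, ∀ x y : ℤ, F (x + n) (x + n) y y = F x x (y + n) (y + n) := by
      intro n
      induction n with
      | zero => intro x y; simp
      | succ m ih =>
        intro x y
        have h1 := ih (x + 1) y
        have e1 : x + ((m + 1 : ℕ) : ℤ) = x + 1 + m := by push_cast; ring
        have e2 : y + ((m + 1 : ℕ) : ℤ) = y + m + 1 := by push_cast; ring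
        rw [e1, e2, h1]
        exact F6 x x (y + m) (y + m)
    intro p q
    have Gs : F p p q q = F q q p p := by
      rcases le_total q p with h | h
      · obtain ⟨n, hn⟩ := Int.eq_ofNat_of_zero_le (sub_nonneg.2 h)
        have : p = q + n := by omega
        rw [this]; exact G n q q
      · obtain ⟨n, hn⟩ := Int.eq_ofNat_of_zero_le (sub_nonneg.2 h)
        have : q = p + n := by omega
        rw [this]; exact (G n p p).symm
    have h2 := F2 p p q q
    rw [h2] at Gs
    linear_combination (1 / 2) * Gs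
  have F0 : ∀ a b c e, F a b c e = 0 := fun a b c e =>
    diagRed (F := fun a b => F a b c e) (fun a b => F1 a b c e) (fun a b => F3 a b c e)
      (fun a => diagRed (F := fun c e => F a a c e) (fun c e => F5 a a c e)
        (fun c e => F4 a a c e) (fun c => D0 a c) c e) a b
  intro a b c e
  exact sub_eq_zero.1 (F0 a b c e)

/-- sequences version -/
theorem seqN (D : ℤ → ℤ → ℤ → ℤ → ℕ → ℂ)
    (s1 : ∀ a b c e, D a b c e = D b a c e) (s2 : ∀ a b c e, D a b c e = D a c b e)
    (s3 : ∀ a b c e, D a b c e = D a b e c)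
    (R1 : ∀ a b c e, Null (fun n => D (a+1) b c e n + D a (b+1) c e n + D a b (c+1) e n +
      D a b c (e+1) n))
    (R2 : ∀ a b c e, Null (fun n => D (a-1) b c e n + D a (b-1) c e n + D a b (c-1) e n +
      D a b c (e-1) n))
    (N : ∀ a b c e, Null (fun n => D (a+1) (b+1) (c-1) (e-1) n + D (a-1) (b-1) (c+1) (e+1) n -
      2 * D a b c e n)) (a b c e : ℤ) :
    Null (fun n => D (a+1) (b+1) c e n - D a b (c+1) (e+1) n) := by
  have hmem : D (a+1) (b+1) c e - D a b (c+1) (e+1) ∈ nullSub := by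
    rw [← Submodule.Quotient.mk_eq_zero nullSub, ← Module.forall_dual_apply_eq_zero_iff ℂ]
    intro φ
    have hφ : ∀ s : ℕ → ℂ, Null s → φ (Submodule.Quotient.mk (p := nullSub) s) = 0 := by
      intro s hs
      rw [(Submodule.Quotient.mk_eq_zero nullSub).2 (show s ∈ nullSub from hs), map_zero]
    have h := scalN (fun a b c d => φ (Submodule.Quotient.mk (p := nullSub) (D a b c d)))
      (fun a b c d => by simp only [s1 a b c d]) (fun a b c d => by simp only [s2 a b c d])
      (fun a b c d => by simp only [s3 a b c d])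
      (fun a b c d => by
        rw [← map_add, ← map_add, ← map_add, ← Submodule.Quotient.mk_add,
          ← Submodule.Quotient.mk_add, ← Submodule.Quotient.mk_add]
        exact hφ _ (R1 a b c d))
      (fun a b c d => by
        rw [← map_add, ← map_add, ← map_add, ← Submodule.Quotient.mk_add,
          ← Submodule.Quotient.mk_add, ← Submodule.Quotient.mk_add]
        exact hφ _ (R2 a b c d))
      (fun a b c d => by
        have e : (2 : ℂ) * φ (Submodule.Quotient.mk (p := nullSub) (D a b c d)) =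
            φ (Submodule.Quotient.mk (p := nullSub) ((2 : ℂ) • D a b c d)) := by
          rw [Submodule.Quotient.mk_smul, map_smul, smul_eq_mul]
        simp only [e, ← map_add, ← map_sub, ← Submodule.Quotient.mk_add,
          ← Submodule.Quotient.mk_sub]
        exact hφ _ (N a b c d)) a b c e
    rw [Submodule.Quotient.mk_sub, map_sub]
    exact sub_eq_zero.2 h
  exact hmem

variable {B : Set ℂ} {h : ℕ → ℝ} {w : ℤ → ℕ → ℂ → ℂ}

lemma GG_N (a b c e : ℤ) : GG (a+1) (b+1) (c-1) (e-1) + GG (a-1) (b-1) (c+1) (e+1) -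
    2 * GG a b c e = CC (a + 1) (b + 1) * CC (c - 1) (e - 1) +
      CC (a - 1) (b - 1) * CC (c + 1) (e + 1) - 2 * CC a b * CC c e := by
  have k1 : ∀ x y : ℤ, CC (x + 1) (y - 1) = - CC x y := fun x y => by
    have := CC_st x (y - 1)
    rw [sub_add_cancel] at this
    linear_combination this
  have k2 : ∀ x y : ℤ, CC (x - 1) (y + 1) = - CC x y := fun x y => by
    have := CC_st (x - 1) y
    rw [sub_add_cancel] at this
    linear_combination this
  unfold GG
  rw [k1 a c, k1 b e, k1 a e, k1 b c, k2 a c, k2 b e, k2 a e, k2 b c]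
  ring

/-- the relations -/
structure DD (D : ℤ → ℤ → ℤ → ℤ → ℕ → ℂ) : Prop where
  s1 : ∀ a b c e, D a b c e = D b a c e
  s2 : ∀ a b c e, D a b c e = D a c b e
  s3 : ∀ a b c e, D a b c e = D a b e c
  R1 : ∀ a b c e, Null (fun n => D (a+1) b c e n + D a (b+1) c e n + D a b (c+1) e n +
      D a b c (e+1) n)
  R2 : ∀ a b c e, Null (fun n => D (a-1) b c e n + D a (b-1) c e n + D a b (c-1) e n +
      D a b c (e-1) n)
  N : ∀ a b c e, Null (fun n => D (a+1) (b+1) (c-1) (e-1) n + D (a-1) (b-1) (c+1) (e+1) n -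
      2 * D a b c e n)

/-- deviation of the fourth moments from the Gaussian ones -/
def D4 (w : ℤ → ℕ → ℂ → ℂ) (φ : ℂ → ℝ) (i j k l : ℤ) (n : ℕ) : ℂ :=
  (∫ z, (φ z : ℂ) * F4 w i j k l n z) - Pool.Agent.W745.RW.GG i j k l * ((∫ z, φ z : ℝ) : ℂ)

theorem dd4 (H : SY B Complex.im h w) (hBU : B ⊆ UH) (h0 : EX B h w (w 0)) {φ : ℂ → ℝ}
    (hφ : TF B φ) : DD (D4 w φ) := by
  set J : ℂ := ((∫ z, φ z : ℝ) : ℂ) with hJ
  have hc : ∀ i j k l n, ContinuousOn (F4 w i j k l n) B := fun i j k l n =>
    ((((H.bd i).co n).mul ((H.bd j).co n)).mul ((H.bd k).co n)).mul ((H.bd l).co n)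
  have I4 : ∀ i j k l n, Integrable (fun z => (φ z : ℂ) * F4 w i j k l n z) :=
    fun i j k l n => TF.cint hφ (hc i j k l n)
  have IJ : Integrable (fun z => (φ z : ℂ)) :=
    (hφ.1.continuous.integrable_of_hasCompactSupport hφ.2.1).ofReal
  have hJ' : ∀ c : ℂ, ∫ z, (φ z : ℂ) * c = c * J := by
    intro c
    rw [integral_mul_const, hJ, integral_complex_ofReal, mul_comm]
  set D : ℤ → ℤ → ℤ → ℤ → ℕ → ℂ := D4 w φ with hD0
  have hD : D = fun i j k l n => (∫ z, (φ z : ℂ) * F4 w i j k l n z) -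
    Pool.Agent.W745.RW.GG i j k l * J := rfl
  have s1 : ∀ i j k l, D i j k l = D j i k l := fun i j k l => by
      ext n
      simp only [hD]
      rw [GG12]
      congr 2; funext z; simp only [F4]; ring
  have s2 : ∀ i j k l, D i j k l = D i k j l := fun i j k l => by
      ext n
      simp only [hD]
      rw [GG23]
      congr 2; funext z; simp only [F4]; ring
  have s3 : ∀ i j k l, D i j k l = D i j l k := fun i j k l => by
      ext n
      simp only [hD]
      rw [GG34]
      congr 2; funext z; simp only [F4]; ring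
  have R1 : ∀ i j k l, Null (fun n => D (i+1) j k l n + D i (j+1) k l n + D i j (k+1) l n +
      D i j k (l+1) n) := fun i j k l => by
      have h1 := (tr4P H hBU h0 i j k l).nul φ hφ
      have h2 := GG_T i j k l
      refine h1.congr (fun n => ?_)
      have h3 : ∫ z, (φ z : ℂ) * (w (i + 1) n z * w j n z * w k n z * w l n z +
          w i n z * w (j + 1) n z * w k n z * w l n z +
          w i n z * w j n z * w (k + 1) n z * w l n z +
          w i n z * w j n z * w k n z * w (l + 1) n z) =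
          (∫ z, (φ z : ℂ) * F4 w (i + 1) j k l n z) + (∫ z, (φ z : ℂ) * F4 w i (j + 1) k l n z) +
          (∫ z, (φ z : ℂ) * F4 w i j (k + 1) l n z) + ∫ z, (φ z : ℂ) * F4 w i j k (l + 1) n z := by
        rw [Pool.Agent.W450.RW.T.add4 (I4 _ _ _ _ _) (I4 _ _ _ _ _) (I4 _ _ _ _ _)
          (I4 _ _ _ _ _)]
        congr 1; funext z; simp only [F4]; ring
      rw [h3]
      simp only [hD]
      linear_combination J * h2
  have R2 : ∀ i j k l, Null (fun n => D (i-1) j k l n + D i (j-1) k l n + D i j (k-1) l n +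
      D i j k (l-1) n) := fun i j k l => by
      have h1 := (tr4M H hBU h0 i j k l).nul φ hφ
      have h2 := GG_T' i j k l
      refine h1.congr (fun n => ?_)
      have h3 : ∫ z, (φ z : ℂ) * (w (i - 1) n z * w j n z * w k n z * w l n z +
          w i n z * w (j - 1) n z * w k n z * w l n z +
          w i n z * w j n z * w (k - 1) n z * w l n z +
          w i n z * w j n z * w k n z * w (l - 1) n z) =
          (∫ z, (φ z : ℂ) * F4 w (i - 1) j k l n z) + (∫ z, (φ z : ℂ) * F4 w i (j - 1) k l n z) +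
          (∫ z, (φ z : ℂ) * F4 w i j (k - 1) l n z) + ∫ z, (φ z : ℂ) * F4 w i j k (l - 1) n z := by
        rw [Pool.Agent.W450.RW.T.add4 (I4 _ _ _ _ _) (I4 _ _ _ _ _) (I4 _ _ _ _ _)
          (I4 _ _ _ _ _)]
        congr 1; funext z; simp only [F4]; ring
      rw [h3]
      simp only [hD]
      linear_combination J * h2
  have NN : ∀ i j k l, Null (fun n => D (i+1) (j+1) (k-1) (l-1) n + D (i-1) (j-1) (k+1) (l+1) n -
      2 * D i j k l n) := fun i j k l => by
      have h1 := (nW H hBU h0 i j k l).nul φ hφ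
      have h2 := GG_N i j k l
      rw [← h2] at h1
      refine h1.congr (fun n => ?_)
      have h3 : ∫ z, (φ z : ℂ) * (w (i + 1) n z * w (j + 1) n z * w (k - 1) n z * w (l - 1) n z +
          w (i - 1) n z * w (j - 1) n z * w (k + 1) n z * w (l + 1) n z -
          2 * (w i n z * w j n z * w k n z * w l n z) -
          (Pool.Agent.W745.RW.GG (i+1) (j+1) (k-1) (l-1) +
            Pool.Agent.W745.RW.GG (i-1) (j-1) (k+1) (l+1) -
            2 * Pool.Agent.W745.RW.GG i j k l)) =
          (∫ z, (φ z : ℂ) * F4 w (i + 1) (j + 1) (k - 1) (l - 1) n z) +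
          (∫ z, (φ z : ℂ) * F4 w (i - 1) (j - 1) (k + 1) (l + 1) n z) -
          2 * (∫ z, (φ z : ℂ) * F4 w i j k l n z) -
          ∫ z, (φ z : ℂ) * (Pool.Agent.W745.RW.GG (i+1) (j+1) (k-1) (l-1) +
            Pool.Agent.W745.RW.GG (i-1) (j-1) (k+1) (l+1) -
            2 * Pool.Agent.W745.RW.GG i j k l) := by
        have i1 := I4 (i + 1) (j + 1) (k - 1) (l - 1) n
        have i2 := I4 (i - 1) (j - 1) (k + 1) (l + 1) n
        have i3 := (I4 i j k l n).const_mul 2
        have i12 : Integrable (fun z => (φ z : ℂ) * F4 w (i + 1) (j + 1) (k - 1) (l - 1) n z +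
          (φ z : ℂ) * F4 w (i - 1) (j - 1) (k + 1) (l + 1) n z) := i1.add i2
        have i123 : Integrable (fun z => (φ z : ℂ) * F4 w (i + 1) (j + 1) (k - 1) (l - 1) n z +
          (φ z : ℂ) * F4 w (i - 1) (j - 1) (k + 1) (l + 1) n z -
          2 * ((φ z : ℂ) * F4 w i j k l n z)) := i12.sub i3
        rw [← integral_const_mul, ← integral_add i1 i2, ← integral_sub i12 i3,
          ← integral_sub i123 (IJ.mul_const _)]
        congr 1; funext z; simp only [F4]; ring
      rw [h3, hJ']
      simp only [hD]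
      ring
  exact ⟨s1, s2, s3, R1, R2, NN⟩

theorem DD.two {D : ℤ → ℤ → ℤ → ℤ → ℕ → ℂ} (H : DD D) (a b c e : ℤ) :
    Null (fun n => D (a+2) b c e n - D a (b+2) c e n) := by
  have U := seqN D H.s1 H.s2 H.s3 H.R1 H.R2 H.N
  exact AlB.al2' D H.s1 H.s2 H.s3 H.R1 H.R2
    (fun i j k l => by
      have u1 := U (i - 1) j k (l - 1)
      have u2 := U (i - 1) j (k - 1) l
      have u3 := U i (j - 1) k (l - 1)
      have u4 := U i (j - 1) (k - 1) l
      simp only [sub_add_cancel] at u1 u2 u3 u4
      refine Tendsto.congr (fun n => ?_) (Pool.Agent.Y265.RW.Null.add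
        (Pool.Agent.Y265.RW.Null.sub u1 u2) (Pool.Agent.Y265.RW.Null.sub u4 u3))
      ring) a b c e

section abs
variable {V : Type*} [AddCommGroup V] [Module ℂ V]

theorem absE (D : ℤ → ℤ → ℤ → ℤ → V)
    (h12 : ∀ a b c d, D a b c d = D b a c d) (h23 : ∀ a b c d, D a b c d = D a c b d)
    (h34 : ∀ a b c d, D a b c d = D a b d c)
    (hT : ∀ a b c d, D (a+1) b c d + D a (b+1) c d + D a b (c+1) d + D a b c (d+1) = 0)
    (h2 : ∀ a b c d, D (a+2) b c d = D a (b+2) c d)
    (a b c d j : ℤ) (hs : a + b + c + d = 2 * j) : D a b c d = eps a b c d • D (2 * j) 0 0 0 := by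
  have s2 := shift2 D h2
  have key := abs2 (fun a b c d => D (a + 2 * j) b c d)
    (fun a b c d => by rw [s2 j a b c d, h12 a (b + 2 * j)])
    (fun a b c d => h23 _ _ _ _) (fun a b c d => h34 _ _ _ _)
    (fun a b c d => by
      have := hT (a + 2 * j) b c d
      rw [show a + 1 + 2 * j = a + 2 * j + 1 by ring]; exact this)
    (fun a b c d => by
      have := h2 (a + 2 * j) b c d
      rw [show a + 2 + 2 * j = a + 2 * j + 2 by ring]; exact this)
    (a - 2 * j) b c d (by omega)
  simp only [sub_add_cancel, zero_add] at key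
  rw [key]
  congr 1
  have e : (a - 2 * j) % 2 = a % 2 := by omega
  unfold eps
  rw [e]

theorem absO (D : ℤ → ℤ → ℤ → ℤ → V)
    (h12 : ∀ a b c d, D a b c d = D b a c d) (h23 : ∀ a b c d, D a b c d = D a c b d)
    (h34 : ∀ a b c d, D a b c d = D a b d c)
    (hT : ∀ a b c d, D (a+1) b c d + D a (b+1) c d + D a b (c+1) d + D a b c (d+1) = 0)
    (h2 : ∀ a b c d, D (a+2) b c d = D a (b+2) c d)
    (a b c d j : ℤ) (hs : a + b + c + d = 2 * j + 1) : D a b c d = 0 := by
  have s2 := shift2 D h2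
  have m12 : ∀ j a b c d, D (a + 2*j) b c d = D a (b + 2*j) c d := fun j a b c d => s2 j a b c d
  have m23 : ∀ j a b c d, D a (b + 2*j) c d = D a b (c + 2*j) d := by
    intro j a b c d
    rw [h12 a (b+2*j), h23 (b+2*j), m12, h23, h12]
  have m34 : ∀ j a b c d, D a b (c + 2*j) d = D a b c (d + 2*j) := by
    intro j a b c d
    rw [h23 a b, h34 a (c+2*j), m23, h34, h23 a c]
  have key : D a b c d = D (a%2) (b%2) (c%2) (2 * j + 1 - (a%2+b%2+c%2)) := by
    have ea : a = a%2 + 2*(a/2) := by omega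
    have eb : b + 2*(a/2) = b%2 + 2*(b/2+a/2) := by omega
    have ec : c + 2*(b/2+a/2) = c%2 + 2*(c/2+b/2+a/2) := by omega
    conv_lhs => rw [ea]
    rw [m12, eb, m23, ec, m34]
    congr 1; omega
  -- one odd index
  have p1 : D 0 1 0 (2 * j) = D 1 0 0 (2 * j) := h12 _ _ _ _
  have p2 : D 0 0 1 (2 * j) = D 1 0 0 (2 * j) := by rw [h23, p1]
  have p3 : D 0 0 0 (2 * j + 1) = D 1 0 0 (2 * j) := by
    rw [h34 0 0 0, show 2 * j + 1 = 1 + 2 * j by ring, m34 j 0 0 1 0, zero_add, p2]
  have q0 : D 1 0 0 (2 * j) = 0 := by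
    have t := hT 0 0 0 (2 * j)
    simp only [zero_add] at t
    rw [p1, p2, p3] at t
    have h4 : (4 : ℂ) • D 1 0 0 (2 * j) = 0 := by
      rw [show (4:ℂ) = 1 + 1 + 1 + 1 by norm_num, add_smul, add_smul, add_smul, one_smul]
      exact t
    exact (smul_eq_zero.1 h4).resolve_left (by norm_num)
  -- three odd indices
  have r1 : D 1 1 0 (2 * j - 1) = D 0 1 1 (2 * j - 1) := by rw [h23, h12]
  have r2 : D 1 0 1 (2 * j - 1) = D 0 1 1 (2 * j - 1) := h12 _ _ _ _
  have r3 : D 1 1 1 (2 * j - 2) = D 0 1 1 (2 * j - 1) := by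
    have e := m34 (j - 1) 1 1 1 0
    rw [show (0 : ℤ) + 2 * (j - 1) = 2 * j - 2 by ring, show 1 + 2 * (j - 1) = 2 * j - 1 by ring] at e
    rw [← e, h34 1 1, r1]
  have q1 : D 0 1 1 (2 * j - 1) = 0 := by
    have t := hT 1 1 1 (2 * j - 3)
    norm_num at t
    have e1 : D 2 1 1 (2 * j - 3) = D 0 1 1 (2 * j - 1) := by
      have f1 := m12 1 0 1 1 (2 * j - 3)
      have f2 := m23 1 0 1 1 (2 * j - 3)
      have f3 := m34 1 0 1 1 (2 * j - 3)
      norm_num at f1 f2 f3
      rw [f1, f2, f3]; congr 1; ring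
    have e2 : D 1 2 1 (2 * j - 3) = D 0 1 1 (2 * j - 1) := by rw [h12 1 2, e1]
    have e3 : D 1 1 2 (2 * j - 3) = D 0 1 1 (2 * j - 1) := by rw [h23 1 1 2, e2]
    have e4 : D 1 1 1 (2 * j - 3 + 1) = D 0 1 1 (2 * j - 1) := by
      rw [show 2 * j - 3 + 1 = 2 * j - 2 by ring, r3]
    rw [e1, e2, e3, e4] at t
    have h4 : (4 : ℂ) • D 0 1 1 (2 * j - 1) = 0 := by
      rw [show (4:ℂ) = 1 + 1 + 1 + 1 by norm_num, add_smul, add_smul, add_smul, one_smul]
      exact t
    exact (smul_eq_zero.1 h4).resolve_left (by norm_num)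
  rw [key]
  rcases Int.emod_two_eq_zero_or_one a with ha | ha <;>
  rcases Int.emod_two_eq_zero_or_one b with hb | hb <;>
  rcases Int.emod_two_eq_zero_or_one c with hc | hc <;>
  rw [ha, hb, hc]
  · rw [show 2 * j + 1 - (0 + 0 + 0) = 2 * j + 1 by ring, p3, q0]
  · rw [show 2 * j + 1 - (0 + 0 + 1) = 2 * j by ring, p2, q0]
  · rw [show 2 * j + 1 - (0 + 1 + 0) = 2 * j by ring, p1, q0]
  · rw [show 2 * j + 1 - (0 + 1 + 1) = 2 * j - 1 by ring, q1]
  · rw [show 2 * j + 1 - (1 + 0 + 0) = 2 * j by ring, q0]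
  · rw [show 2 * j + 1 - (1 + 0 + 1) = 2 * j - 1 by ring, r2, q1]
  · rw [show 2 * j + 1 - (1 + 1 + 0) = 2 * j - 1 by ring, r1, q1]
  · rw [show 2 * j + 1 - (1 + 1 + 1) = 2 * j - 2 by ring, r3, q1]

end abs

theorem DD.even {D : ℤ → ℤ → ℤ → ℤ → ℕ → ℂ} (H : DD D) (a b c d j : ℤ)
    (hs : a + b + c + d = 2 * j) :
    Null (fun n => D a b c d n - eps a b c d * D (2 * j) 0 0 0 n) := by
  let q : (ℕ → ℂ) →ₗ[ℂ] ((ℕ → ℂ) ⧸ nullSub) := nullSub.mkQ
  have key := absE (fun a b c d => q (D a b c d)) (fun a b c d => by simp only [H.s1 a b c d])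
    (fun a b c d => by simp only [H.s2 a b c d]) (fun a b c d => by simp only [H.s3 a b c d])
    (fun a b c d => by
      show q (D (a+1) b c d) + q (D a (b+1) c d) + q (D a b (c+1) d) + q (D a b c (d+1)) = 0
      rw [← map_add, ← map_add, ← map_add]
      exact (Submodule.Quotient.mk_eq_zero nullSub).2 (H.R1 a b c d))
    (fun a b c d => by
      show q (D (a+2) b c d) = q (D a (b+2) c d)
      exact (Submodule.Quotient.eq nullSub).2 (H.two a b c d)) a b c d j hs
  have key' : q (D a b c d) = q (eps a b c d • D (2 * j) 0 0 0) := by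
    rw [map_smul]; exact key
  exact (Submodule.Quotient.eq nullSub).1 key'

theorem DD.odd {D : ℤ → ℤ → ℤ → ℤ → ℕ → ℂ} (H : DD D) (a b c d j : ℤ)
    (hs : a + b + c + d = 2 * j + 1) : Null (D a b c d) := by
  let q : (ℕ → ℂ) →ₗ[ℂ] ((ℕ → ℂ) ⧸ nullSub) := nullSub.mkQ
  have key := absO (fun a b c d => q (D a b c d)) (fun a b c d => by simp only [H.s1 a b c d])
    (fun a b c d => by simp only [H.s2 a b c d]) (fun a b c d => by simp only [H.s3 a b c d])
    (fun a b c d => by
      show q (D (a+1) b c d) + q (D a (b+1) c d) + q (D a b (c+1) d) + q (D a b c (d+1)) = 0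
      rw [← map_add, ← map_add, ← map_add]
      exact (Submodule.Quotient.mk_eq_zero nullSub).2 (H.R1 a b c d))
    (fun a b c d => by
      show q (D (a+2) b c d) = q (D a (b+2) c d)
      exact (Submodule.Quotient.eq nullSub).2 (H.two a b c d)) a b c d j hs
  exact (Submodule.Quotient.mk_eq_zero nullSub).1 key

end

end Pool.Agent.Y265.HY
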