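import Pool.Agent.Y265.HY.G
import Pool.Agent.TH294.RS.Main

/-! Quantum ergodic sequences on the hyperbolic plane. -/
set_option autoImplicit false
open MeasureTheory Filter Topology Complex
open scoped ContDiff Manifold

namespace Pool.Agent.Y265.HY

open Pool.Agent.W745.RW Pool.Agent.TH294.RS

noncomputable section

/-- the normalised frame derivative `(y/√λ) (∂x - i ∂y)` -/
def FD (lam : ℝ) (f : ℂ → ℂ) (z : ℂ) : ℂ :=
  ((z.im / √lam : ℝ) : ℂ) * (dx f z - I * dy f z)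

lemma FD_eq (lam : ℝ) : FD lam = DP Complex.im (1 / √lam) := by
  funext f z
  simp only [FD, DP, dd]
  rw [div_eq_mul_one_div, ofReal_mul]; ring

/-- the ladder -/
def FW (lam : ℝ) (u : ℂ → ℝ) : ℤ → ℂ → ℂ
  | Int.ofNat k => (FD lam)^[k] (fun w => (u w : ℂ))
  | Int.negSucc k => fun z => (-1) ^ (k + 1) *
      (starRingEnd ℂ) ((FD lam)^[k + 1] (fun w => (u w : ℂ)) z)

lemma FW_eq (lam : ℕ → ℝ) (u : ℕ → ℂ → ℝ) (k : ℤ) (n : ℕ) (z : ℂ) :
    ww Complex.im (fun n => 1 / √(lam n)) (fun n z => (u n z : ℂ)) k n z = FW (lam n) (u n) k z := by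
  cases k with
  | ofNat k =>
    show (DP Complex.im (1 / √(lam n)))^[k] (fun z => (u n z : ℂ)) z =
      (FD (lam n))^[k] (fun z => (u n z : ℂ)) z
    rw [FD_eq]
  | negSucc k =>
    show (-1) ^ (k + 1) * (starRingEnd ℂ)
        ((DP Complex.im (1 / √(lam n)))^[k + 1] (fun z => (u n z : ℂ)) z) =
      (-1) ^ (k + 1) * (starRingEnd ℂ) ((FD (lam n))^[k + 1] (fun z => (u n z : ℂ)) z)
    rw [FD_eq]

/-- local `L²` bounds from the local mass -/
lemma lb_of_mass {Ω : Set ℂ} (hΩ : IsOpen Ω) {u : ℕ → ℂ → ℝ} (hu : ∀ n, ContDiffOn ℝ ∞ (u n) Ω)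
    (hm : ∀ φ, TF Ω φ → Tendsto (fun n => ∫ z, φ z * u n z ^ 2) atTop (𝓝 (∫ z, φ z))) :
    LB Ω 2 (fun n z => (u n z : ℂ)) := by
  refine ⟨fun n => cxa (hu n), fun K hK hKΩ => ?_⟩
  obtain ⟨ζ, hζ, hζ0, -, hζ1⟩ := Pool.Agent.Y265.RW.cutoff hΩ hK hKΩ
  refine ⟨(∫ z, ζ z) + 1, ?_⟩
  filter_upwards [(hm ζ hζ).eventually (gt_mem_nhds (lt_add_one _))] with n hn
  have i1 : Integrable (fun z => ζ z * u n z ^ 2) :=
    Pool.Agent.Y265.RW.int_mulr hΩ hζ ((hu n).continuousOn.pow 2)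
  calc ∫ z in K, ‖(u n z : ℂ)‖ ^ 2 = ∫ z in K, ζ z * u n z ^ 2 := by
        refine setIntegral_congr_fun hK.measurableSet fun z hz => ?_
        simp only [Complex.norm_real, Real.norm_eq_abs]
        rw [sq_abs, hζ1 z hz, one_mul]
    _ ≤ ∫ z, ζ z * u n z ^ 2 := setIntegral_le_integral i1 (Eventually.of_forall fun z => by
        have := hζ0 z
        simp only [Pi.zero_apply]; positivity)
    _ ≤ _ := hn.le

/-- the ladder system of a quantum ergodic sequence on the hyperbolic plane -/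
theorem hyp_sys {Ω : Set ℂ} (hΩ : IsOpen Ω) (hU : ∀ z ∈ Ω, 0 < z.im) {lam : ℕ → ℝ}
    (hpos : ∀ n, 0 < lam n) (hlam : Tendsto lam atTop atTop) {u : ℕ → ℂ → ℝ}
    (hu : ∀ n, ContDiffOn ℝ ∞ (u n) Ω)
    (heq : ∀ n, ∀ z ∈ Ω, z.im ^ 2 * lap (u n) z + lam n * u n z = 0)
    (hqe : ∀ φ, TF Ω φ → ∀ k : ℕ, Tendsto (fun n => ∫ z, ((φ z / z.im ^ 2 : ℝ) : ℂ) *
      ((u n z : ℂ) * (FD (lam n))^[k] (fun w => (u n w : ℂ)) z)) atTop
      (𝓝 (if k = 0 then ((∫ z, φ z / z.im ^ 2 : ℝ) : ℂ) else 0))) :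
    SY Ω Complex.im (fun n => 1 / √(lam n)) (ww Complex.im (fun n => 1 / √(lam n))
      (fun n z => (u n z : ℂ))) ∧
    EX Ω (fun n => 1 / √(lam n)) (ww Complex.im (fun n => 1 / √(lam n))
      (fun n z => (u n z : ℂ))) (fun n z => (u n z : ℂ)) := by
  have sy : ContDiffOn ℝ ∞ (fun z : ℂ => z.im ^ 2) Ω := (imCLM.contDiff.pow 2).contDiffOn
  have e0 : ∀ (φ : ℂ → ℝ), TF Ω φ → ∀ z, φ z * z.im ^ 2 / z.im ^ 2 = φ z := by
    intro φ hφ z
    by_cases hz : z ∈ Ω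
    · have : z.im ^ 2 ≠ 0 := pow_ne_zero 2 (hU z hz).ne'
      rw [mul_div_assoc, div_self this, mul_one]
    · rw [TF.zero hφ hz]; simp
  have hq : ∀ φ, TF Ω φ → ∀ k : ℕ, Tendsto (fun n => ∫ z, (φ z : ℂ) *
      ((u n z : ℂ) * (DP Complex.im (1 / √(lam n)))^[k] (fun w => (u n w : ℂ)) z)) atTop
      (𝓝 (if k = 0 then ((∫ z, φ z : ℝ) : ℂ) else 0)) := by
    intro φ hφ k
    have h1 := hqe _ (TF.mulc hΩ hφ sy) k
    simp only [e0 φ hφ, FD_eq] at h1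
    exact h1
  have hp : ∀ n, 0 < 1 / √(lam n) := fun n => div_pos one_pos (Real.sqrt_pos.2 (hpos n))
  have hl : Tendsto (fun n => 1 / √(lam n)) atTop (𝓝 0) := by
    have : Tendsto (fun n => √(lam n)) atTop atTop := Real.tendsto_sqrt_atTop.comp hlam
    exact (this.inv_tendsto_atTop).congr (fun n => by simp [one_div])
  have ha : ContDiffOn ℝ ∞ Complex.im Ω := imCLM.contDiff.contDiffOn
  have hmass : ∀ φ, TF Ω φ → Tendsto (fun n => ∫ z, φ z * u n z ^ 2) atTop (𝓝 (∫ z, φ z)) := by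
    intro φ hφ
    have h1 := hq φ hφ 0
    rw [if_pos rfl] at h1
    refine toR (h1.congr fun n => ?_)
    rw [← integral_complex_ofReal]
    congr 1; funext z
    simp only [Function.iterate_zero, id_eq]
    push_cast; ring
  have pde : ∀ n, ∀ z ∈ Ω, ((1 / √(lam n) : ℝ) : ℂ) ^ 2 * ((z.im : ℂ) ^ 2 *
      lap (fun z => (u n z : ℂ)) z) = - (u n z : ℂ) := by
    intro n z hz
    rw [lap_re hΩ (hu n) hz]
    have h1 := heq n z hz
    have h2 : (1 / √(lam n)) ^ 2 = 1 / lam n := by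
      rw [div_pow, Real.sq_sqrt (hpos n).le, one_pow]
    have h3 : (1 / √(lam n)) ^ 2 * (z.im ^ 2 * lap (u n) z) = - u n z := by
      rw [h2]
      have h4 := (hpos n).ne'
      have h5 : z.im ^ 2 * lap (u n) z = - (lam n * u n z) := by linarith
      rw [h5]; field_simp
    have h6 := congrArg (fun x : ℝ => (x : ℂ)) h3
    push_cast at h6 ⊢
    exact h6
  have S : SY Ω Complex.im (fun n => 1 / √(lam n)) (ww Complex.im (fun n => 1 / √(lam n))
      (fun n z => (u n z : ℂ))) := by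
    refine mkSY hΩ hp hl ha hU (fun n z => conj_ofReal _) (lb_of_mass hΩ hu hmass) pde
      (fun k => ?_)
    have sm : ∀ n, ContDiffOn ℝ ∞ (fun z => (u n z : ℂ)) Ω := fun n => cxa (hu n)
    have hco : ∀ n, ContinuousOn (fun z => (u n z : ℂ) *
        (DP Complex.im (1 / √(lam n)))^[k] (fun w => (u n w : ℂ)) z) Ω := fun n =>
      (sm n).continuousOn.mul (DPk_sm hΩ ha (1 / √(lam n)) (sm n) k).continuousOn
    refine ⟨fun n => (hco n).sub continuousOn_const, fun φ hφ => ?_⟩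
    have h1 := hq φ hφ k
    have IJ : Integrable (fun z => (φ z : ℂ)) :=
      (hφ.1.continuous.integrable_of_hasCompactSupport hφ.2.1).ofReal
    have h2 := h1.sub_const (if k = 0 then ((∫ z, φ z : ℝ) : ℂ) else 0)
    rw [sub_self] at h2
    refine h2.congr fun n => ?_
    have e1 : (if k = 0 then ((∫ z, φ z : ℝ) : ℂ) else 0) =
        ∫ z, (φ z : ℂ) * (if k = 0 then 1 else 0) := by
      rw [integral_mul_const, integral_complex_ofReal]
      split_ifs <;> simp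
    rw [e1, ← integral_sub (TF.cint hφ (hco n)) (IJ.mul_const _)]
    congr 1; funext z; ring
  refine ⟨S, ?_⟩
  have d0 : Dec Ω (fun n => 1 / √(lam n)) (ww Complex.im (fun n => 1 / √(lam n))
      (fun n z => (u n z : ℂ))) (fun n z => (u n z : ℂ)) := Dec.W 0
  refine ⟨d0, fun n z _ => conj_ofReal _, fun n z hz => ?_⟩
  have := pde n z hz
  simp only [hL]
  linear_combination this

/-- **third moments on hyperbolic surfaces** -/
theorem hyp_third {Ω : Set ℂ} (hΩ : IsOpen Ω) (hU : ∀ z ∈ Ω, 0 < z.im) {lam : ℕ → ℝ}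
    (hpos : ∀ n, 0 < lam n) (hlam : Tendsto lam atTop atTop) {u : ℕ → ℂ → ℝ}
    (hu : ∀ n, ContDiffOn ℝ ∞ (u n) Ω)
    (heq : ∀ n, ∀ z ∈ Ω, z.im ^ 2 * lap (u n) z + lam n * u n z = 0)
    (hqe : ∀ φ, TF Ω φ → ∀ k : ℕ, Tendsto (fun n => ∫ z, ((φ z / z.im ^ 2 : ℝ) : ℂ) *
      ((u n z : ℂ) * (FD (lam n))^[k] (fun w => (u n w : ℂ)) z)) atTop
      (𝓝 (if k = 0 then ((∫ z, φ z / z.im ^ 2 : ℝ) : ℂ) else 0)))
    {φ : ℂ → ℝ} (hφ : TF Ω φ) (i j k : ℤ) :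
    Tendsto (fun n => ∫ z, ((φ z / z.im ^ 2 : ℝ) : ℂ) * (FW (lam n) (u n) i z *
      FW (lam n) (u n) j z * FW (lam n) (u n) k z)) atTop (𝓝 0) := by
  obtain ⟨S, E⟩ := hyp_sys hΩ hU hpos hlam hu heq hqe
  have key := thirdH S hU E i j k
  have sy : ContDiffOn ℝ ∞ (fun z : ℂ => (z.im ^ 2)⁻¹) Ω := by
    refine ContDiffOn.inv ((imCLM.contDiff.pow 2).contDiffOn) fun z hz => ?_
    exact pow_ne_zero 2 (hU z hz).ne'
  have := key.nul _ (TF.mulc hΩ hφ sy)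
  refine Tendsto.congr (fun n => ?_) this
  simp only [← FW_eq lam u]
  congr 1

end

end Pool.Agent.Y265.HY
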